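import Mathlib

namespace Pool.Agent.Results.MP_144d21_co.AtMostOneTwo

open Finset SimpleGraph Polynomial

/-- `G` has a chordless (induced) cycle of length at least 4. -/
def HasChordlessCycle {V : Type} (G : SimpleGraph V) : Prop :=
  ∃ n : ℕ, 4 ≤ n ∧ Nonempty (cycleGraph n ↪g G)

def Col {V : Type} (G : SimpleGraph V) (A : Type) : Type :=
  {c : V → A // ∀ u v, G.Adj u v → c u ≠ c v}

noncomputable instance {V : Type} [Fintype V] (G : SimpleGraph V) (A : Type) [Fintype A] :
    Fintype (Col G A) := by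
  classical
  unfold Col; infer_instance

/-- number of proper colourings -/
noncomputable def cnt {V : Type} [Fintype V] (G : SimpleGraph V) (q : ℕ) : ℕ :=
  Fintype.card (Col G (Fin q))

/-- add one new vertex with neighbourhood `S` -/
def ext {V : Type} (G : SimpleGraph V) (S : Finset V) : SimpleGraph (Option V) where
  Adj x y := match x, y with
    | some u, some v => G.Adj u v
    | none, some v => v ∈ S
    | some u, none => u ∈ S
    | none, none => False
  symm := ⟨by
    rintro (_ | u) (_ | v) h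
    · exact h
    · exact h
    · exact h
    · exact G.symm.symm _ _ h⟩
  loopless := ⟨by
    rintro (_ | u) h
    · exact h
    · exact G.loopless.irrefl _ h⟩

@[simp] theorem ext_nn {V : Type} (G : SimpleGraph V) (S : Finset V) :
    (ext G S).Adj none none ↔ False := Iff.rfl
@[simp] theorem ext_ns {V : Type} (G : SimpleGraph V) (S : Finset V) (v : V) :
    (ext G S).Adj none (some v) ↔ v ∈ S := Iff.rfl
@[simp] theorem ext_sn {V : Type} (G : SimpleGraph V) (S : Finset V) (v : V) :
    (ext G S).Adj (some v) none ↔ v ∈ S := Iff.rfl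
@[simp] theorem ext_ss {V : Type} (G : SimpleGraph V) (S : Finset V) (u v : V) :
    (ext G S).Adj (some u) (some v) ↔ G.Adj u v := Iff.rfl

/-- join `x` to all vertices of `T` -/
def st {V : Type} (G : SimpleGraph V) (x : V) (T : Finset V) : SimpleGraph V where
  Adj a b := G.Adj a b ∨ (a = x ∧ b ∈ T ∧ b ≠ x) ∨ (b = x ∧ a ∈ T ∧ a ≠ x)
  symm := ⟨by
    rintro a b (h | h | h)
    · exact Or.inl h.symm
    · exact Or.inr (Or.inr h)
    · exact Or.inr (Or.inl h)⟩
  loopless := ⟨by
    rintro a (h | ⟨h1, h2, h3⟩ | ⟨h1, h2, h3⟩)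
    · exact h.ne rfl
    · exact h3 h1
    · exact h3 h1⟩

theorem cnt_iso {V W : Type} [Fintype V] [Fintype W] (G : SimpleGraph V) (H : SimpleGraph W)
    (e : V ≃ W) (he : ∀ a b, G.Adj a b ↔ H.Adj (e a) (e b)) (q : ℕ) : cnt G q = cnt H q := by
  apply Fintype.card_congr
  exact
    { toFun := fun c => ⟨fun w => c.1 (e.symm w), fun u v h => c.2 _ _ (by
        rw [he]; simpa using h)⟩
      invFun := fun c => ⟨fun v => c.1 (e v), fun u v h => c.2 _ _ ((he u v).1 h)⟩
      left_inv := by intro c; apply Subtype.ext; funext v; simp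
      right_inv := by intro c; apply Subtype.ext; funext v; simp }

/-- splitting according to whether the new vertex and `x` get the same colour -/
theorem cnt_ext_insert {V : Type} [Fintype V] [DecidableEq V] (G : SimpleGraph V) (x : V)
    (T : Finset V) (hx : x ∉ T) (q : ℕ) :
    cnt (ext G T) q = cnt (ext G (insert x T)) q + cnt (st G x T) q := by
  classical
  have e1 : {c : Col (ext G T) (Fin q) // c.1 none = c.1 (some x)} ≃ Col (st G x T) (Fin q) :=
    { toFun := fun c => ⟨fun v => c.1.1 (some v), by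
        rintro u v (h | ⟨rfl, h2, h3⟩ | ⟨rfl, h2, h3⟩)
        · exact c.1.2 (some u) (some v) h
        · have := c.1.2 none (some v) h2
          rwa [c.2] at this
        · have := c.1.2 (some u) none h2
          rwa [c.2] at this⟩
      invFun := fun c => ⟨⟨fun o => o.elim (c.1 x) c.1, by
        rintro (_ | u) (_ | v) h
        · exact h.elim
        · exact c.2 x v (Or.inr (Or.inl ⟨rfl, h, fun h' => hx (h' ▸ h)⟩))
        · exact c.2 u x (Or.inr (Or.inr ⟨rfl, h, fun h' => hx (h' ▸ h)⟩))
        · exact c.2 u v (Or.inl h)⟩, rfl⟩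
      left_inv := by
        intro c
        apply Subtype.ext
        apply Subtype.ext
        funext o
        cases o with
        | none => exact c.2.symm
        | some v => rfl
      right_inv := by intro c; rfl }
  have e2 : {c : Col (ext G T) (Fin q) // ¬ c.1 none = c.1 (some x)} ≃
      Col (ext G (insert x T)) (Fin q) :=
    { toFun := fun c => ⟨c.1.1, by
        rintro (_ | u) (_ | v) h
        · exact h.elim
        · rcases Finset.mem_insert.1 h with rfl | h
          · exact c.2
          · exact c.1.2 none (some v) h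
        · rcases Finset.mem_insert.1 h with rfl | h
          · exact fun h' => c.2 h'.symm
          · exact c.1.2 (some u) none h
        · exact c.1.2 (some u) (some v) h⟩
      invFun := fun c => ⟨⟨c.1, by
        rintro (_ | u) (_ | v) h
        · exact h.elim
        · exact c.2 none (some v) (Finset.mem_insert_of_mem h)
        · exact c.2 (some u) none (Finset.mem_insert_of_mem h)
        · exact c.2 (some u) (some v) h⟩, c.2 none (some x) (Finset.mem_insert_self x T)⟩
      left_inv := by intro c; rfl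
      right_inv := by intro c; rfl }
  have h := Fintype.card_congr (Equiv.sumCompl (fun c : Col (ext G T) (Fin q) =>
    c.1 none = c.1 (some x)))
  rw [Fintype.card_sum, Fintype.card_congr e1, Fintype.card_congr e2] at h
  unfold cnt
  omega

theorem cnt_ext_empty {V : Type} [Fintype V] (G : SimpleGraph V) (q : ℕ) :
    cnt (ext G ∅) q = q * cnt G q := by
  classical
  have e : Col (ext G ∅) (Fin q) ≃ Fin q × Col G (Fin q) :=
    { toFun := fun c => ⟨c.1 none, ⟨fun v => c.1 (some v), fun u v h => c.2 (some u) (some v) h⟩⟩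
      invFun := fun p => ⟨fun o => o.elim p.1 p.2.1, by
        rintro (_ | u) (_ | v) h
        · exact h.elim
        · exact absurd h (Finset.notMem_empty _)
        · exact absurd h (Finset.notMem_empty _)
        · exact p.2.2 u v h⟩
      left_inv := by
        intro c
        apply Subtype.ext
        funext o
        cases o <;> rfl
      right_inv := by intro p; rfl }
  unfold cnt
  rw [Fintype.card_congr e, Fintype.card_prod, Fintype.card_fin]

/-- `p` is a chromatic polynomial with `n` vertices and `m` edges -/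
def IsP {V : Type} [Fintype V] (G : SimpleGraph V) (p : ℤ[X]) : Prop :=
  ∀ q : ℕ, p.eval (q : ℤ) = cnt G q

noncomputable def deg {V : Type} [Fintype V] (G : SimpleGraph V) (v : V) : ℕ := by
  classical
  exact (univ.filter (G.Adj v)).card

noncomputable def e2 {V : Type} [Fintype V] (G : SimpleGraph V) : ℕ := ∑ v, deg G v


theorem e2_ext {V : Type} [Fintype V] (G : SimpleGraph V) (S : Finset V) :
    e2 (ext G S) = e2 G + 2 * S.card := by
  classical
  unfold e2
  rw [Fintype.sum_option]
  have h0 : deg (ext G S) none = S.card := by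
    unfold deg
    rw [← Finset.card_map (Function.Embedding.some (α := V))]
    congr 1
    ext o
    cases o with
    | none => simp
    | some v => simp
  have h1 : ∀ v, deg (ext G S) (some v) = deg G v + if v ∈ S then 1 else 0 := by
    intro v
    unfold deg
    have : (univ.filter ((ext G S).Adj (some v))) =
        ((univ.filter (G.Adj v)).map Function.Embedding.some) ∪
          (if v ∈ S then {none} else ∅) := by
      ext o
      cases o with
      | none => by_cases h : v ∈ S <;> simp [h]
      | some w => by_cases h : v ∈ S <;> simp [h]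
    rw [this, Finset.card_union_of_disjoint, Finset.card_map]
    · by_cases h : v ∈ S <;> simp [h]
    · by_cases h : v ∈ S <;> simp [h]
  rw [h0, Finset.sum_congr rfl (fun v _ => h1 v), Finset.sum_add_distrib]
  simp
  ring

theorem deg_iso {V W : Type} [Fintype V] [Fintype W] (G : SimpleGraph V) (H : SimpleGraph W)
    (e : V ≃ W) (he : ∀ a b, G.Adj a b ↔ H.Adj (e a) (e b)) (a : V) : deg G a = deg H (e a) := by
  classical
  unfold deg
  rw [← Finset.card_map e.toEmbedding]
  congr 1
  ext w
  simp only [Finset.mem_map, Finset.mem_filter, Finset.mem_univ, true_and, Equiv.coe_toEmbedding]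
  constructor
  · rintro ⟨b, hb, rfl⟩
    exact (he a b).1 hb
  · intro h
    exact ⟨e.symm w, by rw [he]; simpa using h, by simp⟩

theorem e2_iso {V W : Type} [Fintype V] [Fintype W] (G : SimpleGraph V) (H : SimpleGraph W)
    (e : V ≃ W) (he : ∀ a b, G.Adj a b ↔ H.Adj (e a) (e b)) : e2 G = e2 H := by
  unfold e2
  rw [Finset.sum_congr rfl (fun a _ => deg_iso G H e he a)]
  exact Equiv.sum_comp e (fun w => deg H w)

theorem exists_P (n : ℕ) : ∀ (V : Type) [Fintype V] (G : SimpleGraph V), Fintype.card V = n →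
    ∃ p : ℤ[X], IsP G p ∧ p.Monic ∧ p.natDegree = n ∧ (1 ≤ n → 2 * p.coeff (n - 1) = - (e2 G : ℤ)) := by
  induction n with
  | zero =>
    intro V _ G hV
    have hE : IsEmpty V := Fintype.card_eq_zero_iff.mp hV
    refine ⟨1, fun q => ?_, monic_one, natDegree_one, fun h => absurd h (by omega)⟩
    have : cnt G q = 1 := by
      unfold cnt
      rw [Fintype.card_eq_one_iff]
      exact ⟨⟨fun v => hE.elim v, fun v => hE.elim v⟩, fun c => Subtype.ext (funext fun v => hE.elim v)⟩
    rw [this]
    simp
  | succ n ih =>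
    intro V _ G hV
    classical
    have : Nonempty V := Fintype.card_pos_iff.mp (by omega)
    obtain ⟨v⟩ := this
    have hcard : Fintype.card {x : V // x ≠ v} = n := by
      have := Fintype.card_congr (Equiv.optionSubtypeNe v)
      rw [Fintype.card_option] at this
      omega
    have key : ∀ S : Finset {x : V // x ≠ v}, ∀ G' : SimpleGraph {x : V // x ≠ v},
        ∃ p : ℤ[X], IsP (ext G' S) p ∧ p.Monic ∧ p.natDegree = n + 1 ∧
          2 * p.coeff n = - (e2 (ext G' S) : ℤ) := by
      intro S G'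
      induction S using Finset.induction_on with
      | empty =>
        obtain ⟨p, h1, h2, h3, h4⟩ := ih _ G' hcard
        refine ⟨X * p, fun q => ?_, monic_X.mul h2, ?_, ?_⟩
        · rw [eval_mul, eval_X, h1 q, cnt_ext_empty]
          push_cast
          ring
        · rw [monic_X.natDegree_mul h2, natDegree_X, h3]
          omega
        · rw [e2_ext]
          rcases n with _ | n
          · have : e2 G' = 0 := by
              have hE : IsEmpty {x : V // x ≠ v} := Fintype.card_eq_zero_iff.mp hcard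
              unfold e2
              simp
            simp [this]
          · rw [coeff_X_mul]
            have := h4 (by omega)
            simpa using this
      | insert x T hx ihT =>
        obtain ⟨p, h1, h2, h3, h4⟩ := ihT
        obtain ⟨p', h1', h2', h3', -⟩ := ih _ (st G' x T) hcard
        have hdeg : p'.degree < p.degree := by
          rw [degree_eq_natDegree h2.ne_zero, degree_eq_natDegree h2'.ne_zero, h3, h3']
          exact_mod_cast Nat.lt_succ_self n
        refine ⟨p - p', fun q => ?_, h2.sub_of_left hdeg, ?_, ?_⟩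
        · rw [eval_sub, h1 q, h1' q, cnt_ext_insert G' x T hx q]
          push_cast
          ring
        · rw [natDegree_sub_eq_left_of_natDegree_lt (by omega), h3]
        · have hc : p'.coeff n = 1 := by
            have := h2'
            rw [Monic, leadingCoeff, h3'] at this
            exact this
          rw [coeff_sub, hc, mul_sub, h4, e2_ext, e2_ext, Finset.card_insert_of_notMem hx]
          push_cast
          ring
    obtain ⟨p, h1, h2, h3, h4⟩ := key (univ.filter (fun x => G.Adj v x.1)) (G.comap Subtype.val)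
    have he : ∀ a b : Option {x : V // x ≠ v},
        (ext (G.comap Subtype.val) (univ.filter (fun x : {x : V // x ≠ v} => G.Adj v x.1))).Adj a b ↔
        G.Adj (Equiv.optionSubtypeNe v a) (Equiv.optionSubtypeNe v b) := by
      rintro (_ | a) (_ | b)
      · simp
      · simp
      · simp [G.adj_comm]
      · simp
    refine ⟨p, fun q => ?_, h2, h3, fun _ => ?_⟩
    · rw [h1 q, cnt_iso _ _ _ he]
    · rw [Nat.add_sub_cancel, h4, e2_iso _ _ _ he]

noncomputable def poly {V : Type} [Fintype V] (G : SimpleGraph V) : ℤ[X] :=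
  Classical.choose (exists_P _ V G rfl)

theorem poly_spec {V : Type} [Fintype V] (G : SimpleGraph V) : IsP G (poly G) ∧ (poly G).Monic ∧
    (poly G).natDegree = Fintype.card V ∧
    (1 ≤ Fintype.card V → 2 * (poly G).coeff (Fintype.card V - 1) = - (e2 G : ℤ)) :=
  Classical.choose_spec (exists_P _ V G rfl)

theorem poly_eval {V : Type} [Fintype V] (G : SimpleGraph V) (q : ℕ) :
    (poly G).eval (q : ℤ) = cnt G q := (poly_spec G).1 q

theorem poly_ext_nat {p p' : ℤ[X]} (h : ∀ q : ℕ, p.eval (q : ℤ) = p'.eval (q : ℤ)) : p = p' := by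
  apply Polynomial.eq_of_infinite_eval_eq
  apply Set.infinite_of_injective_forall_mem (f := fun n : ℕ => (n : ℤ)) Nat.cast_injective
  intro q
  exact h q


/-! ### working on a fixed vertex set -/

section
variable {V : Type} [Fintype V] [DecidableEq V]

/-- isolate `v` -/
def del (G : SimpleGraph V) (v : V) : SimpleGraph V where
  Adj a b := G.Adj a b ∧ a ≠ v ∧ b ≠ v
  symm := ⟨by
    rintro a b ⟨h1, h2, h3⟩
    exact ⟨h1.symm, h3, h2⟩⟩
  loopless := ⟨by
    rintro a ⟨h, -⟩
    exact h.ne rfl⟩

noncomputable def nb (G : SimpleGraph V) (v : V) : Finset V := by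
  classical
  exact univ.filter (G.Adj v)

omit [DecidableEq V] in
theorem mem_nb (G : SimpleGraph V) (v w : V) : w ∈ nb G v ↔ G.Adj v w := by
  classical
  simp [nb]

omit [DecidableEq V] in
theorem deg_eq (G : SimpleGraph V) (v : V) : deg G v = (nb G v).card := rfl

theorem st_adj (G : SimpleGraph V) (x : V) (T : Finset V) (a b : V) :
    (st G x T).Adj a b ↔ G.Adj a b ∨ (a = x ∧ b ∈ T ∧ b ≠ x) ∨ (b = x ∧ a ∈ T ∧ a ≠ x) := Iff.rfl

theorem del_adj (G : SimpleGraph V) (v : V) (a b : V) :
    (del G v).Adj a b ↔ G.Adj a b ∧ a ≠ v ∧ b ≠ v := Iff.rfl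

theorem cnt_rec (H : SimpleGraph V) (v x : V) (T : Finset V) (hv : ∀ w, ¬ H.Adj v w)
    (hxv : x ≠ v) (hx : x ∉ T) (hvT : v ∉ T) (q : ℕ) :
    q * cnt (st H v T) q = q * cnt (st H v (insert x T)) q + cnt (st H x T) q := by
  classical
  have hv' : ∀ a b, H.Adj a b → a ≠ v ∧ b ≠ v := by
    intro a b h
    exact ⟨fun h' => hv b (h' ▸ h), fun h' => hv a (h' ▸ h.symm)⟩
  have e1 : Fin q × {c : Col (st H v T) (Fin q) // c.1 v = c.1 x} ≃ Col (st H x T) (Fin q) :=
    { toFun := fun p => ⟨Function.update p.2.1.1 v p.1, by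
        rintro a b (h | ⟨rfl, h2, h3⟩ | ⟨rfl, h2, h3⟩)
        · rw [Function.update_of_ne (hv' a b h).1, Function.update_of_ne (hv' a b h).2]
          exact p.2.1.2 a b (Or.inl h)
        · have hb : b ≠ v := fun h' => hvT (h' ▸ h2)
          rw [Function.update_of_ne hxv, Function.update_of_ne hb, ← p.2.2]
          exact p.2.1.2 v b (Or.inr (Or.inl ⟨rfl, h2, hb⟩))
        · have hb : a ≠ v := fun h' => hvT (h' ▸ h2)
          rw [Function.update_of_ne hxv, Function.update_of_ne hb, ← p.2.2]
          exact p.2.1.2 a v (Or.inr (Or.inr ⟨rfl, h2, hb⟩))⟩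
      invFun := fun c => (c.1 v, ⟨⟨Function.update c.1 v (c.1 x), by
        rintro a b (h | ⟨rfl, h2, h3⟩ | ⟨rfl, h2, h3⟩)
        · rw [Function.update_of_ne (hv' a b h).1, Function.update_of_ne (hv' a b h).2]
          exact c.2 a b (Or.inl h)
        · rw [Function.update_self, Function.update_of_ne h3]
          exact c.2 x b (Or.inr (Or.inl ⟨rfl, h2, fun h' => hx (h' ▸ h2)⟩))
        · rw [Function.update_self, Function.update_of_ne h3]
          exact c.2 a x (Or.inr (Or.inr ⟨rfl, h2, fun h' => hx (h' ▸ h2)⟩))⟩, by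
          change Function.update c.1 v (c.1 x) v = Function.update c.1 v (c.1 x) x
          rw [Function.update_self, Function.update_of_ne hxv]⟩)
      left_inv := by
        rintro ⟨t, c, hc⟩
        ext1
        · simp
        · apply Subtype.ext
          apply Subtype.ext
          funext w
          by_cases hw : w = v
          · subst hw
            simp only [Function.update_self, Function.update_of_ne hxv]
            exact hc.symm
          · simp only [Function.update_of_ne hw]
      right_inv := by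
        intro c
        apply Subtype.ext
        funext w
        by_cases hw : w = v
        · subst hw
          simp only [Function.update_self]
        · simp only [Function.update_of_ne hw] }
  have e2 : {c : Col (st H v T) (Fin q) // ¬ c.1 v = c.1 x} ≃
      Col (st H v (insert x T)) (Fin q) :=
    { toFun := fun c => ⟨c.1.1, by
        rintro a b (h | ⟨rfl, h2, h3⟩ | ⟨rfl, h2, h3⟩)
        · exact c.1.2 a b (Or.inl h)
        · rcases Finset.mem_insert.1 h2 with rfl | h2
          · exact c.2
          · exact c.1.2 _ _ (Or.inr (Or.inl ⟨rfl, h2, h3⟩))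
        · rcases Finset.mem_insert.1 h2 with rfl | h2
          · exact fun h' => c.2 h'.symm
          · exact c.1.2 _ _ (Or.inr (Or.inr ⟨rfl, h2, h3⟩))⟩
      invFun := fun c => ⟨⟨c.1, by
        rintro a b (h | ⟨rfl, h2, h3⟩ | ⟨rfl, h2, h3⟩)
        · exact c.2 a b (Or.inl h)
        · exact c.2 _ _ (Or.inr (Or.inl ⟨rfl, Finset.mem_insert_of_mem h2, h3⟩))
        · exact c.2 _ _ (Or.inr (Or.inr ⟨rfl, Finset.mem_insert_of_mem h2, h3⟩))⟩,
        c.2 v x (Or.inr (Or.inl ⟨rfl, Finset.mem_insert_self x T, hxv⟩))⟩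
      left_inv := by intro c; rfl
      right_inv := by intro c; rfl }
  have h := Fintype.card_congr (Equiv.sumCompl (fun c : Col (st H v T) (Fin q) => c.1 v = c.1 x))
  rw [Fintype.card_sum, Fintype.card_congr e2] at h
  have h1 := Fintype.card_congr e1
  rw [Fintype.card_prod, Fintype.card_fin] at h1
  unfold cnt
  rw [← h, ← h1]
  ring

theorem poly_rec (H : SimpleGraph V) (v x : V) (T : Finset V) (hv : ∀ w, ¬ H.Adj v w)
    (hxv : x ≠ v) (hx : x ∉ T) (hvT : v ∉ T) :
    X * poly (st H v T) = X * poly (st H v (insert x T)) + poly (st H x T) := by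
  apply poly_ext_nat
  intro q
  rw [eval_mul, eval_add, eval_mul, eval_X, poly_eval, poly_eval, poly_eval]
  exact_mod_cast cnt_rec H v x T hv hxv hx hvT q

/-- derivative of the chromatic polynomial at `1` -/
noncomputable def D (G : SimpleGraph V) : ℤ := (derivative (poly G)).eval 1

omit [DecidableEq V] in
theorem eval_one (G : SimpleGraph V) (a b : V) (h : G.Adj a b) : (poly G).eval 1 = 0 := by
  have := poly_eval G 1
  rw [Nat.cast_one] at this
  rw [this]
  have : cnt G 1 = 0 := by
    unfold cnt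
    rw [Fintype.card_eq_zero_iff]
    exact ⟨fun c => c.2 a b h (Subsingleton.elim _ _)⟩
  rw [this]
  simp

omit [DecidableEq V] in
theorem eval_one_edgeless (G : SimpleGraph V) (h : ∀ a b, ¬ G.Adj a b) :
    (poly G).eval 1 = 1 := by
  have := poly_eval G 1
  rw [Nat.cast_one] at this
  rw [this]
  have : cnt G 1 = 1 := by
    unfold cnt
    rw [Fintype.card_eq_one_iff]
    exact ⟨⟨fun v => 0, fun u v h' => absurd h' (h u v)⟩,
      fun c => Subtype.ext (funext fun v => Subsingleton.elim _ _)⟩
  rw [this]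
  simp

theorem D_rec (H : SimpleGraph V) (v x : V) (T : Finset V) (hv : ∀ w, ¬ H.Adj v w)
    (hxv : x ≠ v) (hx : x ∉ T) (hvT : v ∉ T) :
    (poly (st H v T)).eval 1 + D (st H v T) = D (st H v (insert x T)) + D (st H x T) := by
  have h := congrArg (fun p => (derivative p).eval 1) (poly_rec H v x T hv hxv hx hvT)
  simp only [derivative_mul, derivative_X, derivative_add, eval_add, eval_mul, eval_X,
    one_mul] at h
  have h0 : (poly (st H v (insert x T))).eval 1 = 0 :=
    AtMostOneTwo.eval_one _ v x (Or.inr (Or.inl ⟨rfl, Finset.mem_insert_self x T, hxv⟩))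
  rw [h0, zero_add] at h
  exact h

theorem st_empty (H : SimpleGraph V) (v : V) : st H v ∅ = H := by
  ext a b
  simp [st_adj]

theorem D_leaf (H : SimpleGraph V) (v x : V) (hv : ∀ w, ¬ H.Adj v w) (hxv : x ≠ v) :
    D (st H v {x}) = (poly H).eval 1 := by
  have h := D_rec H v x ∅ hv hxv (Finset.notMem_empty _) (Finset.notMem_empty _)
  rw [st_empty, st_empty] at h
  have e : insert x (∅ : Finset V) = {x} := rfl
  rw [e] at h
  linarith

/-- `W` is the set of non-isolated vertices -/
def Sup (G : SimpleGraph V) (W : Finset V) : Prop := ∀ v, v ∈ W ↔ ∃ w, G.Adj v w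

/-- Crapo's invariant -/
noncomputable def bet (W : Finset V) (G : SimpleGraph V) : ℤ := (-1) ^ W.card * D G

theorem bet_rec (H : SimpleGraph V) (W : Finset V) (hH : Sup H W) (v x : V) (T : Finset V)
    (hvW : v ∉ W) (hxW : x ∈ W) (hx : x ∉ T) (hT : T ⊆ W) (hT0 : T.Nonempty) :
    bet (insert v W) (st H v (insert x T)) = bet (insert v W) (st H v T) + bet W (st H x T) := by
  have hv : ∀ w, ¬ H.Adj v w := fun w h => hvW ((hH v).2 ⟨w, h⟩)
  have hxv : x ≠ v := fun h => hvW (h ▸ hxW)
  have hvT : v ∉ T := fun h => hvW (hT h)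
  have h := D_rec H v x T hv hxv hx hvT
  obtain ⟨t, ht⟩ := hT0
  have h0 : (poly (st H v T)).eval 1 = 0 :=
    AtMostOneTwo.eval_one _ v t (Or.inr (Or.inl ⟨rfl, ht, fun h' => hvT (h' ▸ ht)⟩))
  rw [h0, zero_add] at h
  unfold bet
  rw [Finset.card_insert_of_notMem hvW, h]
  ring

theorem bet_leaf (H : SimpleGraph V) (W : Finset V) (hH : Sup H W) (v x : V)
    (hvW : v ∉ W) (hxW : x ∈ W) :
    bet (insert v W) (st H v {x}) = 0 := by
  have hv : ∀ w, ¬ H.Adj v w := fun w h => hvW ((hH v).2 ⟨w, h⟩)
  have hxv : x ≠ v := fun h => hvW (h ▸ hxW)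
  obtain ⟨w, hw⟩ := (hH x).1 hxW
  unfold bet
  rw [D_leaf H v x hv hxv, AtMostOneTwo.eval_one H x w hw, mul_zero]

/-! ### supports -/

theorem st_del_nb (G : SimpleGraph V) (v : V) : st (del G v) v (nb G v) = G := by
  ext a b
  rw [st_adj, del_adj, mem_nb, mem_nb]
  constructor
  · rintro (h | ⟨rfl, h2, h3⟩ | ⟨rfl, h2, h3⟩)
    · exact h.1
    · exact h2
    · exact h2.symm
  · intro h
    by_cases ha : a = v
    · subst ha
      exact Or.inr (Or.inl ⟨rfl, h, h.ne'⟩)
    · by_cases hb : b = v
      · subst hb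
        exact Or.inr (Or.inr ⟨rfl, h.symm, ha⟩)
      · exact Or.inl ⟨h, ha, hb⟩

theorem nb_subset (G : SimpleGraph V) (W : Finset V) (hG : Sup G W) (v : V) :
    nb G v ⊆ W.erase v := by
  intro w hw
  rw [mem_nb] at hw
  exact Finset.mem_erase.2 ⟨hw.ne', (hG w).2 ⟨v, hw.symm⟩⟩

theorem sup_del (G : SimpleGraph V) (W : Finset V) (hG : Sup G W) (v : V)
    (hd : ∀ a ∈ W, 2 ≤ deg G a) : Sup (del G v) (W.erase v) := by
  intro a
  constructor
  · intro ha
    obtain ⟨hav, haW⟩ := Finset.mem_erase.1 ha
    have h2 := hd a haW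
    rw [deg_eq] at h2
    have : ((nb G a).erase v).Nonempty := by
      rw [← Finset.card_pos]
      have := Finset.pred_card_le_card_erase (s := nb G a) (a := v)
      omega
    obtain ⟨w, hw⟩ := this
    obtain ⟨hwv, hw⟩ := Finset.mem_erase.1 hw
    exact ⟨w, (mem_nb G a w).1 hw, hav, hwv⟩
  · rintro ⟨w, hw, h1, h2⟩
    exact Finset.mem_erase.2 ⟨h1, (hG a).2 ⟨w, hw⟩⟩

theorem sup_st (H : SimpleGraph V) (W : Finset V) (hH : Sup H W) (x : V) (T : Finset V)
    (hxW : x ∈ W) (hT : T ⊆ W) : Sup (st H x T) W := by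
  intro a
  constructor
  · intro ha
    obtain ⟨w, hw⟩ := (hH a).1 ha
    exact ⟨w, Or.inl hw⟩
  · rintro ⟨w, hw | ⟨rfl, h2, h3⟩ | ⟨rfl, h2, h3⟩⟩
    · exact (hH a).2 ⟨w, hw⟩
    · exact hxW
    · exact hT h2

/-- nonnegativity, one level -/
theorem nnT (H : SimpleGraph V) (W : Finset V) (hH : Sup H W) (v : V) (hvW : v ∉ W)
    (ih : ∀ x ∈ W, ∀ T ⊆ W, 0 ≤ bet W (st H x T)) (S : Finset V) (hS : S ⊆ W)
    (hS0 : S.Nonempty) : 0 ≤ bet (insert v W) (st H v S) := by
  induction S using Finset.induction_on with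
  | empty => exact absurd hS0 Finset.not_nonempty_empty
  | insert x T hx ihT =>
    have hxW : x ∈ W := hS (Finset.mem_insert_self x T)
    have hT : T ⊆ W := fun a ha => hS (Finset.mem_insert_of_mem ha)
    by_cases hT0 : T.Nonempty
    · rw [bet_rec H W hH v x T hvW hxW hx hT hT0]
      have h1 := ihT hT hT0
      have h2 := ih x hxW T hT
      linarith
    · rw [Finset.not_nonempty_iff_eq_empty] at hT0
      subst hT0
      have e : insert x (∅ : Finset V) = {x} := rfl
      rw [e, bet_leaf H W hH v x hvW hxW]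

theorem nn (n : ℕ) : ∀ (W : Finset V) (G : SimpleGraph V), W.card = n → Sup G W → W.Nonempty →
    0 ≤ bet W G := by
  induction n with
  | zero =>
    intro W G h1 h2 h3
    rw [Finset.card_eq_zero] at h1
    exact absurd h1 h3.ne_empty
  | succ n ih =>
    intro W G h1 h2 h3
    by_cases hdeg : ∀ a ∈ W, 2 ≤ deg G a
    · obtain ⟨v, hv⟩ := h3
      have hS := sup_del G W h2 v hdeg
      have hne : (nb G v).Nonempty := by
        rw [← Finset.card_pos, ← deg_eq]
        have := hdeg v hv
        omega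
      have hW0 : (W.erase v).Nonempty := hne.mono (nb_subset G W h2 v)
      have := nnT (del G v) (W.erase v) hS v (Finset.notMem_erase v W)
        (fun x hx T hT => ih _ _ (by rw [Finset.card_erase_of_mem hv]; omega)
          (sup_st _ _ hS x T hx hT) hW0) (nb G v) (nb_subset G W h2 v) hne
      rw [Finset.insert_erase hv, st_del_nb] at this
      exact this
    · push Not at hdeg
      obtain ⟨a, haW, ha⟩ := hdeg
      obtain ⟨x, hx⟩ := (h2 a).1 haW
      have hnb : nb G a = {x} := by
        symm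
        apply Finset.eq_of_subset_of_card_le
        · intro y hy
          rw [Finset.mem_singleton] at hy
          subst hy
          rw [mem_nb]; exact hx
        · rw [Finset.card_singleton]
          rw [deg_eq] at ha
          omega
      have hG : G = st (del G a) a {x} := by rw [← hnb, st_del_nb]
      have hvi : ∀ w, ¬ (del G a).Adj a w := fun w h => h.2.1 rfl
      by_cases hE : ∃ b c, (del G a).Adj b c
      · obtain ⟨b, c, hbc⟩ := hE
        have : D G = 0 := by
          rw [hG, D_leaf (del G a) a x hvi hx.ne']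
          exact AtMostOneTwo.eval_one _ b c hbc
        unfold bet
        rw [this, mul_zero]
      · push Not at hE
        have hD : D G = 1 := by
          rw [hG, D_leaf (del G a) a x hvi hx.ne']
          exact eval_one_edgeless _ hE
        have hW : W = {a, x} := by
          ext w
          simp only [Finset.mem_insert, Finset.mem_singleton]
          constructor
          · intro hw
            obtain ⟨u, hu⟩ := (h2 w).1 hw
            by_contra hcon
            push Not at hcon
            by_cases hua : u = a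
            · subst hua
              have : w ∈ nb G u := (mem_nb G u w).2 hu.symm
              rw [hnb, Finset.mem_singleton] at this
              exact hcon.2 this
            · exact hE w u ⟨hu, hcon.1, hua⟩
          · rintro (rfl | rfl)
            · exact haW
            · exact (h2 w).2 ⟨a, hx.symm⟩
        unfold bet
        rw [hD, hW, Finset.card_pair hx.ne]
        norm_num

theorem bet_nonneg (W : Finset V) (G : SimpleGraph V) (h : Sup G W) (h0 : W.Nonempty) :
    0 ≤ bet W G := nn _ W G rfl h h0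

/-- adding one edge does not decrease the invariant -/
theorem mono_one (G : SimpleGraph V) (W : Finset V) (hG : Sup G W) (a b : V) (ha : a ∈ W)
    (hb : b ∈ W) (hab : a ≠ b) : bet W G ≤ bet W (st G a {b}) := by
  by_cases hadj : G.Adj a b
  · have : st G a {b} = G := by
      ext c d
      rw [st_adj]
      constructor
      · rintro (h | ⟨rfl, h2, h3⟩ | ⟨rfl, h2, h3⟩)
        · exact h
        · rw [Finset.mem_singleton] at h2; subst h2; exact hadj
        · rw [Finset.mem_singleton] at h2; subst h2; exact hadj.symm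
      · exact Or.inl
    rw [this]
  · have hbS : b ∉ nb G a := fun h => hadj ((mem_nb G a b).1 h)
    have e : st G a {b} = st (del G a) a (insert b (nb G a)) := by
      conv_lhs => rw [← st_del_nb G a]
      ext c d
      simp only [st_adj, del_adj, Finset.mem_insert, Finset.mem_singleton]
      tauto
    obtain ⟨w, hw⟩ := (hG a).1 ha
    have hne : (nb G a).Nonempty := ⟨w, (mem_nb G a w).2 hw⟩
    have hsub := nb_subset G W hG a
    -- the recursion needs only that `a` is isolated and the sets behave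
    have hv : ∀ w, ¬ (del G a).Adj a w := fun w h => h.2.1 rfl
    have haS : a ∉ nb G a := fun h => ((mem_nb G a a).1 h).ne rfl
    have hrec := D_rec (del G a) a b (nb G a) hv hab.symm hbS haS
    rw [st_del_nb, AtMostOneTwo.eval_one G a w hw, zero_add] at hrec
    have hsup : Sup (st (del G a) b (nb G a)) (W.erase a) := by
      intro c
      constructor
      · intro hc
        obtain ⟨hca, hcW⟩ := Finset.mem_erase.1 hc
        obtain ⟨u, hu⟩ := (hG c).1 hcW
        by_cases hua : u = a
        · subst hua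
          have hcb : c ≠ b := fun h => hadj (h ▸ hu.symm)
          exact ⟨b, Or.inr (Or.inr ⟨rfl, (mem_nb G u c).2 hu.symm, hcb⟩)⟩
        · exact ⟨u, Or.inl ⟨hu, hca, hua⟩⟩
      · rintro ⟨u, h | ⟨rfl, h2, h3⟩ | ⟨rfl, h2, h3⟩⟩
        · exact Finset.mem_erase.2 ⟨h.2.1, (hG c).2 ⟨u, h.1⟩⟩
        · exact Finset.mem_erase.2 ⟨hab.symm, hb⟩
        · exact hsub h2
    have hnn := bet_nonneg (W.erase a) _ hsup ⟨b, Finset.mem_erase.2 ⟨hab.symm, hb⟩⟩
    have hcard : W.card = (W.erase a).card + 1 := by
      rw [Finset.card_erase_of_mem ha]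
      have := Finset.card_pos.2 ⟨a, ha⟩
      omega
    rw [e]
    unfold bet at hnn ⊢
    rw [hcard, hrec]
    have : (-1 : ℤ) ^ ((W.erase a).card + 1) * (D (st (del G a) a (insert b (nb G a))) +
        D (st (del G a) b (nb G a))) = (-1) ^ ((W.erase a).card + 1) *
        D (st (del G a) a (insert b (nb G a))) - (-1) ^ (W.erase a).card *
        D (st (del G a) b (nb G a)) := by ring
    rw [this]
    linarith

theorem st_insert (G : SimpleGraph V) (x y : V) (T : Finset V) :
    st G x (insert y T) = st (st G x T) x {y} := by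
  ext a b
  simp only [st_adj, Finset.mem_insert, Finset.mem_singleton]
  tauto

theorem mono_star (G : SimpleGraph V) (W : Finset V) (hG : Sup G W) (x : V) (hx : x ∈ W)
    (T : Finset V) (hT : T ⊆ W) : bet W G ≤ bet W (st G x T) := by
  induction T using Finset.induction_on with
  | empty => rw [st_empty]
  | insert y T hy ih =>
    have hT' : T ⊆ W := fun a ha => hT (Finset.mem_insert_of_mem ha)
    have hyW : y ∈ W := hT (Finset.mem_insert_self y T)
    refine (ih hT').trans ?_
    rw [st_insert]
    by_cases hxy : x = y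
    · subst hxy
      have : st (st G x T) x {x} = st G x T := by
        ext a b
        simp only [st_adj, Finset.mem_singleton]
        tauto
      rw [this]
    · exact mono_one _ W (sup_st G W hG x T hx hT') x y hx hyW hxy

/-! ### consequences of the recursion -/

theorem sup_insert (H : SimpleGraph V) (W : Finset V) (hH : Sup H W) (v : V) (hv : v ∉ W)
    (S : Finset V) (hS : S ⊆ W) (hS0 : S.Nonempty) : Sup (st H v S) (insert v W) := by
  intro a
  constructor
  · intro ha
    rcases Finset.mem_insert.1 ha with rfl | ha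
    · obtain ⟨s, hs⟩ := hS0
      exact ⟨s, Or.inr (Or.inl ⟨rfl, hs, fun h => hv (h ▸ hS hs)⟩)⟩
    · obtain ⟨w, hw⟩ := (hH a).1 ha
      exact ⟨w, Or.inl hw⟩
  · rintro ⟨w, hw | ⟨rfl, h2, h3⟩ | ⟨rfl, h2, h3⟩⟩
    · exact Finset.mem_insert_of_mem ((hH a).2 ⟨w, hw⟩)
    · exact Finset.mem_insert_self _ _
    · exact Finset.mem_insert_of_mem (hS h2)

theorem ins_nonneg (H : SimpleGraph V) (W : Finset V) (hH : Sup H W) (v : V) (hv : v ∉ W)
    (S : Finset V) (hS : S ⊆ W) (hS0 : S.Nonempty) : 0 ≤ bet (insert v W) (st H v S) :=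
  bet_nonneg _ _ (sup_insert H W hH v hv S hS hS0) ⟨v, Finset.mem_insert_self v W⟩

theorem bet_lower (H : SimpleGraph V) (W : Finset V) (hH : Sup H W) (v : V) (hv : v ∉ W)
    (S : Finset V) (hS : S ⊆ W) (hS0 : S.Nonempty) :
    ((S.card : ℤ) - 1) * bet W H ≤ bet (insert v W) (st H v S) := by
  induction S using Finset.induction_on with
  | empty => exact absurd hS0 Finset.not_nonempty_empty
  | insert x T hx ih =>
    have hxW : x ∈ W := hS (Finset.mem_insert_self x T)
    have hT : T ⊆ W := fun a ha => hS (Finset.mem_insert_of_mem ha)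
    by_cases hT0 : T.Nonempty
    · rw [bet_rec H W hH v x T hv hxW hx hT hT0]
      have h1 := ih hT hT0
      have h2 := mono_star H W hH x hxW T hT
      rw [Finset.card_insert_of_notMem hx]
      push_cast
      linarith
    · rw [Finset.not_nonempty_iff_eq_empty] at hT0
      subst hT0
      have e : insert x (∅ : Finset V) = {x} := rfl
      rw [e, bet_leaf H W hH v x hv hxW]
      simp

theorem term_le (H : SimpleGraph V) (W : Finset V) (hH : Sup H W) (v : V) (hv : v ∉ W)
    (S : Finset V) (hS : S ⊆ W) (x : V) (hx : x ∈ S) (hne : (S.erase x).Nonempty) :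
    bet W (st H x (S.erase x)) ≤ bet (insert v W) (st H v S) := by
  have h := bet_rec H W hH v x (S.erase x) hv (hS hx) (Finset.notMem_erase x S)
    ((Finset.erase_subset x S).trans hS) hne
  rw [Finset.insert_erase hx] at h
  have := ins_nonneg H W hH v hv (S.erase x) ((Finset.erase_subset x S).trans hS) hne
  linarith

theorem bet_two (H : SimpleGraph V) (W : Finset V) (hH : Sup H W) (v : V) (hv : v ∉ W)
    (x y : V) (hx : x ∈ W) (hy : y ∈ W) (hxy : x ≠ y) :
    bet (insert v W) (st H v {x, y}) = bet W (st H x {y}) := by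
  have h := bet_rec H W hH v x {y} hv hx (by simpa using hxy)
    (by simpa using hy) (Finset.singleton_nonempty y)
  rw [h, bet_leaf H W hH v y hv hy, zero_add]

/-! ### degrees and edges -/

theorem deg_st_self (H : SimpleGraph V) (v : V) (S : Finset V) (hv : ∀ w, ¬ H.Adj v w)
    (hvS : v ∉ S) : deg (st H v S) v = S.card := by
  rw [deg_eq]
  congr 1
  ext w
  rw [mem_nb, st_adj]
  constructor
  · rintro (h | ⟨-, h, -⟩ | ⟨rfl, h, h'⟩)
    · exact absurd h (hv w)
    · exact h
    · exact absurd rfl h'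
  · intro h
    exact Or.inr (Or.inl ⟨rfl, h, fun h' => hvS (h' ▸ h)⟩)

theorem deg_st_other (H : SimpleGraph V) (v : V) (S : Finset V) (hv : ∀ w, ¬ H.Adj v w)
    (a : V) (ha : a ≠ v) : deg (st H v S) a = deg H a + if a ∈ S then 1 else 0 := by
  rw [deg_eq, deg_eq]
  by_cases haS : a ∈ S
  · have : nb (st H v S) a = insert v (nb H a) := by
      ext w
      rw [mem_nb, st_adj, Finset.mem_insert, mem_nb]
      constructor
      · rintro (h | ⟨h, -, -⟩ | ⟨h, -, -⟩)
        · exact Or.inr h
        · exact absurd h ha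
        · exact Or.inl h
      · rintro (h | h)
        · exact Or.inr (Or.inr ⟨h, haS, ha⟩)
        · exact Or.inl h
    rw [this, Finset.card_insert_of_notMem (by rw [mem_nb]; exact fun h => hv a h.symm)]
    simp [haS]
  · have : nb (st H v S) a = nb H a := by
      ext w
      rw [mem_nb, st_adj, mem_nb]
      constructor
      · rintro (h | ⟨h, -, -⟩ | ⟨-, h, -⟩)
        · exact h
        · exact absurd h ha
        · exact absurd h haS
      · exact Or.inl
    rw [this]
    simp [haS]

theorem e2_st (H : SimpleGraph V) (v : V) (S : Finset V) (hv : ∀ w, ¬ H.Adj v w) (hvS : v ∉ S) :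
    e2 (st H v S) = e2 H + 2 * S.card := by
  unfold e2
  rw [← Finset.add_sum_erase univ _ (Finset.mem_univ v),
    ← Finset.add_sum_erase univ (fun w => deg H w) (Finset.mem_univ v)]
  rw [deg_st_self H v S hv hvS]
  have h0 : deg H v = 0 := by
    rw [deg_eq, Finset.card_eq_zero, Finset.eq_empty_iff_forall_notMem]
    intro w hw
    exact hv w ((mem_nb H v w).1 hw)
  rw [h0, Finset.sum_congr rfl (fun a ha => deg_st_other H v S hv a (Finset.ne_of_mem_erase ha)),
    Finset.sum_add_distrib]
  have : ∑ a ∈ univ.erase v, (if a ∈ S then 1 else 0) = S.card := by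
    rw [← Finset.card_filter]
    congr 1
    ext a
    simp only [Finset.mem_filter, Finset.mem_erase, Finset.mem_univ, and_true]
    exact ⟨fun h => h.2, fun h => ⟨fun h' => hvS (h' ▸ h), h⟩⟩
  rw [this]
  ring

theorem e2_del (G : SimpleGraph V) (v : V) : e2 G = e2 (del G v) + 2 * deg G v := by
  have h := e2_st (del G v) v (nb G v) (fun w h => h.2.1 rfl)
    (fun h => ((mem_nb G v v).1 h).ne rfl)
  rw [st_del_nb] at h
  exact h

theorem e2_one (G : SimpleGraph V) (a b : V) (hab : a ≠ b) (h : ¬ G.Adj a b) :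
    e2 (st G a {b}) = e2 G + 2 := by
  have e : st G a {b} = st (del G a) a (insert b (nb G a)) := by
    conv_lhs => rw [← st_del_nb G a]
    ext c d
    simp only [st_adj, del_adj, Finset.mem_insert, Finset.mem_singleton]
    tauto
  have hbS : b ∉ nb G a := fun h' => h ((mem_nb G a b).1 h')
  have haS : a ∉ insert b (nb G a) := by
    rw [Finset.mem_insert]
    rintro (h' | h')
    · exact hab h'
    · exact ((mem_nb G a a).1 h').ne rfl
  rw [e, e2_st (del G a) a _ (fun w h => h.2.1 rfl) haS, Finset.card_insert_of_notMem hbS,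
    e2_del G a, deg_eq]
  ring

omit [DecidableEq V] in
theorem e2_mono (G G' : SimpleGraph V) (h : G ≤ G') : e2 G ≤ e2 G' := by
  unfold e2
  apply Finset.sum_le_sum
  intro a _
  rw [deg_eq, deg_eq]
  apply Finset.card_le_card
  intro b hb
  rw [mem_nb] at hb ⊢
  exact h hb

theorem le_st (G : SimpleGraph V) (x : V) (T : Finset V) : G ≤ st G x T := fun _ _ h => Or.inl h

theorem e2_star (G : SimpleGraph V) (x : V) (T : Finset V) : e2 G ≤ e2 (st G x T) :=
  e2_mono _ _ (le_st G x T)

theorem st_mono (G : SimpleGraph V) (x : V) (T T' : Finset V) (h : T ⊆ T') :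
    st G x T ≤ st G x T' := by
  rintro a b (h' | ⟨h1, h2, h3⟩ | ⟨h1, h2, h3⟩)
  · exact Or.inl h'
  · exact Or.inr (Or.inl ⟨h1, h h2, h3⟩)
  · exact Or.inr (Or.inr ⟨h1, h h2, h3⟩)

theorem st_eq_self (G : SimpleGraph V) (x : V) (T : Finset V)
    (h : ∀ y ∈ T, y ≠ x → G.Adj x y) : st G x T = G := by
  ext a b
  rw [st_adj]
  constructor
  · rintro (h' | ⟨rfl, h2, h3⟩ | ⟨rfl, h2, h3⟩)
    · exact h'
    · exact h b h2 h3
    · exact (h a h2 h3).symm
  · exact Or.inl

theorem e2_star_eq (G : SimpleGraph V) (x : V) (T : Finset V) (h : e2 (st G x T) < e2 G + 2) :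
    st G x T = G := by
  apply st_eq_self
  intro y hy hyx
  by_contra hadj
  have h1 := e2_one G x y hyx.symm hadj
  have h2 := e2_mono _ _ (st_mono G x {y} T (by simpa using hy))
  omega

theorem e2_ge (G : SimpleGraph V) (W : Finset V) (d : ℕ) (h : ∀ a ∈ W, d ≤ deg G a) :
    d * W.card ≤ e2 G := by
  unfold e2
  calc d * W.card = ∑ a ∈ W, d := by rw [Finset.sum_const, smul_eq_mul, mul_comm]
    _ ≤ ∑ a ∈ W, deg G a := Finset.sum_le_sum h
    _ ≤ ∑ a, deg G a := Finset.sum_le_sum_of_subset (Finset.subset_univ W)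

theorem deg_lt (G : SimpleGraph V) (W : Finset V) (hG : Sup G W) (v : V) (hv : v ∈ W) :
    deg G v + 1 ≤ W.card := by
  have := Finset.card_le_card (nb_subset G W hG v)
  rw [Finset.card_erase_of_mem hv, ← deg_eq] at this
  have := Finset.card_pos.2 ⟨v, hv⟩
  omega

/-! ### the induction -/

/-- every two neighbours of `v` are adjacent -/
def Clq (G : SimpleGraph V) (v : V) : Prop :=
  ∀ a b, G.Adj v a → G.Adj v b → a ≠ b → G.Adj a b

theorem min_deg (G : SimpleGraph V) (W : Finset V) (h0 : W.Nonempty) :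
    ∃ v ∈ W, ∀ a ∈ W, deg G v ≤ deg G a := by
  obtain ⟨v, hv, h⟩ := Finset.exists_min_image W (deg G) h0
  exact ⟨v, hv, h⟩

theorem e2_small (G : SimpleGraph V) (W : Finset V) (hG : Sup G W) (h0 : W.Nonempty)
    (h2 : W.card ≤ 2) : e2 G + 6 ≤ 4 * W.card := by
  obtain ⟨a, ha⟩ := h0
  obtain ⟨b, hb⟩ := (hG a).1 ha
  have hbW : b ∈ W := (hG b).2 ⟨a, hb.symm⟩
  have hc2 : W.card = 2 := by
    have : ({a, b} : Finset V).card ≤ W.card := Finset.card_le_card (by
      intro c hc; simp at hc; rcases hc with rfl | rfl <;> assumption)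
    rw [Finset.card_pair hb.ne] at this
    omega
  have h1 := deg_lt G W hG a ha
  have h3 : e2 (del G a) = 0 := by
    unfold e2
    apply Finset.sum_eq_zero
    intro u _
    rw [deg_eq, Finset.card_eq_zero, Finset.eq_empty_iff_forall_notMem]
    intro w hw
    rw [mem_nb, del_adj] at hw
    have : ({a, u, w} : Finset V).card ≤ W.card := Finset.card_le_card (by
      intro c hc
      simp only [Finset.mem_insert, Finset.mem_singleton] at hc
      rcases hc with rfl | rfl | rfl
      · exact ha
      · exact (hG _).2 ⟨w, hw.1⟩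
      · exact (hG _).2 ⟨u, hw.1.symm⟩)
    rw [Finset.card_eq_three.2 ⟨a, u, w, hw.2.1.symm, hw.2.2.symm, hw.1.ne, rfl⟩] at this
    omega
  have h4 := e2_del G a
  omega

/-! ### chordality -/

theorem chordal_small (G : SimpleGraph V) (W : Finset V) (hG : Sup G W) (hW : W.card ≤ 3) :
    ¬ HasChordlessCycle G := by
  rintro ⟨n, hn, ⟨f⟩⟩
  obtain ⟨m, rfl⟩ := Nat.exists_eq_add_of_le' hn
  have hf : ∀ i, f i ∈ W := by
    intro i
    rw [hG]
    refine ⟨f (i + 1), f.map_rel_iff.2 ?_⟩
    rw [cycleGraph_adj]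
    right
    exact add_sub_cancel_left i 1
  have : Fintype.card (Fin (m + 4)) ≤ W.card := by
    rw [← Finset.card_univ, ← Finset.card_map f.toEmbedding]
    apply Finset.card_le_card
    intro w hw
    rw [Finset.mem_map] at hw
    obtain ⟨i, -, rfl⟩ := hw
    exact hf i
  rw [Fintype.card_fin] at this
  omega

omit [Fintype V] in
theorem chordal_of_del (G : SimpleGraph V) (v : V) (hc : Clq G v)
    (h : ¬ HasChordlessCycle (del G v)) : ¬ HasChordlessCycle G := by
  rintro ⟨n, hn, ⟨f⟩⟩
  obtain ⟨m, rfl⟩ := Nat.exists_eq_add_of_le' hn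
  by_cases hv : ∃ i, f i = v
  · obtain ⟨i, hi⟩ := hv
    have a1 : G.Adj v (f (i + 1)) := by
      rw [← hi]
      refine f.map_rel_iff.2 ?_
      rw [cycleGraph_adj]
      right
      exact add_sub_cancel_left i 1
    have a2 : G.Adj v (f (i - 1)) := by
      rw [← hi]
      refine f.map_rel_iff.2 ?_
      rw [cycleGraph_adj]
      left
      exact sub_sub_cancel i 1
    have e2' : (1 : Fin (m + 4)) + 1 ≠ 0 := by
      intro h0
      have := congrArg Fin.val h0
      rw [Fin.val_add] at this
      simp at this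
      rw [Nat.mod_eq_of_lt (by omega : 2 < m + 4)] at this
      omega
    have e3 : (1 : Fin (m + 4)) + 1 + 1 ≠ 0 := by
      intro h0
      have := congrArg Fin.val h0
      rw [Fin.val_add, Fin.val_add] at this
      simp at this
      rw [Nat.mod_eq_of_lt (by omega : 3 < m + 4)] at this
      omega
    have hne : f (i + 1) ≠ f (i - 1) := by
      intro h0
      have h1 := f.injective h0
      apply e2'
      have : (i + 1) - (i - 1) = 0 := by rw [h1]; exact sub_self _
      rw [← this]
      abel
    have a3 := f.map_rel_iff.1 (hc _ _ a1 a2 hne)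
    rw [cycleGraph_adj] at a3
    rcases a3 with a3 | a3
    · have h1 : (1 : Fin (m + 4)) + 1 = 1 := by
        have h5 : (1 : Fin (m + 4)) + 1 = (i + 1) - (i - 1) := by abel
        rw [h5]
        exact a3
      have h2 : (1 : Fin (m + 4)) = 0 := by
        have := congrArg (fun t => t - 1) h1
        simpa using this
      exact one_ne_zero h2
    · apply e3
      have : (1 : Fin (m + 4)) + 1 + 1 = 1 - (i - 1 - (i + 1)) := by abel
      rw [this, a3]
      exact sub_self _
  · push Not at hv
    apply h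
    refine ⟨m + 4, hn, ⟨⟨f.toEmbedding, ?_⟩⟩⟩
    intro a b
    constructor
    · intro hab
      exact f.map_rel_iff.1 hab.1
    · intro hab
      exact ⟨f.map_rel_iff.2 hab, hv a, hv b⟩

/-! ### nonseparable graphs -/

/-- `G` (with vertex set `W`) has no separation of order at most one -/
def NoCut (W : Finset V) (G : SimpleGraph V) : Prop := ∀ A B : Finset V, A ∪ B = W →
  (A ∩ B).card ≤ 1 → (A \ B).Nonempty → (B \ A).Nonempty → ∃ a ∈ A \ B, ∃ b ∈ B \ A, G.Adj a b

theorem nocut_deg (W : Finset V) (G : SimpleGraph V) (hN : NoCut W G) (hG : Sup G W)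
    (h3 : 3 ≤ W.card) : ∀ a ∈ W, 2 ≤ deg G a := by
  intro a ha
  by_contra hcon
  obtain ⟨b, hb⟩ := (hG a).1 ha
  have hbW : b ∈ W := (hG b).2 ⟨a, hb.symm⟩
  have hnb : nb G a = {b} := by
    symm
    apply Finset.eq_of_subset_of_card_le
    · intro y hy
      rw [Finset.mem_singleton] at hy
      subst hy
      rw [mem_nb]; exact hb
    · rw [Finset.card_singleton]
      rw [deg_eq] at hcon
      omega
  have hw : ∃ w ∈ W, w ≠ a ∧ w ≠ b := by
    by_contra hcon2
    push Not at hcon2
    have : W ⊆ {a, b} := by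
      intro w hw
      rw [Finset.mem_insert, Finset.mem_singleton]
      by_cases h : w = a
      · exact Or.inl h
      · exact Or.inr (hcon2 w hw h)
    have := Finset.card_le_card this
    have := Finset.card_le_two (a := a) (b := b)
    omega
  obtain ⟨w, hwW, hwa, hwb⟩ := hw
  obtain ⟨a', ha', b', hb', hadj⟩ := hN {a, b} (W.erase a) (by
      ext c
      simp only [Finset.mem_union, Finset.mem_insert, Finset.mem_singleton, Finset.mem_erase]
      constructor
      · rintro ((rfl | rfl) | ⟨-, h⟩)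
        exacts [ha, hbW, h]
      · intro h
        by_cases hc : c = a
        · exact Or.inl (Or.inl hc)
        · exact Or.inr ⟨hc, h⟩)
    (by
      have : ({a, b} : Finset V) ∩ W.erase a ⊆ {b} := by
        intro c hc
        simp only [Finset.mem_inter, Finset.mem_insert, Finset.mem_singleton,
          Finset.mem_erase] at hc ⊢
        rcases hc with ⟨h | h, h', -⟩
        · exact absurd h h'
        · exact h
      exact (Finset.card_le_card this).trans (by simp))
    ⟨a, by simp⟩ ⟨w, by simp [hwa, hwb, hwW]⟩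
  simp only [Finset.mem_sdiff, Finset.mem_insert, Finset.mem_singleton, Finset.mem_erase,
    not_and, not_or] at ha' hb'
  have ha'a : a' = a := by
    rcases ha'.1 with h | h
    · exact h
    · subst h
      exact absurd hbW (ha'.2 hb.ne')
  subst ha'a
  have : b' ∈ nb G a' := (mem_nb _ _ _).2 hadj
  rw [hnb, Finset.mem_singleton] at this
  exact hb'.2.2 this

/-- a separation `{v, x}` of order two -/
def TS (G : SimpleGraph V) (W : Finset V) (v x : V) (P Q : Finset V) : Prop :=
  x ∈ nb G v ∧ P.Nonempty ∧ Q.Nonempty ∧ Disjoint P Q ∧ P ∪ Q = (W.erase v).erase x ∧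
    ∀ p ∈ P, ∀ q ∈ Q, ¬ G.Adj p q

theorem ts_of_cut (W : Finset V) (G : SimpleGraph V) (hN : NoCut W G) (hG : Sup G W)
    (v : V) (hv : v ∈ W) (x : V) (hx : x ∈ nb G v)
    (hc : ¬ NoCut (W.erase v) (st (del G v) x ((nb G v).erase x))) : ∃ P Q, TS G W v x P Q := by
  unfold NoCut at hc
  push Not at hc
  obtain ⟨A, B, hU, hI, hA, hB, hE⟩ := hc
  have hsub := nb_subset G W hG v
  have hvA : v ∉ A := fun h => Finset.notMem_erase v W (hU ▸ Finset.mem_union_left B h)
  have hvB : v ∉ B := fun h => Finset.notMem_erase v W (hU ▸ Finset.mem_union_right A h)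
  have hmemA : ∀ a ∈ A, a ≠ v := fun a ha h => hvA (h ▸ ha)
  have hmemB : ∀ a ∈ B, a ≠ v := fun a ha h => hvB (h ▸ ha)
  have key : ∀ A B : Finset V, A ∪ B = W.erase v → (A ∩ B).card ≤ 1 → (A \ B).Nonempty →
      (B \ A).Nonempty → (∀ a ∈ A \ B, ∀ b ∈ B \ A,
        ¬ (st (del G v) x ((nb G v).erase x)).Adj a b) → x ∈ B := by
    intro A B hU hI hA hB hE
    by_contra hxB
    have hvA : v ∉ A := fun h => Finset.notMem_erase v W (hU ▸ Finset.mem_union_left B h)
    have hvB : v ∉ B := fun h => Finset.notMem_erase v W (hU ▸ Finset.mem_union_right A h)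
    have hxA : x ∈ A := by
      have : x ∈ A ∪ B := by rw [hU]; exact hsub hx
      rcases Finset.mem_union.1 this with h | h
      · exact h
      · exact absurd h hxB
    have hnbA : ∀ u ∈ nb G v, u ∈ A := by
      intro u hu
      by_contra huA
      have huB : u ∈ B := by
        have : u ∈ A ∪ B := by rw [hU]; exact hsub hu
        rcases Finset.mem_union.1 this with h | h
        · exact absurd h huA
        · exact h
      have hux : u ≠ x := fun h => huA (h ▸ hxA)
      exact hE x (Finset.mem_sdiff.2 ⟨hxA, hxB⟩) u (Finset.mem_sdiff.2 ⟨huB, huA⟩)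
        (Or.inr (Or.inl ⟨rfl, Finset.mem_erase.2 ⟨hux, hu⟩, hux⟩))
    obtain ⟨a, ha, b, hb, hab⟩ := hN (insert v A) B (by
        rw [Finset.insert_union, hU, Finset.insert_erase hv])
      (by
        rw [Finset.insert_inter_of_notMem hvB]
        exact hI)
      (by
        obtain ⟨c, hc⟩ := hA
        rw [Finset.mem_sdiff] at hc
        exact ⟨c, Finset.mem_sdiff.2 ⟨Finset.mem_insert_of_mem hc.1, hc.2⟩⟩)
      (by
        obtain ⟨c, hc⟩ := hB
        rw [Finset.mem_sdiff] at hc
        refine ⟨c, Finset.mem_sdiff.2 ⟨hc.1, ?_⟩⟩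
        rw [Finset.mem_insert]
        rintro (h | h)
        · exact hvB (h ▸ hc.1)
        · exact hc.2 h)
    rw [Finset.mem_sdiff, Finset.mem_insert] at ha hb
    have hbv : b ≠ v := fun h => hvB (h ▸ hb.1)
    have hbA : b ∉ A := fun h => hb.2 (Or.inr h)
    rcases ha.1 with rfl | haA
    · exact hbA (hnbA b ((mem_nb _ _ _).2 hab))
    · exact hE a (Finset.mem_sdiff.2 ⟨haA, ha.2⟩) b (Finset.mem_sdiff.2 ⟨hb.1, hbA⟩)
        (Or.inl ⟨hab, fun h => hvA (h ▸ haA), hbv⟩)
  have hxB := key A B hU hI hA hB hE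
  have hxA := key B A (by rw [Finset.union_comm]; exact hU) (by rw [Finset.inter_comm]; exact hI)
    hB hA (fun a ha b hb h => hE b hb a ha h.symm)
  have hI' : ∀ c, c ∈ A → c ∈ B → c = x := by
    intro c h1 h2
    exact Finset.card_le_one.1 hI c (Finset.mem_inter.2 ⟨h1, h2⟩) x
      (Finset.mem_inter.2 ⟨hxA, hxB⟩)
  refine ⟨A \ B, B \ A, hx, hA, hB, ?_, ?_, ?_⟩
  · rw [Finset.disjoint_left]
    intro c hc hc'
    exact (Finset.mem_sdiff.1 hc).2 (Finset.mem_sdiff.1 hc').1
  · rw [← hU]
    ext c
    simp only [Finset.mem_union, Finset.mem_sdiff, Finset.mem_erase]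
    constructor
    · rintro (⟨h1, h2⟩ | ⟨h1, h2⟩)
      · exact ⟨fun h => h2 (h ▸ hxB), Or.inl h1⟩
      · exact ⟨fun h => h2 (h ▸ hxA), Or.inr h1⟩
    · rintro ⟨h1, h2⟩
      by_cases hcA : c ∈ A
      · by_cases hcB : c ∈ B
        · exact absurd (hI' c hcA hcB) h1
        · exact Or.inl ⟨hcA, hcB⟩
      · rcases h2 with h2 | h2
        · exact absurd h2 hcA
        · exact Or.inr ⟨h2, hcA⟩
  · intro p hp q hq hpq
    exact hE p hp q hq (Or.inl ⟨hpq, hmemA p (Finset.mem_sdiff.1 hp).1,
      hmemB q (Finset.mem_sdiff.1 hq).1⟩)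

theorem ts_false (W : Finset V) (G : SimpleGraph V) (hN : NoCut W G) (hG : Sup G W)
    (v : V) (hv : v ∈ W)
    (hall : ∀ x ∈ nb G v, ∃ P Q, TS G W v x P Q) (n : ℕ) :
    ∀ x P Q, TS G W v x P Q → P.card = n → False := by
  induction n using Nat.strong_induction_on with
  | _ n ih =>
    intro x P Q hTS hPn
    obtain ⟨hx, hP, hQ, hdisj, hU, hE⟩ := hTS
    have hsub := nb_subset G W hG v
    have hmem : ∀ c, c ∈ P ∨ c ∈ Q ↔ c ≠ x ∧ c ≠ v ∧ c ∈ W := by
      intro c
      rw [← Finset.mem_union, hU, Finset.mem_erase, Finset.mem_erase]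
    have hxW : x ∈ W := Finset.mem_of_mem_erase (hsub hx)
    have hxv : x ≠ v := Finset.ne_of_mem_erase (hsub hx)
    have hxP : x ∉ P := fun h => ((hmem x).1 (Or.inl h)).1 rfl
    have hxQ : x ∉ Q := fun h => ((hmem x).1 (Or.inr h)).1 rfl
    have hvP : v ∉ P := fun h => ((hmem v).1 (Or.inl h)).2.1 rfl
    have hPQ : ∀ c, c ∈ P → c ∈ Q → False := fun c h1 h2 => Finset.disjoint_left.1 hdisj h1 h2
    -- `v` has a neighbour in `P`
    have hy : ∃ y ∈ P, G.Adj v y := by
      by_contra hcon
      push Not at hcon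
      obtain ⟨a, ha, b, hb, hab⟩ := hN (insert x P) (W \ P) (by
          ext c
          simp only [Finset.mem_union, Finset.mem_insert, Finset.mem_sdiff]
          constructor
          · rintro ((rfl | h) | h)
            · exact hxW
            · exact ((hmem c).1 (Or.inl h)).2.2
            · exact h.1
          · intro h
            by_cases hc : c ∈ P
            · exact Or.inl (Or.inr hc)
            · exact Or.inr ⟨h, hc⟩)
        (by
          have : insert x P ∩ (W \ P) ⊆ {x} := by
            intro c hc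
            simp only [Finset.mem_inter, Finset.mem_insert, Finset.mem_sdiff,
              Finset.mem_singleton] at hc ⊢
            rcases hc with ⟨h | h, h'⟩
            · exact h
            · exact absurd h h'.2
          exact (Finset.card_le_card this).trans (by simp))
        (by
          obtain ⟨p, hp⟩ := hP
          exact ⟨p, by simp [hp]⟩)
        (by
          obtain ⟨q, hq⟩ := hQ
          have h1 := (hmem q).1 (Or.inr hq)
          refine ⟨q, ?_⟩
          simp only [Finset.mem_sdiff, Finset.mem_insert, not_or]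
          exact ⟨⟨h1.2.2, fun h => hPQ q h hq⟩, h1.1, fun h => hPQ q h hq⟩)
      simp only [Finset.mem_sdiff, Finset.mem_insert, not_and, not_not, not_or] at ha hb
      have haP : a ∈ P := by
        rcases ha.1 with rfl | h
        · exact ha.2 hxW
        · exact h
      by_cases hbv : b = v
      · subst hbv
        exact hcon a haP hab.symm
      · have : b ∈ P ∨ b ∈ Q := (hmem b).2 ⟨hb.2.1, hbv, hb.1.1⟩
        rcases this with h | h
        · exact hb.2.2 h
        · exact hE a haP b h hab
    obtain ⟨y, hyP, hvy⟩ := hy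
    have hynb : y ∈ nb G v := (mem_nb _ _ _).2 hvy
    have hyx : y ≠ x := fun h => hxP (h ▸ hyP)
    obtain ⟨P2, Q2, h2⟩ := hall y hynb
    have hsplit : ∃ D E, TS G W v y D E ∧ x ∈ E := by
      have : x ∈ P2 ∪ Q2 := by
        rw [h2.2.2.2.2.1]
        exact Finset.mem_erase.2 ⟨hyx.symm, Finset.mem_erase.2 ⟨hxv, hxW⟩⟩
      rcases Finset.mem_union.1 this with h | h
      · refine ⟨Q2, P2, ⟨h2.1, h2.2.2.1, h2.2.1, h2.2.2.2.1.symm, ?_, ?_⟩, h⟩
        · rw [Finset.union_comm]; exact h2.2.2.2.2.1
        · intro p hp q hq hpq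
          exact h2.2.2.2.2.2 q hq p hp hpq.symm
      · exact ⟨P2, Q2, h2, h⟩
    obtain ⟨D, E, hDE, hxE⟩ := hsplit
    have hDE' := hDE
    obtain ⟨-, hD, hE0, hdisj2, hU2, hE2⟩ := hDE
    have hmem2 : ∀ c, c ∈ D ∨ c ∈ E ↔ c ≠ y ∧ c ≠ v ∧ c ∈ W := by
      intro c
      rw [← Finset.mem_union, hU2, Finset.mem_erase, Finset.mem_erase]
    have hxD : x ∉ D := fun h => Finset.disjoint_left.1 hdisj2 h hxE
    have hvD : v ∉ D := fun h => ((hmem2 v).1 (Or.inl h)).2.1 rfl
    have hDP : D ⊆ P.erase y := by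
      intro z hz
      have hz1 := (hmem2 z).1 (Or.inl hz)
      have hzx : z ≠ x := fun h => hxD (h ▸ hz)
      have hzPQ : z ∈ P ∨ z ∈ Q := (hmem z).2 ⟨hzx, hz1.2.1, hz1.2.2⟩
      rcases hzPQ with h | hzQ
      · exact Finset.mem_erase.2 ⟨hz1.1, h⟩
      · exfalso
        obtain ⟨a, ha, b, hb, hab⟩ := hN (insert v (D ∩ Q)) (W \ (D ∩ Q)) (by
            ext c
            simp only [Finset.mem_union, Finset.mem_insert, Finset.mem_sdiff, Finset.mem_inter]
            constructor
            · rintro ((rfl | h) | h)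
              · exact hv
              · exact ((hmem2 c).1 (Or.inl h.1)).2.2
              · exact h.1
            · intro h
              by_cases hc : c ∈ D ∧ c ∈ Q
              · exact Or.inl (Or.inr hc)
              · exact Or.inr ⟨h, hc⟩)
          (by
            have : insert v (D ∩ Q) ∩ (W \ (D ∩ Q)) ⊆ {v} := by
              intro c hc
              simp only [Finset.mem_inter, Finset.mem_insert, Finset.mem_sdiff,
                Finset.mem_singleton] at hc ⊢
              rcases hc with ⟨h | h, h'⟩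
              · exact h
              · exact absurd h h'.2
            exact (Finset.card_le_card this).trans (by simp))
          ⟨z, by simp [hz, hzQ]⟩
          (by
            refine ⟨x, ?_⟩
            simp only [Finset.mem_sdiff, Finset.mem_insert, Finset.mem_inter, not_or, not_and]
            exact ⟨⟨hxW, fun h => absurd h hxD⟩, hxv, fun h => absurd h hxD⟩)
        simp only [Finset.mem_sdiff, Finset.mem_insert, Finset.mem_inter, not_or] at ha hb
        have haDQ : a ∈ D ∧ a ∈ Q := by
          rcases ha.1 with rfl | h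
          · exact absurd ⟨hv, fun h => hvD h.1⟩ ha.2
          · exact h
        have hbv : b ≠ v := hb.2.1
        by_cases hby : b = y
        · subst hby
          exact hE b hyP a haDQ.2 hab.symm
        · have hb1 : b ∈ D ∨ b ∈ E := (hmem2 b).2 ⟨hby, hbv, hb.1.1⟩
          rcases hb1 with hbD | hbE
          · have hbx : b ≠ x := fun h => hxD (h ▸ hbD)
            have : b ∈ P ∨ b ∈ Q := (hmem b).2 ⟨hbx, hbv, hb.1.1⟩
            rcases this with h | h
            · exact hE b h a haDQ.2 hab.symm
            · exact hb.2.2 ⟨hbD, h⟩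
          · exact hE2 a haDQ.1 b hbE hab
    have hlt : D.card < n := by
      have h1 := Finset.card_le_card hDP
      rw [Finset.card_erase_of_mem hyP] at h1
      have h3 : 0 < P.card := Finset.card_pos.2 ⟨y, hyP⟩
      omega
    exact ih D.card hlt y D E hDE' rfl

theorem contract (W : Finset V) (G : SimpleGraph V) (hN : NoCut W G) (hG : Sup G W)
    (v : V) (hv : v ∈ W) :
    ∃ x ∈ nb G v, NoCut (W.erase v) (st (del G v) x ((nb G v).erase x)) := by
  by_contra hcon
  push Not at hcon
  have hall : ∀ x ∈ nb G v, ∃ P Q, TS G W v x P Q := fun x hx =>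
    ts_of_cut W G hN hG v hv x hx (hcon x hx)
  obtain ⟨w, hw⟩ := (hG v).1 hv
  obtain ⟨P, Q, h⟩ := hall w ((mem_nb _ _ _).2 hw)
  exact ts_false W G hN hG v hv hall _ w P Q h rfl

theorem bet_K2 (W : Finset V) (G : SimpleGraph V) (hG : Sup G W) (hW : W.card = 2) :
    bet W G = 1 := by
  have h0 : W.Nonempty := Finset.card_pos.1 (by omega)
  obtain ⟨a, ha⟩ := h0
  obtain ⟨x, hx⟩ := (hG a).1 ha
  have hsub := nb_subset G W hG a
  have hnb : nb G a = {x} := by
    symm
    apply Finset.eq_of_subset_of_card_le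
    · intro y hy
      rw [Finset.mem_singleton] at hy
      subst hy
      rw [mem_nb]; exact hx
    · have := Finset.card_le_card hsub
      rw [Finset.card_erase_of_mem ha] at this
      rw [Finset.card_singleton]
      omega
  have hGe : G = st (del G a) a {x} := by rw [← hnb, st_del_nb]
  have hvi : ∀ w, ¬ (del G a).Adj a w := fun w h => h.2.1 rfl
  have hE : ∀ b c, ¬ (del G a).Adj b c := by
    intro b c h
    have h1 : ({a, b, c} : Finset V).card ≤ W.card := Finset.card_le_card (by
      intro d hd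
      simp only [Finset.mem_insert, Finset.mem_singleton] at hd
      rcases hd with rfl | rfl | rfl
      · exact ha
      · exact (hG _).2 ⟨c, h.1⟩
      · exact (hG _).2 ⟨b, h.1.symm⟩)
    rw [Finset.card_eq_three.2 ⟨a, b, c, h.2.1.symm, h.2.2.symm, h.1.ne, rfl⟩] at h1
    omega
  have hD : D G = 1 := by
    rw [hGe, D_leaf (del G a) a x hvi hx.ne']
    exact eval_one_edgeless _ hE
  unfold bet
  rw [hD, hW]
  norm_num

theorem nocut_bet (n : ℕ) : ∀ (W : Finset V) (G : SimpleGraph V), W.card = n → 2 ≤ n →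
    Sup G W → NoCut W G → 1 ≤ bet W G := by
  induction n with
  | zero => intro W G _ h; omega
  | succ n ih =>
    intro W G hW h2 hG hN
    by_cases hn : n + 1 = 2
    · rw [bet_K2 W G hG (by omega)]
    · have h3 : 3 ≤ W.card := by omega
      have hdeg := nocut_deg W G hN hG h3
      have h0 : W.Nonempty := Finset.card_pos.1 (by omega)
      obtain ⟨v, hv⟩ := h0
      obtain ⟨x, hx, hNx⟩ := contract W G hN hG v hv
      have hH := sup_del G W hG v hdeg
      have hsub := nb_subset G W hG v
      have hne : ((nb G v).erase x).Nonempty := by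
        rw [← Finset.card_pos, Finset.card_erase_of_mem hx, ← deg_eq]
        have := hdeg v hv
        omega
      have h4 := term_le (del G v) (W.erase v) hH v (Finset.notMem_erase v W) (nb G v) hsub x hx hne
      rw [st_del_nb, Finset.insert_erase hv] at h4
      have h5 := ih (W.erase v) _ (by rw [Finset.card_erase_of_mem hv]; omega) (by omega)
        (sup_st _ _ hH x _ (hsub hx) ((Finset.erase_subset _ _).trans hsub)) hNx
      linarith

end

/-! ### from the chromatic polynomial -/

/-- `χ(G; q) = ∏_{m ≤ k} (q - m)^(r m)` -/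
def InFamily {V : Type} (G : SimpleGraph V) (k : ℕ) (r : ℕ → ℕ) : Prop :=
  ∀ q : ℕ, (Nat.card (G.Coloring (Fin q)) : ℤ) =
    ∏ m ∈ Finset.range (k + 1), ((q : ℤ) - (m : ℤ)) ^ (r m)

def colEquiv {V : Type} (G : SimpleGraph V) (A : Type) : G.Coloring A ≃ Col G A where
  toFun c := ⟨c, fun u v h => c.valid h⟩
  invFun c := Coloring.mk c.1 (fun {u v} h => c.2 u v h)
  left_inv c := by ext; rfl
  right_inv c := by rfl

theorem card_col {V : Type} [Fintype V] (G : SimpleGraph V) (q : ℕ) :
    Nat.card (G.Coloring (Fin q)) = cnt G q := by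
  rw [Nat.card_congr (colEquiv G (Fin q)), Nat.card_eq_fintype_card]
  rfl

/-! ### adding an edge across a small separation -/

theorem walk {V : Type} (G : SimpleGraph V) (A B : Finset V) (t : V) (hcov : ∀ c, c ∈ A ∨ c ∈ B)
    (hI : ∀ c, c ∈ A → c ∈ B → c = t)
    (hE : ∀ a, a ∈ A → a ∉ B → ∀ b, b ∈ B → b ∉ A → ¬ G.Adj a b) (m : ℕ)
    (f : cycleGraph (m + 4) ↪g G) (u : ℕ → Fin (m + 4)) (hu : ∀ s, u (s + 1) = u s + 1)
    (k : ℕ) (h0 : f (u 0) ∈ A ∧ f (u 0) ∉ B) (hk : f (u k) ∈ B ∧ f (u k) ∉ A) :
    ∃ s, 1 ≤ s ∧ s < k ∧ f (u s) = t := by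
  classical
  have hex : ∃ s, ¬ (f (u s) ∈ A ∧ f (u s) ∉ B) := ⟨k, fun h => hk.2 h.1⟩
  have hs := Nat.find_spec hex
  have hmin := fun m' => Nat.find_min hex (m := m')
  have hle := Nat.find_min' hex (m := k) (fun h => hk.2 h.1)
  set s := Nat.find hex with hsdef
  have hs0 : s ≠ 0 := by
    intro h
    rw [h] at hs
    exact hs h0
  obtain ⟨s', hs'⟩ := Nat.exists_eq_succ_of_ne_zero hs0
  have hprev := not_not.1 (hmin s' (by omega))
  have hadj : G.Adj (f (u s')) (f (u s)) := by
    rw [hs', Nat.succ_eq_add_one, hu s']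
    refine f.map_rel_iff.2 ?_
    rw [cycleGraph_adj]
    right
    exact add_sub_cancel_left _ 1
  have hA : f (u s) ∈ A := by
    by_contra h
    have hB : f (u s) ∈ B := by
      rcases hcov (f (u s)) with h' | h'
      · exact absurd h' h
      · exact h'
    exact hE _ hprev.1 hprev.2 _ hB h hadj
  have hB : f (u s) ∈ B := by
    by_contra h
    exact hs ⟨hA, h⟩
  refine ⟨s, by omega, ?_, hI _ hA hB⟩
  rcases Nat.lt_or_ge s k with h | h
  · exact h
  · exfalso
    have : s = k := by omega
    rw [this] at hA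
    exact hk.2 hA

theorem cycle_side {V : Type} (G : SimpleGraph V) (A B : Finset V) (t : V)
    (hcov : ∀ c, c ∈ A ∨ c ∈ B) (hI : ∀ c, c ∈ A → c ∈ B → c = t)
    (hE : ∀ a, a ∈ A → a ∉ B → ∀ b, b ∈ B → b ∉ A → ¬ G.Adj a b) (m : ℕ)
    (f : cycleGraph (m + 4) ↪g G) (i j : Fin (m + 4)) (hi : f i ∈ A ∧ f i ∉ B)
    (hj : f j ∈ B ∧ f j ∉ A) : False := by
  have hij : i.val ≠ j.val := by
    intro h
    have : i = j := Fin.ext h
    subst this
    exact hj.2 hi.1
  let u : Fin (m + 4) → ℕ → Fin (m + 4) := fun i s => ⟨(i.val + s) % (m + 4),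
    Nat.mod_lt _ (by omega)⟩
  have hu : ∀ i s, u i (s + 1) = u i s + 1 := by
    intro i s
    apply Fin.ext
    rw [Fin.val_add]
    have h1 : ((1 : Fin (m + 4)) : ℕ) = 1 := by simp
    rw [h1]
    change (i.val + (s + 1)) % (m + 4) = ((i.val + s) % (m + 4) + 1) % (m + 4)
    rw [Nat.mod_add_mod]
    rfl
  have hu0 : ∀ i, u i 0 = i := by
    intro i
    apply Fin.ext
    exact Nat.mod_eq_of_lt i.isLt
  have huk : ∀ i j : Fin (m + 4), u i (if i.val ≤ j.val then j.val - i.val
      else j.val + (m + 4) - i.val) = j := by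
    intro i j
    apply Fin.ext
    change (i.val + _) % (m + 4) = j.val
    have hi' := i.isLt
    have hj' := j.isLt
    split_ifs with h
    · have : i.val + (j.val - i.val) = j.val := by omega
      rw [this, Nat.mod_eq_of_lt hj']
    · have : i.val + (j.val + (m + 4) - i.val) = j.val + (m + 4) := by omega
      rw [this, Nat.add_mod_right, Nat.mod_eq_of_lt hj']
  obtain ⟨s1, h1, h2, h3⟩ := walk G A B t hcov hI hE m f (u i) (hu i) _ (by rw [hu0]; exact hi)
    (by rw [huk i j]; exact hj)
  obtain ⟨s2, h4, h5, h6⟩ := walk G B A t (fun c => (hcov c).symm) (fun c h h' => hI c h' h)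
    (fun a ha ha' b hb hb' h => hE b hb hb' a ha ha' h.symm) m f (u j) (hu j) _
    (by rw [hu0]; exact hj) (by rw [huk j i]; exact hi)
  have h7 : u i s1 = u j s2 := f.injective (h3.trans h6.symm)
  have h8 : (i.val + s1) % (m + 4) = (j.val + s2) % (m + 4) := congrArg Fin.val h7
  have hi' := i.isLt
  have hj' := j.isLt
  by_cases hlt : i.val < j.val
  · rw [if_pos (by omega)] at h2
    rw [if_neg (by omega)] at h5
    rw [Nat.mod_eq_of_lt (by omega : i.val + s1 < m + 4)] at h8
    by_cases h9 : j.val + s2 < m + 4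
    · rw [Nat.mod_eq_of_lt h9] at h8
      omega
    · rw [Nat.mod_eq_sub_mod (by omega : j.val + s2 ≥ m + 4),
        Nat.mod_eq_of_lt (by omega : j.val + s2 - (m + 4) < m + 4)] at h8
      omega
  · rw [if_neg (by omega)] at h2
    rw [if_pos (by omega)] at h5
    rw [Nat.mod_eq_of_lt (by omega : j.val + s2 < m + 4)] at h8
    by_cases h9 : i.val + s1 < m + 4
    · rw [Nat.mod_eq_of_lt h9] at h8
      omega
    · rw [Nat.mod_eq_sub_mod (by omega : i.val + s1 ≥ m + 4),
        Nat.mod_eq_of_lt (by omega : i.val + s1 - (m + 4) < m + 4)] at h8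
      omega

section
variable {V : Type} [Fintype V] [DecidableEq V]

/-- recolouring one side of a separation -/
theorem swap_equiv (G : SimpleGraph V) (A B : Finset V) (t x y : V)
    (hcov : ∀ c, c ∈ A ∨ c ∈ B) (hI : ∀ c, c ∈ A → c ∈ B → c = t)
    (hE : ∀ a, a ∈ A → a ∉ B → ∀ b, b ∈ B → b ∉ A → ¬ G.Adj a b)
    (hx : x ∈ A) (hy : y ∉ A) (htx : t ∈ A → t ∈ B → G.Adj t x ∧ G.Adj t y) (q : ℕ) :
    Nonempty ({p : (V → Fin q) × Fin q // (∀ u w, G.Adj u w → p.1 u ≠ p.1 w) ∧ p.1 x = p.1 y ∧
      (t ∈ A → t ∈ B → p.2 ≠ p.1 t)} ≃ Col G (Fin q)) := by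
  -- every edge lies on one side
  have hside : ∀ u w, G.Adj u w → (u ∈ A ∧ w ∈ A) ∨ (u ∉ A ∧ w ∉ A) ∨
      (u = t ∧ t ∈ A ∧ t ∈ B ∧ w ∉ A) ∨ (w = t ∧ t ∈ A ∧ t ∈ B ∧ u ∉ A) := by
    intro u w h
    by_cases hu : u ∈ A
    · by_cases hw : w ∈ A
      · exact Or.inl ⟨hu, hw⟩
      · have hwB : w ∈ B := (hcov w).resolve_left hw
        have huB : u ∈ B := by
          by_contra huB
          exact hE u hu huB w hwB hw h
        have := hI u hu huB
        subst this
        exact Or.inr (Or.inr (Or.inl ⟨rfl, hu, huB, hw⟩))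
    · by_cases hw : w ∈ A
      · have huB : u ∈ B := (hcov u).resolve_left hu
        have hwB : w ∈ B := by
          by_contra hwB
          exact hE w hw hwB u huB hu h.symm
        have := hI w hw hwB
        subst this
        exact Or.inr (Or.inr (Or.inr ⟨rfl, hw, hwB, hu⟩))
      · exact Or.inr (Or.inl ⟨hu, hw⟩)
  -- the recoloured function is proper
  have hprop : ∀ (c : V → Fin q), (∀ u w, G.Adj u w → c u ≠ c w) → ∀ a b : Fin q,
      (t ∈ A → t ∈ B → c t ≠ a ∧ c t ≠ b) → ∀ u w, G.Adj u w →
      (if u ∈ A then c u else Equiv.swap a b (c u)) ≠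
      (if w ∈ A then c w else Equiv.swap a b (c w)) := by
    intro c hc a b hab u w huw
    rcases hside u w huw with ⟨h1, h2⟩ | ⟨h1, h2⟩ | ⟨h0, h1, h2, h3⟩ | ⟨h0, h1, h2, h3⟩
    · rw [if_pos h1, if_pos h2]
      exact hc u w huw
    · rw [if_neg h1, if_neg h2]
      intro h
      exact hc u w huw ((Equiv.swap a b).injective h)
    · subst h0
      rw [if_pos h1, if_neg h3]
      intro h
      have h4 := hab h1 h2
      have h5 : Equiv.swap a b (c u) = c u := Equiv.swap_apply_of_ne_of_ne h4.1 h4.2
      rw [← h5] at h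
      exact hc u w huw ((Equiv.swap a b).injective h)
    · subst h0
      rw [if_neg h3, if_pos h1]
      intro h
      have h4 := hab h1 h2
      have h5 : Equiv.swap a b (c w) = c w := Equiv.swap_apply_of_ne_of_ne h4.1 h4.2
      rw [← h5] at h
      exact hc u w huw ((Equiv.swap a b).injective h)
  let F : (V → Fin q) → Fin q → Fin q → V → Fin q := fun c a b w =>
    if w ∈ A then c w else Equiv.swap a b (c w)
  have hF1 : ∀ c a b w, w ∈ A → F c a b w = c w := fun c a b w h => if_pos h
  have hF2 : ∀ c a b w, w ∉ A → F c a b w = Equiv.swap a b (c w) := fun c a b w h => if_neg h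
  have hFF : ∀ c a b, F (F c a b) a b = c := by
    intro c a b
    funext w
    by_cases h : w ∈ A
    · rw [hF1 _ _ _ _ h, hF1 _ _ _ _ h]
    · rw [hF2 _ _ _ _ h, hF2 _ _ _ _ h, Equiv.swap_apply_self]
  refine ⟨⟨fun p => ⟨F p.1.1 (p.1.1 y) p.1.2, ?_⟩,
    fun c => ⟨(F c.1 (c.1 x) (c.1 y), c.1 y), ?_, ?_, ?_⟩, ?_, ?_⟩⟩
  · exact hprop p.1.1 p.2.1 _ _ (fun h1 h2 =>
      ⟨p.2.1 t y (htx h1 h2).2, (p.2.2.2 h1 h2).symm⟩)
  · exact hprop c.1 c.2 _ _ (fun h1 h2 => ⟨c.2 t x (htx h1 h2).1, c.2 t y (htx h1 h2).2⟩)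
  · change F c.1 (c.1 x) (c.1 y) x = F c.1 (c.1 x) (c.1 y) y
    rw [hF1 _ _ _ _ hx, hF2 _ _ _ _ hy, Equiv.swap_apply_right]
  · intro h1 h2
    change c.1 y ≠ F c.1 (c.1 x) (c.1 y) t
    rw [hF1 _ _ _ _ h1]
    exact (c.2 t y (htx h1 h2).2).symm
  · rintro ⟨⟨c, a⟩, h1, h2, h3⟩
    apply Subtype.ext
    have e1 : F c (c y) a x = c y := by rw [hF1 _ _ _ _ hx]; exact h2
    have e2 : F c (c y) a y = a := by rw [hF2 _ _ _ _ hy, Equiv.swap_apply_left]
    change (F (F c (c y) a) (F c (c y) a x) (F c (c y) a y), F c (c y) a y) = (c, a)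
    rw [e1, e2, hFF]
  · intro c
    apply Subtype.ext
    have e2 : F c.1 (c.1 x) (c.1 y) y = c.1 x := by
      rw [hF2 _ _ _ _ hy, Equiv.swap_apply_right]
    change F (F c.1 (c.1 x) (c.1 y)) (F c.1 (c.1 x) (c.1 y) y) (c.1 y) = c.1
    rw [e2, hFF]

/-- colourings of `G` with `x, y` of different colours -/
theorem cnt_add (G : SimpleGraph V) (x y : V) (hxy : x ≠ y) (q : ℕ) :
    cnt G q = cnt (st G x {y}) q + Fintype.card {c : Col G (Fin q) // c.1 x = c.1 y} := by
  classical
  have e2 : {c : Col G (Fin q) // ¬ c.1 x = c.1 y} ≃ Col (st G x {y}) (Fin q) :=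
    { toFun := fun c => ⟨c.1.1, by
        rintro a b (h | ⟨rfl, h2, h3⟩ | ⟨rfl, h2, h3⟩)
        · exact c.1.2 a b h
        · rw [Finset.mem_singleton] at h2
          subst h2
          exact c.2
        · rw [Finset.mem_singleton] at h2
          subst h2
          exact fun h' => c.2 h'.symm⟩
      invFun := fun c => ⟨⟨c.1, fun a b h => c.2 a b (Or.inl h)⟩,
        c.2 x y (Or.inr (Or.inl ⟨rfl, Finset.mem_singleton_self y, hxy.symm⟩))⟩
      left_inv := by intro c; rfl
      right_inv := by intro c; rfl }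
  have h := Fintype.card_congr (Equiv.sumCompl (fun c : Col G (Fin q) => c.1 x = c.1 y))
  rw [Fintype.card_sum, Fintype.card_congr e2] at h
  unfold cnt
  omega

/-- joining two parts of a disconnected graph -/
theorem cnt_join (G : SimpleGraph V) (A B : Finset V) (x y : V)
    (hcov : ∀ c, c ∈ A ∨ c ∈ B) (hI : ∀ c, c ∈ A → c ∈ B → False)
    (hE : ∀ a, a ∈ A → ∀ b, b ∈ B → ¬ G.Adj a b)
    (hx : x ∈ A) (hy : y ∈ B) (q : ℕ) :
    (q : ℤ) * cnt (st G x {y}) q = (q - 1) * cnt G q := by
  classical
  have hyA : y ∉ A := fun h => hI y h hy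
  have hxy : x ≠ y := fun h => hyA (h ▸ hx)
  obtain ⟨e⟩ := swap_equiv G A B x x y hcov (fun c h h' => (hI c h h').elim)
    (fun a ha _ b hb _ => hE a ha b hb) hx hyA (fun _ h => (hI x hx h).elim) q
  have e' : {p : (V → Fin q) × Fin q // (∀ u w, G.Adj u w → p.1 u ≠ p.1 w) ∧ p.1 x = p.1 y ∧
      (x ∈ A → x ∈ B → p.2 ≠ p.1 x)} ≃ {c : Col G (Fin q) // c.1 x = c.1 y} × Fin q :=
    { toFun := fun p => (⟨⟨p.1.1, p.2.1⟩, p.2.2.1⟩, p.1.2)
      invFun := fun p => ⟨(p.1.1.1, p.2), p.1.1.2, p.1.2, fun _ h => (hI x hx h).elim⟩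
      left_inv := by intro p; rfl
      right_inv := by intro p; rfl }
  have h1 := Fintype.card_congr (e'.symm.trans e)
  rw [Fintype.card_prod, Fintype.card_fin] at h1
  have h2 := cnt_add G x y hxy q
  have h3 : Fintype.card (Col G (Fin q)) = cnt G q := rfl
  rw [h3] at h1
  have h1' : ((Fintype.card {c : Col G (Fin q) // c.1 x = c.1 y} : ℕ) : ℤ) * q = cnt G q := by
    exact_mod_cast h1
  have h2' : (cnt G q : ℤ) = cnt (st G x {y}) q +
      (Fintype.card {c : Col G (Fin q) // c.1 x = c.1 y} : ℕ) := by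
    exact_mod_cast h2
  linear_combination (-(q : ℤ)) * h2' - h1'

/-- adding an edge across a cut vertex -/
theorem cnt_cutv (G : SimpleGraph V) (A B : Finset V) (t x y : V)
    (hcov : ∀ c, c ∈ A ∨ c ∈ B) (hI : ∀ c, c ∈ A → c ∈ B → c = t)
    (hE : ∀ a, a ∈ A → a ∉ B → ∀ b, b ∈ B → b ∉ A → ¬ G.Adj a b)
    (hx : x ∈ A) (hy : y ∉ A) (htA : t ∈ A) (htB : t ∈ B) (htx : G.Adj t x) (hty : G.Adj t y)
    (q : ℕ) :
    ((q : ℤ) - 1) * cnt (st G x {y}) q = (q - 2) * cnt G q := by
  classical
  have hxy : x ≠ y := fun h => hy (h ▸ hx)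
  obtain ⟨e⟩ := swap_equiv G A B t x y hcov hI hE hx hy (fun _ _ => ⟨htx, hty⟩) q
  have e' : {p : (V → Fin q) × Fin q // (∀ u w, G.Adj u w → p.1 u ≠ p.1 w) ∧ p.1 x = p.1 y ∧
      (t ∈ A → t ∈ B → p.2 ≠ p.1 t)} ≃ Σ c : {c : Col G (Fin q) // c.1 x = c.1 y},
        {a : Fin q // a ≠ c.1.1 t} :=
    { toFun := fun p => ⟨⟨⟨p.1.1, p.2.1⟩, p.2.2.1⟩, ⟨p.1.2, p.2.2.2 htA htB⟩⟩
      invFun := fun p => ⟨(p.1.1.1, p.2.1), p.1.1.2, p.1.2, fun _ _ => p.2.2⟩
      left_inv := by intro p; rfl
      right_inv := by intro p; rfl }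
  have h1 := Fintype.card_congr (e'.symm.trans e)
  rw [Fintype.card_sigma] at h1
  have h2 := cnt_add G x y hxy q
  have h3 : Fintype.card (Col G (Fin q)) = cnt G q := rfl
  rw [h3] at h1
  have h4 : ∀ c : {c : Col G (Fin q) // c.1 x = c.1 y},
      Fintype.card {a : Fin q // a ≠ c.1.1 t} = q - 1 := by
    intro c
    rw [Fintype.card_subtype_compl, Fintype.card_fin]
    simp
  rw [Finset.sum_congr rfl (fun c _ => h4 c), Finset.sum_const, Finset.card_univ,
    smul_eq_mul] at h1
  have h2' : (cnt G q : ℤ) = cnt (st G x {y}) q +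
      (Fintype.card {c : Col G (Fin q) // c.1 x = c.1 y} : ℕ) := by
    exact_mod_cast h2
  rcases Nat.eq_zero_or_pos q with hq | hq
  · subst hq
    have h5 : cnt G 0 = 0 := by
      unfold cnt
      rw [Fintype.card_eq_zero_iff]
      exact ⟨fun c => (c.1 x).elim0⟩
    have h6 : cnt (st G x {y}) 0 = 0 := by omega
    rw [h5, h6]
    simp
  · have h1' : ((Fintype.card {c : Col G (Fin q) // c.1 x = c.1 y} : ℕ) : ℤ) * ((q : ℤ) - 1) =
        cnt G q := by
      rw [← h1]
      push_cast [Nat.cast_sub hq]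
      ring
    linear_combination (-((q : ℤ) - 1)) * h2' - h1'

theorem transfer (G : SimpleGraph V) (A B : Finset V) (t x y : V)
    (hcov : ∀ c, c ∈ A ∨ c ∈ B) (hI : ∀ c, c ∈ A → c ∈ B → c = t)
    (hE : ∀ a, a ∈ A → a ∉ B → ∀ b, b ∈ B → b ∉ A → ¬ G.Adj a b)
    (hxA : x ∈ A) (hxB : x ∉ B) (hyB : y ∈ B) (hyA : y ∉ A)
    (h : ¬ HasChordlessCycle (st G x {y})) : ¬ HasChordlessCycle G := by
  rintro ⟨n, hn, ⟨f⟩⟩
  obtain ⟨m, rfl⟩ := Nat.exists_eq_add_of_le' hn
  have hnot : ∀ i j, f i = x → f j = y → False := by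
    intro i j hi hj
    exact cycle_side G A B t hcov hI hE m f i j (by rw [hi]; exact ⟨hxA, hxB⟩)
      (by rw [hj]; exact ⟨hyB, hyA⟩)
  apply h
  refine ⟨m + 4, hn, ⟨⟨f.toEmbedding, ?_⟩⟩⟩
  intro a b
  constructor
  · rintro (h1 | ⟨h1, h2, h3⟩ | ⟨h1, h2, h3⟩)
    · exact f.map_rel_iff.1 h1
    · exact (hnot a b h1 (Finset.mem_singleton.1 h2)).elim
    · exact (hnot b a h1 (Finset.mem_singleton.1 h2)).elim
  · intro h1
    exact Or.inl (f.map_rel_iff.2 h1)

theorem cnt_cone (G : SimpleGraph V) (q : ℕ) :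
    cnt (ext G univ) (q + 1) = (q + 1) * cnt G q := by
  classical
  have e1 : Col (ext G univ) (Fin (q + 1)) ≃
      Σ x : Fin (q + 1), Col G {y : Fin (q + 1) // y ≠ x} :=
    { toFun := fun c => ⟨c.1 none, ⟨fun v => ⟨c.1 (some v), c.2 (some v) none (Finset.mem_univ v)⟩,
        fun u v h h' => c.2 (some u) (some v) h (congrArg Subtype.val h')⟩⟩
      invFun := fun p => ⟨fun o => o.elim p.1 (fun v => (p.2.1 v).1), by
        rintro (_ | u) (_ | v) h
        · exact h.elim
        · exact (p.2.1 v).2.symm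
        · exact (p.2.1 u).2
        · exact fun h' => p.2.2 u v h (Subtype.ext h')⟩
      left_inv := by
        intro c
        apply Subtype.ext
        funext o
        cases o <;> rfl
      right_inv := by intro p; rfl }
  have e2 : ∀ x : Fin (q + 1), Fintype.card (Col G {y : Fin (q + 1) // y ≠ x}) =
      Fintype.card (Col G (Fin q)) := by
    intro x
    have e : {y : Fin (q + 1) // y ≠ x} ≃ Fin q := (finSuccAboveEquiv x).symm
    apply Fintype.card_congr
    exact
      { toFun := fun c => ⟨fun v => e (c.1 v), fun u v h h' => c.2 u v h (e.injective h')⟩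
        invFun := fun c => ⟨fun v => e.symm (c.1 v),
          fun u v h h' => c.2 u v h (e.symm.injective h')⟩
        left_inv := by intro c; apply Subtype.ext; funext v; simp
        right_inv := by intro c; apply Subtype.ext; funext v; simp }
  unfold cnt
  rw [Fintype.card_congr e1, Fintype.card_sigma, Finset.sum_congr rfl (fun x _ => e2 x)]
  simp

theorem poly_cone (G : SimpleGraph V) :
    poly (ext G univ) = X * (poly G).comp (X - C 1) := by
  apply poly_ext_nat
  intro q
  rw [poly_eval, eval_mul, eval_X, eval_comp, eval_sub, eval_X, eval_C]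
  rcases q with _ | q
  · have : cnt (ext G univ) 0 = 0 := by
      unfold cnt
      rw [Fintype.card_eq_zero_iff]
      exact ⟨fun c => (c.1 none).elim0⟩
    rw [this]
    simp
  · rw [cnt_cone]
    have : ((q + 1 : ℕ) : ℤ) - 1 = (q : ℤ) := by push_cast; ring
    rw [this, poly_eval]
    push_cast
    ring

theorem nocut_cone (G : SimpleGraph V) (hN : NoCut univ G) :
    NoCut (univ : Finset (Option V)) (ext G univ) := by
  intro A B hU hI hA hB
  by_cases hnB : none ∈ B
  · by_cases hnA : none ∈ A
    · have hI' : ∀ c, c ∈ A → c ∈ B → c = none := by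
        intro c h1 h2
        exact Finset.card_le_one.1 hI c (Finset.mem_inter.2 ⟨h1, h2⟩) none
          (Finset.mem_inter.2 ⟨hnA, hnB⟩)
      obtain ⟨a, ha, b, hb, hab⟩ := hN (univ.filter (fun v => some v ∈ A))
        (univ.filter (fun v => some v ∈ B)) (by
          ext v
          simp only [Finset.mem_union, Finset.mem_filter, Finset.mem_univ, true_and, iff_true]
          have : some v ∈ A ∪ B := by rw [hU]; exact Finset.mem_univ _
          exact Finset.mem_union.1 this)
        (by
          have : (univ.filter (fun v => some v ∈ A)) ∩ (univ.filter (fun v => some v ∈ B)) =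
              (∅ : Finset V) := by
            rw [Finset.eq_empty_iff_forall_notMem]
            intro v hv
            simp only [Finset.mem_inter, Finset.mem_filter, Finset.mem_univ, true_and] at hv
            exact Option.some_ne_none v (hI' _ hv.1 hv.2)
          rw [this]
          simp)
        (by
          obtain ⟨c, hc⟩ := hA
          rw [Finset.mem_sdiff] at hc
          cases c with
          | none => exact absurd hnB hc.2
          | some v => exact ⟨v, by simp [hc.1, hc.2]⟩)
        (by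
          obtain ⟨c, hc⟩ := hB
          rw [Finset.mem_sdiff] at hc
          cases c with
          | none => exact absurd hnA hc.2
          | some v => exact ⟨v, by simp [hc.1, hc.2]⟩)
      simp only [Finset.mem_sdiff, Finset.mem_filter, Finset.mem_univ, true_and] at ha hb
      exact ⟨some a, Finset.mem_sdiff.2 ha, some b, Finset.mem_sdiff.2 hb, hab⟩
    · obtain ⟨a, ha⟩ := hA
      have ha' := Finset.mem_sdiff.1 ha
      cases a with
      | none => exact absurd ha'.1 hnA
      | some v => exact ⟨some v, ha, none, Finset.mem_sdiff.2 ⟨hnB, hnA⟩, Finset.mem_univ v⟩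
  · have hnA : none ∈ A := by
      have : (none : Option V) ∈ A ∪ B := by rw [hU]; exact Finset.mem_univ _
      exact (Finset.mem_union.1 this).resolve_right hnB
    obtain ⟨b, hb⟩ := hB
    have hb' := Finset.mem_sdiff.1 hb
    cases b with
    | none => exact absurd hb'.1 hnB
    | some v => exact ⟨none, Finset.mem_sdiff.2 ⟨hnA, hnB⟩, some v, hb, Finset.mem_univ v⟩

theorem sup_of_nocut (G : SimpleGraph V) (hN : NoCut univ G) (h2 : 2 ≤ Fintype.card V) :
    Sup G univ := by
  intro v
  refine ⟨fun _ => ?_, fun _ => Finset.mem_univ v⟩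
  obtain ⟨w, hw⟩ := Fintype.exists_ne_of_one_lt_card (by omega : 1 < Fintype.card V) v
  obtain ⟨a, ha, b, hb, hab⟩ := hN {v} (univ.erase v) (by
      ext c
      simp only [Finset.mem_union, Finset.mem_singleton, Finset.mem_erase, Finset.mem_univ,
        and_true, iff_true]
      exact em _)
    (by
      have : ({v} : Finset V) ∩ univ.erase v = ∅ := by
        rw [Finset.eq_empty_iff_forall_notMem]
        intro c hc
        simp only [Finset.mem_inter, Finset.mem_singleton, Finset.mem_erase, Finset.mem_univ,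
          and_true] at hc
        exact hc.2 hc.1
      rw [this]
      simp)
    ⟨v, by simp⟩ ⟨w, by simp [hw]⟩
  have ha' := (Finset.mem_sdiff.1 ha).1
  rw [Finset.mem_singleton] at ha'
  subst ha'
  exact ⟨b, hab⟩

theorem D_zero (G : SimpleGraph V) (R : ℤ[X]) (h : poly G = (X - C 1) ^ 2 * R) : D G = 0 := by
  unfold D
  rw [h, derivative_mul, derivative_pow]
  simp

omit [DecidableEq V] in
theorem e2_le (G : SimpleGraph V) : e2 G ≤ Fintype.card V * Fintype.card V := by
  unfold e2
  calc ∑ v, deg G v ≤ ∑ _v : V, Fintype.card V := Finset.sum_le_sum (fun v _ => by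
        rw [deg_eq]; exact Finset.card_le_univ _)
    _ = Fintype.card V * Fintype.card V := by simp

theorem chordal_card (G : SimpleGraph V) (h : Fintype.card V ≤ 3) : ¬ HasChordlessCycle G := by
  rintro ⟨n, hn, ⟨f⟩⟩
  have := Fintype.card_le_of_injective f f.injective
  rw [Fintype.card_fin] at this
  omega

end

section
variable {V : Type} [Fintype V] [DecidableEq V]

/-- `Y` contains all outside neighbours of `X` -/
def Bd (G : SimpleGraph V) (X Y : Finset V) : Prop := ∀ a ∈ X, ∀ b, G.Adj a b → b ∈ X ∨ b ∈ Y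

omit [Fintype V] in
theorem bd_one (W : Finset V) (G : SimpleGraph V) (hN : NoCut W G) (X Y : Finset V) (hX : X ⊆ W)
    (hX0 : X.Nonempty) (hbd : Bd G X Y) (hY : Y.card ≤ 1) (hd : ∀ c ∈ X, c ∉ Y) (t : V) (ht : t ∈ W)
    (htX : t ∉ X) (htY : t ∉ Y) : False := by
  obtain ⟨a, ha, b, hb, hab⟩ := hN (W.filter (fun c => c ∈ X ∨ c ∈ Y)) (W \ X) (by
      ext c
      simp only [Finset.mem_union, Finset.mem_filter, Finset.mem_sdiff]
      constructor
      · rintro (h | h)
        exacts [h.1, h.1]
      · intro h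
        by_cases hc : c ∈ X
        · exact Or.inl ⟨h, Or.inl hc⟩
        · exact Or.inr ⟨h, hc⟩)
    (by
      refine (Finset.card_le_card (t := Y) ?_).trans hY
      intro c hc
      simp only [Finset.mem_inter, Finset.mem_filter, Finset.mem_sdiff] at hc
      tauto)
    (by
      obtain ⟨c, hc⟩ := hX0
      exact ⟨c, by simp [hc, hX hc]⟩)
    ⟨t, by simp [ht, htX, htY]⟩
  simp only [Finset.mem_filter, Finset.mem_sdiff] at ha hb
  have haX : a ∈ X := by tauto
  rcases hbd a haX b hab with h | h
  · exact hb.1.2 h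
  · exact hb.2 ⟨hb.1.1, Or.inr h⟩

/-- a separation of order two -/
def TS2 (G : SimpleGraph V) (W : Finset V) (v x : V) (P Q : Finset V) : Prop :=
  v ∈ W ∧ x ∈ W ∧ v ≠ x ∧ P.Nonempty ∧ Q.Nonempty ∧ (∀ c, c ∈ P → c ∈ Q → False) ∧
    (∀ c, c ∈ P ∨ c ∈ Q ↔ c ≠ x ∧ c ≠ v ∧ c ∈ W) ∧
    ∀ p ∈ P, ∀ q ∈ Q, ¬ G.Adj p q

omit [Fintype V] in
theorem ts2_symm {G : SimpleGraph V} {W : Finset V} {v x : V} {P Q : Finset V}
    (h : TS2 G W v x P Q) : TS2 G W v x Q P := by
  obtain ⟨h1, h2, h3, h4, h5, h6, h7, h8⟩ := h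
  exact ⟨h1, h2, h3, h5, h4, fun c a b => h6 c b a, fun c => by rw [or_comm]; exact h7 c,
    fun p hp q hq hpq => h8 q hq p hp hpq.symm⟩

omit [Fintype V] in
theorem ts2_swap {G : SimpleGraph V} {W : Finset V} {v x : V} {P Q : Finset V}
    (h : TS2 G W v x P Q) : TS2 G W x v P Q := by
  obtain ⟨h1, h2, h3, h4, h5, h6, h7, h8⟩ := h
  exact ⟨h2, h1, h3.symm, h4, h5, h6, fun c => by rw [h7 c]; tauto, h8⟩

omit [Fintype V] in
theorem ts2_of_cut (W : Finset V) (G : SimpleGraph V) (hN : NoCut W G) (v : V) (hv : v ∈ W)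
    (hc : ¬ NoCut (W.erase v) (del G v)) (hG : Sup G W) : ∃ x P Q, TS2 G W v x P Q := by
  unfold NoCut at hc
  push Not at hc
  obtain ⟨A, B, hU, hI, hA, hB, hE⟩ := hc
  have hvA : v ∉ A := fun h => Finset.notMem_erase v W (hU ▸ Finset.mem_union_left B h)
  have hvB : v ∉ B := fun h => Finset.notMem_erase v W (hU ▸ Finset.mem_union_right A h)
  have hmem : ∀ c, c ∈ A ∨ c ∈ B ↔ c ≠ v ∧ c ∈ W := by
    intro c
    rw [← Finset.mem_union, hU, Finset.mem_erase]
  have hEE : ∀ a ∈ A \ B, ∀ b ∈ B \ A, ¬ G.Adj a b := by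
    intro a ha b hb hab
    refine hE a ha b hb ⟨hab, ?_, ?_⟩
    · rintro rfl; exact hvA (Finset.mem_sdiff.1 ha).1
    · rintro rfl; exact hvB (Finset.mem_sdiff.1 hb).1
  have hbd : Bd G (A \ B) (insert v (A ∩ B)) := by
    intro a ha b hab
    by_cases hbv : b = v
    · right; rw [hbv]; exact Finset.mem_insert_self _ _
    · have hbW : b ∈ A ∨ b ∈ B := (hmem b).2 ⟨hbv, (hG b).2 ⟨a, hab.symm⟩⟩
      by_cases hbA : b ∈ A
      · by_cases hbB : b ∈ B
        · right; exact Finset.mem_insert_of_mem (Finset.mem_inter.2 ⟨hbA, hbB⟩)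
        · left; exact Finset.mem_sdiff.2 ⟨hbA, hbB⟩
      · exfalso
        have hbB : b ∈ B := by tauto
        exact hEE a ha b (Finset.mem_sdiff.2 ⟨hbB, hbA⟩) hab
  have hne : (A ∩ B).Nonempty := by
    by_contra hemp
    rw [Finset.not_nonempty_iff_eq_empty] at hemp
    obtain ⟨t, ht⟩ := hB
    have htB := (Finset.mem_sdiff.1 ht)
    have htv : t ≠ v := fun h => hvB (h ▸ htB.1)
    rw [hemp] at hbd
    exact bd_one W G hN (A \ B) _ (fun c hc => ((hmem c).1 (Or.inl (Finset.mem_sdiff.1 hc).1)).2)
      hA hbd (by simp) (by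
        intro c hc hc'
        simp only [Finset.mem_insert, Finset.notMem_empty, or_false] at hc'
        exact hvA (hc' ▸ (Finset.mem_sdiff.1 hc).1)) t ((hmem t).1 (Or.inr htB.1)).2
      (fun h => (Finset.mem_sdiff.1 h).2 htB.1) (by simp [htv])
  have hcard : (A ∩ B).card = 1 := by
    have := Finset.card_pos.2 hne
    omega
  obtain ⟨x, hx⟩ := Finset.card_eq_one.1 hcard
  have hxm : x ∈ A ∩ B := by rw [hx]; exact Finset.mem_singleton_self x
  have hxA := (Finset.mem_inter.1 hxm).1
  have hxB := (Finset.mem_inter.1 hxm).2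
  have hxx : ∀ c, c ∈ A → c ∈ B → c = x := by
    intro c h1 h2
    have : c ∈ A ∩ B := Finset.mem_inter.2 ⟨h1, h2⟩
    rw [hx] at this
    exact Finset.mem_singleton.1 this
  refine ⟨x, A \ B, B \ A, hv, ((hmem x).1 (Or.inl hxA)).2, fun h => hvA (h ▸ hxA), hA, hB,
    fun c h1 h2 => (Finset.mem_sdiff.1 h1).2 (Finset.mem_sdiff.1 h2).1, ?_, hEE⟩
  intro c
  rw [Finset.mem_sdiff, Finset.mem_sdiff]
  constructor
  · rintro (⟨h1, h2⟩ | ⟨h1, h2⟩)
    · exact ⟨fun h => h2 (h ▸ hxB), (hmem c).1 (Or.inl h1)⟩
    · exact ⟨fun h => h2 (h ▸ hxA), (hmem c).1 (Or.inr h1)⟩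
  · rintro ⟨h1, h2⟩
    have := (hmem c).2 h2
    by_cases hcA : c ∈ A
    · by_cases hcB : c ∈ B
      · exact absurd (hxx c hcA hcB) h1
      · exact Or.inl ⟨hcA, hcB⟩
    · exact Or.inr ⟨by tauto, hcA⟩

omit [Fintype V] in
/-- a set with two outside neighbours gives a separation -/
theorem ts2_of_bd (W : Finset V) (G : SimpleGraph V) (X : Finset V) (u w : V)
    (hX : X ⊆ W) (hX0 : X.Nonempty) (huW : u ∈ W) (hwW : w ∈ W) (huw : u ≠ w) (huX : u ∉ X)
    (hwX : w ∉ X) (hbd : ∀ a ∈ X, ∀ b, G.Adj a b → b ∈ X ∨ b = u ∨ b = w) (t : V) (ht : t ∈ W)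
    (htX : t ∉ X) (htu : t ≠ u) (htw : t ≠ w) :
    TS2 G W u w X (((W \ X).erase u).erase w) := by
  refine ⟨huW, hwW, huw, hX0, ⟨t, by simp [ht, htX, htu, htw]⟩, ?_, ?_, ?_⟩
  · intro c h1 h2
    simp [h1] at h2
  · intro c
    simp only [Finset.mem_erase, Finset.mem_sdiff]
    constructor
    · rintro (h | h)
      · exact ⟨fun h' => hwX (h' ▸ h), fun h' => huX (h' ▸ h), hX h⟩
      · exact ⟨h.1, h.2.1, h.2.2.1⟩
    · rintro ⟨h1, h2, h3⟩
      by_cases hc : c ∈ X
      · exact Or.inl hc
      · exact Or.inr ⟨h1, h2, h3, hc⟩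
  · intro p hp q hq hpq
    simp only [Finset.mem_erase, Finset.mem_sdiff] at hq
    rcases hbd p hp q hpq with h | h | h
    · exact hq.2.2.2 h
    · exact hq.2.1 h
    · exact hq.1 h

/-- every nonseparable graph of minimum degree at least three has a vertex whose deletion leaves it
nonseparable -/
theorem exists_del (W : Finset V) (G : SimpleGraph V) (hN : NoCut W G) (hG : Sup G W)
    (h0 : W.Nonempty) (h3 : ∀ a ∈ W, 3 ≤ deg G a) : ∃ v ∈ W, NoCut (W.erase v) (del G v) := by
  by_contra hcon
  push Not at hcon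
  have hall : ∀ v ∈ W, ∃ x P Q, TS2 G W v x P Q := fun v hv => ts2_of_cut W G hN v hv (hcon v hv) hG
  have main : ∀ n : ℕ, ∀ u w S Q, TS2 G W u w S Q → S.card = n → False := by
    intro n
    induction n using Nat.strong_induction_on with
    | _ n ih =>
      intro u w S Q hT hSn
      obtain ⟨hu, hw, huw, hS0, hQ0, hdis, hmem, hE⟩ := hT
      obtain ⟨p, hp⟩ := hS0
      have hpm := (hmem p).1 (Or.inl hp)
      obtain ⟨c, P', Q', hT'⟩ := hall p hpm.2.2
      have huS : u ∉ S := fun h => ((hmem u).1 (Or.inl h)).2.1 rfl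
      have hwS : w ∉ S := fun h => ((hmem w).1 (Or.inl h)).1 rfl
      have huQ : u ∉ Q := fun h => ((hmem u).1 (Or.inr h)).2.1 rfl
      have hwQ : w ∉ Q := fun h => ((hmem w).1 (Or.inr h)).1 rfl
      have hpQ : p ∉ Q := fun h => hdis p hp h
      have hcW : c ∈ W := hT'.2.1
      have hpc : p ≠ c := hT'.2.2.1
      have hSnb : ∀ a ∈ S, ∀ b, G.Adj a b → b ∈ S ∨ b = u ∨ b = w := by
        intro a ha b hab
        by_contra hb
        push Not at hb
        have : b ∈ S ∨ b ∈ Q := (hmem b).2 ⟨hb.2.2, hb.2.1, (hG b).2 ⟨a, hab.symm⟩⟩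
        exact hE a ha b (by tauto) hab
      have hQnb : ∀ a ∈ Q, ∀ b, G.Adj a b → b ∈ Q ∨ b = u ∨ b = w := by
        intro a ha b hab
        by_contra hb
        push Not at hb
        have : b ∈ S ∨ b ∈ Q := (hmem b).2 ⟨hb.2.2, hb.2.1, (hG b).2 ⟨a, hab.symm⟩⟩
        exact hE b (by tauto) a ha hab.symm
      have hnb' : ∀ P' Q', TS2 G W p c P' Q' → ∀ a ∈ P', ∀ b, G.Adj a b →
          b ∈ P' ∨ b = p ∨ b = c := by
        intro P' Q' hT' a ha b hab
        obtain ⟨-, -, -, -, -, hdis', hmem', hE'⟩ := hT'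
        by_contra hb
        push Not at hb
        have : b ∈ P' ∨ b ∈ Q' := (hmem' b).2 ⟨hb.2.2, hb.2.1, (hG b).2 ⟨a, hab.symm⟩⟩
        exact hE' a ha b (by tauto) hab
      have T2 : ∀ X : Finset V, X ⊆ S → p ∉ X → X.Nonempty → ∀ y1 y2 : V, y1 ∈ W → y2 ∈ W →
          y1 ≠ y2 → y1 ∉ X → y2 ∉ X → (∀ a ∈ X, ∀ b, G.Adj a b → b ∈ X ∨ b = y1 ∨ b = y2) →
          ∀ t ∈ W, t ∉ X → t ≠ y1 → t ≠ y2 → False := by
        intro X hXS hpX hX0 y1 y2 h1 h2 h12 h1X h2X hbd t ht htX ht1 ht2
        have hTX := ts2_of_bd W G X y1 y2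
          (fun a ha => ((hmem a).1 (Or.inl (hXS ha))).2.2) hX0 h1 h2 h12 h1X h2X hbd t ht htX ht1 ht2
        have hlt : X.card < n := by
          rw [← hSn]
          exact Finset.card_lt_card ⟨hXS, fun h => hpX (h hp)⟩
        exact ih X.card hlt y1 y2 X _ hTX rfl
      -- case I
      have caseI : ∀ P' Q', TS2 G W p c P' Q' → u ∉ Q' → w ∉ Q' → False := by
        intro P' Q' hT' huQ' hwQ'
        have hq'nb := hnb' Q' P' (ts2_symm hT')
        obtain ⟨-, -, -, hP0', hQ0', hdis', hmem', hE'⟩ := hT'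
        obtain ⟨q, hq⟩ := hQ0'
        obtain ⟨t, ht⟩ := hP0'
        have hqm := (hmem' q).1 (Or.inr hq)
        have htm := (hmem' t).1 (Or.inl ht)
        have hpQ' : p ∉ Q' := fun h => ((hmem' p).1 (Or.inr h)).2.1 rfl
        have hcQ' : c ∉ Q' := fun h => ((hmem' c).1 (Or.inr h)).1 rfl
        have hq2 : q ∈ S ∨ q ∈ Q := (hmem q).2
          ⟨fun h => hwQ' (h ▸ hq), fun h => huQ' (h ▸ hq), hqm.2.2⟩
        rcases hq2 with hqS | hqQ
        · apply T2 (S ∩ Q') Finset.inter_subset_left (fun h => hpQ' (Finset.mem_inter.1 h).2)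
            ⟨q, Finset.mem_inter.2 ⟨hqS, hq⟩⟩ p c hpm.2.2 hcW hpc
            (fun h => hpQ' (Finset.mem_inter.1 h).2) (fun h => hcQ' (Finset.mem_inter.1 h).2)
            _ t htm.2.2 (fun h => hdis' t ht (Finset.mem_inter.1 h).2) htm.2.1 htm.1
          intro a ha b hab
          obtain ⟨haS, haQ'⟩ := Finset.mem_inter.1 ha
          rcases hq'nb a haQ' b hab with h | h | h
          · left
            rcases hSnb a haS b hab with h' | h' | h'
            · exact Finset.mem_inter.2 ⟨h', h⟩
            · exact absurd (h' ▸ h) huQ'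
            · exact absurd (h' ▸ h) hwQ'
          · exact Or.inr (Or.inl h)
          · exact Or.inr (Or.inr h)
        · apply bd_one W G hN (Q ∩ Q') {c}
            (fun a ha => ((hmem a).1 (Or.inr (Finset.mem_inter.1 ha).1)).2.2)
            ⟨q, Finset.mem_inter.2 ⟨hqQ, hq⟩⟩ _ (by simp)
            (fun a ha h => hcQ' ((Finset.mem_singleton.1 h) ▸ (Finset.mem_inter.1 ha).2)) p hpm.2.2
            (fun h => hpQ' (Finset.mem_inter.1 h).2) (by simpa using hpc)
          intro a ha b hab
          obtain ⟨haQ, haQ'⟩ := Finset.mem_inter.1 ha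
          rcases hq'nb a haQ' b hab with h | h | h
          · left
            rcases hQnb a haQ b hab with h' | h' | h'
            · exact Finset.mem_inter.2 ⟨h', h⟩
            · exact absurd (h' ▸ h) huQ'
            · exact absurd (h' ▸ h) hwQ'
          · exfalso
            rw [h] at hab
            exact hE p hp a haQ hab.symm
          · exact Or.inr (Finset.mem_singleton.2 h)
      -- case III
      have caseIII : ∀ P' Q' : Finset V, ∀ u w : V, TS2 G W p c P' Q' → TS2 G W u w S Q → u ∈ P' →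
          w ∈ Q' → c ∉ Q → ∀ q ∈ Q, q ∈ P' → False := by
        intro P' Q' u w hT' hT hu' hw' hcQ q hqQ hqP'
        have hp'nb := hnb' P' Q' hT'
        obtain ⟨-, -, -, hP0', hQ0', hdis', hmem', hE'⟩ := hT'
        obtain ⟨-, -, -, -, -, hdis, hmem, hE⟩ := hT
        have hpP' : p ∉ P' := fun h => ((hmem' p).1 (Or.inl h)).2.1 rfl
        have hcP' : c ∉ P' := fun h => ((hmem' c).1 (Or.inl h)).1 rfl
        have huQ : u ∉ Q := fun h => ((hmem u).1 (Or.inr h)).2.1 rfl
        have hpu : p ≠ u := fun h => hpP' (h ▸ hu')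
        apply bd_one W G hN (Q ∩ P') {u}
          (fun a ha => ((hmem a).1 (Or.inr (Finset.mem_inter.1 ha).1)).2.2)
          ⟨q, Finset.mem_inter.2 ⟨hqQ, hqP'⟩⟩ _ (by simp)
          (fun a ha h => huQ ((Finset.mem_singleton.1 h) ▸ (Finset.mem_inter.1 ha).1)) p hpm.2.2
          (fun h => hpP' (Finset.mem_inter.1 h).2) (by simpa using hpu)
        intro a ha b hab
        obtain ⟨haQ, haP'⟩ := Finset.mem_inter.1 ha
        have hb : b ∈ Q ∨ b = u ∨ b = w := by
          by_contra hb
          push Not at hb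
          have : b ∈ S ∨ b ∈ Q := (hmem b).2 ⟨hb.2.2, hb.2.1, (hG b).2 ⟨a, hab.symm⟩⟩
          exact hE b (by tauto) a haQ hab.symm
        rcases hb with h | h | h
        · rcases hp'nb a haP' b hab with h' | h' | h'
          · exact Or.inl (Finset.mem_inter.2 ⟨h, h'⟩)
          · exact absurd (h' ▸ h) hpQ
          · exact absurd (h' ▸ h) hcQ
        · exact Or.inr (Finset.mem_singleton.2 h)
        · exfalso
          rcases hp'nb a haP' b hab with h' | h' | h'
          · exact hdis' b h' (h ▸ hw')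
          · exact ((hmem' p).1 (Or.inr (by rw [← h', h]; exact hw'))).2.1 rfl
          · exact ((hmem' c).1 (Or.inr (by rw [← h', h]; exact hw'))).1 rfl
      -- case IV
      have caseIV : ∀ P' Q' : Finset V, ∀ u w : V, TS2 G W p c P' Q' → TS2 G W u w S Q → u ∈ P' →
          w ∈ Q' → c ∈ Q → ∀ q ∈ S, q ∈ P' → False := by
        intro P' Q' u w hT' hT hu' hw' hcQ q hqS hqP'
        have hp'nb := hnb' P' Q' hT'
        obtain ⟨-, -, -, hP0', hQ0', hdis', hmem', hE'⟩ := hT'
        obtain ⟨hu, hw, huw, -, -, hdis, hmem, hE⟩ := hT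
        have hpP' : p ∉ P' := fun h => ((hmem' p).1 (Or.inl h)).2.1 rfl
        have hpQ' : p ∉ Q' := fun h => ((hmem' p).1 (Or.inr h)).2.1 rfl
        have hcP' : c ∉ P' := fun h => ((hmem' c).1 (Or.inl h)).1 rfl
        have huS : u ∉ S := fun h => ((hmem u).1 (Or.inl h)).2.1 rfl
        have hwS : w ∉ S := fun h => ((hmem w).1 (Or.inl h)).1 rfl
        have hpu : p ≠ u := fun h => hpP' (h ▸ hu')
        have hpw : p ≠ w := fun h => hpQ' (h ▸ hw')
        apply T2 (S ∩ P') Finset.inter_subset_left (fun h => hpP' (Finset.mem_inter.1 h).2)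
          ⟨q, Finset.mem_inter.2 ⟨hqS, hqP'⟩⟩ p u hpm.2.2 hu hpu
          (fun h => hpP' (Finset.mem_inter.1 h).2) (fun h => huS (Finset.mem_inter.1 h).1)
          _ w hw (fun h => hwS (Finset.mem_inter.1 h).1) hpw.symm huw.symm
        intro a ha b hab
        obtain ⟨haS, haP'⟩ := Finset.mem_inter.1 ha
        have hb : b ∈ S ∨ b = u ∨ b = w := by
          by_contra hb
          push Not at hb
          have : b ∈ S ∨ b ∈ Q := (hmem b).2 ⟨hb.2.2, hb.2.1, (hG b).2 ⟨a, hab.symm⟩⟩
          exact hE a haS b (by tauto) hab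
        rcases hb with h | h | h
        · rcases hp'nb a haP' b hab with h' | h' | h'
          · exact Or.inl (Finset.mem_inter.2 ⟨h, h'⟩)
          · exact Or.inr (Or.inl h')
          · exact absurd (h' ▸ h) (fun hcS => hdis c hcS hcQ)
        · exact Or.inr (Or.inr h)
        · exfalso
          rcases hp'nb a haP' b hab with h' | h' | h'
          · exact hdis' b h' (h ▸ hw')
          · exact hpw (h'.symm.trans h)
          · exact ((hmem' c).1 (Or.inr (by rw [← h', h]; exact hw'))).1 rfl
      have hTS : TS2 G W u w S Q := ⟨hu, hw, huw, ⟨p, hp⟩, hQ0, hdis, hmem, hE⟩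
      have caseX : ∀ P' Q' : Finset V, ∀ u w : V, TS2 G W p c P' Q' → TS2 G W u w S Q → u ∈ P' →
          w ∈ Q' → False := by
        intro P' Q' u w hT' hT hu' hw'
        have hQ0 := hT.2.2.2.2.1
        have hmem' := hT'.2.2.2.2.2.2.1
        have hmem := hT.2.2.2.2.2.2.1
        by_cases hcQ : c ∈ Q
        · have hSp : ∀ q ∈ S, q = p := by
            intro q hq
            by_contra hqp
            have hqc : q ≠ c := fun h => hdis q hq (h ▸ hcQ)
            rcases (hmem' q).2 ⟨hqc, hqp, ((hmem q).1 (Or.inl hq)).2.2⟩ with h | h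
            · exact caseIV P' Q' u w hT' hT hu' hw' hcQ q hq h
            · exact caseIV Q' P' w u (ts2_symm hT') (ts2_swap hT) hw' hu' hcQ q hq h
          have h3p := h3 p hpm.2.2
          have hsub : nb G p ⊆ {u, w} := by
            intro b hb
            rw [mem_nb] at hb
            rw [Finset.mem_insert, Finset.mem_singleton]
            by_contra hcon2
            push Not at hcon2
            have : b ∈ S ∨ b ∈ Q := (hmem b).2 ⟨hcon2.2, hcon2.1, (hG b).2 ⟨p, hb.symm⟩⟩
            rcases this with h | h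
            · exact hb.ne' (hSp b h)
            · exact hE p hp b h hb
          rw [deg_eq] at h3p
          have h5 := Finset.card_le_card hsub
          have h6 := Finset.card_le_two (a := u) (b := w)
          omega
        · obtain ⟨q, hq⟩ := hQ0
          have hqp : q ≠ p := fun h => hpQ (h ▸ hq)
          have hqc : q ≠ c := fun h => hcQ (h ▸ hq)
          rcases (hmem' q).2 ⟨hqc, hqp, ((hmem q).1 (Or.inr hq)).2.2⟩ with h | h
          · exact caseIII P' Q' u w hT' hT hu' hw' hcQ q hq h
          · exact caseIII Q' P' w u (ts2_symm hT') (ts2_swap hT) hw' hu' hcQ q hq h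
      have hmem' := hT'.2.2.2.2.2.2.1
      have hdis' := hT'.2.2.2.2.2.1
      by_cases huQ' : u ∈ Q'
      · by_cases hwP' : w ∈ P'
        · exact caseX P' Q' w u hT' (ts2_swap hTS) hwP' huQ'
        · exact caseI Q' P' (ts2_symm hT') (fun h => hdis' u h huQ') hwP'
      · by_cases hwQ' : w ∈ Q'
        · by_cases huP' : u ∈ P'
          · exact caseX P' Q' u w hT' hTS huP' hwQ'
          · exact caseI Q' P' (ts2_symm hT') huP' (fun h => hdis' w h hwQ')
        · exact caseI P' Q' hT' huQ' hwQ'
  obtain ⟨v, hv⟩ := h0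
  obtain ⟨x, P, Q, hT⟩ := hall v hv
  exact main P.card v x P Q hT rfl


/-- `j`-colourability -/
def Kol {V : Type} (j : ℕ) (G : SimpleGraph V) : Prop :=
  ∃ c : V → ℕ, (∀ a, c a < j) ∧ ∀ a b, G.Adj a b → c a ≠ c b

theorem kol_mono {V : Type} {j : ℕ} {G G' : SimpleGraph V} (h : G ≤ G') (hk : Kol j G') :
    Kol j G := by
  obtain ⟨c, h1, h2⟩ := hk
  exact ⟨c, h1, fun a b hab => h2 a b (h hab)⟩

/-- extending a colouring to a vertex of small degree -/
theorem kol_ext (j : ℕ) (G : SimpleGraph V) (v : V) (hd : deg G v < j) (hk : Kol j (del G v)) :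
    Kol j G := by
  obtain ⟨c, h1, h2⟩ := hk
  have : ∃ t ∈ Finset.range j, t ∉ (nb G v).image c := by
    by_contra hcon
    push Not at hcon
    have h5 := Finset.card_le_card (show Finset.range j ⊆ (nb G v).image c from hcon)
    have h6 := Finset.card_image_le (s := nb G v) (f := c)
    rw [Finset.card_range] at h5
    rw [deg_eq] at hd
    omega
  obtain ⟨t, ht, htn⟩ := this
  rw [Finset.mem_range] at ht
  refine ⟨fun a => if a = v then t else c a, ?_, ?_⟩
  · intro a
    dsimp only
    split_ifs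
    · exact ht
    · exact h1 a
  · intro a b hab
    dsimp only
    split_ifs with h3 h4 h4
    · exfalso; rw [h3, h4] at hab; exact hab.ne rfl
    · intro h
      apply htn
      rw [h]
      exact Finset.mem_image_of_mem c ((mem_nb _ _ _).2 (h3 ▸ hab))
    · intro h
      apply htn
      rw [← h]
      exact Finset.mem_image_of_mem c ((mem_nb _ _ _).2 (h4 ▸ hab.symm))
    · exact h2 a b ⟨hab, h3, h4⟩

omit [Fintype V] in
theorem kol_succ (j : ℕ) (G : SimpleGraph V) (v : V) (hk : Kol j (del G v)) :
    Kol (j + 1) G := by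
  obtain ⟨c, h1, h2⟩ := hk
  refine ⟨fun a => if a = v then j else c a, ?_, ?_⟩
  · intro a
    dsimp only
    split_ifs
    · omega
    · have := h1 a; omega
  · intro a b hab
    dsimp only
    split_ifs with h3 h4 h4
    · exfalso; rw [h3, h4] at hab; exact hab.ne rfl
    · have := h1 b; omega
    · have := h1 a; omega
    · exact h2 a b ⟨hab, h3, h4⟩

/-- small graphs are 2-colourable -/
theorem kol_two (W : Finset V) (G : SimpleGraph V) (hG : Sup G W) (hW : W.card = 2) : Kol 2 G := by
  obtain ⟨x, y, hxy, rfl⟩ := Finset.card_eq_two.1 hW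
  refine ⟨fun a => if a = x then 0 else 1, ?_, ?_⟩
  · intro a; dsimp only; split_ifs <;> omega
  · intro a b hab
    have ha : a ∈ ({x, y} : Finset V) := (hG a).2 ⟨b, hab⟩
    have hb : b ∈ ({x, y} : Finset V) := (hG b).2 ⟨a, hab.symm⟩
    rw [Finset.mem_insert, Finset.mem_singleton] at ha hb
    dsimp only
    rcases ha with rfl | rfl <;> rcases hb with rfl | rfl
    · exact absurd rfl hab.ne
    · rw [if_pos rfl, if_neg hxy.symm]; omega
    · rw [if_pos rfl, if_neg hxy.symm]; omega
    · exact absurd rfl hab.ne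

theorem kol_le {V : Type} {j k : ℕ} {G : SimpleGraph V} (h : j ≤ k) (hk : Kol j G) : Kol k G := by
  obtain ⟨c, h1, h2⟩ := hk
  exact ⟨c, fun a => lt_of_lt_of_le (h1 a) h, h2⟩

/-- contracting an edge at a vertex of degree two -/
theorem deg_two_step (W : Finset V) (G : SimpleGraph V) (hN : NoCut W G) (hG : Sup G W)
    (v : V) (hv : v ∈ W) (hd : deg G v = 2) (hall : ∀ a ∈ W, 2 ≤ deg G a) :
    ∃ x y, x ≠ y ∧ nb G v = {x, y} ∧ x ∈ W.erase v ∧ y ∈ W.erase v ∧
      NoCut (W.erase v) (st (del G v) x {y}) ∧ Sup (st (del G v) x {y}) (W.erase v) ∧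
      bet W G = bet (W.erase v) (st (del G v) x {y}) := by
  obtain ⟨x, hx, hNx⟩ := contract W G hN hG v hv
  have hH := sup_del G W hG v hall
  have hsub := nb_subset G W hG v
  have hc : ((nb G v).erase x).card = 1 := by
    rw [Finset.card_erase_of_mem hx, ← deg_eq]; omega
  obtain ⟨y, hy⟩ := Finset.card_eq_one.1 hc
  have hyy : y ∈ (nb G v).erase x := by rw [hy]; exact Finset.mem_singleton_self y
  obtain ⟨hyx, hyn⟩ := Finset.mem_erase.1 hyy
  have hnb : nb G v = {x, y} := by
    rw [← Finset.insert_erase hx, hy]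
  rw [hy] at hNx
  refine ⟨x, y, hyx.symm, hnb, hsub hx, hsub hyn, hNx,
    sup_st _ _ hH x {y} (hsub hx) (by simpa using hsub hyn), ?_⟩
  have h1 := bet_two (del G v) (W.erase v) hH v (Finset.notMem_erase v W) x y (hsub hx) (hsub hyn)
    hyx.symm
  rw [Finset.insert_erase hv, ← hnb, st_del_nb] at h1
  exact h1

/-- the lower bound -/
theorem lower (n : ℕ) : ∀ (j : ℕ) (W : Finset V) (G : SimpleGraph V), W.card = n → 2 ≤ n →
    Sup G W → NoCut W G → ¬ Kol (j + 1) G → ((j.factorial : ℕ) : ℤ) ≤ bet W G := by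
  induction n with
  | zero => intro j W G _ h; omega
  | succ n ih =>
    intro j W G hW h2 hG hN hK
    have hb := nocut_bet (n + 1) W G hW h2 hG hN
    rcases j with _ | _ | j
    · simpa using hb
    · simpa using hb
    · by_cases hn : n + 1 = 2
      · exact absurd (kol_le (by omega) (kol_two W G hG (by omega))) hK
      · have h3 : 3 ≤ W.card := by omega
        have hdeg := nocut_deg W G hN hG h3
        by_cases hex : ∃ v ∈ W, deg G v = 2
        · obtain ⟨v, hv, hd⟩ := hex
          obtain ⟨x, y, hxy, hnb, hx, hy, hN', hS', hbe⟩ := deg_two_step W G hN hG v hv hd hdeg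
          rw [hbe]
          apply ih (j + 2) _ _ (by rw [Finset.card_erase_of_mem hv]; omega) (by omega) hS' hN'
          intro hk
          exact hK (kol_ext _ G v (by omega) (kol_mono (le_st _ _ _) hk))
        · push Not at hex
          have hdeg3 : ∀ a ∈ W, 3 ≤ deg G a := by
            intro a ha
            have := hdeg a ha
            have := hex a ha
            omega
          obtain ⟨v, hv, hNv⟩ := exists_del W G hN hG (Finset.card_pos.1 (by omega)) hdeg3
          have hH := sup_del G W hG v hdeg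
          have hlow := bet_lower (del G v) (W.erase v) hH v (Finset.notMem_erase v W) (nb G v)
            (nb_subset G W hG v) (by
              rw [← Finset.card_pos, ← deg_eq]
              have := hdeg v hv
              omega)
          rw [st_del_nb, Finset.insert_erase hv, ← deg_eq] at hlow
          have hc : (W.erase v).card = n := by rw [Finset.card_erase_of_mem hv]; omega
          by_cases hk : Kol (j + 2 + 1) (del G v)
          · have hd : j + 3 ≤ deg G v := by
              by_contra hcon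
              exact hK (kol_ext _ G v (by omega) hk)
            have hk' : ¬ Kol (j + 1 + 1) (del G v) := fun h => hK (kol_succ _ G v h)
            have h5 := ih (j + 1) _ _ hc (by omega) hH hNv hk'
            have h6 : (0 : ℤ) ≤ ((j + 1).factorial : ℕ) := by positivity
            rw [Nat.factorial_succ (j + 1)]
            push_cast at h5 h6 ⊢
            have h7 : ((j : ℤ) + 1 + 1) ≤ (deg G v : ℤ) - 1 := by
              have : ((j + 3 : ℕ) : ℤ) ≤ (deg G v : ℤ) := by exact_mod_cast hd
              push_cast at this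
              linarith
            calc ((j : ℤ) + 1 + 1) * ((j + 1).factorial : ℤ) ≤
                ((deg G v : ℤ) - 1) * bet (W.erase v) (del G v) := by
                  apply mul_le_mul h7 h5 h6
                  have : (0 : ℤ) ≤ j := by positivity
                  linarith
              _ ≤ bet W G := hlow
          · have h5 := ih (j + 2) _ _ hc (by omega) hH hNv hk
            have h6 : (0 : ℤ) ≤ ((j + 2).factorial : ℕ) := by positivity
            have h7 : (3 : ℤ) ≤ (deg G v : ℤ) := by exact_mod_cast hdeg3 v hv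
            have h8 : (0 : ℤ) ≤ ((deg G v : ℤ) - 2) * bet (W.erase v) (del G v) := by
              apply mul_nonneg
              · linarith
              · linarith
            show (((j + 2).factorial : ℕ) : ℤ) ≤ bet W G
            linarith


end

section
variable {V : Type} [Fintype V] [DecidableEq V]

omit [Fintype V] [DecidableEq V] in
/-- all edges lie in `W` -/
def On (G : SimpleGraph V) (W : Finset V) : Prop := ∀ a b, G.Adj a b → a ∈ W

theorem sup_st' (A B : SimpleGraph V) (x : V) (T : Finset V) :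
    st (A ⊔ B) x T = A ⊔ st B x T := by
  ext a b
  rw [st_adj, SimpleGraph.sup_adj, SimpleGraph.sup_adj, st_adj]
  tauto

omit [Fintype V] in
theorem on_del (B : SimpleGraph V) (W : Finset V) (hB : On B W) (v : V) :
    On (del B v) (W.erase v) := fun a b h => Finset.mem_erase.2 ⟨h.2.1, hB a b h.1⟩

omit [Fintype V] in
theorem on_st (B : SimpleGraph V) (W : Finset V) (hB : On B W) (x : V) (hx : x ∈ W) (T : Finset V)
    (hT : T ⊆ W) : On (st B x T) W := by
  rintro a b (h | ⟨rfl, -, -⟩ | ⟨-, h, -⟩)
  · exact hB a b h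
  · exact hx
  · exact hT h

/-- multiplicativity over an edge -/
theorem D_mul (u w : V) (huw : u ≠ w) (A : SimpleGraph V) (hA : A.Adj u w) (W1 : Finset V)
    (hA1 : On A W1) (n : ℕ) : ∀ (W2 : Finset V) (B : SimpleGraph V), W2.card = n → On B W2 →
    B.Adj u w → (∀ c, c ∈ W1 → c ∈ W2 → c = u ∨ c = w) → D (A ⊔ B) = D A * D B := by
  induction n with
  | zero =>
    intro W2 B hc hB hBuw _
    have h1 := hB u w hBuw
    rw [Finset.card_eq_zero.1 hc] at h1
    exact absurd h1 (Finset.notMem_empty u)
  | succ n ih =>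
    intro W2 B hc hB hBuw hI
    by_cases hex : ∃ v ∈ W2, v ≠ u ∧ v ≠ w
    · obtain ⟨v, hv, hvu, hvw⟩ := hex
      have hvW1 : v ∉ W1 := fun h => by
        rcases hI v h hv with h' | h'
        exacts [hvu h', hvw h']
      have hc' : (W2.erase v).card = n := by rw [Finset.card_erase_of_mem hv]; omega
      have hH := on_del B W2 hB v
      have hHuw : (del B v).Adj u w := ⟨hBuw, hvu.symm, hvw.symm⟩
      have hI' : ∀ c, c ∈ W1 → c ∈ W2.erase v → c = u ∨ c = w := fun c h1 h2 =>
        hI c h1 (Finset.mem_of_mem_erase h2)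
      have hviso : ∀ z, ¬ (A ⊔ del B v).Adj v z := by
        intro z hz
        rw [SimpleGraph.sup_adj] at hz
        rcases hz with h | h
        · exact hvW1 (hA1 v z h)
        · exact h.2.1 rfl
      have hviso2 : ∀ z, ¬ (del B v).Adj v z := fun z h => h.2.1 rfl
      have claim : ∀ T : Finset V, T ⊆ W2.erase v →
          D (st (A ⊔ del B v) v T) = D A * D (st (del B v) v T) := by
        intro T
        induction T using Finset.induction_on with
        | empty =>
          intro _
          rw [st_empty, st_empty]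
          exact ih _ _ hc' hH hHuw hI'
        | insert x T hx ihT =>
          intro hT
          have hxW : x ∈ W2.erase v := hT (Finset.mem_insert_self x T)
          have hTW : T ⊆ W2.erase v := fun a ha => hT (Finset.mem_insert_of_mem ha)
          have hxv : x ≠ v := (Finset.mem_erase.1 hxW).1
          have hvT : v ∉ T := fun h => Finset.notMem_erase v W2 (hTW h)
          have r1 := D_rec (A ⊔ del B v) v x T hviso hxv hx hvT
          have r2 := D_rec (del B v) v x T hviso2 hxv hx hvT
          rw [AtMostOneTwo.eval_one (st (A ⊔ del B v) v T) u w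
            (Or.inl ((SimpleGraph.sup_adj _ _ _ _).2 (Or.inl hA))), zero_add, ihT hTW] at r1
          rw [AtMostOneTwo.eval_one (st (del B v) v T) u w (Or.inl hHuw), zero_add] at r2
          have r3 := ih (W2.erase v) (st (del B v) x T) hc' (on_st _ _ hH x hxW T hTW)
            (Or.inl hHuw) hI'
          rw [sup_st' A (del B v) x T, r3] at r1
          have r4 : D (st (A ⊔ del B v) v (insert x T)) =
              D A * D (st (del B v) v T) - D A * D (st (del B v) x T) := by linarith
          rw [r4, r2]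
          ring
      have hsub : nb B v ⊆ W2.erase v := by
        intro a ha
        rw [mem_nb] at ha
        exact Finset.mem_erase.2 ⟨ha.ne', hB a v ha.symm⟩
      have h5 := claim (nb B v) hsub
      rw [sup_st', st_del_nb] at h5
      exact h5
    · push Not at hex
      have hE : ∀ a b, B.Adj a b → (a = u ∧ b = w) ∨ (a = w ∧ b = u) := by
        intro a b hab
        have ha := hB a b hab
        have hb := hB b a hab.symm
        by_cases hau : a = u
        · by_cases hbw : b = w
          · exact Or.inl ⟨hau, hbw⟩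
          · by_cases hbu : b = u
            · exfalso; rw [hau, hbu] at hab; exact hab.ne rfl
            · exact absurd (hex b hb hbu) hbw
        · have haw := hex a ha hau
          by_cases hbu : b = u
          · exact Or.inr ⟨haw, hbu⟩
          · exfalso
            have hbw := hex b hb hbu
            rw [haw, hbw] at hab
            exact hab.ne rfl
      have h1 : A ⊔ B = A := by
        ext a b
        rw [SimpleGraph.sup_adj]
        constructor
        · rintro (h | h)
          · exact h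
          · rcases hE a b h with ⟨rfl, rfl⟩ | ⟨rfl, rfl⟩
            exacts [hA, hA.symm]
        · exact Or.inl
      have hnb : nb B u = {w} := by
        ext a
        rw [mem_nb, Finset.mem_singleton]
        constructor
        · intro h
          rcases hE u a h with ⟨-, h'⟩ | ⟨h', -⟩
          · exact h'
          · exact absurd h' huw
        · rintro rfl; exact hBuw
      have h2 : D B = 1 := by
        rw [← st_del_nb B u, hnb, D_leaf (del B u) u w (fun z h => h.2.1 rfl) huw.symm]
        apply eval_one_edgeless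
        intro a b hab
        rcases hE a b hab.1 with ⟨h, -⟩ | ⟨-, h⟩
        · exact hab.2.1 h
        · exact hab.2.2 h
      rw [h1, h2, mul_one]

/-- a cut vertex -/
theorem D_cut (t : V) (A : SimpleGraph V) (W1 : Finset V)
    (hA1 : On A W1) (a b : V) (hab : A.Adj a b) (n : ℕ) : ∀ (W2 : Finset V) (B : SimpleGraph V),
    W2.card = n → On B W2 → (∃ c d, B.Adj c d) → (∀ c, c ∈ W1 → c ∈ W2 → c = t) →
    D (A ⊔ B) = 0 := by
  induction n with
  | zero =>
    rintro W2 B hc hB ⟨c, d, hcd⟩ _
    have h1 := hB c d hcd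
    rw [Finset.card_eq_zero.1 hc] at h1
    exact absurd h1 (Finset.notMem_empty c)
  | succ n ih =>
    intro W2 B hc hB hex hI
    have hv : ∃ v d, B.Adj v d ∧ v ≠ t := by
      obtain ⟨c, d, hcd⟩ := hex
      by_cases hct : c = t
      · refine ⟨d, c, hcd.symm, ?_⟩
        rintro rfl
        exact hcd.ne hct
      · exact ⟨c, d, hcd, hct⟩
    obtain ⟨v, d, hvd, hvt⟩ := hv
    have hvW := hB v d hvd
    have hvW1 : v ∉ W1 := fun h => hvt (hI v h hvW)
    have hc' : (W2.erase v).card = n := by rw [Finset.card_erase_of_mem hvW]; omega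
    have hH := on_del B W2 hB v
    have hI' : ∀ c, c ∈ W1 → c ∈ W2.erase v → c = t := fun c h1 h2 =>
      hI c h1 (Finset.mem_of_mem_erase h2)
    have hviso : ∀ z, ¬ (A ⊔ del B v).Adj v z := by
      intro z hz
      rw [SimpleGraph.sup_adj] at hz
      rcases hz with h | h
      · exact hvW1 (hA1 v z h)
      · exact h.2.1 rfl
    have claim : ∀ T : Finset V, T ⊆ W2.erase v → T.Nonempty →
        D (st (A ⊔ del B v) v T) = 0 := by
      intro T
      induction T using Finset.induction_on with
      | empty =>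
        intro _ h
        exact absurd h Finset.not_nonempty_empty
      | insert x T hx ihT =>
        intro hT _
        have hxW : x ∈ W2.erase v := hT (Finset.mem_insert_self x T)
        have hTW : T ⊆ W2.erase v := fun a ha => hT (Finset.mem_insert_of_mem ha)
        have hxv : x ≠ v := (Finset.mem_erase.1 hxW).1
        have hvT : v ∉ T := fun h => Finset.notMem_erase v W2 (hTW h)
        by_cases hT0 : T.Nonempty
        · have r1 := D_rec (A ⊔ del B v) v x T hviso hxv hx hvT
          rw [AtMostOneTwo.eval_one (st (A ⊔ del B v) v T) a b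
            (Or.inl ((SimpleGraph.sup_adj _ _ _ _).2 (Or.inl hab))), zero_add, ihT hTW hT0] at r1
          obtain ⟨t', ht'⟩ := hT0
          have r3 := ih (W2.erase v) (st (del B v) x T) hc' (on_st _ _ hH x hxW T hTW)
            ⟨x, t', Or.inr (Or.inl ⟨rfl, ht', fun h => hx (h ▸ ht')⟩)⟩ hI'
          rw [sup_st' A (del B v) x T, r3] at r1
          linarith
        · rw [Finset.not_nonempty_iff_eq_empty] at hT0
          subst hT0
          have e : insert x (∅ : Finset V) = {x} := rfl
          rw [e, D_leaf _ v x hviso hxv]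
          exact AtMostOneTwo.eval_one _ a b ((SimpleGraph.sup_adj _ _ _ _).2 (Or.inl hab))
    have hsub : nb B v ⊆ W2.erase v := by
      intro a ha
      rw [mem_nb] at ha
      exact Finset.mem_erase.2 ⟨ha.ne', hB a v ha.symm⟩
    have h5 := claim (nb B v) hsub ⟨d, (mem_nb _ _ _).2 hvd⟩
    rw [sup_st', st_del_nb] at h5
    exact h5

/-- restriction of the edge set -/
def res (G : SimpleGraph V) (X : Finset V) : SimpleGraph V where
  Adj a b := G.Adj a b ∧ a ∈ X ∧ b ∈ X
  symm := ⟨by
    rintro a b ⟨h1, h2, h3⟩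
    exact ⟨h1.symm, h3, h2⟩⟩
  loopless := ⟨by
    rintro a ⟨h, -⟩
    exact h.ne rfl⟩

omit [Fintype V] [DecidableEq V] in
theorem res_adj (G : SimpleGraph V) (X : Finset V) (a b : V) :
    (res G X).Adj a b ↔ G.Adj a b ∧ a ∈ X ∧ b ∈ X := Iff.rfl

/-- adding the edge of a separation of order two does not change Crapo's invariant -/
theorem D_plus (W : Finset V) (G : SimpleGraph V) (hG : Sup G W) (u w : V) (P Q : Finset V)
    (hT : TS2 G W u w P Q) : D (st G u {w}) = D G := by
  obtain ⟨hu, hw, huw, hP0, hQ0, hdis, hmem, hE⟩ := hT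
  by_cases hadj : G.Adj u w
  · rw [st_eq_self G u {w} (fun y hy _ => by rw [Finset.mem_singleton] at hy; rw [hy]; exact hadj)]
  have hwT : w ∉ nb G u := fun h => hadj ((mem_nb _ _ _).1 h)
  have huT : u ∉ nb G u := fun h => ((mem_nb _ _ _).1 h).ne rfl
  have huP : u ∉ P := fun h => ((hmem u).1 (Or.inl h)).2.1 rfl
  have hwP : w ∉ P := fun h => ((hmem w).1 (Or.inl h)).1 rfl
  have huQ : u ∉ Q := fun h => ((hmem u).1 (Or.inr h)).2.1 rfl
  have hwQ : w ∉ Q := fun h => ((hmem w).1 (Or.inr h)).1 rfl
  have r := D_rec (del G u) u w (nb G u) (fun z h => h.2.1 rfl) huw.symm hwT huT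
  obtain ⟨z, hz⟩ := (hG u).1 hu
  rw [st_del_nb, AtMostOneTwo.eval_one G u z hz, zero_add] at r
  have e1 : st (del G u) u (insert w (nb G u)) = st G u {w} := by
    rw [st_insert, st_del_nb]
  rw [e1] at r
  set K := st (del G u) w (nb G u) with hK
  have hKadj : ∀ a b, K.Adj a b → a ≠ u ∧ b ≠ u ∧ a ∈ W ∧ b ∈ W ∧
      (G.Adj a b ∨ a = w ∨ b = w) := by
    rintro a b (h | ⟨rfl, h2, h3⟩ | ⟨rfl, h2, h3⟩)
    · exact ⟨h.2.1, h.2.2, (hG a).2 ⟨b, h.1⟩, (hG b).2 ⟨a, h.1.symm⟩, Or.inl h.1⟩
    · rw [mem_nb] at h2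
      exact ⟨huw.symm, h2.ne', hw, (hG b).2 ⟨u, h2.symm⟩, Or.inr (Or.inl rfl)⟩
    · rw [mem_nb] at h2
      exact ⟨h2.ne', huw.symm, (hG a).2 ⟨u, h2.symm⟩, hw, Or.inr (Or.inr rfl)⟩
  have hsplit : K = res K (insert w P) ⊔ res K (insert w Q) := by
    ext a b
    rw [SimpleGraph.sup_adj, res_adj, res_adj]
    simp only [Finset.mem_insert]
    constructor
    · intro h
      obtain ⟨h1, h2, h3, h4, h5⟩ := hKadj a b h
      have ha : a = w ∨ a ∈ P ∨ a ∈ Q := by
        by_cases haw : a = w
        · exact Or.inl haw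
        · exact Or.inr ((hmem a).2 ⟨haw, h1, h3⟩)
      have hb : b = w ∨ b ∈ P ∨ b ∈ Q := by
        by_cases hbw : b = w
        · exact Or.inl hbw
        · exact Or.inr ((hmem b).2 ⟨hbw, h2, h4⟩)
      rcases h5 with h5 | h5 | h5
      · rcases ha with ha | ha | ha
        · rcases hb with hb | hb | hb
          · exact Or.inl ⟨h, Or.inl ha, Or.inl hb⟩
          · exact Or.inl ⟨h, Or.inl ha, Or.inr hb⟩
          · exact Or.inr ⟨h, Or.inl ha, Or.inr hb⟩
        · rcases hb with hb | hb | hb
          · exact Or.inl ⟨h, Or.inr ha, Or.inl hb⟩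
          · exact Or.inl ⟨h, Or.inr ha, Or.inr hb⟩
          · exact absurd h5 (hE a ha b hb)
        · rcases hb with hb | hb | hb
          · exact Or.inr ⟨h, Or.inr ha, Or.inl hb⟩
          · exact absurd h5.symm (hE b hb a ha)
          · exact Or.inr ⟨h, Or.inr ha, Or.inr hb⟩
      · rcases hb with hb | hb | hb
        · exact Or.inl ⟨h, Or.inl h5, Or.inl hb⟩
        · exact Or.inl ⟨h, Or.inl h5, Or.inr hb⟩
        · exact Or.inr ⟨h, Or.inl h5, Or.inr hb⟩
      · rcases ha with ha | ha | ha
        · exact Or.inl ⟨h, Or.inl ha, Or.inl h5⟩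
        · exact Or.inl ⟨h, Or.inr ha, Or.inl h5⟩
        · exact Or.inr ⟨h, Or.inr ha, Or.inl h5⟩
    · rintro (h | h)
      exacts [h.1, h.1]
  have hedge : ∀ P : Finset V, P.Nonempty → (∀ p ∈ P, p ≠ w ∧ p ≠ u ∧ p ∈ W) →
      (∀ p ∈ P, ∀ b, G.Adj p b → b ∈ P ∨ b = u ∨ b = w) →
      ∃ c d, (res K (insert w P)).Adj c d := by
    intro P hP0 hPm hPn
    obtain ⟨p, hp⟩ := hP0
    obtain ⟨hpw, hpu, hpW⟩ := hPm p hp
    obtain ⟨b, hb⟩ := (hG p).1 hpW
    rcases hPn p hp b hb with h | h | h
    · exact ⟨p, b, Or.inl ⟨hb, hpu, (hPm b h).2.1⟩, Finset.mem_insert_of_mem hp,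
        Finset.mem_insert_of_mem h⟩
    · refine ⟨w, p, Or.inr (Or.inl ⟨rfl, ?_, hpw⟩), Finset.mem_insert_self _ _,
        Finset.mem_insert_of_mem hp⟩
      rw [mem_nb, ← h]; exact hb.symm
    · refine ⟨p, b, Or.inl ⟨hb, hpu, by rw [h]; exact huw.symm⟩, Finset.mem_insert_of_mem hp, ?_⟩
      rw [h]; exact Finset.mem_insert_self _ _
  obtain ⟨c, d, hcd⟩ := hedge P hP0 (fun p hp => (hmem p).1 (Or.inl hp)) (by
    intro p hp b hb
    by_contra hcon
    push Not at hcon
    have : b ∈ P ∨ b ∈ Q := (hmem b).2 ⟨hcon.2.2, hcon.2.1, (hG b).2 ⟨p, hb.symm⟩⟩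
    exact hE p hp b (by tauto) hb)
  have hedQ := hedge Q hQ0 (fun p hp => (hmem p).1 (Or.inr hp)) (by
    intro p hp b hb
    by_contra hcon
    push Not at hcon
    have : b ∈ P ∨ b ∈ Q := (hmem b).2 ⟨hcon.2.2, hcon.2.1, (hG b).2 ⟨p, hb.symm⟩⟩
    exact hE b (by tauto) p hp hb.symm)
  have hz0 : D K = 0 := by
    rw [hsplit]
    have hOnP : On (res K (insert w P)) (insert w P) := fun a b h => h.2.1
    have hOnQ : On (res K (insert w Q)) (insert w Q) := fun a b h => h.2.1
    apply D_cut w (res K (insert w P)) (insert w P) hOnP c d hcd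
      (insert w Q).card (insert w Q) (res K (insert w Q)) rfl hOnQ hedQ
    intro x hx1 hx2
    rw [Finset.mem_insert] at hx1 hx2
    rcases hx1 with h | h
    · exact h
    · rcases hx2 with h' | h'
      · exact h'
      · exact (hdis x h h').elim
  rw [hz0, add_zero] at r
  exact r.symm


/-- the vertex set of one side of a separation of order two -/
def XX (u w : V) (P : Finset V) : Finset V := insert u (insert w P)

omit [Fintype V] in
theorem mem_XX (u w : V) (P : Finset V) (a : V) : a ∈ XX u w P ↔ a = u ∨ a = w ∨ a ∈ P := by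
  unfold XX
  rw [Finset.mem_insert, Finset.mem_insert]

/-- facts on one side of a separation of order two -/
theorem side (W : Finset V) (G : SimpleGraph V) (hG : Sup G W) (hN : NoCut W G) (u w : V)
    (P Q : Finset V) (hT : TS2 G W u w P Q) :
    Sup (res (st G u {w}) (XX u w P)) (XX u w P) ∧ NoCut (XX u w P) (res (st G u {w}) (XX u w P)) ∧
    (XX u w P).card < W.card ∧ 2 ≤ (XX u w P).card := by
  obtain ⟨hu, hw, huw, hP0, hQ0, hdis, hmem, hE⟩ := hT
  have huP : u ∉ P := fun h => ((hmem u).1 (Or.inl h)).2.1 rfl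
  have hwP : w ∉ P := fun h => ((hmem w).1 (Or.inl h)).1 rfl
  have huQ : u ∉ Q := fun h => ((hmem u).1 (Or.inr h)).2.1 rfl
  have hwQ : w ∉ Q := fun h => ((hmem w).1 (Or.inr h)).1 rfl
  have huwadj : (st G u {w}).Adj u w :=
    Or.inr (Or.inl ⟨rfl, Finset.mem_singleton_self w, huw.symm⟩)
  have hXW : XX u w P ⊆ W := by
    intro a ha
    rw [mem_XX] at ha
    rcases ha with rfl | rfl | h
    exacts [hu, hw, ((hmem a).1 (Or.inl h)).2.2]
  have hnb : ∀ a ∈ P, ∀ b, G.Adj a b → b ∈ XX u w P := by
    intro a ha b hab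
    rw [mem_XX]
    by_contra hcon
    push Not at hcon
    have : b ∈ P ∨ b ∈ Q := (hmem b).2 ⟨hcon.2.1, hcon.1, (hG b).2 ⟨a, hab.symm⟩⟩
    exact hE a ha b (by tauto) hab
  refine ⟨?_, ?_, ?_, ?_⟩
  · intro a
    constructor
    · intro ha
      rcases (mem_XX u w P a).1 ha with rfl | rfl | h
      · exact ⟨w, huwadj, ha, by rw [mem_XX]; tauto⟩
      · exact ⟨u, huwadj.symm, ha, by rw [mem_XX]; tauto⟩
      · obtain ⟨b, hb⟩ := (hG a).1 (hXW ha)
        exact ⟨b, Or.inl hb, ha, hnb a h b hb⟩
    · rintro ⟨b, hb⟩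
      exact hb.2.1
  · intro A B hU hI hA hB
    -- add the other side to the part containing `u, w`
    have key : ∀ A B : Finset V, A ∪ B = XX u w P → (A ∩ B).card ≤ 1 → (A \ B).Nonempty →
        (B \ A).Nonempty → u ∈ A → w ∈ A →
        ∃ a ∈ A \ B, ∃ b ∈ B \ A, (res (st G u {w}) (XX u w P)).Adj a b := by
      intro A B hU hI hA hB huA hwA
      have hm : ∀ c, c ∈ A ∨ c ∈ B ↔ c ∈ XX u w P := fun c => by rw [← Finset.mem_union, hU]
      have hBQ : ∀ c, c ∈ B → c ∈ Q → False := by
        intro c h1 h2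
        have := (hm c).1 (Or.inr h1)
        rw [mem_XX] at this
        rcases this with rfl | rfl | h
        exacts [huQ h2, hwQ h2, hdis c h h2]
      obtain ⟨a, ha, b, hb, hab⟩ := hN (A ∪ Q) B (by
          ext c
          rw [Finset.mem_union, Finset.mem_union]
          constructor
          · rintro ((h | h) | h)
            · exact hXW ((hm c).1 (Or.inl h))
            · exact ((hmem c).1 (Or.inr h)).2.2
            · exact hXW ((hm c).1 (Or.inr h))
          · intro h
            by_cases hc : c ∈ XX u w P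
            · rcases (hm c).2 hc with h' | h'
              exacts [Or.inl (Or.inl h'), Or.inr h']
            · rw [mem_XX] at hc
              push Not at hc
              rcases (hmem c).2 ⟨hc.2.1, hc.1, h⟩ with h' | h'
              · exact absurd h' hc.2.2
              · exact Or.inl (Or.inr h'))
        (by
          refine (Finset.card_le_card ?_).trans hI
          intro c hc
          rw [Finset.mem_inter, Finset.mem_union] at hc
          rcases hc with ⟨h | h, h'⟩
          · exact Finset.mem_inter.2 ⟨h, h'⟩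
          · exact (hBQ c h' h).elim)
        (by
          obtain ⟨c, hc⟩ := hA
          rw [Finset.mem_sdiff] at hc
          exact ⟨c, Finset.mem_sdiff.2 ⟨Finset.mem_union_left _ hc.1, hc.2⟩⟩)
        (by
          obtain ⟨c, hc⟩ := hB
          rw [Finset.mem_sdiff] at hc
          refine ⟨c, Finset.mem_sdiff.2 ⟨hc.1, fun h => ?_⟩⟩
          rcases Finset.mem_union.1 h with h' | h'
          exacts [hc.2 h', hBQ c hc.1 h'])
      rw [Finset.mem_sdiff, Finset.mem_union] at ha hb
      have hbA : b ∉ A := fun h => hb.2 (Or.inl h)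
      have hbP : b ∈ P := by
        have := (hm b).1 (Or.inr hb.1)
        rw [mem_XX] at this
        rcases this with rfl | rfl | h
        exacts [absurd huA hbA, absurd hwA hbA, h]
      rcases ha.1 with h | h
      · exact ⟨a, Finset.mem_sdiff.2 ⟨h, ha.2⟩, b, Finset.mem_sdiff.2 ⟨hb.1, hbA⟩, Or.inl hab,
          (hm a).1 (Or.inl h), (hm b).1 (Or.inr hb.1)⟩
      · exact absurd hab.symm (hE b hbP a h)
    have hm : ∀ c, c ∈ A ∨ c ∈ B ↔ c ∈ XX u w P := fun c => by rw [← Finset.mem_union, hU]
    have hu1 := (hm u).2 (by rw [mem_XX]; tauto)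
    have hw1 := (hm w).2 (by rw [mem_XX]; tauto)
    have keyBA : u ∈ B → w ∈ B → ∃ a ∈ A \ B, ∃ b ∈ B \ A,
        (res (st G u {w}) (XX u w P)).Adj a b := by
      intro h1 h2
      obtain ⟨a, ha, b, hb, hab⟩ := key B A (by rw [Finset.union_comm, hU])
        (by rw [Finset.inter_comm]; exact hI) hB hA h1 h2
      exact ⟨b, hb, a, ha, hab.symm⟩
    have huX : u ∈ XX u w P := by rw [mem_XX]; tauto
    have hwX : w ∈ XX u w P := by rw [mem_XX]; tauto
    by_cases huA : u ∈ A
    · by_cases hwA : w ∈ A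
      · exact key A B hU hI hA hB huA hwA
      · have hwB : w ∈ B := by tauto
        by_cases huB : u ∈ B
        · exact keyBA huB hwB
        · exact ⟨u, Finset.mem_sdiff.2 ⟨huA, huB⟩, w, Finset.mem_sdiff.2 ⟨hwB, hwA⟩, huwadj,
            huX, hwX⟩
    · have huB : u ∈ B := by tauto
      by_cases hwB : w ∈ B
      · exact keyBA huB hwB
      · have hwA : w ∈ A := by tauto
        exact ⟨w, Finset.mem_sdiff.2 ⟨hwA, hwB⟩, u, Finset.mem_sdiff.2 ⟨huB, huA⟩, huwadj.symm,
          hwX, huX⟩
  · obtain ⟨q, hq⟩ := hQ0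
    apply Finset.card_lt_card
    refine ⟨hXW, fun h => ?_⟩
    have := h ((hmem q).1 (Or.inr hq)).2.2
    rw [mem_XX] at this
    rcases this with rfl | rfl | h'
    exacts [huQ hq, hwQ hq, hdis q h' hq]
  · have : ({u, w} : Finset V) ⊆ XX u w P := by
      intro a ha
      rw [Finset.mem_insert, Finset.mem_singleton] at ha
      rw [mem_XX]
      tauto
    have h2 := Finset.card_le_card this
    rwa [Finset.card_pair huw] at h2

omit [Fintype V] in
theorem split (W : Finset V) (G : SimpleGraph V) (hG : Sup G W) (u w : V)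
    (P Q : Finset V) (hT : TS2 G W u w P Q) (G' : SimpleGraph V) (hG' : G' = st G u {w}) :
    G' = res G' (XX u w P) ⊔ res G' (XX u w Q) := by
  obtain ⟨hu, hw, huw, hP0, hQ0, hdis, hmem, hE⟩ := hT
  subst hG'
  ext a b
  rw [SimpleGraph.sup_adj, res_adj, res_adj]
  constructor
  · intro h
    rcases id h with h1 | ⟨h1, h2, h3⟩ | ⟨h1, h2, h3⟩
    · have ha : a = u ∨ a = w ∨ a ∈ P ∨ a ∈ Q := by
        by_contra hcon
        push Not at hcon
        have := (hmem a).2 ⟨hcon.2.1, hcon.1, (hG a).2 ⟨b, h1⟩⟩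
        tauto
      have hb : b = u ∨ b = w ∨ b ∈ P ∨ b ∈ Q := by
        by_contra hcon
        push Not at hcon
        have := (hmem b).2 ⟨hcon.2.1, hcon.1, (hG b).2 ⟨a, h1.symm⟩⟩
        tauto
      have h5 : a ∈ P → b ∈ Q → False := fun x y => hE a x b y h1
      have h6 : b ∈ P → a ∈ Q → False := fun x y => hE b x a y h1.symm
      by_cases haX : a ∈ XX u w P
      · by_cases hbX : b ∈ XX u w P
        · exact Or.inl ⟨h, haX, hbX⟩
        · right
          rw [mem_XX] at haX hbX
          refine ⟨h, ?_, ?_⟩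
          · rw [mem_XX]
            tauto
          · rw [mem_XX]
            tauto
      · right
        rw [mem_XX] at haX
        refine ⟨h, ?_, ?_⟩
        · rw [mem_XX]
          tauto
        · rw [mem_XX]
          tauto
    · rw [Finset.mem_singleton] at h2
      exact Or.inl ⟨h, by rw [mem_XX]; tauto, by rw [mem_XX]; tauto⟩
    · rw [Finset.mem_singleton] at h2
      exact Or.inl ⟨h, by rw [mem_XX]; tauto, by rw [mem_XX]; tauto⟩
  · rintro (h | h)
    exacts [h.1, h.1]

omit [DecidableEq V] in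
/-- counting edges over an edge -/
theorem e2_sup (A B : SimpleGraph V) (u w : V) (huw : u ≠ w)
    (hA : A.Adj u w) (hB : B.Adj u w)
    (hI : ∀ a b, A.Adj a b → B.Adj a b → (a = u ∧ b = w) ∨ (a = w ∧ b = u)) :
    e2 (A ⊔ B) + 2 = e2 A + e2 B := by
  classical
  have hdeg : ∀ a, deg (A ⊔ B) a + ((if a = u then 1 else 0) + (if a = w then 1 else 0)) =
      deg A a + deg B a := by
    intro a
    rw [deg_eq, deg_eq, deg_eq]
    have h1 : nb (A ⊔ B) a = nb A a ∪ nb B a := by
      ext b
      rw [Finset.mem_union, mem_nb, mem_nb, mem_nb, SimpleGraph.sup_adj]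
    rw [h1, ← Finset.card_union_add_card_inter]
    congr 1
    by_cases hau : a = u
    · subst hau
      have : nb A a ∩ nb B a = {w} := by
        ext b
        rw [Finset.mem_inter, mem_nb, mem_nb, Finset.mem_singleton]
        constructor
        · rintro ⟨h1, h2⟩
          rcases hI a b h1 h2 with ⟨-, h⟩ | ⟨h, -⟩
          · exact h
          · exact absurd h huw
        · rintro rfl
          exact ⟨hA, hB⟩
      rw [this, if_pos rfl, if_neg huw, Finset.card_singleton]
    · by_cases haw : a = w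
      · subst haw
        have : nb A a ∩ nb B a = {u} := by
          ext b
          rw [Finset.mem_inter, mem_nb, mem_nb, Finset.mem_singleton]
          constructor
          · rintro ⟨h1, h2⟩
            rcases hI a b h1 h2 with ⟨h, -⟩ | ⟨-, h⟩
            · exact absurd h.symm huw
            · exact h
          · rintro rfl
            exact ⟨hA.symm, hB.symm⟩
        rw [this, if_pos rfl, if_neg hau, Finset.card_singleton]
      · have : nb A a ∩ nb B a = ∅ := by
          ext b
          rw [Finset.mem_inter, mem_nb, mem_nb]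
          constructor
          · rintro ⟨h1, h2⟩
            rcases hI a b h1 h2 with ⟨h, -⟩ | ⟨h, -⟩
            · exact absurd h hau
            · exact absurd h haw
          · intro h
            exact absurd h (Finset.notMem_empty b)
        rw [this, if_neg hau, if_neg haw, Finset.card_empty]
  unfold e2
  rw [← Finset.sum_add_distrib]
  rw [← Finset.sum_congr rfl (fun a _ => hdeg a)]
  rw [Finset.sum_add_distrib, Finset.sum_add_distrib]
  simp

/-- gluing colourings over an edge -/
theorem kol_glue {V : Type} (j : ℕ) (A B : SimpleGraph V) (u w : V)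
    (hA : A.Adj u w) (hB : B.Adj u w) (X : Finset V)
    (hAX : ∀ a b, A.Adj a b → a ∈ X) (hBX : ∀ a b, B.Adj a b → a ∈ X → a = u ∨ a = w)
    (kA : Kol j A) (kB : Kol j B) : Kol j (A ⊔ B) := by
  classical
  obtain ⟨c, h1, h2⟩ := kA
  obtain ⟨d, h3, h4⟩ := kB
  -- move the colours of `u` and `w`
  have hsw : ∀ a b x : ℕ, a < j → b < j → x < j → Equiv.swap a b x < j := by
    intro a b x ha hb hx
    rw [Equiv.swap_apply_def]
    split_ifs <;> assumption
  let p1 : ℕ → ℕ := fun x => Equiv.swap (d u) (c u) x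
  let p2 : ℕ → ℕ := fun x => Equiv.swap (p1 (d w)) (c w) (p1 x)
  have hinj : Function.Injective p2 := fun x y h =>
    (Equiv.swap _ _).injective ((Equiv.swap _ _).injective h)
  have hp1u : p1 (d u) = c u := Equiv.swap_apply_left _ _
  have hdw : p1 (d w) ≠ c u := by
    rw [← hp1u]
    intro h
    exact h4 u w hB ((Equiv.swap _ _).injective h).symm
  have hcw : c w ≠ c u := fun h => h2 u w hA h.symm
  have hpu : p2 (d u) = c u := by
    change Equiv.swap (p1 (d w)) (c w) (p1 (d u)) = c u
    rw [hp1u]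
    exact Equiv.swap_apply_of_ne_of_ne hdw.symm hcw.symm
  have hpw : p2 (d w) = c w := Equiv.swap_apply_left _ _
  have hlt : ∀ x, x < j → p2 x < j := fun x hx =>
    hsw _ _ _ (hsw _ _ _ (h3 u) (h1 u) (h3 w)) (h1 w) (hsw _ _ _ (h3 u) (h1 u) hx)
  refine ⟨fun a => if a ∈ X then c a else p2 (d a), ?_, ?_⟩
  · intro a
    dsimp only
    split_ifs
    · exact h1 a
    · exact hlt _ (h3 a)
  · have hval : ∀ a b, B.Adj a b → (if a ∈ X then c a else p2 (d a)) = p2 (d a) := by
      intro a b hab
      split_ifs with h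
      · rcases hBX a b hab h with h' | h'
        · rw [h', hpu]
        · rw [h', hpw]
      · rfl
    intro a b hab
    dsimp only
    rw [SimpleGraph.sup_adj] at hab
    rcases hab with hab | hab
    · rw [if_pos (hAX a b hab), if_pos (hAX b a hab.symm)]
      exact h2 a b hab
    · rw [hval a b hab, hval b a hab.symm]
      exact fun h => h4 a b hab (hinj h)

end

theorem walk2 {V : Type} (G : SimpleGraph V) (A B : V → Prop) (t1 t2 : V)
    (hcov : ∀ c, A c ∨ B c) (hI : ∀ c, A c → B c → c = t1 ∨ c = t2)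
    (hE : ∀ a, A a → ¬ B a → ∀ b, B b → ¬ A b → ¬ G.Adj a b) (m : ℕ)
    (f : cycleGraph (m + 4) ↪g G) (u : ℕ → Fin (m + 4)) (hu : ∀ s, u (s + 1) = u s + 1)
    (k : ℕ) (h0 : A (f (u 0)) ∧ ¬ B (f (u 0))) (hk : B (f (u k)) ∧ ¬ A (f (u k))) :
    ∃ s, 1 ≤ s ∧ s < k ∧ (f (u s) = t1 ∨ f (u s) = t2) := by
  classical
  have hex : ∃ s, ¬ (A (f (u s)) ∧ ¬ B (f (u s))) := ⟨k, fun h => hk.2 h.1⟩
  have hs := Nat.find_spec hex
  have hmin := fun m' => Nat.find_min hex (m := m')
  have hle := Nat.find_min' hex (m := k) (fun h => hk.2 h.1)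
  set s := Nat.find hex with hsdef
  have hs0 : s ≠ 0 := by
    intro h
    rw [h] at hs
    exact hs h0
  obtain ⟨s', hs'⟩ := Nat.exists_eq_succ_of_ne_zero hs0
  have hprev := not_not.1 (hmin s' (by omega))
  have hadj : G.Adj (f (u s')) (f (u s)) := by
    rw [hs', Nat.succ_eq_add_one, hu s']
    refine f.map_rel_iff.2 ?_
    rw [cycleGraph_adj]
    right
    exact add_sub_cancel_left _ 1
  have hA : A (f (u s)) := by
    by_contra h
    have hB : B (f (u s)) := by
      rcases hcov (f (u s)) with h' | h'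
      · exact absurd h' h
      · exact h'
    exact hE _ hprev.1 hprev.2 _ hB h hadj
  have hB : B (f (u s)) := by
    by_contra h
    exact hs ⟨hA, h⟩
  have hsk : s ≠ k := by
    intro h
    rw [h] at hA
    exact hk.2 hA
  exact ⟨s, by omega, by omega, hI _ hA hB⟩

theorem cycle_side2 {V : Type} (G : SimpleGraph V) (A B : V → Prop) (t1 t2 : V)
    (ht : G.Adj t1 t2)
    (hcov : ∀ c, A c ∨ B c) (hI : ∀ c, A c → B c → c = t1 ∨ c = t2)
    (hE : ∀ a, A a → ¬ B a → ∀ b, B b → ¬ A b → ¬ G.Adj a b) (m : ℕ)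
    (f : cycleGraph (m + 4) ↪g G) (i j : Fin (m + 4)) (hi : A (f i) ∧ ¬ B (f i))
    (hj : B (f j) ∧ ¬ A (f j)) : False := by
  have hij : i.val ≠ j.val := by
    intro h
    have : i = j := Fin.ext h
    subst this
    exact hj.2 hi.1
  have hi' := i.isLt
  have hj' := j.isLt
  obtain ⟨K, hK1, hK2, hK3⟩ : ∃ K, 1 ≤ K ∧ K < m + 4 ∧ (i.val + K) % (m + 4) = j.val := by
    by_cases h : i.val ≤ j.val
    · refine ⟨j.val - i.val, by omega, by omega, ?_⟩
      rw [show i.val + (j.val - i.val) = j.val by omega, Nat.mod_eq_of_lt hj']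
    · refine ⟨j.val + (m + 4) - i.val, by omega, by omega, ?_⟩
      rw [show i.val + (j.val + (m + 4) - i.val) = j.val + (m + 4) by omega, Nat.add_mod_right,
        Nat.mod_eq_of_lt hj']
  let u : Fin (m + 4) → ℕ → Fin (m + 4) := fun i s => ⟨(i.val + s) % (m + 4),
    Nat.mod_lt _ (by omega)⟩
  have hu : ∀ i s, u i (s + 1) = u i s + 1 := by
    intro i s
    apply Fin.ext
    rw [Fin.val_add]
    have h1 : ((1 : Fin (m + 4)) : ℕ) = 1 := by simp
    rw [h1]
    change (i.val + (s + 1)) % (m + 4) = ((i.val + s) % (m + 4) + 1) % (m + 4)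
    rw [Nat.mod_add_mod]
    rfl
  have hu0 : ∀ i, u i 0 = i := by
    intro i
    apply Fin.ext
    exact Nat.mod_eq_of_lt i.isLt
  have huK : u i K = j := Fin.ext hK3
  have huj : ∀ s, u j s = u i (K + s) := by
    intro s
    apply Fin.ext
    change (j.val + s) % (m + 4) = (i.val + (K + s)) % (m + 4)
    rw [← hK3, Nat.mod_add_mod, add_assoc]
  have huj' : u j (m + 4 - K) = i := by
    rw [huj, show K + (m + 4 - K) = m + 4 by omega]
    apply Fin.ext
    change (i.val + (m + 4)) % (m + 4) = i.val
    rw [Nat.add_mod_right, Nat.mod_eq_of_lt hi']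
  have hinj : ∀ a b, u i a = u i b → a % (m + 4) = b % (m + 4) := by
    intro a b h
    have h1 : (i.val + a) % (m + 4) = (i.val + b) % (m + 4) := congrArg Fin.val h
    exact Nat.ModEq.add_left_cancel' i.val h1
  obtain ⟨s1, h1, h2, h3⟩ := walk2 G A B t1 t2 hcov hI hE m f (u i) (hu i) K (by rw [hu0]; exact hi)
    (by rw [huK]; exact hj)
  obtain ⟨s2, h4, h5, h6⟩ := walk2 G B A t1 t2 (fun c => (hcov c).symm) (fun c h h' => hI c h' h)
    (fun a ha ha' b hb hb' h => hE b hb hb' a ha ha' h.symm) m f (u j) (hu j) (m + 4 - K)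
    (by rw [hu0]; exact hj) (by rw [huj']; exact hi)
  have hne : u i s1 ≠ u j s2 := by
    rw [huj]
    intro h
    have := hinj _ _ h
    rw [Nat.mod_eq_of_lt (by omega), Nat.mod_eq_of_lt (by omega)] at this
    omega
  have hne2 : u j s2 ≠ u i s1 + 1 := by
    rw [huj, ← hu]
    intro h
    have := hinj _ _ h
    rw [Nat.mod_eq_of_lt (by omega), Nat.mod_eq_of_lt (by omega)] at this
    omega
  have hne3 : u i s1 ≠ u j s2 + 1 := by
    rw [huj, ← hu]
    intro h
    have := hinj _ _ h
    by_cases h7 : K + s2 + 1 < m + 4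
    · rw [Nat.mod_eq_of_lt (by omega), Nat.mod_eq_of_lt (by omega)] at this
      omega
    · rw [show K + s2 + 1 = m + 4 by omega, Nat.mod_self, Nat.mod_eq_of_lt (by omega)] at this
      omega
  have hadj : G.Adj (f (u i s1)) (f (u j s2)) := by
    have hfne : f (u i s1) ≠ f (u j s2) := fun h => hne (f.injective h)
    rcases h3 with h3 | h3 <;> rcases h6 with h6 | h6
    · exact absurd (h3.trans h6.symm) hfne
    · rw [h3, h6]; exact ht
    · rw [h3, h6]; exact ht.symm
    · exact absurd (h3.trans h6.symm) hfne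
  have hc := f.map_rel_iff.1 hadj
  rw [cycleGraph_adj] at hc
  rcases hc with hc | hc
  · exact hne3 (by rw [← hc]; abel)
  · exact hne2 (by rw [← hc]; abel)

theorem chordal_glue {V : Type} (A B : SimpleGraph V) (u w : V)
    (hA : A.Adj u w) (hB : B.Adj u w) (X : Finset V)
    (hAX : ∀ a b, A.Adj a b → a ∈ X) (hBX : ∀ a b, B.Adj a b → a ∈ X → a = u ∨ a = w)
    (cA : ¬ HasChordlessCycle A) (cB : ¬ HasChordlessCycle B) : ¬ HasChordlessCycle (A ⊔ B) := by
  classical
  rintro ⟨n, hn, ⟨f⟩⟩
  obtain ⟨m, rfl⟩ := Nat.exists_eq_add_of_le' hn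
  have huX : u ∈ X := hAX u w hA
  have hwX : w ∈ X := hAX w u hA.symm
  have hBA : ∀ a b, B.Adj a b → a ∈ X → b ∈ X → A.Adj a b := by
    intro a b hab ha hb
    rcases hBX a b hab ha with rfl | rfl <;> rcases hBX b _ hab.symm hb with rfl | rfl
    · exact absurd rfl hab.ne
    · exact hA
    · exact hA.symm
    · exact absurd rfl hab.ne
  by_cases h1 : ∀ i, f i ∈ X
  · apply cA
    refine ⟨m + 4, hn, ⟨⟨f.toEmbedding, ?_⟩⟩⟩
    intro a b
    rw [← f.map_rel_iff]
    change A.Adj (f a) (f b) ↔ (A ⊔ B).Adj (f a) (f b)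
    rw [SimpleGraph.sup_adj]
    constructor
    · exact Or.inl
    · rintro (h | h)
      · exact h
      · exact hBA _ _ h (h1 a) (h1 b)
  · by_cases h2 : ∀ i, f i ∉ X ∨ f i = u ∨ f i = w
    · apply cB
      refine ⟨m + 4, hn, ⟨⟨f.toEmbedding, ?_⟩⟩⟩
      intro a b
      rw [← f.map_rel_iff]
      change B.Adj (f a) (f b) ↔ (A ⊔ B).Adj (f a) (f b)
      rw [SimpleGraph.sup_adj]
      constructor
      · exact Or.inr
      · rintro (h | h)
        · have ha := hAX _ _ h
          have hb := hAX _ _ h.symm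
          rcases h2 a with h3 | h3 | h3
          · exact absurd ha h3
          · rcases h2 b with h4 | h4 | h4
            · exact absurd hb h4
            · exact absurd (h3.trans h4.symm) h.ne
            · rw [h3, h4]; exact hB
          · rcases h2 b with h4 | h4 | h4
            · exact absurd hb h4
            · rw [h3, h4]; exact hB.symm
            · exact absurd (h3.trans h4.symm) h.ne
        · exact h
    · push Not at h1 h2
      obtain ⟨j, hj⟩ := h1
      obtain ⟨i, hi1, hi2, hi3⟩ := h2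
      refine cycle_side2 (A ⊔ B) (fun a => a ∈ X) (fun a => a ∉ X ∨ a = u ∨ a = w) u w
        ((SimpleGraph.sup_adj _ _ _ _).2 (Or.inl hA)) ?_ ?_ ?_ m f i j ?_ ?_
      · intro c
        tauto
      · intro c
        tauto
      · intro a ha ha' b hb hb' hab
        rw [SimpleGraph.sup_adj] at hab
        rcases hab with h | h
        · exact hb' (hAX _ _ h.symm)
        · have := hBX a b h ha
          tauto
      · tauto
      · tauto

section
variable {V : Type} [Fintype V] [DecidableEq V]

omit [Fintype V] in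
theorem nocut_mono (W : Finset V) (G G' : SimpleGraph V) (h : G ≤ G') (hN : NoCut W G) :
    NoCut W G' := by
  intro A B h1 h2 h3 h4
  obtain ⟨a, ha, b, hb, hab⟩ := hN A B h1 h2 h3 h4
  exact ⟨a, ha, b, hb, h hab⟩

/-- excess (twice) -/
noncomputable def EE (j n : ℕ) (G : SimpleGraph V) : ℤ :=
  (e2 G : ℤ) + 4 * j + 8 - 4 * n - ((j : ℤ) + 1) * (j + 2)

/-- the induction statement -/
def US (V : Type) [Fintype V] [DecidableEq V] (n : ℕ) : Prop :=
  ∀ (j : ℕ) (W : Finset V) (G : SimpleGraph V), 1 ≤ j → W.card = n → 2 ≤ n →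
    Sup G W → NoCut W G → (j = 1 ∨ ¬ Kol (j + 1) G) →
    ((j.factorial : ℕ) : ℤ) * (2 + EE j n G) ≤ 2 * bet W G ∧
    (((j.factorial : ℕ) : ℤ) * (2 + EE j n G) = 2 * bet W G → ¬ HasChordlessCycle G)

theorem low1 (n j : ℕ) (W : Finset V) (G : SimpleGraph V) (hW : W.card = n) (h2 : 2 ≤ n)
    (hG : Sup G W) (hN : NoCut W G) (hK : j = 1 ∨ ¬ Kol (j + 1) G) :
    ((j.factorial : ℕ) : ℤ) ≤ bet W G := by
  rcases hK with rfl | hK
  · simpa using nocut_bet n W G hW h2 hG hN
  · exact lower n j W G hW h2 hG hN hK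

/-- if `N(v)` is not a clique -/
theorem nonclq (W : Finset V) (G : SimpleGraph V) (hG : Sup G W) (v : V) (hv : v ∈ W)
    (hd : 2 ≤ deg G v) (hH : Sup (del G v) (W.erase v)) (x y : V) (hx : x ∈ nb G v)
    (hy : y ∈ nb G v) (hxy : x ≠ y) (hn : ¬ G.Adj x y) :
    ((deg G v : ℤ) - 2) * bet (W.erase v) (del G v) +
      bet (W.erase v) (st (del G v) x ((nb G v).erase x)) ≤ bet W G ∧
    e2 (del G v) + 2 ≤ e2 (st (del G v) x ((nb G v).erase x)) ∧
    Sup (st (del G v) x ((nb G v).erase x)) (W.erase v) := by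
  have hsub := nb_subset G W hG v
  have hvW := Finset.notMem_erase v W
  have hyT : y ∈ (nb G v).erase x := Finset.mem_erase.2 ⟨hxy.symm, hy⟩
  have hTW : (nb G v).erase x ⊆ W.erase v := (Finset.erase_subset _ _).trans hsub
  have hrec := bet_rec (del G v) (W.erase v) hH v x ((nb G v).erase x) hvW (hsub hx)
    (Finset.notMem_erase x _) hTW ⟨y, hyT⟩
  rw [Finset.insert_erase hx, Finset.insert_erase hv, st_del_nb] at hrec
  have hlow := bet_lower (del G v) (W.erase v) hH v hvW ((nb G v).erase x) hTW ⟨y, hyT⟩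
  rw [Finset.insert_erase hv, Finset.card_erase_of_mem hx, ← deg_eq] at hlow
  have hcast : (((deg G v - 1 : ℕ)) : ℤ) = (deg G v : ℤ) - 1 := by
    rw [Nat.cast_sub (by omega)]; norm_num
  rw [hcast] at hlow
  refine ⟨by linarith, ?_, sup_st _ _ hH x _ (hsub hx) hTW⟩
  by_contra hcon
  have heq := e2_star_eq (del G v) x ((nb G v).erase x) (by omega)
  have : (st (del G v) x ((nb G v).erase x)).Adj x y :=
    Or.inr (Or.inl ⟨rfl, hyT, hxy.symm⟩)
  rw [heq] at this
  exact hn this.1

/-- case of a separation of order two -/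
theorem caseB (n : ℕ) (ih : ∀ m < n, US V m) (j : ℕ) (W : Finset V) (G : SimpleGraph V)
    (hj : 1 ≤ j) (hW : W.card = n) (hG : Sup G W) (hN : NoCut W G)
    (u w : V) (P Q : Finset V) (hT : TS2 G W u w P Q)
    (hK : j = 1 ∨ ¬ Kol (j + 1) (res (st G u {w}) (XX u w P))) :
    ((j.factorial : ℕ) : ℤ) * (2 + EE j n G) ≤ 2 * bet W G ∧
    (((j.factorial : ℕ) : ℤ) * (2 + EE j n G) = 2 * bet W G → ¬ HasChordlessCycle G) := by
  obtain ⟨a1, a2, a3, a4⟩ := side W G hG hN u w P Q hT
  obtain ⟨b1, b2, b3, b4⟩ := side W G hG hN u w Q P (ts2_symm hT)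
  have hsplit := split W G hG u w P Q hT _ rfl
  have hplus := D_plus W G hG u w P Q hT
  obtain ⟨hu, hw, huw, hP0, hQ0, hdis, hmem, hE⟩ := hT
  have huP : u ∉ P := fun h => ((hmem u).1 (Or.inl h)).2.1 rfl
  have hwP : w ∉ P := fun h => ((hmem w).1 (Or.inl h)).1 rfl
  have huQ : u ∉ Q := fun h => ((hmem u).1 (Or.inr h)).2.1 rfl
  have hwQ : w ∉ Q := fun h => ((hmem w).1 (Or.inr h)).1 rfl
  set A := res (st G u {w}) (XX u w P) with hA
  set B := res (st G u {w}) (XX u w Q) with hB
  have huwadj : (st G u {w}).Adj u w :=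
    Or.inr (Or.inl ⟨rfl, Finset.mem_singleton_self w, huw.symm⟩)
  have hAuw : A.Adj u w := ⟨huwadj, by rw [mem_XX]; tauto, by rw [mem_XX]; tauto⟩
  have hBuw : B.Adj u w := ⟨huwadj, by rw [mem_XX]; tauto, by rw [mem_XX]; tauto⟩
  have hI : ∀ c, c ∈ XX u w P → c ∈ XX u w Q → c = u ∨ c = w := by
    intro c h1 h2
    rw [mem_XX] at h1 h2
    have := hdis c
    tauto
  have hOnA : On A (XX u w P) := fun a b h => h.2.1
  have hOnB : On B (XX u w Q) := fun a b h => h.2.1
  have hD : D (A ⊔ B) = D A * D B :=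
    D_mul u w huw A hAuw (XX u w P) hOnA _ (XX u w Q) B rfl hOnB hBuw hI
  have hcard : (XX u w P).card + (XX u w Q).card = n + 2 := by
    have h1 : (XX u w P).card = P.card + 2 := by
      unfold XX
      rw [Finset.card_insert_of_notMem (by simp [huw, huP]), Finset.card_insert_of_notMem hwP]
    have h2 : (XX u w Q).card = Q.card + 2 := by
      unfold XX
      rw [Finset.card_insert_of_notMem (by simp [huw, huQ]), Finset.card_insert_of_notMem hwQ]
    have h3 : (P ∪ Q).card = P.card + Q.card :=
      Finset.card_union_of_disjoint (Finset.disjoint_left.2 (fun c h h' => hdis c h h'))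
    have h4 : P ∪ Q = (W.erase u).erase w := by
      ext c
      rw [Finset.mem_union, hmem c, Finset.mem_erase, Finset.mem_erase]
    rw [h4, Finset.card_erase_of_mem (Finset.mem_erase.2 ⟨huw.symm, hw⟩),
      Finset.card_erase_of_mem hu] at h3
    have h5 : 2 ≤ W.card := by
      have : ({u, w} : Finset V) ⊆ W := by
        intro a ha
        rw [Finset.mem_insert, Finset.mem_singleton] at ha
        rcases ha with rfl | rfl
        exacts [hu, hw]
      have h6 := Finset.card_le_card this
      rwa [Finset.card_pair huw] at h6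
    omega
  have hbet : bet W G = bet (XX u w P) A * bet (XX u w Q) B := by
    unfold bet
    rw [← hplus, hsplit, hD, hW]
    have : (-1 : ℤ) ^ n = (-1) ^ (XX u w P).card * (-1) ^ (XX u w Q).card := by
      rw [← pow_add, hcard, pow_add]; norm_num
    rw [this]
    ring
  have he2 : e2 (st G u {w}) + 2 = e2 A + e2 B := by
    rw [hsplit]
    apply e2_sup A B u w huw hAuw hBuw
    intro a b h1 h2
    have ha := hI a (hOnA a b h1) (hOnB a b h2)
    have hb := hI b (hOnA b a h1.symm) (hOnB b a h2.symm)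
    have hab := h1.ne
    rcases ha with rfl | rfl <;> rcases hb with rfl | rfl
    · exact absurd rfl hab
    · exact Or.inl ⟨rfl, rfl⟩
    · exact Or.inr ⟨rfl, rfl⟩
    · exact absurd rfl hab
  have hle := e2_star G u {w}
  obtain ⟨i1, i2⟩ := ih _ (by rw [← hW]; exact a3) j _ A hj rfl a4 a1 a2 hK
  obtain ⟨k1, k2⟩ := ih _ (by rw [← hW]; exact b3) 1 _ B le_rfl rfl b4 b1 b2 (Or.inl rfl)
  have lA := low1 _ j _ A rfl a4 a1 a2 hK
  have lB := low1 _ 1 _ B rfl b4 b1 b2 (Or.inl rfl)
  have hF : (0 : ℤ) < ((j.factorial : ℕ) : ℤ) := by exact_mod_cast Nat.factorial_pos _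
  have hEsum : EE j n (st G u {w}) = EE j (XX u w P).card A + EE 1 (XX u w Q).card B := by
    unfold EE
    have h1 : ((e2 (st G u {w}) : ℕ) : ℤ) + 2 = (e2 A : ℤ) + (e2 B : ℤ) := by exact_mod_cast he2
    have h2 : (((XX u w P).card : ℕ) : ℤ) + (((XX u w Q).card : ℕ) : ℤ) = (n : ℤ) + 2 := by
      exact_mod_cast hcard
    push_cast
    linarith
  have hEle : EE j n G ≤ EE j n (st G u {w}) := by
    unfold EE
    have : ((e2 G : ℕ) : ℤ) ≤ ((e2 (st G u {w}) : ℕ) : ℤ) := by exact_mod_cast hle
    linarith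
  rw [hbet]
  set F := ((j.factorial : ℕ) : ℤ) with hFdef
  set p := bet (XX u w P) A
  set q := bet (XX u w Q) B
  set EA := EE j (XX u w P).card A
  set EB := EE 1 (XX u w Q).card B
  have h1f : (((1 : ℕ).factorial : ℕ) : ℤ) = 1 := by norm_num
  rw [h1f] at k1 k2 lB
  rw [one_mul] at k1 k2
  have hp : 0 < p := by linarith
  have hq : 0 < q := by linarith
  have key : F * (2 + (EA + EB)) ≤ 2 * (p * q) ∧
      (F * (2 + (EA + EB)) = 2 * (p * q) → F * (2 + EA) = 2 * p ∧ 2 + EB = 2 * q) := by
    by_cases hEA : EA < 0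
    · have h3 : F * (2 + (EA + EB)) < 2 * (p * q) := by
        have t1 : F * q ≤ p * q := mul_le_mul_of_nonneg_right lA hq.le
        have t2 : F * (2 + EB) ≤ F * (2 * q) := mul_le_mul_of_nonneg_left k1 hF.le
        have t3 : F * EA < 0 := mul_neg_of_pos_of_neg hF hEA
        nlinarith
      exact ⟨h3.le, fun h => absurd h h3.ne⟩
    · by_cases hEB : EB < 0
      · have h3 : F * (2 + (EA + EB)) < 2 * (p * q) := by
          have t1 : p * 1 ≤ p * q := mul_le_mul_of_nonneg_left lB hp.le
          have t3 : F * EB < 0 := mul_neg_of_pos_of_neg hF hEB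
          nlinarith
        exact ⟨h3.le, fun h => absurd h h3.ne⟩
      · push Not at hEA hEB
        have t1 : p * (2 + EB) ≤ p * (2 * q) := mul_le_mul_of_nonneg_left k1 hp.le
        have t2 : F * (2 + EA) * (2 + EB) ≤ 2 * p * (2 + EB) :=
          mul_le_mul_of_nonneg_right i1 (by linarith)
        have t3 : 0 ≤ F * (EA * EB) := mul_nonneg hF.le (mul_nonneg hEA hEB)
        refine ⟨by nlinarith, fun h => ?_⟩
        have t4 : 2 + EB = 2 * q := by
          by_contra hne
          have : 2 + EB < 2 * q := lt_of_le_of_ne k1 hne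
          have : p * (2 + EB) < p * (2 * q) := mul_lt_mul_of_pos_left this hp
          nlinarith
        refine ⟨?_, t4⟩
        by_contra hne
        have : F * (2 + EA) < 2 * p := lt_of_le_of_ne i1 hne
        have : F * (2 + EA) * (2 + EB) < 2 * p * (2 + EB) :=
          mul_lt_mul_of_pos_right this (by linarith)
        nlinarith
  have hmul : F * (2 + EE j n G) ≤ F * (2 + (EA + EB)) := by
    apply mul_le_mul_of_nonneg_left _ hF.le
    linarith
  refine ⟨hmul.trans key.1, fun heq => ?_⟩
  have h6 : F * (2 + (EA + EB)) = 2 * (p * q) := le_antisymm key.1 (heq ▸ hmul)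
  obtain ⟨h7, h8⟩ := key.2 h6
  have h9 : EE j n G = EE j n (st G u {w}) := by
    have : F * (2 + EE j n G) = F * (2 + (EA + EB)) := heq.trans h6.symm
    have := mul_left_cancel₀ hF.ne' this
    linarith
  have h10 : st G u {w} = G := by
    apply e2_star_eq
    unfold EE at h9
    have : ((e2 G : ℕ) : ℤ) = ((e2 (st G u {w}) : ℕ) : ℤ) := by linarith
    have : e2 G = e2 (st G u {w}) := by exact_mod_cast this
    omega
  rw [← h10, hsplit]
  exact chordal_glue A B u w hAuw hBuw (XX u w P) hOnA
    (fun a b h h' => hI a h' (hOnB a b h)) (i2 h7) (k2 h8)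

end

section
variable {V : Type} [Fintype V] [DecidableEq V]

/-- the main induction -/
theorem uu (n : ℕ) : US V n := by
  induction n using Nat.strong_induction_on with
  | _ n ih =>
    intro j W G hj hW h2 hG hN hK
    have hl := low1 n j W G hW h2 hG hN hK
    have hF : (0 : ℤ) < ((j.factorial : ℕ) : ℤ) := by exact_mod_cast Nat.factorial_pos _
    have h0 : W.Nonempty := Finset.card_pos.1 (by omega)
    by_cases hn2 : n = 2
    · have hj1 : j = 1 := by
        rcases hK with h | h
        · exact h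
        · exact absurd (kol_le (by omega) (kol_two W G hG (by omega))) h
      subst hj1
      refine ⟨?_, fun _ => chordal_small G W hG (by omega)⟩
      have h3 := e2_small G W hG h0 (by omega)
      have h4 : ((e2 G : ℕ) : ℤ) + 6 ≤ 4 * (n : ℤ) := by
        rw [hW] at h3
        exact_mod_cast h3
      unfold EE
      rw [show (((1 : ℕ).factorial : ℕ) : ℤ) = 1 by norm_num] at hl ⊢
      push_cast
      linarith
    have h3 : 3 ≤ W.card := by omega
    have hdeg := nocut_deg W G hN hG h3
    by_cases hex : ∃ v ∈ W, deg G v = 2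
    · obtain ⟨v, hv, hd⟩ := hex
      obtain ⟨x, y, hxy, hnb, hx, hy, hN', hS', hbe⟩ := deg_two_step W G hN hG v hv hd hdeg
      have hcard := Finset.card_erase_of_mem hv
      have hK' : j = 1 ∨ ¬ Kol (j + 1) (st (del G v) x {y}) := by
        rcases hK with h | h
        · exact Or.inl h
        · by_cases hj1 : j = 1
          · exact Or.inl hj1
          · exact Or.inr (fun hk => h (kol_ext _ G v (by omega) (kol_mono (le_st _ _ _) hk)))
      obtain ⟨i1, i2⟩ := ih (n - 1) (by omega) j _ _ hj (by omega) (by omega) hS' hN' hK'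
      rw [← hbe] at i1 i2
      have he2 := e2_del G v
      have hstar := e2_star (del G v) x {y}
      have hcast : (((n - 1 : ℕ)) : ℤ) = (n : ℤ) - 1 := by
        rw [Nat.cast_sub (by omega)]; norm_num
      have hle : EE j n G ≤ EE j (n - 1) (st (del G v) x {y}) := by
        unfold EE
        rw [hcast]
        have h5 : e2 G ≤ e2 (st (del G v) x {y}) + 4 := by omega
        have h6 : ((e2 G : ℕ) : ℤ) ≤ (e2 (st (del G v) x {y}) : ℤ) + 4 := by exact_mod_cast h5
        linarith
      have hmul := mul_le_mul_of_nonneg_left (add_le_add_right hle 2) hF.le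
      refine ⟨by linarith, fun heq => ?_⟩
      have h7 : EE j n G = EE j (n - 1) (st (del G v) x {y}) := by
        apply le_antisymm hle
        by_contra hcon
        push Not at hcon
        have := mul_lt_mul_of_pos_left hcon hF
        linarith
      have h8 : e2 (st (del G v) x {y}) < e2 (del G v) + 2 := by
        unfold EE at h7
        rw [hcast] at h7
        have h9 : ((e2 G : ℕ) : ℤ) = (e2 (st (del G v) x {y}) : ℤ) + 4 := by linarith
        have h10 : e2 G = e2 (st (del G v) x {y}) + 4 := by exact_mod_cast h9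
        omega
      have heq2 := e2_star_eq (del G v) x {y} h8
      have i3 := i2 (by rw [← h7]; exact heq)
      rw [heq2] at i3
      have hadj : G.Adj x y := by
        have : (st (del G v) x {y}).Adj x y :=
          Or.inr (Or.inl ⟨rfl, Finset.mem_singleton_self y, hxy.symm⟩)
        rw [heq2] at this
        exact this.1
      have hc : Clq G v := by
        intro a b ha hb hab
        rw [← mem_nb, hnb, Finset.mem_insert, Finset.mem_singleton] at ha hb
        rcases ha with rfl | rfl <;> rcases hb with rfl | rfl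
        · exact absurd rfl hab
        · exact hadj
        · exact hadj.symm
        · exact absurd rfl hab
      exact chordal_of_del G v hc i3
    push Not at hex
    have hdeg3 : ∀ a ∈ W, 3 ≤ deg G a := by
      intro a ha
      have := hdeg a ha
      have := hex a ha
      omega
    by_cases hTS : ∃ u w P Q, TS2 G W u w P Q
    · obtain ⟨u, w, P, Q, hT⟩ := hTS
      by_cases hKA : j = 1 ∨ ¬ Kol (j + 1) (res (st G u {w}) (XX u w P))
      · exact caseB n ih j W G hj hW hG hN u w P Q hT hKA
      · apply caseB n ih j W G hj hW hG hN u w Q P (ts2_symm hT)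
        push Not at hKA
        right
        intro hkB
        rcases hK with h | h
        · exact hKA.1 h
        · have hsplit := split W G hG u w P Q hT _ rfl
          obtain ⟨hu, hw, huw, hP0, hQ0, hdis, hmem, hE⟩ := hT
          have huwadj : (st G u {w}).Adj u w :=
            Or.inr (Or.inl ⟨rfl, Finset.mem_singleton_self w, huw.symm⟩)
          apply h
          apply kol_mono (le_st G u {w})
          rw [hsplit]
          refine kol_glue (j + 1) _ _ u w ⟨huwadj, by rw [mem_XX]; tauto, by rw [mem_XX]; tauto⟩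
            ⟨huwadj, by rw [mem_XX]; tauto, by rw [mem_XX]; tauto⟩ (XX u w P)
            (fun a b h => h.2.1) ?_ hKA.2 hkB
          intro a b hab ha
          have ha2 := hab.2.1
          rw [mem_XX] at ha ha2
          have := hdis a
          tauto
    · have hdel : ∀ v ∈ W, NoCut (W.erase v) (del G v) := by
        intro v hv
        by_contra hcon
        obtain ⟨x, P, Q, hT⟩ := ts2_of_cut W G hN v hv hcon hG
        exact hTS ⟨v, x, P, Q, hT⟩
      obtain ⟨v, hv, hvmin⟩ := min_deg G W h0
      have hNv := hdel v hv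
      have hH := sup_del G W hG v hdeg
      have hcard := Finset.card_erase_of_mem hv
      have hn1 : (W.erase v).card = n - 1 := by omega
      have hcast : (((n - 1 : ℕ)) : ℤ) = (n : ℤ) - 1 := by
        rw [Nat.cast_sub (by omega)]; norm_num
      have hlow := bet_lower (del G v) (W.erase v) hH v (Finset.notMem_erase v W) (nb G v)
        (nb_subset G W hG v) (by
          rw [← Finset.card_pos, ← deg_eq]
          have := hdeg v hv
          omega)
      rw [st_del_nb, Finset.insert_erase hv, ← deg_eq] at hlow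
      have hd3 : (3 : ℤ) ≤ (deg G v : ℤ) := by exact_mod_cast hdeg3 v hv
      have he2 := e2_del G v
      have he2z : ((e2 G : ℕ) : ℤ) = (e2 (del G v) : ℤ) + 2 * (deg G v : ℤ) := by
        exact_mod_cast he2
      have hlv := deg_lt G W hG v hv
      have hge := e2_ge G W (deg G v) hvmin
      -- supergraphs obtained from a non-clique
      have hncl : ∀ x ∈ nb G v, ∀ y ∈ nb G v, x ≠ y → ¬ G.Adj x y → ∀ i : ℕ, 1 ≤ i →
          (i = 1 ∨ ¬ Kol (i + 1) (del G v)) →
          ((deg G v : ℤ) - 2) * (2 * bet (W.erase v) (del G v)) +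
            ((i.factorial : ℕ) : ℤ) * (4 + EE i (n - 1) (del G v)) ≤ 2 * bet W G := by
        intro x hx y hy hxy hnadj i hi hKi
        obtain ⟨q1, q2, q3⟩ := nonclq W G hG v hv (by have := hdeg3 v hv; omega) hH x y hx hy hxy
          hnadj
        have hKi' : i = 1 ∨ ¬ Kol (i + 1) (st (del G v) x ((nb G v).erase x)) := by
          rcases hKi with h | h
          · exact Or.inl h
          · exact Or.inr (fun hk => h (kol_mono (le_st _ _ _) hk))
        obtain ⟨r1, -⟩ := ih (n - 1) (by omega) i _ _ hi hn1 (by omega) q3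
          (nocut_mono _ _ _ (le_st _ _ _) hNv) hKi'
        have hFi : (0 : ℤ) < ((i.factorial : ℕ) : ℤ) := by exact_mod_cast Nat.factorial_pos _
        have hEE : 4 + EE i (n - 1) (del G v) ≤
            2 + EE i (n - 1) (st (del G v) x ((nb G v).erase x)) := by
          unfold EE
          have : ((e2 (del G v) : ℕ) : ℤ) + 2 ≤
              (e2 (st (del G v) x ((nb G v).erase x)) : ℤ) := by exact_mod_cast q2
          linarith
        have := mul_le_mul_of_nonneg_left hEE hFi.le
        linarith
      by_cases hKi : j = 1 ∨ ¬ Kol (j + 1) (del G v)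
      · obtain ⟨i1, i2⟩ := ih (n - 1) (by omega) j _ _ hj hn1 (by omega) hH hNv hKi
        have lH := low1 (n - 1) j _ _ hn1 (by omega) hH hNv hKi
        have hEE : EE j n G = EE j (n - 1) (del G v) + 2 * (deg G v : ℤ) - 4 := by
          unfold EE
          rw [hcast, he2z]
          ring
        rw [hEE]
        have hnc := fun x hx y hy hxy hna => hncl x hx y hy hxy hna j hj hKi
        set F := ((j.factorial : ℕ) : ℤ)
        set E := EE j (n - 1) (del G v)
        set b := bet (W.erase v) (del G v)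
        set d := (deg G v : ℤ)
        set β := bet W G
        by_cases hE0 : E < 0
        · have t1 : (d - 1) * F ≤ (d - 1) * b := mul_le_mul_of_nonneg_left lH (by linarith)
          have t2 : F * E < 0 := mul_neg_of_pos_of_neg hF hE0
          have t3 : F * (2 + (E + 2 * d - 4)) < 2 * β := by nlinarith
          exact ⟨t3.le, fun h => absurd h t3.ne⟩
        · push Not at hE0
          have t1 : (d - 1) * (F * (2 + E)) ≤ (d - 1) * (2 * b) :=
            mul_le_mul_of_nonneg_left i1 (by linarith)
          have t2 : 0 ≤ (d - 2) * (F * E) := mul_nonneg (by linarith) (mul_nonneg hF.le hE0)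
          refine ⟨by nlinarith, fun heq => ?_⟩
          have hEz : E = 0 := by
            by_contra hne
            have hpos : 0 < E := lt_of_le_of_ne hE0 (Ne.symm hne)
            have : 0 < (d - 2) * (F * E) := mul_pos (by linarith) (mul_pos hF hpos)
            nlinarith
          have hbF : b = F := by
            apply le_antisymm _ lH
            rw [hEz] at heq
            by_contra hcon
            push Not at hcon
            have : (d - 1) * F < (d - 1) * b := mul_lt_mul_of_pos_left hcon (by linarith)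
            nlinarith
          have hcH := i2 (by rw [hEz, hbF]; ring)
          have hc : Clq G v := by
            intro x y hx hy hxy
            by_contra hna
            have h5 := hnc x ((mem_nb _ _ _).2 hx) y ((mem_nb _ _ _).2 hy) hxy hna
            rw [hbF, hEz] at h5
            rw [hEz] at heq
            nlinarith
          exact chordal_of_del G v hc hcH
      · push Not at hKi
        obtain ⟨hj1, hkH⟩ := hKi
        have hKG : ¬ Kol (j + 1) G := by
          rcases hK with h | h
          · exact absurd h hj1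
          · exact h
        obtain ⟨i, rfl⟩ : ∃ i, j = i + 1 := ⟨j - 1, by omega⟩
        have hi1 : 1 ≤ i := by omega
        have hKH : i = 1 ∨ ¬ Kol (i + 1) (del G v) := Or.inr (fun h => hKG (kol_succ _ G v h))
        have hdj : i + 2 ≤ deg G v := by
          by_contra hcon
          exact hKG (kol_ext _ G v (by omega) hkH)
        obtain ⟨i1, i2⟩ := ih (n - 1) (by omega) i _ _ hi1 hn1 (by omega) hH hNv hKH
        have hEE : EE i (n - 1) (del G v) = EE (i + 1) n G - 2 * ((deg G v : ℤ) - (i + 2)) := by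
          unfold EE
          rw [hcast, he2z]
          push_cast
          ring
        have hFf : (((i + 1).factorial : ℕ) : ℤ) = ((i : ℤ) + 1) * ((i.factorial : ℕ) : ℤ) := by
          rw [Nat.factorial_succ]
          push_cast
          ring
        have hF' : (0 : ℤ) < ((i.factorial : ℕ) : ℤ) := by exact_mod_cast Nat.factorial_pos _
        have hiz : (1 : ℤ) ≤ (i : ℤ) := by exact_mod_cast hi1
        have hnc := fun x hx y hy hxy hna => hncl x hx y hy hxy hna i hi1 hKH
        rw [hEE] at i1 i2 hnc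
        rw [hFf]
        -- degree bound for the excess
        have hEb : ∀ t : ℤ, 1 ≤ t → (deg G v : ℤ) = (i : ℤ) + 2 + t →
            2 * (i : ℤ) + 2 * t ≤ EE (i + 1) n G := by
          intro t ht hdt
          unfold EE
          have h5 : (deg G v : ℤ) * (n : ℤ) ≤ (e2 G : ℤ) := by
            rw [hW] at hge
            exact_mod_cast hge
          have h6 : (deg G v : ℤ) + 1 ≤ (n : ℤ) := by
            rw [hW] at hlv
            exact_mod_cast hlv
          rw [hdt] at h5 h6
          have h7 : 0 ≤ ((i : ℤ) + t - 2) * ((n : ℤ) - (i + 3 + t)) :=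
            mul_nonneg (by linarith) (by linarith)
          have h8 : 0 ≤ (t - 1) * (2 * (i : ℤ) + t) := mul_nonneg (by linarith) (by linarith)
          push_cast
          nlinarith
        set F' := ((i.factorial : ℕ) : ℤ)
        set E := EE (i + 1) n G
        set b := bet (W.erase v) (del G v)
        set β := bet W G
        obtain ⟨t, ht⟩ : ∃ t : ℕ, deg G v = i + 2 + t := ⟨deg G v - (i + 2), by omega⟩
        have htz : (deg G v : ℤ) = (i : ℤ) + 2 + t := by exact_mod_cast ht
        rw [htz] at hlow i1 i2 hnc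
        by_cases ht0 : t = 0
        · subst ht0
          have hz : (((0 : ℕ)) : ℤ) = 0 := by norm_num
          rw [hz] at hlow i1 i2 hnc
          have e1 : E - 2 * ((i : ℤ) + 2 + 0 - (i + 2)) = E := by ring
          rw [e1] at i1 i2 hnc
          have t1 : ((i : ℤ) + 1) * (F' * (2 + E)) ≤ ((i : ℤ) + 1) * (2 * b) :=
            mul_le_mul_of_nonneg_left i1 (by linarith)
          refine ⟨by nlinarith, fun heq => ?_⟩
          have hb2 : F' * (2 + E) = 2 * b := by
            apply le_antisymm i1
            by_contra hcon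
            push Not at hcon
            have : ((i : ℤ) + 1) * (F' * (2 + E)) < ((i : ℤ) + 1) * (2 * b) :=
              mul_lt_mul_of_pos_left hcon (by linarith)
            nlinarith
          have hcH := i2 hb2
          have hc : Clq G v := by
            intro x y hx hy hxy
            by_contra hna
            have h5 := hnc x ((mem_nb _ _ _).2 hx) y ((mem_nb _ _ _).2 hy) hxy hna
            rw [← hb2] at h5
            nlinarith
          exact chordal_of_del G v hc hcH
        · have ht1 : (1 : ℤ) ≤ (t : ℤ) := by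
            have : 1 ≤ t := Nat.one_le_iff_ne_zero.2 ht0
            exact_mod_cast this
          have hEb' := hEb t ht1 htz
          -- a nonadjacent pair
          obtain ⟨c, hc1, hc2⟩ := hkH
          have hmaps : ∀ a ∈ nb G v, c a ∈ Finset.range (i + 1 + 1) := fun a _ =>
            Finset.mem_range.2 (hc1 a)
          obtain ⟨x, hx, y, hy, hxy, hcxy⟩ := Finset.exists_ne_map_eq_of_card_lt_of_maps_to
            (by rw [Finset.card_range, ← deg_eq]; omega) hmaps
          have hna : ¬ G.Adj x y := by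
            intro hadj
            have hx' := (mem_nb _ _ _).1 hx
            have hy' := (mem_nb _ _ _).1 hy
            exact hc2 x y ⟨hadj, hx'.ne', hy'.ne'⟩ hcxy
          have h5 := hnc x hx y hy hxy hna
          have t1 : ((i : ℤ) + 2 + t - 2) * (F' * (2 + (E - 2 * ((i : ℤ) + 2 + t - (i + 2))))) ≤
              ((i : ℤ) + 2 + t - 2) * (2 * b) :=
            mul_le_mul_of_nonneg_left i1 (by linarith)
          have t2 : 0 ≤ F' * (t * (E - 2 * i - 2 * t)) :=
            mul_nonneg hF'.le (mul_nonneg (by linarith) (by linarith))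
          have t3 : ((i : ℤ) + 1) * F' * (2 + E) < 2 * β := by nlinarith
          exact ⟨t3.le, fun h => absurd h t3.ne⟩

end

section
variable {V : Type} [Fintype V] [DecidableEq V]

/-- `∏_{i<K} (X - (i+3))` -/
noncomputable def RR (K : ℕ) : ℤ[X] := ∏ i ∈ Finset.range K, (X - C ((i : ℤ) + 3))

theorem rr_monic (K : ℕ) : (RR K).Monic := monic_prod_of_monic _ _ (fun i _ => monic_X_sub_C _)

theorem rr_natDegree (K : ℕ) : (RR K).natDegree = K := by
  unfold RR
  rw [natDegree_prod_of_monic _ _ (fun i _ => monic_X_sub_C _)]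
  simp only [natDegree_X_sub_C, Finset.sum_const, Finset.card_range, smul_eq_mul, mul_one]

theorem rr_next (K : ℕ) : 2 * (RR K).nextCoeff = -((K : ℤ) * (K + 5)) := by
  unfold RR
  rw [Monic.nextCoeff_prod _ _ (fun i _ => monic_X_sub_C _)]
  simp only [nextCoeff_X_sub_C]
  induction K with
  | zero => simp
  | succ K ih =>
    rw [Finset.sum_range_succ, mul_add, ih]
    push_cast
    ring

theorem rr_one (K : ℕ) : (RR K).eval 1 = (-1) ^ K * (((K + 1).factorial : ℕ) : ℤ) := by
  unfold RR
  rw [eval_prod]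
  induction K with
  | zero => simp
  | succ K ih =>
    rw [Finset.prod_range_succ, ih, Nat.factorial_succ (K + 1)]
    simp only [eval_sub, eval_X, eval_C]
    push_cast
    ring

theorem rr_zero_ne (K : ℕ) : (RR K).eval 0 ≠ 0 := by
  unfold RR
  rw [eval_prod]
  apply Finset.prod_ne_zero_iff.2
  intro i _
  simp only [eval_sub, eval_X, eval_C]
  omega

theorem core_gen (G : SimpleGraph V) (hS : Sup G univ) (a2 K : ℕ) (h3 : 1 ≤ K)
    (hN : NoCut univ G)
    (hp : poly G = X ^ 1 * (X - C 1) ^ 1 * (X - C 2) ^ a2 * RR K) :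
    ¬ HasChordlessCycle G := by
  have m0 : (X ^ 1 : ℤ[X]).Monic := monic_X_pow 1
  have m1 : ((X - C (1 : ℤ)) ^ 1).Monic := (monic_X_sub_C 1).pow 1
  have m2 : ((X - C (2 : ℤ)) ^ a2).Monic := (monic_X_sub_C 2).pow a2
  have m3 := rr_monic K
  have hnd : (X ^ 1 * (X - C (1 : ℤ)) ^ 1 * (X - C 2) ^ a2 * RR K : ℤ[X]).natDegree =
      1 + 1 + a2 + K := by
    rw [((m0.mul m1).mul m2).natDegree_mul m3, (m0.mul m1).natDegree_mul m2, m0.natDegree_mul m1,
      (monic_X_sub_C (1 : ℤ)).natDegree_pow, (monic_X_sub_C (2 : ℤ)).natDegree_pow,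
      natDegree_X_pow, natDegree_X_sub_C, natDegree_X_sub_C, rr_natDegree]
    ring
  have hnx : 2 * (X ^ 1 * (X - C (1 : ℤ)) ^ 1 * (X - C 2) ^ a2 * RR K : ℤ[X]).nextCoeff =
      -(2 + 4 * (a2 : ℤ) + K * (K + 5)) := by
    rw [((m0.mul m1).mul m2).nextCoeff_mul m3, (m0.mul m1).nextCoeff_mul m2, m0.nextCoeff_mul m1,
      (monic_X_sub_C (1 : ℤ)).nextCoeff_pow, (monic_X_sub_C (2 : ℤ)).nextCoeff_pow,
      monic_X.nextCoeff_pow, nextCoeff_X_sub_C, nextCoeff_X_sub_C]
    have hX : (X : ℤ[X]).nextCoeff = 0 := by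
      have := nextCoeff_X_sub_C (0 : ℤ)
      simpa using this
    rw [hX, mul_add, rr_next]
    simp
    ring
  have hdeg := (poly_spec G).2.2.1
  have hco := (poly_spec G).2.2.2
  have hdeg' := hdeg
  rw [hp, hnd] at hdeg
  have hc : 1 ≤ Fintype.card V := by omega
  have hnc : (poly G).nextCoeff = (poly G).coeff (Fintype.card V - 1) := by
    rw [nextCoeff_of_natDegree_pos (by omega), hdeg']
  have h2 := hco hc
  rw [← hnc, hp, hnx] at h2
  have he2 : e2 G = 2 + 4 * a2 + K * (K + 5) := by
    have : ((2 + 4 * a2 + K * (K + 5) : ℕ) : ℤ) = (e2 G : ℤ) := by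
      push_cast
      linarith
    exact_mod_cast this.symm
  have hbet : bet univ G = (((K + 1).factorial : ℕ) : ℤ) := by
    unfold bet D
    rw [Finset.card_univ, ← hdeg, hp, pow_one, pow_one]
    rw [derivative_mul, derivative_mul, derivative_mul]
    simp only [eval_add, eval_mul, eval_sub, eval_pow, eval_X, eval_C, derivative_X,
      derivative_sub, derivative_C, sub_self, mul_zero, zero_mul, sub_zero, one_mul,
      mul_one, add_zero, zero_add]
    rw [rr_one]
    have e1 : (-1 : ℤ) ^ (1 + 1 + a2 + K) = (-1) ^ a2 * (-1) ^ K := by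
      rw [pow_add, pow_add]
      norm_num
    rw [e1]
    have e3 : (1 - 2 : ℤ) = -1 := by norm_num
    rw [e3]
    have e5 : (-1 : ℤ) ^ a2 * (-1) ^ a2 = 1 := by
      rw [← mul_pow]; norm_num
    have e6 : (-1 : ℤ) ^ K * (-1) ^ K = 1 := by
      rw [← mul_pow]; norm_num
    calc (-1 : ℤ) ^ a2 * (-1) ^ K * ((-1) ^ a2 * ((-1) ^ K * (((K + 1).factorial : ℕ) : ℤ))) =
        ((-1 : ℤ) ^ a2 * (-1) ^ a2) * ((-1) ^ K * (-1) ^ K) * (((K + 1).factorial : ℕ) : ℤ) := by
          ring
      _ = (((K + 1).factorial : ℕ) : ℤ) := by rw [e5, e6]; ring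
  have hK : ¬ Kol (K + 1 + 1) G := by
    rintro ⟨c, h1, h2⟩
    have h5 := poly_eval G (K + 1 + 1)
    rw [hp] at h5
    have h6 : (RR K).eval (((K + 1 + 1 : ℕ) : ℤ)) = 0 := by
      unfold RR
      rw [eval_prod]
      apply Finset.prod_eq_zero (i := K - 1) (Finset.mem_range.2 (by omega))
      simp only [eval_sub, eval_X, eval_C]
      push_cast [Nat.cast_sub h3]
      ring
    rw [eval_mul, h6, mul_zero] at h5
    have h7 : cnt G (K + 1 + 1) = 0 := by exact_mod_cast h5.symm
    unfold cnt at h7
    rw [Fintype.card_eq_zero_iff] at h7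
    exact h7.elim ⟨fun a => ⟨c a, h1 a⟩, fun u v huv h => h2 u v huv (by simpa using h)⟩
  have hup := uu (V := V) (Fintype.card V) (K + 1) univ G (by omega) Finset.card_univ (by omega) hS
    hN (Or.inr hK)
  apply hup.2
  rw [hbet]
  unfold EE
  rw [he2, ← hdeg]
  push_cast
  ring

/-- nonseparable graphs -/
theorem nocut_gen (G : SimpleGraph V) (hN : NoCut univ G) (h4 : 4 ≤ Fintype.card V)
    (a0 a1 a2 K : ℕ) (h3 : 1 ≤ K)
    (hp : poly G = X ^ a0 * (X - C 1) ^ a1 * (X - C 2) ^ a2 * RR K) :
    ¬ HasChordlessCycle G := by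
  have hS := sup_of_nocut G hN (by omega)
  have hb := nocut_bet (Fintype.card V) univ G Finset.card_univ (by omega) hS hN
  have hne : Nonempty V := Fintype.card_pos_iff.1 (by omega)
  obtain ⟨v0⟩ := hne
  obtain ⟨w0, hw0⟩ := (hS v0).1 (Finset.mem_univ v0)
  have h1 : a1 = 1 := by
    rcases a1 with _ | _ | a1
    · exfalso
      have := AtMostOneTwo.eval_one G v0 w0 hw0
      rw [hp] at this
      simp [rr_one, Nat.factorial_ne_zero] at this
    · rfl
    · exfalso
      have : D G = 0 := by
        apply D_zero G (X ^ a0 * (X - C 1) ^ a1 * (X - C 2) ^ a2 * RR K)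
        rw [hp]
        ring
      unfold bet at hb
      rw [this, mul_zero] at hb
      omega
  have h0 : a0 = 1 := by
    rcases a0 with _ | _ | a0
    · exfalso
      have h5 := poly_eval G 0
      have h6 : cnt G 0 = 0 := by
        unfold cnt
        rw [Fintype.card_eq_zero_iff]
        exact ⟨fun c => (c.1 v0).elim0⟩
      rw [h6, hp] at h5
      subst h1
      simp [rr_one, rr_zero_ne, Nat.factorial_ne_zero] at h5
    · rfl
    · exfalso
      have hNc := nocut_cone G hN
      have hcc : 2 ≤ Fintype.card (Option V) := by rw [Fintype.card_option]; omega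
      have hSc := sup_of_nocut _ hNc hcc
      have hbc := nocut_bet (Fintype.card (Option V)) univ _ Finset.card_univ hcc hSc hNc
      have : D (ext G univ) = 0 := by
        apply D_zero _ (X * ((X - C 1) ^ a0 * ((X - C 1) - C 1) ^ a1 * ((X - C 1) - C 2) ^ a2 *
          (RR K).comp (X - C 1)))
        rw [poly_cone, hp]
        simp only [mul_comp, pow_comp, sub_comp, X_comp, C_comp]
        ring
      unfold bet at hbc
      rw [this, mul_zero] at hbc
      omega
  subst h0 h1
  exact core_gen G hS a2 K h3 hN hp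

theorem ind_gen (N : ℕ) : ∀ (G : SimpleGraph V) (a0 a1 a2 K : ℕ),
    Fintype.card V * Fintype.card V - e2 G = N → 1 ≤ K →
    poly G = X ^ a0 * (X - C 1) ^ a1 * (X - C 2) ^ a2 * RR K →
    ¬ HasChordlessCycle G := by
  induction N using Nat.strong_induction_on with
  | _ N ih =>
    intro G a0 a1 a2 K hNe h3 hp
    by_cases hc4 : Fintype.card V ≤ 3
    · exact chordal_card G hc4
    by_cases hN : NoCut univ G
    · exact nocut_gen G hN (by omega) a0 a1 a2 K h3 hp
    -- joining two disjoint parts
    have hjoin : ∀ A B : Finset V, (∀ c, c ∈ A ∨ c ∈ B) → (∀ c, c ∈ A → c ∈ B → False) →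
        (∀ a, a ∈ A → ∀ b, b ∈ B → ¬ G.Adj a b) → A.Nonempty → B.Nonempty →
        ¬ HasChordlessCycle G := by
      intro A B hcov hI hE hA hB
      obtain ⟨x, hx⟩ := hA
      obtain ⟨y, hy⟩ := hB
      have hyA : y ∉ A := fun h => hI y h hy
      have hxB : x ∉ B := fun h => hI x hx h
      have hxy : x ≠ y := fun h => hyA (h ▸ hx)
      have he := e2_one G x y hxy (hE x hx y hy)
      have hle := e2_le (st G x {y})
      have hrel : X * poly (st G x {y}) = (X - C 1) * poly G := by
        apply poly_ext_nat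
        intro q
        rw [eval_mul, eval_mul, eval_X, eval_sub, eval_X, eval_C, poly_eval, poly_eval]
        exact cnt_join G A B x y hcov hI hE hx hy q
      rcases a0 with _ | a0
      · exfalso
        have h5 := congrArg (eval 0) hrel
        rw [hp] at h5
        simp [rr_one, rr_zero_ne, Nat.factorial_ne_zero] at h5
      · have hp' : poly (st G x {y}) =
            X ^ a0 * (X - C 1) ^ (a1 + 1) * (X - C 2) ^ a2 * RR K := by
          apply mul_left_cancel₀ (X_ne_zero (R := ℤ))
          rw [hrel, hp]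
          ring
        have := ih (Fintype.card V * Fintype.card V - e2 (st G x {y})) (by omega) _ _ _ _ _ rfl h3 hp'
        exact transfer G A B x x y hcov (fun c h h' => (hI c h h').elim)
          (fun a ha _ b hb _ => hE a ha b hb) hx hxB hy hyA this
    unfold NoCut at hN
    push Not at hN
    obtain ⟨A, B, hU, hI, hA, hB, hE⟩ := hN
    have hcov : ∀ c, c ∈ A ∨ c ∈ B := by
      intro c
      have : c ∈ A ∪ B := by rw [hU]; exact Finset.mem_univ c
      exact Finset.mem_union.1 this
    by_cases hI0 : A ∩ B = ∅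
    · apply hjoin A B hcov
      · intro c h1 h2
        have : c ∈ A ∩ B := Finset.mem_inter.2 ⟨h1, h2⟩
        rw [hI0] at this
        exact absurd this (Finset.notMem_empty c)
      · intro a ha b hb
        have haB : a ∉ B := fun h => by
          have : a ∈ A ∩ B := Finset.mem_inter.2 ⟨ha, h⟩
          rw [hI0] at this
          exact absurd this (Finset.notMem_empty a)
        have hbA : b ∉ A := fun h => by
          have : b ∈ A ∩ B := Finset.mem_inter.2 ⟨h, hb⟩
          rw [hI0] at this
          exact absurd this (Finset.notMem_empty b)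
        exact hE a (Finset.mem_sdiff.2 ⟨ha, haB⟩) b (Finset.mem_sdiff.2 ⟨hb, hbA⟩)
      · obtain ⟨c, hc⟩ := hA
        exact ⟨c, (Finset.mem_sdiff.1 hc).1⟩
      · obtain ⟨c, hc⟩ := hB
        exact ⟨c, (Finset.mem_sdiff.1 hc).1⟩
    · obtain ⟨t, ht⟩ := Finset.nonempty_iff_ne_empty.2 hI0
      obtain ⟨htA, htB⟩ := Finset.mem_inter.1 ht
      have hI' : ∀ c, c ∈ A → c ∈ B → c = t := by
        intro c h1 h2
        exact Finset.card_le_one.1 hI c (Finset.mem_inter.2 ⟨h1, h2⟩) t ht
      have hE' : ∀ a, a ∈ A → a ∉ B → ∀ b, b ∈ B → b ∉ A → ¬ G.Adj a b :=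
        fun a ha haB b hb hbA => hE a (Finset.mem_sdiff.2 ⟨ha, haB⟩) b
          (Finset.mem_sdiff.2 ⟨hb, hbA⟩)
      by_cases hx : ∃ x, x ∈ A ∧ x ∉ B ∧ G.Adj t x
      · by_cases hy : ∃ y, y ∈ B ∧ y ∉ A ∧ G.Adj t y
        · obtain ⟨x, hxA, hxB, htx⟩ := hx
          obtain ⟨y, hyB, hyA, hty⟩ := hy
          have hxy : x ≠ y := fun h => hyA (h ▸ hxA)
          have he := e2_one G x y hxy (hE' x hxA hxB y hyB hyA)
          have hle := e2_le (st G x {y})
          have hrel : (X - C 1) * poly (st G x {y}) = (X - C 2) * poly G := by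
            apply poly_ext_nat
            intro q
            rw [eval_mul, eval_mul, eval_sub, eval_sub, eval_X, eval_C, eval_C, poly_eval,
              poly_eval]
            exact cnt_cutv G A B t x y hcov hI' hE' hxA hyA htA htB htx hty q
          rcases a1 with _ | a1
          · exfalso
            have h5 := AtMostOneTwo.eval_one G t x htx
            rw [hp] at h5
            simp [rr_one, rr_zero_ne, Nat.factorial_ne_zero] at h5
          · have hp' : poly (st G x {y}) =
                X ^ a0 * (X - C 1) ^ a1 * (X - C 2) ^ (a2 + 1) * RR K := by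
              apply mul_left_cancel₀ (X_sub_C_ne_zero (1 : ℤ))
              rw [hrel, hp]
              ring
            have := ih (Fintype.card V * Fintype.card V - e2 (st G x {y})) (by omega) _ _ _ _ _
              rfl h3 hp'
            exact transfer G A B t x y hcov hI' hE' hxA hxB hyB hyA this
        · push Not at hy
          apply hjoin A (B.erase t)
          · intro c
            by_cases hct : c = t
            · subst hct; exact Or.inl htA
            · rcases hcov c with h | h
              · exact Or.inl h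
              · exact Or.inr (Finset.mem_erase.2 ⟨hct, h⟩)
          · intro c h1 h2
            exact (Finset.mem_erase.1 h2).1 (hI' c h1 (Finset.mem_erase.1 h2).2)
          · intro a ha b hb hab
            obtain ⟨hbt, hbB⟩ := Finset.mem_erase.1 hb
            have hbA : b ∉ A := fun h => hbt (hI' b h hbB)
            by_cases haB : a ∈ B
            · have := hI' a ha haB
              subst this
              exact hy b hbB hbA hab
            · exact hE' a ha haB b hbB hbA hab
          · exact ⟨t, htA⟩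
          · obtain ⟨c, hc⟩ := hB
            rw [Finset.mem_sdiff] at hc
            exact ⟨c, Finset.mem_erase.2 ⟨fun h => hc.2 (h ▸ htA), hc.1⟩⟩
      · push Not at hx
        apply hjoin (A.erase t) B
        · intro c
          by_cases hct : c = t
          · subst hct; exact Or.inr htB
          · rcases hcov c with h | h
            · exact Or.inl (Finset.mem_erase.2 ⟨hct, h⟩)
            · exact Or.inr h
        · intro c h1 h2
          exact (Finset.mem_erase.1 h1).1 (hI' c (Finset.mem_erase.1 h1).2 h2)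
        · intro a ha b hb hab
          obtain ⟨hat, haA⟩ := Finset.mem_erase.1 ha
          have haB : a ∉ B := fun h => hat (hI' a haA h)
          by_cases hbA : b ∈ A
          · have := hI' b hbA hb
            subst this
            exact hx a haA haB hab.symm
          · exact hE' a haA haB b hb hbA hab
        · obtain ⟨c, hc⟩ := hA
          rw [Finset.mem_sdiff] at hc
          exact ⟨c, Finset.mem_erase.2 ⟨fun h => hc.2 (h ▸ htB), hc.1⟩⟩
        · exact ⟨t, htB⟩


end

theorem poly_gen {V : Type} [Fintype V] (G : SimpleGraph V) (K : ℕ) (r : ℕ → ℕ)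
    (hr : ∀ i, 3 ≤ i → i ≤ K + 2 → r i = 1) (h : InFamily G (K + 2) r) :
    poly G = X ^ r 0 * (X - C 1) ^ r 1 * (X - C 2) ^ r 2 * RR K := by
  apply poly_ext_nat
  intro q
  rw [poly_eval, ← card_col, h q, show K + 2 + 1 = 3 + K by ring, Finset.prod_range_add]
  have h1 : ∏ x ∈ Finset.range K, ((q : ℤ) - ((3 + x : ℕ) : ℤ)) ^ r (3 + x) =
      (RR K).eval (q : ℤ) := by
    unfold RR
    rw [eval_prod]
    apply Finset.prod_congr rfl
    intro x hx
    rw [Finset.mem_range] at hx
    rw [hr (3 + x) (by omega) (by omega), pow_one]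
    simp only [eval_sub, eval_X, eval_C]
    push_cast
    ring
  rw [h1]
  simp [Finset.prod_range_succ]


section
variable {V : Type} [Fintype V] [DecidableEq V]

/-- `∏_{i<K} (X - (i+3))` with the factor `X - (s+3)` repeated -/
noncomputable def RS (K s : ℕ) : ℤ[X] := RR K * (X - C ((s : ℤ) + 3))

theorem rs_monic (K s : ℕ) : (RS K s).Monic := (rr_monic K).mul (monic_X_sub_C _)

theorem rs_natDegree (K s : ℕ) : (RS K s).natDegree = K + 1 := by
  unfold RS
  rw [(rr_monic K).natDegree_mul (monic_X_sub_C _), rr_natDegree, natDegree_X_sub_C]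

theorem rs_next (K s : ℕ) :
    2 * (RS K s).nextCoeff = -((K : ℤ) * (K + 5)) - 2 * ((s : ℤ) + 3) := by
  unfold RS
  rw [(rr_monic K).nextCoeff_mul (monic_X_sub_C _), nextCoeff_X_sub_C, mul_add, rr_next]
  ring

theorem rs_one (K s : ℕ) : (RS K s).eval 1 =
    (-1) ^ (K + 1) * ((((K + 1).factorial : ℕ) : ℤ) * ((s : ℤ) + 2)) := by
  unfold RS
  rw [eval_mul, rr_one, eval_sub, eval_X, eval_C, pow_succ]
  ring

theorem rs_one_ne (K s : ℕ) : (RS K s).eval 1 ≠ 0 := by
  rw [rs_one]
  have h1 : (((K + 1).factorial : ℕ) : ℤ) ≠ 0 := by exact_mod_cast Nat.factorial_ne_zero _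
  have h2 : ((s : ℤ) + 2) ≠ 0 := by omega
  exact mul_ne_zero (pow_ne_zero _ (by norm_num)) (mul_ne_zero h1 h2)

theorem rs_zero_ne (K s : ℕ) : (RS K s).eval 0 ≠ 0 := by
  unfold RS
  rw [eval_mul]
  refine mul_ne_zero (rr_zero_ne K) ?_
  rw [eval_sub, eval_X, eval_C]
  omega

theorem core_gen2 (G : SimpleGraph V) (hS : Sup G univ) (a2 K s : ℕ) (h3 : s < K)
    (hN : NoCut univ G)
    (hp : poly G = X ^ 1 * (X - C 1) ^ 1 * (X - C 2) ^ a2 * RS K s) :
    ¬ HasChordlessCycle G := by
  have m0 : (X ^ 1 : ℤ[X]).Monic := monic_X_pow 1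
  have m1 : ((X - C (1 : ℤ)) ^ 1).Monic := (monic_X_sub_C 1).pow 1
  have m2 : ((X - C (2 : ℤ)) ^ a2).Monic := (monic_X_sub_C 2).pow a2
  have m3 := rs_monic K s
  have hnd : (X ^ 1 * (X - C (1 : ℤ)) ^ 1 * (X - C 2) ^ a2 * RS K s : ℤ[X]).natDegree =
      1 + 1 + a2 + (K + 1) := by
    rw [((m0.mul m1).mul m2).natDegree_mul m3, (m0.mul m1).natDegree_mul m2, m0.natDegree_mul m1,
      (monic_X_sub_C (1 : ℤ)).natDegree_pow, (monic_X_sub_C (2 : ℤ)).natDegree_pow,
      natDegree_X_pow, natDegree_X_sub_C, natDegree_X_sub_C, rs_natDegree]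
    ring
  have hnx : 2 * (X ^ 1 * (X - C (1 : ℤ)) ^ 1 * (X - C 2) ^ a2 * RS K s : ℤ[X]).nextCoeff =
      -(2 + 4 * (a2 : ℤ) + K * (K + 5) + 2 * ((s : ℤ) + 3)) := by
    rw [((m0.mul m1).mul m2).nextCoeff_mul m3, (m0.mul m1).nextCoeff_mul m2, m0.nextCoeff_mul m1,
      (monic_X_sub_C (1 : ℤ)).nextCoeff_pow, (monic_X_sub_C (2 : ℤ)).nextCoeff_pow,
      monic_X.nextCoeff_pow, nextCoeff_X_sub_C, nextCoeff_X_sub_C]
    have hX : (X : ℤ[X]).nextCoeff = 0 := by
      have := nextCoeff_X_sub_C (0 : ℤ)
      simpa using this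
    rw [hX, mul_add, rs_next]
    simp
    ring
  have hdeg := (poly_spec G).2.2.1
  have hco := (poly_spec G).2.2.2
  have hdeg' := hdeg
  rw [hp, hnd] at hdeg
  have hc : 1 ≤ Fintype.card V := by omega
  have hnc : (poly G).nextCoeff = (poly G).coeff (Fintype.card V - 1) := by
    rw [nextCoeff_of_natDegree_pos (by omega), hdeg']
  have h2 := hco hc
  rw [← hnc, hp, hnx] at h2
  have hbet : bet univ G = (((K + 1).factorial : ℕ) : ℤ) * ((s : ℤ) + 2) := by
    unfold bet D
    rw [Finset.card_univ, ← hdeg, hp, pow_one, pow_one]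
    rw [derivative_mul, derivative_mul, derivative_mul]
    simp only [eval_add, eval_mul, eval_sub, eval_pow, eval_X, eval_C, derivative_X,
      derivative_sub, derivative_C, sub_self, mul_zero, zero_mul, sub_zero, one_mul,
      mul_one, add_zero, zero_add]
    rw [rs_one]
    have e1 : (-1 : ℤ) ^ (1 + 1 + a2 + (K + 1)) = (-1) ^ a2 * (-1) ^ (K + 1) := by
      rw [pow_add, pow_add]
      norm_num
    rw [e1]
    have e3 : (1 - 2 : ℤ) = -1 := by norm_num
    rw [e3]
    have e5 : (-1 : ℤ) ^ a2 * (-1) ^ a2 = 1 := by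
      rw [← mul_pow]; norm_num
    have e6 : (-1 : ℤ) ^ (K + 1) * (-1) ^ (K + 1) = 1 := by
      rw [← mul_pow]; norm_num
    calc (-1 : ℤ) ^ a2 * (-1) ^ (K + 1) * ((-1) ^ a2 * ((-1) ^ (K + 1) *
          ((((K + 1).factorial : ℕ) : ℤ) * ((s : ℤ) + 2)))) =
        ((-1 : ℤ) ^ a2 * (-1) ^ a2) * ((-1) ^ (K + 1) * (-1) ^ (K + 1)) *
          ((((K + 1).factorial : ℕ) : ℤ) * ((s : ℤ) + 2)) := by
          ring
      _ = (((K + 1).factorial : ℕ) : ℤ) * ((s : ℤ) + 2) := by rw [e5, e6]; ring
  have hK : ¬ Kol (K + 1 + 1) G := by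
    rintro ⟨c, h1, h2⟩
    have h5 := poly_eval G (K + 1 + 1)
    rw [hp] at h5
    have h6 : (RR K).eval (((K + 1 + 1 : ℕ) : ℤ)) = 0 := by
      unfold RR
      rw [eval_prod]
      apply Finset.prod_eq_zero (i := K - 1) (Finset.mem_range.2 (by omega))
      simp only [eval_sub, eval_X, eval_C]
      push_cast [Nat.cast_sub (show 1 ≤ K by omega)]
      ring
    unfold RS at h5
    rw [eval_mul, eval_mul (p := RR K), h6, zero_mul, mul_zero] at h5
    have h7 : cnt G (K + 1 + 1) = 0 := by exact_mod_cast h5.symm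
    unfold cnt at h7
    rw [Fintype.card_eq_zero_iff] at h7
    exact h7.elim ⟨fun a => ⟨c a, h1 a⟩, fun u v huv h => h2 u v huv (by simpa using h)⟩
  have hup := uu (V := V) (Fintype.card V) (K + 1) univ G (by omega) Finset.card_univ (by omega) hS
    hN (Or.inr hK)
  apply hup.2
  rw [hbet]
  unfold EE
  have he2 : (e2 G : ℤ) = 2 + 4 * (a2 : ℤ) + K * (K + 5) + 2 * ((s : ℤ) + 3) := by linarith
  rw [he2, ← hdeg]
  push_cast
  ring

/-- nonseparable graphs -/
theorem nocut_gen2 (G : SimpleGraph V) (hN : NoCut univ G) (h4 : 4 ≤ Fintype.card V)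
    (a0 a1 a2 K s : ℕ) (h3 : s < K)
    (hp : poly G = X ^ a0 * (X - C 1) ^ a1 * (X - C 2) ^ a2 * RS K s) :
    ¬ HasChordlessCycle G := by
  have hS := sup_of_nocut G hN (by omega)
  have hb := nocut_bet (Fintype.card V) univ G Finset.card_univ (by omega) hS hN
  have hne : Nonempty V := Fintype.card_pos_iff.1 (by omega)
  obtain ⟨v0⟩ := hne
  obtain ⟨w0, hw0⟩ := (hS v0).1 (Finset.mem_univ v0)
  have h1 : a1 = 1 := by
    rcases a1 with _ | _ | a1
    · exfalso
      have := AtMostOneTwo.eval_one G v0 w0 hw0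
      rw [hp] at this
      simp [rs_one_ne] at this
    · rfl
    · exfalso
      have : D G = 0 := by
        apply D_zero G (X ^ a0 * (X - C 1) ^ a1 * (X - C 2) ^ a2 * RS K s)
        rw [hp]
        ring
      unfold bet at hb
      rw [this, mul_zero] at hb
      omega
  have h0 : a0 = 1 := by
    rcases a0 with _ | _ | a0
    · exfalso
      have h5 := poly_eval G 0
      have h6 : cnt G 0 = 0 := by
        unfold cnt
        rw [Fintype.card_eq_zero_iff]
        exact ⟨fun c => (c.1 v0).elim0⟩
      rw [h6, hp] at h5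
      subst h1
      simp [rs_one_ne, rs_zero_ne] at h5
    · rfl
    · exfalso
      have hNc := nocut_cone G hN
      have hcc : 2 ≤ Fintype.card (Option V) := by rw [Fintype.card_option]; omega
      have hSc := sup_of_nocut _ hNc hcc
      have hbc := nocut_bet (Fintype.card (Option V)) univ _ Finset.card_univ hcc hSc hNc
      have : D (ext G univ) = 0 := by
        apply D_zero _ (X * ((X - C 1) ^ a0 * ((X - C 1) - C 1) ^ a1 * ((X - C 1) - C 2) ^ a2 *
          (RS K s).comp (X - C 1)))
        rw [poly_cone, hp]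
        simp only [mul_comp, pow_comp, sub_comp, X_comp, C_comp]
        ring
      unfold bet at hbc
      rw [this, mul_zero] at hbc
      omega
  subst h0 h1
  exact core_gen2 G hS a2 K s h3 hN hp

theorem ind_gen2 (N : ℕ) : ∀ (G : SimpleGraph V) (a0 a1 a2 K s : ℕ),
    Fintype.card V * Fintype.card V - e2 G = N → s < K →
    poly G = X ^ a0 * (X - C 1) ^ a1 * (X - C 2) ^ a2 * RS K s →
    ¬ HasChordlessCycle G := by
  induction N using Nat.strong_induction_on with
  | _ N ih =>
    intro G a0 a1 a2 K s hNe h3 hp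
    by_cases hc4 : Fintype.card V ≤ 3
    · exact chordal_card G hc4
    by_cases hN : NoCut univ G
    · exact nocut_gen2 G hN (by omega) a0 a1 a2 K s h3 hp
    -- joining two disjoint parts
    have hjoin : ∀ A B : Finset V, (∀ c, c ∈ A ∨ c ∈ B) → (∀ c, c ∈ A → c ∈ B → False) →
        (∀ a, a ∈ A → ∀ b, b ∈ B → ¬ G.Adj a b) → A.Nonempty → B.Nonempty →
        ¬ HasChordlessCycle G := by
      intro A B hcov hI hE hA hB
      obtain ⟨x, hx⟩ := hA
      obtain ⟨y, hy⟩ := hB
      have hyA : y ∉ A := fun h => hI y h hy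
      have hxB : x ∉ B := fun h => hI x hx h
      have hxy : x ≠ y := fun h => hyA (h ▸ hx)
      have he := e2_one G x y hxy (hE x hx y hy)
      have hle := e2_le (st G x {y})
      have hrel : X * poly (st G x {y}) = (X - C 1) * poly G := by
        apply poly_ext_nat
        intro q
        rw [eval_mul, eval_mul, eval_X, eval_sub, eval_X, eval_C, poly_eval, poly_eval]
        exact cnt_join G A B x y hcov hI hE hx hy q
      rcases a0 with _ | a0
      · exfalso
        have h5 := congrArg (eval 0) hrel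
        rw [hp] at h5
        simp [rs_one_ne, rs_zero_ne] at h5
      · have hp' : poly (st G x {y}) =
            X ^ a0 * (X - C 1) ^ (a1 + 1) * (X - C 2) ^ a2 * RS K s := by
          apply mul_left_cancel₀ (X_ne_zero (R := ℤ))
          rw [hrel, hp]
          ring
        have := ih (Fintype.card V * Fintype.card V - e2 (st G x {y})) (by omega) _ _ _ _ _ _ rfl h3 hp'
        exact transfer G A B x x y hcov (fun c h h' => (hI c h h').elim)
          (fun a ha _ b hb _ => hE a ha b hb) hx hxB hy hyA this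
    unfold NoCut at hN
    push Not at hN
    obtain ⟨A, B, hU, hI, hA, hB, hE⟩ := hN
    have hcov : ∀ c, c ∈ A ∨ c ∈ B := by
      intro c
      have : c ∈ A ∪ B := by rw [hU]; exact Finset.mem_univ c
      exact Finset.mem_union.1 this
    by_cases hI0 : A ∩ B = ∅
    · apply hjoin A B hcov
      · intro c h1 h2
        have : c ∈ A ∩ B := Finset.mem_inter.2 ⟨h1, h2⟩
        rw [hI0] at this
        exact absurd this (Finset.notMem_empty c)
      · intro a ha b hb
        have haB : a ∉ B := fun h => by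
          have : a ∈ A ∩ B := Finset.mem_inter.2 ⟨ha, h⟩
          rw [hI0] at this
          exact absurd this (Finset.notMem_empty a)
        have hbA : b ∉ A := fun h => by
          have : b ∈ A ∩ B := Finset.mem_inter.2 ⟨h, hb⟩
          rw [hI0] at this
          exact absurd this (Finset.notMem_empty b)
        exact hE a (Finset.mem_sdiff.2 ⟨ha, haB⟩) b (Finset.mem_sdiff.2 ⟨hb, hbA⟩)
      · obtain ⟨c, hc⟩ := hA
        exact ⟨c, (Finset.mem_sdiff.1 hc).1⟩
      · obtain ⟨c, hc⟩ := hB
        exact ⟨c, (Finset.mem_sdiff.1 hc).1⟩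
    · obtain ⟨t, ht⟩ := Finset.nonempty_iff_ne_empty.2 hI0
      obtain ⟨htA, htB⟩ := Finset.mem_inter.1 ht
      have hI' : ∀ c, c ∈ A → c ∈ B → c = t := by
        intro c h1 h2
        exact Finset.card_le_one.1 hI c (Finset.mem_inter.2 ⟨h1, h2⟩) t ht
      have hE' : ∀ a, a ∈ A → a ∉ B → ∀ b, b ∈ B → b ∉ A → ¬ G.Adj a b :=
        fun a ha haB b hb hbA => hE a (Finset.mem_sdiff.2 ⟨ha, haB⟩) b
          (Finset.mem_sdiff.2 ⟨hb, hbA⟩)
      by_cases hx : ∃ x, x ∈ A ∧ x ∉ B ∧ G.Adj t x
      · by_cases hy : ∃ y, y ∈ B ∧ y ∉ A ∧ G.Adj t y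
        · obtain ⟨x, hxA, hxB, htx⟩ := hx
          obtain ⟨y, hyB, hyA, hty⟩ := hy
          have hxy : x ≠ y := fun h => hyA (h ▸ hxA)
          have he := e2_one G x y hxy (hE' x hxA hxB y hyB hyA)
          have hle := e2_le (st G x {y})
          have hrel : (X - C 1) * poly (st G x {y}) = (X - C 2) * poly G := by
            apply poly_ext_nat
            intro q
            rw [eval_mul, eval_mul, eval_sub, eval_sub, eval_X, eval_C, eval_C, poly_eval,
              poly_eval]
            exact cnt_cutv G A B t x y hcov hI' hE' hxA hyA htA htB htx hty q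
          rcases a1 with _ | a1
          · exfalso
            have h5 := AtMostOneTwo.eval_one G t x htx
            rw [hp] at h5
            simp [rs_one_ne, rs_zero_ne] at h5
          · have hp' : poly (st G x {y}) =
                X ^ a0 * (X - C 1) ^ a1 * (X - C 2) ^ (a2 + 1) * RS K s := by
              apply mul_left_cancel₀ (X_sub_C_ne_zero (1 : ℤ))
              rw [hrel, hp]
              ring
            have := ih (Fintype.card V * Fintype.card V - e2 (st G x {y})) (by omega) _ _ _ _ _ _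
              rfl h3 hp'
            exact transfer G A B t x y hcov hI' hE' hxA hxB hyB hyA this
        · push Not at hy
          apply hjoin A (B.erase t)
          · intro c
            by_cases hct : c = t
            · subst hct; exact Or.inl htA
            · rcases hcov c with h | h
              · exact Or.inl h
              · exact Or.inr (Finset.mem_erase.2 ⟨hct, h⟩)
          · intro c h1 h2
            exact (Finset.mem_erase.1 h2).1 (hI' c h1 (Finset.mem_erase.1 h2).2)
          · intro a ha b hb hab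
            obtain ⟨hbt, hbB⟩ := Finset.mem_erase.1 hb
            have hbA : b ∉ A := fun h => hbt (hI' b h hbB)
            by_cases haB : a ∈ B
            · have := hI' a ha haB
              subst this
              exact hy b hbB hbA hab
            · exact hE' a ha haB b hbB hbA hab
          · exact ⟨t, htA⟩
          · obtain ⟨c, hc⟩ := hB
            rw [Finset.mem_sdiff] at hc
            exact ⟨c, Finset.mem_erase.2 ⟨fun h => hc.2 (h ▸ htA), hc.1⟩⟩
      · push Not at hx
        apply hjoin (A.erase t) B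
        · intro c
          by_cases hct : c = t
          · subst hct; exact Or.inr htB
          · rcases hcov c with h | h
            · exact Or.inl (Finset.mem_erase.2 ⟨hct, h⟩)
            · exact Or.inr h
        · intro c h1 h2
          exact (Finset.mem_erase.1 h1).1 (hI' c (Finset.mem_erase.1 h1).2 h2)
        · intro a ha b hb hab
          obtain ⟨hat, haA⟩ := Finset.mem_erase.1 ha
          have haB : a ∉ B := fun h => hat (hI' a haA h)
          by_cases hbA : b ∈ A
          · have := hI' b hbA hb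
            subst this
            exact hx a haA haB hab.symm
          · exact hE' a haA haB b hb hbA hab
        · obtain ⟨c, hc⟩ := hA
          rw [Finset.mem_sdiff] at hc
          exact ⟨c, Finset.mem_erase.2 ⟨fun h => hc.2 (h ▸ htB), hc.1⟩⟩
        · exact ⟨t, htB⟩


end

theorem poly_gen2 {V : Type} [Fintype V] (G : SimpleGraph V) (K s : ℕ) (hs : s < K) (r : ℕ → ℕ)
    (hr : ∀ i, 3 ≤ i → i ≤ K + 2 → r i = if i = s + 3 then 2 else 1)
    (h : InFamily G (K + 2) r) :
    poly G = X ^ r 0 * (X - C 1) ^ r 1 * (X - C 2) ^ r 2 * RS K s := by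
  apply poly_ext_nat
  intro q
  rw [poly_eval, ← card_col, h q, show K + 2 + 1 = 3 + K by ring, Finset.prod_range_add]
  have h1 : ∏ x ∈ Finset.range K, ((q : ℤ) - ((3 + x : ℕ) : ℤ)) ^ r (3 + x) =
      (RS K s).eval (q : ℤ) := by
    unfold RS RR
    rw [eval_mul, eval_prod]
    have h2 : ∀ x ∈ Finset.range K, ((q : ℤ) - ((3 + x : ℕ) : ℤ)) ^ r (3 + x) =
        eval (q : ℤ) (X - C ((x : ℤ) + 3)) * (if x = s then ((q : ℤ) - ((s : ℤ) + 3)) else 1) := by
      intro x hx
      rw [Finset.mem_range] at hx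
      rw [hr (3 + x) (by omega) (by omega)]
      simp only [eval_sub, eval_X, eval_C]
      by_cases hxs : x = s
      · subst hxs
        rw [if_pos (by omega), if_pos rfl]
        push_cast
        ring
      · rw [if_neg (by omega), if_neg hxs]
        push_cast
        ring
    rw [Finset.prod_congr rfl h2, Finset.prod_mul_distrib]
    congr 1
    rw [Finset.prod_ite_eq' (Finset.range K) s, if_pos (Finset.mem_range.2 hs)]
    simp only [eval_sub, eval_X, eval_C]
  rw [h1]
  simp [Finset.prod_range_succ]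

/-- **Main result.** Let `k ≥ 3`. If at most one of `r 3, ..., r k` equals `2` and all the others
equal `1` (and `r 0, r 1, r 2` are arbitrary), every graph in `I(r 0, ..., r k)` is chordal. -/
theorem result (k : ℕ) (hk : 3 ≤ k) (i₀ : ℕ) (r : ℕ → ℕ)
    (hr : ∀ i, 3 ≤ i → i ≤ k → r i = if i = i₀ then 2 else 1)
    {V : Type} [Fintype V] (G : SimpleGraph V) (hG : InFamily G k r) :
    ¬ HasChordlessCycle G := by
  classical
  obtain ⟨K, rfl⟩ : ∃ K, k = K + 2 := ⟨k - 2, by omega⟩
  by_cases h : 3 ≤ i₀ ∧ i₀ ≤ K + 2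
  · obtain ⟨s, rfl⟩ : ∃ s, i₀ = s + 3 := ⟨i₀ - 3, by omega⟩
    exact ind_gen2 _ G (r 0) (r 1) (r 2) K s rfl (by omega) (poly_gen2 G K s (by omega) r hr hG)
  · have hr' : ∀ i, 3 ≤ i → i ≤ K + 2 → r i = 1 := by
      intro i h1 h2
      rw [hr i h1 h2, if_neg (by rintro rfl; exact h ⟨h1, h2⟩)]
    exact ind_gen _ G (r 0) (r 1) (r 2) K rfl (by omega) (poly_gen G K r hr' hG)

end Pool.Agent.Results.MP_144d21_co.AtMostOneTwo
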