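import Mathlib

namespace Pool.Agent.Results.MP_144d21_co.XuRThreeLeTwo

open Finset SimpleGraph Polynomial

/-- `G` has a chordless (induced) cycle of length at least 4. -/
def HasChordlessCycle {V : Type} (G : SimpleGraph V) : Prop :=
  ∃ n : ℕ, 4 ≤ n ∧ Nonempty (cycleGraph n ↪g G)

def Col {V : Type} (G : SimpleGraph V) (A : Type) : Type :=
  {c : V → A // ∀ u v, G.Adj u v → c u ≠ c v}

noncomputable instance {V : Type} [Fintype V] (G : SimpleGraph V) (A : Type) [Fintype A] :
    Fintype (Col G A) := by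
  classical
  unfold Col; infer_instance

/-- number of proper colourings -/
noncomputable def cnt {V : Type} [Fintype V] (G : SimpleGraph V) (q : ℕ) : ℕ :=
  Fintype.card (Col G (Fin q))

/-- add one new vertex with neighbourhood `S` -/
def ext {V : Type} (G : SimpleGraph V) (S : Finset V) : SimpleGraph (Option V) where
  Adj x y := match x, y with
    | some u, some v => G.Adj u v
    | none, some v => v ∈ S
    | some u, none => u ∈ S
    | none, none => False
  symm := ⟨by
    rintro (_ | u) (_ | v) h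
    · exact h
    · exact h
    · exact h
    · exact G.symm.symm _ _ h⟩
  loopless := ⟨by
    rintro (_ | u) h
    · exact h
    · exact G.loopless.irrefl _ h⟩

@[simp] theorem ext_nn {V : Type} (G : SimpleGraph V) (S : Finset V) :
    (ext G S).Adj none none ↔ False := Iff.rfl
@[simp] theorem ext_ns {V : Type} (G : SimpleGraph V) (S : Finset V) (v : V) :
    (ext G S).Adj none (some v) ↔ v ∈ S := Iff.rfl
@[simp] theorem ext_sn {V : Type} (G : SimpleGraph V) (S : Finset V) (v : V) :
    (ext G S).Adj (some v) none ↔ v ∈ S := Iff.rfl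
@[simp] theorem ext_ss {V : Type} (G : SimpleGraph V) (S : Finset V) (u v : V) :
    (ext G S).Adj (some u) (some v) ↔ G.Adj u v := Iff.rfl

/-- join `x` to all vertices of `T` -/
def st {V : Type} (G : SimpleGraph V) (x : V) (T : Finset V) : SimpleGraph V where
  Adj a b := G.Adj a b ∨ (a = x ∧ b ∈ T ∧ b ≠ x) ∨ (b = x ∧ a ∈ T ∧ a ≠ x)
  symm := ⟨by
    rintro a b (h | h | h)
    · exact Or.inl h.symm
    · exact Or.inr (Or.inr h)
    · exact Or.inr (Or.inl h)⟩
  loopless := ⟨by
    rintro a (h | ⟨h1, h2, h3⟩ | ⟨h1, h2, h3⟩)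
    · exact h.ne rfl
    · exact h3 h1
    · exact h3 h1⟩

theorem cnt_iso {V W : Type} [Fintype V] [Fintype W] (G : SimpleGraph V) (H : SimpleGraph W)
    (e : V ≃ W) (he : ∀ a b, G.Adj a b ↔ H.Adj (e a) (e b)) (q : ℕ) : cnt G q = cnt H q := by
  apply Fintype.card_congr
  exact
    { toFun := fun c => ⟨fun w => c.1 (e.symm w), fun u v h => c.2 _ _ (by
        rw [he]; simpa using h)⟩
      invFun := fun c => ⟨fun v => c.1 (e v), fun u v h => c.2 _ _ ((he u v).1 h)⟩
      left_inv := by intro c; apply Subtype.ext; funext v; simp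
      right_inv := by intro c; apply Subtype.ext; funext v; simp }

/-- splitting according to whether the new vertex and `x` get the same colour -/
theorem cnt_ext_insert {V : Type} [Fintype V] [DecidableEq V] (G : SimpleGraph V) (x : V)
    (T : Finset V) (hx : x ∉ T) (q : ℕ) :
    cnt (ext G T) q = cnt (ext G (insert x T)) q + cnt (st G x T) q := by
  classical
  have e1 : {c : Col (ext G T) (Fin q) // c.1 none = c.1 (some x)} ≃ Col (st G x T) (Fin q) :=
    { toFun := fun c => ⟨fun v => c.1.1 (some v), by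
        rintro u v (h | ⟨rfl, h2, h3⟩ | ⟨rfl, h2, h3⟩)
        · exact c.1.2 (some u) (some v) h
        · have := c.1.2 none (some v) h2
          rwa [c.2] at this
        · have := c.1.2 (some u) none h2
          rwa [c.2] at this⟩
      invFun := fun c => ⟨⟨fun o => o.elim (c.1 x) c.1, by
        rintro (_ | u) (_ | v) h
        · exact h.elim
        · exact c.2 x v (Or.inr (Or.inl ⟨rfl, h, fun h' => hx (h' ▸ h)⟩))
        · exact c.2 u x (Or.inr (Or.inr ⟨rfl, h, fun h' => hx (h' ▸ h)⟩))
        · exact c.2 u v (Or.inl h)⟩, rfl⟩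
      left_inv := by
        intro c
        apply Subtype.ext
        apply Subtype.ext
        funext o
        cases o with
        | none => exact c.2.symm
        | some v => rfl
      right_inv := by intro c; rfl }
  have e2 : {c : Col (ext G T) (Fin q) // ¬ c.1 none = c.1 (some x)} ≃
      Col (ext G (insert x T)) (Fin q) :=
    { toFun := fun c => ⟨c.1.1, by
        rintro (_ | u) (_ | v) h
        · exact h.elim
        · rcases Finset.mem_insert.1 h with rfl | h
          · exact c.2
          · exact c.1.2 none (some v) h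
        · rcases Finset.mem_insert.1 h with rfl | h
          · exact fun h' => c.2 h'.symm
          · exact c.1.2 (some u) none h
        · exact c.1.2 (some u) (some v) h⟩
      invFun := fun c => ⟨⟨c.1, by
        rintro (_ | u) (_ | v) h
        · exact h.elim
        · exact c.2 none (some v) (Finset.mem_insert_of_mem h)
        · exact c.2 (some u) none (Finset.mem_insert_of_mem h)
        · exact c.2 (some u) (some v) h⟩, c.2 none (some x) (Finset.mem_insert_self x T)⟩
      left_inv := by intro c; rfl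
      right_inv := by intro c; rfl }
  have h := Fintype.card_congr (Equiv.sumCompl (fun c : Col (ext G T) (Fin q) =>
    c.1 none = c.1 (some x)))
  rw [Fintype.card_sum, Fintype.card_congr e1, Fintype.card_congr e2] at h
  unfold cnt
  omega

theorem cnt_ext_empty {V : Type} [Fintype V] (G : SimpleGraph V) (q : ℕ) :
    cnt (ext G ∅) q = q * cnt G q := by
  classical
  have e : Col (ext G ∅) (Fin q) ≃ Fin q × Col G (Fin q) :=
    { toFun := fun c => ⟨c.1 none, ⟨fun v => c.1 (some v), fun u v h => c.2 (some u) (some v) h⟩⟩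
      invFun := fun p => ⟨fun o => o.elim p.1 p.2.1, by
        rintro (_ | u) (_ | v) h
        · exact h.elim
        · exact absurd h (Finset.notMem_empty _)
        · exact absurd h (Finset.notMem_empty _)
        · exact p.2.2 u v h⟩
      left_inv := by
        intro c
        apply Subtype.ext
        funext o
        cases o <;> rfl
      right_inv := by intro p; rfl }
  unfold cnt
  rw [Fintype.card_congr e, Fintype.card_prod, Fintype.card_fin]

/-- `p` is a chromatic polynomial with `n` vertices and `m` edges -/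
def IsP {V : Type} [Fintype V] (G : SimpleGraph V) (p : ℤ[X]) : Prop :=
  ∀ q : ℕ, p.eval (q : ℤ) = cnt G q

noncomputable def deg {V : Type} [Fintype V] (G : SimpleGraph V) (v : V) : ℕ := by
  classical
  exact (univ.filter (G.Adj v)).card

noncomputable def e2 {V : Type} [Fintype V] (G : SimpleGraph V) : ℕ := ∑ v, deg G v


theorem e2_ext {V : Type} [Fintype V] (G : SimpleGraph V) (S : Finset V) :
    e2 (ext G S) = e2 G + 2 * S.card := by
  classical
  unfold e2
  rw [Fintype.sum_option]
  have h0 : deg (ext G S) none = S.card := by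
    unfold deg
    rw [← Finset.card_map (Function.Embedding.some (α := V))]
    congr 1
    ext o
    cases o with
    | none => simp
    | some v => simp
  have h1 : ∀ v, deg (ext G S) (some v) = deg G v + if v ∈ S then 1 else 0 := by
    intro v
    unfold deg
    have : (univ.filter ((ext G S).Adj (some v))) =
        ((univ.filter (G.Adj v)).map Function.Embedding.some) ∪
          (if v ∈ S then {none} else ∅) := by
      ext o
      cases o with
      | none => by_cases h : v ∈ S <;> simp [h]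
      | some w => by_cases h : v ∈ S <;> simp [h]
    rw [this, Finset.card_union_of_disjoint, Finset.card_map]
    · by_cases h : v ∈ S <;> simp [h]
    · by_cases h : v ∈ S <;> simp [h]
  rw [h0, Finset.sum_congr rfl (fun v _ => h1 v), Finset.sum_add_distrib]
  simp
  ring

theorem deg_iso {V W : Type} [Fintype V] [Fintype W] (G : SimpleGraph V) (H : SimpleGraph W)
    (e : V ≃ W) (he : ∀ a b, G.Adj a b ↔ H.Adj (e a) (e b)) (a : V) : deg G a = deg H (e a) := by
  classical
  unfold deg
  rw [← Finset.card_map e.toEmbedding]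
  congr 1
  ext w
  simp only [Finset.mem_map, Finset.mem_filter, Finset.mem_univ, true_and, Equiv.coe_toEmbedding]
  constructor
  · rintro ⟨b, hb, rfl⟩
    exact (he a b).1 hb
  · intro h
    exact ⟨e.symm w, by rw [he]; simpa using h, by simp⟩

theorem e2_iso {V W : Type} [Fintype V] [Fintype W] (G : SimpleGraph V) (H : SimpleGraph W)
    (e : V ≃ W) (he : ∀ a b, G.Adj a b ↔ H.Adj (e a) (e b)) : e2 G = e2 H := by
  unfold e2
  rw [Finset.sum_congr rfl (fun a _ => deg_iso G H e he a)]
  exact Equiv.sum_comp e (fun w => deg H w)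

theorem exists_P (n : ℕ) : ∀ (V : Type) [Fintype V] (G : SimpleGraph V), Fintype.card V = n →
    ∃ p : ℤ[X], IsP G p ∧ p.Monic ∧ p.natDegree = n ∧ (1 ≤ n → 2 * p.coeff (n - 1) = - (e2 G : ℤ)) := by
  induction n with
  | zero =>
    intro V _ G hV
    have hE : IsEmpty V := Fintype.card_eq_zero_iff.mp hV
    refine ⟨1, fun q => ?_, monic_one, natDegree_one, fun h => absurd h (by omega)⟩
    have : cnt G q = 1 := by
      unfold cnt
      rw [Fintype.card_eq_one_iff]
      exact ⟨⟨fun v => hE.elim v, fun v => hE.elim v⟩, fun c => Subtype.ext (funext fun v => hE.elim v)⟩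
    rw [this]
    simp
  | succ n ih =>
    intro V _ G hV
    classical
    have : Nonempty V := Fintype.card_pos_iff.mp (by omega)
    obtain ⟨v⟩ := this
    have hcard : Fintype.card {x : V // x ≠ v} = n := by
      have := Fintype.card_congr (Equiv.optionSubtypeNe v)
      rw [Fintype.card_option] at this
      omega
    have key : ∀ S : Finset {x : V // x ≠ v}, ∀ G' : SimpleGraph {x : V // x ≠ v},
        ∃ p : ℤ[X], IsP (ext G' S) p ∧ p.Monic ∧ p.natDegree = n + 1 ∧
          2 * p.coeff n = - (e2 (ext G' S) : ℤ) := by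
      intro S G'
      induction S using Finset.induction_on with
      | empty =>
        obtain ⟨p, h1, h2, h3, h4⟩ := ih _ G' hcard
        refine ⟨X * p, fun q => ?_, monic_X.mul h2, ?_, ?_⟩
        · rw [eval_mul, eval_X, h1 q, cnt_ext_empty]
          push_cast
          ring
        · rw [monic_X.natDegree_mul h2, natDegree_X, h3]
          omega
        · rw [e2_ext]
          rcases n with _ | n
          · have : e2 G' = 0 := by
              have hE : IsEmpty {x : V // x ≠ v} := Fintype.card_eq_zero_iff.mp hcard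
              unfold e2
              simp
            simp [this]
          · rw [coeff_X_mul]
            have := h4 (by omega)
            simpa using this
      | insert x T hx ihT =>
        obtain ⟨p, h1, h2, h3, h4⟩ := ihT
        obtain ⟨p', h1', h2', h3', -⟩ := ih _ (st G' x T) hcard
        have hdeg : p'.degree < p.degree := by
          rw [degree_eq_natDegree h2.ne_zero, degree_eq_natDegree h2'.ne_zero, h3, h3']
          exact_mod_cast Nat.lt_succ_self n
        refine ⟨p - p', fun q => ?_, h2.sub_of_left hdeg, ?_, ?_⟩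
        · rw [eval_sub, h1 q, h1' q, cnt_ext_insert G' x T hx q]
          push_cast
          ring
        · rw [natDegree_sub_eq_left_of_natDegree_lt (by omega), h3]
        · have hc : p'.coeff n = 1 := by
            have := h2'
            rw [Monic, leadingCoeff, h3'] at this
            exact this
          rw [coeff_sub, hc, mul_sub, h4, e2_ext, e2_ext, Finset.card_insert_of_notMem hx]
          push_cast
          ring
    obtain ⟨p, h1, h2, h3, h4⟩ := key (univ.filter (fun x => G.Adj v x.1)) (G.comap Subtype.val)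
    have he : ∀ a b : Option {x : V // x ≠ v},
        (ext (G.comap Subtype.val) (univ.filter (fun x : {x : V // x ≠ v} => G.Adj v x.1))).Adj a b ↔
        G.Adj (Equiv.optionSubtypeNe v a) (Equiv.optionSubtypeNe v b) := by
      rintro (_ | a) (_ | b)
      · simp
      · simp
      · simp [G.adj_comm]
      · simp
    refine ⟨p, fun q => ?_, h2, h3, fun _ => ?_⟩
    · rw [h1 q, cnt_iso _ _ _ he]
    · rw [Nat.add_sub_cancel, h4, e2_iso _ _ _ he]

noncomputable def poly {V : Type} [Fintype V] (G : SimpleGraph V) : ℤ[X] :=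
  Classical.choose (exists_P _ V G rfl)

theorem poly_spec {V : Type} [Fintype V] (G : SimpleGraph V) : IsP G (poly G) ∧ (poly G).Monic ∧
    (poly G).natDegree = Fintype.card V ∧
    (1 ≤ Fintype.card V → 2 * (poly G).coeff (Fintype.card V - 1) = - (e2 G : ℤ)) :=
  Classical.choose_spec (exists_P _ V G rfl)

theorem poly_eval {V : Type} [Fintype V] (G : SimpleGraph V) (q : ℕ) :
    (poly G).eval (q : ℤ) = cnt G q := (poly_spec G).1 q

theorem poly_ext_nat {p p' : ℤ[X]} (h : ∀ q : ℕ, p.eval (q : ℤ) = p'.eval (q : ℤ)) : p = p' := by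
  apply Polynomial.eq_of_infinite_eval_eq
  apply Set.infinite_of_injective_forall_mem (f := fun n : ℕ => (n : ℤ)) Nat.cast_injective
  intro q
  exact h q


/-! ### working on a fixed vertex set -/

section
variable {V : Type} [Fintype V] [DecidableEq V]

/-- isolate `v` -/
def del (G : SimpleGraph V) (v : V) : SimpleGraph V where
  Adj a b := G.Adj a b ∧ a ≠ v ∧ b ≠ v
  symm := ⟨by
    rintro a b ⟨h1, h2, h3⟩
    exact ⟨h1.symm, h3, h2⟩⟩
  loopless := ⟨by
    rintro a ⟨h, -⟩
    exact h.ne rfl⟩

noncomputable def nb (G : SimpleGraph V) (v : V) : Finset V := by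
  classical
  exact univ.filter (G.Adj v)

omit [DecidableEq V] in
theorem mem_nb (G : SimpleGraph V) (v w : V) : w ∈ nb G v ↔ G.Adj v w := by
  classical
  simp [nb]

omit [DecidableEq V] in
theorem deg_eq (G : SimpleGraph V) (v : V) : deg G v = (nb G v).card := rfl

theorem st_adj (G : SimpleGraph V) (x : V) (T : Finset V) (a b : V) :
    (st G x T).Adj a b ↔ G.Adj a b ∨ (a = x ∧ b ∈ T ∧ b ≠ x) ∨ (b = x ∧ a ∈ T ∧ a ≠ x) := Iff.rfl

theorem del_adj (G : SimpleGraph V) (v : V) (a b : V) :
    (del G v).Adj a b ↔ G.Adj a b ∧ a ≠ v ∧ b ≠ v := Iff.rfl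

theorem cnt_rec (H : SimpleGraph V) (v x : V) (T : Finset V) (hv : ∀ w, ¬ H.Adj v w)
    (hxv : x ≠ v) (hx : x ∉ T) (hvT : v ∉ T) (q : ℕ) :
    q * cnt (st H v T) q = q * cnt (st H v (insert x T)) q + cnt (st H x T) q := by
  classical
  have hv' : ∀ a b, H.Adj a b → a ≠ v ∧ b ≠ v := by
    intro a b h
    exact ⟨fun h' => hv b (h' ▸ h), fun h' => hv a (h' ▸ h.symm)⟩
  have e1 : Fin q × {c : Col (st H v T) (Fin q) // c.1 v = c.1 x} ≃ Col (st H x T) (Fin q) :=
    { toFun := fun p => ⟨Function.update p.2.1.1 v p.1, by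
        rintro a b (h | ⟨rfl, h2, h3⟩ | ⟨rfl, h2, h3⟩)
        · rw [Function.update_of_ne (hv' a b h).1, Function.update_of_ne (hv' a b h).2]
          exact p.2.1.2 a b (Or.inl h)
        · have hb : b ≠ v := fun h' => hvT (h' ▸ h2)
          rw [Function.update_of_ne hxv, Function.update_of_ne hb, ← p.2.2]
          exact p.2.1.2 v b (Or.inr (Or.inl ⟨rfl, h2, hb⟩))
        · have hb : a ≠ v := fun h' => hvT (h' ▸ h2)
          rw [Function.update_of_ne hxv, Function.update_of_ne hb, ← p.2.2]
          exact p.2.1.2 a v (Or.inr (Or.inr ⟨rfl, h2, hb⟩))⟩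
      invFun := fun c => (c.1 v, ⟨⟨Function.update c.1 v (c.1 x), by
        rintro a b (h | ⟨rfl, h2, h3⟩ | ⟨rfl, h2, h3⟩)
        · rw [Function.update_of_ne (hv' a b h).1, Function.update_of_ne (hv' a b h).2]
          exact c.2 a b (Or.inl h)
        · rw [Function.update_self, Function.update_of_ne h3]
          exact c.2 x b (Or.inr (Or.inl ⟨rfl, h2, fun h' => hx (h' ▸ h2)⟩))
        · rw [Function.update_self, Function.update_of_ne h3]
          exact c.2 a x (Or.inr (Or.inr ⟨rfl, h2, fun h' => hx (h' ▸ h2)⟩))⟩, by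
          change Function.update c.1 v (c.1 x) v = Function.update c.1 v (c.1 x) x
          rw [Function.update_self, Function.update_of_ne hxv]⟩)
      left_inv := by
        rintro ⟨t, c, hc⟩
        ext1
        · simp
        · apply Subtype.ext
          apply Subtype.ext
          funext w
          by_cases hw : w = v
          · subst hw
            simp only [Function.update_self, Function.update_of_ne hxv]
            exact hc.symm
          · simp only [Function.update_of_ne hw]
      right_inv := by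
        intro c
        apply Subtype.ext
        funext w
        by_cases hw : w = v
        · subst hw
          simp only [Function.update_self]
        · simp only [Function.update_of_ne hw] }
  have e2 : {c : Col (st H v T) (Fin q) // ¬ c.1 v = c.1 x} ≃
      Col (st H v (insert x T)) (Fin q) :=
    { toFun := fun c => ⟨c.1.1, by
        rintro a b (h | ⟨rfl, h2, h3⟩ | ⟨rfl, h2, h3⟩)
        · exact c.1.2 a b (Or.inl h)
        · rcases Finset.mem_insert.1 h2 with rfl | h2
          · exact c.2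
          · exact c.1.2 _ _ (Or.inr (Or.inl ⟨rfl, h2, h3⟩))
        · rcases Finset.mem_insert.1 h2 with rfl | h2
          · exact fun h' => c.2 h'.symm
          · exact c.1.2 _ _ (Or.inr (Or.inr ⟨rfl, h2, h3⟩))⟩
      invFun := fun c => ⟨⟨c.1, by
        rintro a b (h | ⟨rfl, h2, h3⟩ | ⟨rfl, h2, h3⟩)
        · exact c.2 a b (Or.inl h)
        · exact c.2 _ _ (Or.inr (Or.inl ⟨rfl, Finset.mem_insert_of_mem h2, h3⟩))
        · exact c.2 _ _ (Or.inr (Or.inr ⟨rfl, Finset.mem_insert_of_mem h2, h3⟩))⟩,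
        c.2 v x (Or.inr (Or.inl ⟨rfl, Finset.mem_insert_self x T, hxv⟩))⟩
      left_inv := by intro c; rfl
      right_inv := by intro c; rfl }
  have h := Fintype.card_congr (Equiv.sumCompl (fun c : Col (st H v T) (Fin q) => c.1 v = c.1 x))
  rw [Fintype.card_sum, Fintype.card_congr e2] at h
  have h1 := Fintype.card_congr e1
  rw [Fintype.card_prod, Fintype.card_fin] at h1
  unfold cnt
  rw [← h, ← h1]
  ring

theorem poly_rec (H : SimpleGraph V) (v x : V) (T : Finset V) (hv : ∀ w, ¬ H.Adj v w)
    (hxv : x ≠ v) (hx : x ∉ T) (hvT : v ∉ T) :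
    X * poly (st H v T) = X * poly (st H v (insert x T)) + poly (st H x T) := by
  apply poly_ext_nat
  intro q
  rw [eval_mul, eval_add, eval_mul, eval_X, poly_eval, poly_eval, poly_eval]
  exact_mod_cast cnt_rec H v x T hv hxv hx hvT q

/-- derivative of the chromatic polynomial at `1` -/
noncomputable def D (G : SimpleGraph V) : ℤ := (derivative (poly G)).eval 1

omit [DecidableEq V] in
theorem eval_one (G : SimpleGraph V) (a b : V) (h : G.Adj a b) : (poly G).eval 1 = 0 := by
  have := poly_eval G 1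
  rw [Nat.cast_one] at this
  rw [this]
  have : cnt G 1 = 0 := by
    unfold cnt
    rw [Fintype.card_eq_zero_iff]
    exact ⟨fun c => c.2 a b h (Subsingleton.elim _ _)⟩
  rw [this]
  simp

omit [DecidableEq V] in
theorem eval_one_edgeless (G : SimpleGraph V) (h : ∀ a b, ¬ G.Adj a b) :
    (poly G).eval 1 = 1 := by
  have := poly_eval G 1
  rw [Nat.cast_one] at this
  rw [this]
  have : cnt G 1 = 1 := by
    unfold cnt
    rw [Fintype.card_eq_one_iff]
    exact ⟨⟨fun v => 0, fun u v h' => absurd h' (h u v)⟩,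
      fun c => Subtype.ext (funext fun v => Subsingleton.elim _ _)⟩
  rw [this]
  simp

theorem D_rec (H : SimpleGraph V) (v x : V) (T : Finset V) (hv : ∀ w, ¬ H.Adj v w)
    (hxv : x ≠ v) (hx : x ∉ T) (hvT : v ∉ T) :
    (poly (st H v T)).eval 1 + D (st H v T) = D (st H v (insert x T)) + D (st H x T) := by
  have h := congrArg (fun p => (derivative p).eval 1) (poly_rec H v x T hv hxv hx hvT)
  simp only [derivative_mul, derivative_X, derivative_add, eval_add, eval_mul, eval_X,
    one_mul] at h
  have h0 : (poly (st H v (insert x T))).eval 1 = 0 :=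
    XuRThreeLeTwo.eval_one _ v x (Or.inr (Or.inl ⟨rfl, Finset.mem_insert_self x T, hxv⟩))
  rw [h0, zero_add] at h
  exact h

theorem st_empty (H : SimpleGraph V) (v : V) : st H v ∅ = H := by
  ext a b
  simp [st_adj]

theorem D_leaf (H : SimpleGraph V) (v x : V) (hv : ∀ w, ¬ H.Adj v w) (hxv : x ≠ v) :
    D (st H v {x}) = (poly H).eval 1 := by
  have h := D_rec H v x ∅ hv hxv (Finset.notMem_empty _) (Finset.notMem_empty _)
  rw [st_empty, st_empty] at h
  have e : insert x (∅ : Finset V) = {x} := rfl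
  rw [e] at h
  linarith

/-- `W` is the set of non-isolated vertices -/
def Sup (G : SimpleGraph V) (W : Finset V) : Prop := ∀ v, v ∈ W ↔ ∃ w, G.Adj v w

/-- Crapo's invariant -/
noncomputable def bet (W : Finset V) (G : SimpleGraph V) : ℤ := (-1) ^ W.card * D G

theorem bet_rec (H : SimpleGraph V) (W : Finset V) (hH : Sup H W) (v x : V) (T : Finset V)
    (hvW : v ∉ W) (hxW : x ∈ W) (hx : x ∉ T) (hT : T ⊆ W) (hT0 : T.Nonempty) :
    bet (insert v W) (st H v (insert x T)) = bet (insert v W) (st H v T) + bet W (st H x T) := by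
  have hv : ∀ w, ¬ H.Adj v w := fun w h => hvW ((hH v).2 ⟨w, h⟩)
  have hxv : x ≠ v := fun h => hvW (h ▸ hxW)
  have hvT : v ∉ T := fun h => hvW (hT h)
  have h := D_rec H v x T hv hxv hx hvT
  obtain ⟨t, ht⟩ := hT0
  have h0 : (poly (st H v T)).eval 1 = 0 :=
    XuRThreeLeTwo.eval_one _ v t (Or.inr (Or.inl ⟨rfl, ht, fun h' => hvT (h' ▸ ht)⟩))
  rw [h0, zero_add] at h
  unfold bet
  rw [Finset.card_insert_of_notMem hvW, h]
  ring

theorem bet_leaf (H : SimpleGraph V) (W : Finset V) (hH : Sup H W) (v x : V)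
    (hvW : v ∉ W) (hxW : x ∈ W) :
    bet (insert v W) (st H v {x}) = 0 := by
  have hv : ∀ w, ¬ H.Adj v w := fun w h => hvW ((hH v).2 ⟨w, h⟩)
  have hxv : x ≠ v := fun h => hvW (h ▸ hxW)
  obtain ⟨w, hw⟩ := (hH x).1 hxW
  unfold bet
  rw [D_leaf H v x hv hxv, XuRThreeLeTwo.eval_one H x w hw, mul_zero]

/-! ### supports -/

theorem st_del_nb (G : SimpleGraph V) (v : V) : st (del G v) v (nb G v) = G := by
  ext a b
  rw [st_adj, del_adj, mem_nb, mem_nb]
  constructor
  · rintro (h | ⟨rfl, h2, h3⟩ | ⟨rfl, h2, h3⟩)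
    · exact h.1
    · exact h2
    · exact h2.symm
  · intro h
    by_cases ha : a = v
    · subst ha
      exact Or.inr (Or.inl ⟨rfl, h, h.ne'⟩)
    · by_cases hb : b = v
      · subst hb
        exact Or.inr (Or.inr ⟨rfl, h.symm, ha⟩)
      · exact Or.inl ⟨h, ha, hb⟩

theorem nb_subset (G : SimpleGraph V) (W : Finset V) (hG : Sup G W) (v : V) :
    nb G v ⊆ W.erase v := by
  intro w hw
  rw [mem_nb] at hw
  exact Finset.mem_erase.2 ⟨hw.ne', (hG w).2 ⟨v, hw.symm⟩⟩

theorem sup_del (G : SimpleGraph V) (W : Finset V) (hG : Sup G W) (v : V)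
    (hd : ∀ a ∈ W, 2 ≤ deg G a) : Sup (del G v) (W.erase v) := by
  intro a
  constructor
  · intro ha
    obtain ⟨hav, haW⟩ := Finset.mem_erase.1 ha
    have h2 := hd a haW
    rw [deg_eq] at h2
    have : ((nb G a).erase v).Nonempty := by
      rw [← Finset.card_pos]
      have := Finset.pred_card_le_card_erase (s := nb G a) (a := v)
      omega
    obtain ⟨w, hw⟩ := this
    obtain ⟨hwv, hw⟩ := Finset.mem_erase.1 hw
    exact ⟨w, (mem_nb G a w).1 hw, hav, hwv⟩
  · rintro ⟨w, hw, h1, h2⟩
    exact Finset.mem_erase.2 ⟨h1, (hG a).2 ⟨w, hw⟩⟩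

theorem sup_st (H : SimpleGraph V) (W : Finset V) (hH : Sup H W) (x : V) (T : Finset V)
    (hxW : x ∈ W) (hT : T ⊆ W) : Sup (st H x T) W := by
  intro a
  constructor
  · intro ha
    obtain ⟨w, hw⟩ := (hH a).1 ha
    exact ⟨w, Or.inl hw⟩
  · rintro ⟨w, hw | ⟨rfl, h2, h3⟩ | ⟨rfl, h2, h3⟩⟩
    · exact (hH a).2 ⟨w, hw⟩
    · exact hxW
    · exact hT h2

theorem insert_erase' (W : Finset V) (v : V) (hv : v ∈ W) : insert v (W.erase v) = W :=
  Finset.insert_erase hv

/-- nonnegativity, one level -/
theorem nnT (H : SimpleGraph V) (W : Finset V) (hH : Sup H W) (v : V) (hvW : v ∉ W)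
    (ih : ∀ x ∈ W, ∀ T ⊆ W, 0 ≤ bet W (st H x T)) (S : Finset V) (hS : S ⊆ W)
    (hS0 : S.Nonempty) : 0 ≤ bet (insert v W) (st H v S) := by
  induction S using Finset.induction_on with
  | empty => exact absurd hS0 Finset.not_nonempty_empty
  | insert x T hx ihT =>
    have hxW : x ∈ W := hS (Finset.mem_insert_self x T)
    have hT : T ⊆ W := fun a ha => hS (Finset.mem_insert_of_mem ha)
    by_cases hT0 : T.Nonempty
    · rw [bet_rec H W hH v x T hvW hxW hx hT hT0]
      have h1 := ihT hT hT0
      have h2 := ih x hxW T hT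
      linarith
    · rw [Finset.not_nonempty_iff_eq_empty] at hT0
      subst hT0
      have e : insert x (∅ : Finset V) = {x} := rfl
      rw [e, bet_leaf H W hH v x hvW hxW]

theorem nn (n : ℕ) : ∀ (W : Finset V) (G : SimpleGraph V), W.card = n → Sup G W → W.Nonempty →
    0 ≤ bet W G := by
  induction n with
  | zero =>
    intro W G h1 h2 h3
    rw [Finset.card_eq_zero] at h1
    exact absurd h1 h3.ne_empty
  | succ n ih =>
    intro W G h1 h2 h3
    by_cases hdeg : ∀ a ∈ W, 2 ≤ deg G a
    · obtain ⟨v, hv⟩ := h3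
      have hS := sup_del G W h2 v hdeg
      have hne : (nb G v).Nonempty := by
        rw [← Finset.card_pos, ← deg_eq]
        have := hdeg v hv
        omega
      have hW0 : (W.erase v).Nonempty := hne.mono (nb_subset G W h2 v)
      have := nnT (del G v) (W.erase v) hS v (Finset.notMem_erase v W)
        (fun x hx T hT => ih _ _ (by rw [Finset.card_erase_of_mem hv]; omega)
          (sup_st _ _ hS x T hx hT) hW0) (nb G v) (nb_subset G W h2 v) hne
      rw [Finset.insert_erase hv, st_del_nb] at this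
      exact this
    · push Not at hdeg
      obtain ⟨a, haW, ha⟩ := hdeg
      obtain ⟨x, hx⟩ := (h2 a).1 haW
      have hnb : nb G a = {x} := by
        symm
        apply Finset.eq_of_subset_of_card_le
        · intro y hy
          rw [Finset.mem_singleton] at hy
          subst hy
          rw [mem_nb]; exact hx
        · rw [Finset.card_singleton]
          rw [deg_eq] at ha
          omega
      have hG : G = st (del G a) a {x} := by rw [← hnb, st_del_nb]
      have hvi : ∀ w, ¬ (del G a).Adj a w := fun w h => h.2.1 rfl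
      by_cases hE : ∃ b c, (del G a).Adj b c
      · obtain ⟨b, c, hbc⟩ := hE
        have : D G = 0 := by
          rw [hG, D_leaf (del G a) a x hvi hx.ne']
          exact XuRThreeLeTwo.eval_one _ b c hbc
        unfold bet
        rw [this, mul_zero]
      · push Not at hE
        have hD : D G = 1 := by
          rw [hG, D_leaf (del G a) a x hvi hx.ne']
          exact eval_one_edgeless _ hE
        have hW : W = {a, x} := by
          ext w
          simp only [Finset.mem_insert, Finset.mem_singleton]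
          constructor
          · intro hw
            obtain ⟨u, hu⟩ := (h2 w).1 hw
            by_contra hcon
            push Not at hcon
            by_cases hua : u = a
            · subst hua
              have : w ∈ nb G u := (mem_nb G u w).2 hu.symm
              rw [hnb, Finset.mem_singleton] at this
              exact hcon.2 this
            · exact hE w u ⟨hu, hcon.1, hua⟩
          · rintro (rfl | rfl)
            · exact haW
            · exact (h2 w).2 ⟨a, hx.symm⟩
        unfold bet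
        rw [hD, hW, Finset.card_pair hx.ne]
        norm_num

theorem bet_nonneg (W : Finset V) (G : SimpleGraph V) (h : Sup G W) (h0 : W.Nonempty) :
    0 ≤ bet W G := nn _ W G rfl h h0

/-- adding one edge does not decrease the invariant -/
theorem mono_one (G : SimpleGraph V) (W : Finset V) (hG : Sup G W) (a b : V) (ha : a ∈ W)
    (hb : b ∈ W) (hab : a ≠ b) : bet W G ≤ bet W (st G a {b}) := by
  by_cases hadj : G.Adj a b
  · have : st G a {b} = G := by
      ext c d
      rw [st_adj]
      constructor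
      · rintro (h | ⟨rfl, h2, h3⟩ | ⟨rfl, h2, h3⟩)
        · exact h
        · rw [Finset.mem_singleton] at h2; subst h2; exact hadj
        · rw [Finset.mem_singleton] at h2; subst h2; exact hadj.symm
      · exact Or.inl
    rw [this]
  · have hbS : b ∉ nb G a := fun h => hadj ((mem_nb G a b).1 h)
    have e : st G a {b} = st (del G a) a (insert b (nb G a)) := by
      conv_lhs => rw [← st_del_nb G a]
      ext c d
      simp only [st_adj, del_adj, Finset.mem_insert, Finset.mem_singleton]
      tauto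
    obtain ⟨w, hw⟩ := (hG a).1 ha
    have hne : (nb G a).Nonempty := ⟨w, (mem_nb G a w).2 hw⟩
    have hsub := nb_subset G W hG a
    -- the recursion needs only that `a` is isolated and the sets behave
    have hv : ∀ w, ¬ (del G a).Adj a w := fun w h => h.2.1 rfl
    have haS : a ∉ nb G a := fun h => ((mem_nb G a a).1 h).ne rfl
    have hrec := D_rec (del G a) a b (nb G a) hv hab.symm hbS haS
    rw [st_del_nb, XuRThreeLeTwo.eval_one G a w hw, zero_add] at hrec
    have hsup : Sup (st (del G a) b (nb G a)) (W.erase a) := by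
      intro c
      constructor
      · intro hc
        obtain ⟨hca, hcW⟩ := Finset.mem_erase.1 hc
        obtain ⟨u, hu⟩ := (hG c).1 hcW
        by_cases hua : u = a
        · subst hua
          have hcb : c ≠ b := fun h => hadj (h ▸ hu.symm)
          exact ⟨b, Or.inr (Or.inr ⟨rfl, (mem_nb G u c).2 hu.symm, hcb⟩)⟩
        · exact ⟨u, Or.inl ⟨hu, hca, hua⟩⟩
      · rintro ⟨u, h | ⟨rfl, h2, h3⟩ | ⟨rfl, h2, h3⟩⟩
        · exact Finset.mem_erase.2 ⟨h.2.1, (hG c).2 ⟨u, h.1⟩⟩
        · exact Finset.mem_erase.2 ⟨hab.symm, hb⟩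
        · exact hsub h2
    have hnn := bet_nonneg (W.erase a) _ hsup ⟨b, Finset.mem_erase.2 ⟨hab.symm, hb⟩⟩
    have hcard : W.card = (W.erase a).card + 1 := by
      rw [Finset.card_erase_of_mem ha]
      have := Finset.card_pos.2 ⟨a, ha⟩
      omega
    rw [e]
    unfold bet at hnn ⊢
    rw [hcard, hrec]
    have : (-1 : ℤ) ^ ((W.erase a).card + 1) * (D (st (del G a) a (insert b (nb G a))) +
        D (st (del G a) b (nb G a))) = (-1) ^ ((W.erase a).card + 1) *
        D (st (del G a) a (insert b (nb G a))) - (-1) ^ (W.erase a).card *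
        D (st (del G a) b (nb G a)) := by ring
    rw [this]
    linarith

theorem st_insert (G : SimpleGraph V) (x y : V) (T : Finset V) :
    st G x (insert y T) = st (st G x T) x {y} := by
  ext a b
  simp only [st_adj, Finset.mem_insert, Finset.mem_singleton]
  tauto

theorem mono_star (G : SimpleGraph V) (W : Finset V) (hG : Sup G W) (x : V) (hx : x ∈ W)
    (T : Finset V) (hT : T ⊆ W) : bet W G ≤ bet W (st G x T) := by
  induction T using Finset.induction_on with
  | empty => rw [st_empty]
  | insert y T hy ih =>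
    have hT' : T ⊆ W := fun a ha => hT (Finset.mem_insert_of_mem ha)
    have hyW : y ∈ W := hT (Finset.mem_insert_self y T)
    refine (ih hT').trans ?_
    rw [st_insert]
    by_cases hxy : x = y
    · subst hxy
      have : st (st G x T) x {x} = st G x T := by
        ext a b
        simp only [st_adj, Finset.mem_singleton]
        tauto
      rw [this]
    · exact mono_one _ W (sup_st G W hG x T hx hT') x y hx hyW hxy

/-! ### consequences of the recursion -/

theorem sup_insert (H : SimpleGraph V) (W : Finset V) (hH : Sup H W) (v : V) (hv : v ∉ W)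
    (S : Finset V) (hS : S ⊆ W) (hS0 : S.Nonempty) : Sup (st H v S) (insert v W) := by
  intro a
  constructor
  · intro ha
    rcases Finset.mem_insert.1 ha with rfl | ha
    · obtain ⟨s, hs⟩ := hS0
      exact ⟨s, Or.inr (Or.inl ⟨rfl, hs, fun h => hv (h ▸ hS hs)⟩)⟩
    · obtain ⟨w, hw⟩ := (hH a).1 ha
      exact ⟨w, Or.inl hw⟩
  · rintro ⟨w, hw | ⟨rfl, h2, h3⟩ | ⟨rfl, h2, h3⟩⟩
    · exact Finset.mem_insert_of_mem ((hH a).2 ⟨w, hw⟩)
    · exact Finset.mem_insert_self _ _
    · exact Finset.mem_insert_of_mem (hS h2)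

theorem star_nonneg (H : SimpleGraph V) (W : Finset V) (hH : Sup H W) (x : V) (hx : x ∈ W)
    (T : Finset V) (hT : T ⊆ W) : 0 ≤ bet W (st H x T) :=
  bet_nonneg W _ (sup_st H W hH x T hx hT) ⟨x, hx⟩

theorem ins_nonneg (H : SimpleGraph V) (W : Finset V) (hH : Sup H W) (v : V) (hv : v ∉ W)
    (S : Finset V) (hS : S ⊆ W) (hS0 : S.Nonempty) : 0 ≤ bet (insert v W) (st H v S) :=
  bet_nonneg _ _ (sup_insert H W hH v hv S hS hS0) ⟨v, Finset.mem_insert_self v W⟩

theorem bet_lower (H : SimpleGraph V) (W : Finset V) (hH : Sup H W) (v : V) (hv : v ∉ W)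
    (S : Finset V) (hS : S ⊆ W) (hS0 : S.Nonempty) :
    ((S.card : ℤ) - 1) * bet W H ≤ bet (insert v W) (st H v S) := by
  induction S using Finset.induction_on with
  | empty => exact absurd hS0 Finset.not_nonempty_empty
  | insert x T hx ih =>
    have hxW : x ∈ W := hS (Finset.mem_insert_self x T)
    have hT : T ⊆ W := fun a ha => hS (Finset.mem_insert_of_mem ha)
    by_cases hT0 : T.Nonempty
    · rw [bet_rec H W hH v x T hv hxW hx hT hT0]
      have h1 := ih hT hT0
      have h2 := mono_star H W hH x hxW T hT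
      rw [Finset.card_insert_of_notMem hx]
      push_cast
      linarith
    · rw [Finset.not_nonempty_iff_eq_empty] at hT0
      subst hT0
      have e : insert x (∅ : Finset V) = {x} := rfl
      rw [e, bet_leaf H W hH v x hv hxW]
      simp

theorem exists_term (H : SimpleGraph V) (W : Finset V) (hH : Sup H W) (v : V) (hv : v ∉ W)
    (S : Finset V) (hS : S ⊆ W) (hB : 1 ≤ bet (insert v W) (st H v S)) (hS0 : S.Nonempty) :
    ∃ x ∈ S, ∃ L ⊆ S, 1 ≤ bet W (st H x L) ∧ bet W (st H x L) ≤ bet (insert v W) (st H v S) := by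
  induction S using Finset.induction_on with
  | empty => exact absurd hS0 Finset.not_nonempty_empty
  | insert x T hx ih =>
    have hxW : x ∈ W := hS (Finset.mem_insert_self x T)
    have hT : T ⊆ W := fun a ha => hS (Finset.mem_insert_of_mem ha)
    by_cases hT0 : T.Nonempty
    · have hrec := bet_rec H W hH v x T hv hxW hx hT hT0
      have h1 := ins_nonneg H W hH v hv T hT hT0
      have h2 := star_nonneg H W hH x hxW T hT
      by_cases h3 : 1 ≤ bet W (st H x T)
      · exact ⟨x, Finset.mem_insert_self x T, T, Finset.subset_insert x T, h3, by linarith⟩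
      · have h4 : bet W (st H x T) = 0 := by omega
        obtain ⟨y, hy, L, hL, h5, h6⟩ := ih hT (by omega) hT0
        exact ⟨y, Finset.mem_insert_of_mem hy, L, hL.trans (Finset.subset_insert x T), h5,
          by linarith⟩
    · rw [Finset.not_nonempty_iff_eq_empty] at hT0
      subst hT0
      have e : insert x (∅ : Finset V) = {x} := rfl
      rw [e, bet_leaf H W hH v x hv hxW] at hB
      omega

theorem term_le (H : SimpleGraph V) (W : Finset V) (hH : Sup H W) (v : V) (hv : v ∉ W)
    (S : Finset V) (hS : S ⊆ W) (x : V) (hx : x ∈ S) (hne : (S.erase x).Nonempty) :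
    bet W (st H x (S.erase x)) ≤ bet (insert v W) (st H v S) := by
  have h := bet_rec H W hH v x (S.erase x) hv (hS hx) (Finset.notMem_erase x S)
    ((Finset.erase_subset x S).trans hS) hne
  rw [Finset.insert_erase hx] at h
  have := ins_nonneg H W hH v hv (S.erase x) ((Finset.erase_subset x S).trans hS) hne
  linarith

theorem bet_two (H : SimpleGraph V) (W : Finset V) (hH : Sup H W) (v : V) (hv : v ∉ W)
    (x y : V) (hx : x ∈ W) (hy : y ∈ W) (hxy : x ≠ y) :
    bet (insert v W) (st H v {x, y}) = bet W (st H x {y}) := by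
  have h := bet_rec H W hH v x {y} hv hx (by simpa using hxy)
    (by simpa using hy) (Finset.singleton_nonempty y)
  rw [h, bet_leaf H W hH v y hv hy, zero_add]

theorem bet_three (H : SimpleGraph V) (W : Finset V) (hH : Sup H W) (v : V) (hv : v ∉ W)
    (x y z : V) (hx : x ∈ W) (hy : y ∈ W) (hz : z ∈ W) (hxy : x ≠ y) (hxz : x ≠ z) (hyz : y ≠ z) :
    bet (insert v W) (st H v {x, y, z}) = bet W (st H x {y, z}) + bet W (st H y {z}) := by
  have h := bet_rec H W hH v x {y, z} hv hx (by simp [hxy, hxz])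
    (by intro a ha; simp at ha; rcases ha with rfl | rfl <;> assumption)
    ⟨y, by simp⟩
  rw [h, bet_two H W hH v hv y z hy hz hyz]
  ring

theorem bet_four (H : SimpleGraph V) (W : Finset V) (hH : Sup H W) (v : V) (hv : v ∉ W)
    (w x y z : V) (hw : w ∈ W) (hx : x ∈ W) (hy : y ∈ W) (hz : z ∈ W) (hwx : w ≠ x) (hwy : w ≠ y)
    (hwz : w ≠ z) (hxy : x ≠ y) (hxz : x ≠ z) (hyz : y ≠ z) :
    bet (insert v W) (st H v {w, x, y, z}) =
      bet W (st H w {x, y, z}) + bet W (st H x {y, z}) + bet W (st H y {z}) := by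
  have h := bet_rec H W hH v w {x, y, z} hv hw (by simp [hwx, hwy, hwz])
    (by intro a ha; simp at ha; rcases ha with rfl | rfl | rfl <;> assumption)
    ⟨x, by simp⟩
  rw [h, bet_three H W hH v hv x y z hx hy hz hxy hxz hyz]
  ring

theorem lemmaK (G : SimpleGraph V) (W : Finset V) (hG : Sup G W) (c a b : V) (hc : c ∈ W)
    (ha : a ∈ nb G c) (hb : b ∈ nb G c) (hab : a ≠ b) (hS : Sup (del G c) (W.erase c)) :
    bet (W.erase c) (st (del G c) a {b}) ≤ bet W G := by
  have hsub := nb_subset G W hG c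
  have hcW := Finset.notMem_erase c W
  have h1 := bet_two (del G c) (W.erase c) hS c hcW a b (hsub ha) (hsub hb) hab
  rw [Finset.insert_erase hc] at h1
  have hs2 : ({a, b} : Finset V) ⊆ W.erase c := by
    intro d hd
    simp only [Finset.mem_insert, Finset.mem_singleton] at hd
    rcases hd with rfl | rfl
    · exact hsub ha
    · exact hsub hb
  have h2 := sup_insert (del G c) (W.erase c) hS c hcW {a, b} hs2 ⟨a, by simp⟩
  rw [Finset.insert_erase hc] at h2
  have h3 := mono_star _ W h2 c hc (nb G c) (hsub.trans (Finset.erase_subset c W))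
  have h4 : st (st (del G c) c {a, b}) c (nb G c) = G := by
    conv_rhs => rw [← st_del_nb G c]
    ext d e
    simp only [st_adj, Finset.mem_insert, Finset.mem_singleton]
    constructor
    · rintro ((h | ⟨rfl, rfl | rfl, hn⟩ | ⟨rfl, rfl | rfl, hn⟩) | h | h)
      · exact Or.inl h
      · exact Or.inr (Or.inl ⟨rfl, ha, hn⟩)
      · exact Or.inr (Or.inl ⟨rfl, hb, hn⟩)
      · exact Or.inr (Or.inr ⟨rfl, ha, hn⟩)
      · exact Or.inr (Or.inr ⟨rfl, hb, hn⟩)
      · exact Or.inr (Or.inl h)
      · exact Or.inr (Or.inr h)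
    · rintro (h | h | h)
      · exact Or.inl (Or.inl h)
      · exact Or.inr (Or.inl h)
      · exact Or.inr (Or.inr h)
  rw [h4] at h3
  linarith

/-! ### degrees and edges -/

theorem deg_st_self (H : SimpleGraph V) (v : V) (S : Finset V) (hv : ∀ w, ¬ H.Adj v w)
    (hvS : v ∉ S) : deg (st H v S) v = S.card := by
  rw [deg_eq]
  congr 1
  ext w
  rw [mem_nb, st_adj]
  constructor
  · rintro (h | ⟨-, h, -⟩ | ⟨rfl, h, h'⟩)
    · exact absurd h (hv w)
    · exact h
    · exact absurd rfl h'
  · intro h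
    exact Or.inr (Or.inl ⟨rfl, h, fun h' => hvS (h' ▸ h)⟩)

theorem deg_st_other (H : SimpleGraph V) (v : V) (S : Finset V) (hv : ∀ w, ¬ H.Adj v w)
    (a : V) (ha : a ≠ v) : deg (st H v S) a = deg H a + if a ∈ S then 1 else 0 := by
  rw [deg_eq, deg_eq]
  by_cases haS : a ∈ S
  · have : nb (st H v S) a = insert v (nb H a) := by
      ext w
      rw [mem_nb, st_adj, Finset.mem_insert, mem_nb]
      constructor
      · rintro (h | ⟨h, -, -⟩ | ⟨h, -, -⟩)
        · exact Or.inr h
        · exact absurd h ha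
        · exact Or.inl h
      · rintro (h | h)
        · exact Or.inr (Or.inr ⟨h, haS, ha⟩)
        · exact Or.inl h
    rw [this, Finset.card_insert_of_notMem (by rw [mem_nb]; exact fun h => hv a h.symm)]
    simp [haS]
  · have : nb (st H v S) a = nb H a := by
      ext w
      rw [mem_nb, st_adj, mem_nb]
      constructor
      · rintro (h | ⟨h, -, -⟩ | ⟨-, h, -⟩)
        · exact h
        · exact absurd h ha
        · exact absurd h haS
      · exact Or.inl
    rw [this]
    simp [haS]

theorem e2_st (H : SimpleGraph V) (v : V) (S : Finset V) (hv : ∀ w, ¬ H.Adj v w) (hvS : v ∉ S) :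
    e2 (st H v S) = e2 H + 2 * S.card := by
  unfold e2
  rw [← Finset.add_sum_erase univ _ (Finset.mem_univ v),
    ← Finset.add_sum_erase univ (fun w => deg H w) (Finset.mem_univ v)]
  rw [deg_st_self H v S hv hvS]
  have h0 : deg H v = 0 := by
    rw [deg_eq, Finset.card_eq_zero, Finset.eq_empty_iff_forall_notMem]
    intro w hw
    exact hv w ((mem_nb H v w).1 hw)
  rw [h0, Finset.sum_congr rfl (fun a ha => deg_st_other H v S hv a (Finset.ne_of_mem_erase ha)),
    Finset.sum_add_distrib]
  have : ∑ a ∈ univ.erase v, (if a ∈ S then 1 else 0) = S.card := by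
    rw [← Finset.card_filter]
    congr 1
    ext a
    simp only [Finset.mem_filter, Finset.mem_erase, Finset.mem_univ, and_true]
    exact ⟨fun h => h.2, fun h => ⟨fun h' => hvS (h' ▸ h), h⟩⟩
  rw [this]
  ring

theorem e2_del (G : SimpleGraph V) (v : V) : e2 G = e2 (del G v) + 2 * deg G v := by
  have h := e2_st (del G v) v (nb G v) (fun w h => h.2.1 rfl)
    (fun h => ((mem_nb G v v).1 h).ne rfl)
  rw [st_del_nb] at h
  exact h

theorem e2_one (G : SimpleGraph V) (a b : V) (hab : a ≠ b) (h : ¬ G.Adj a b) :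
    e2 (st G a {b}) = e2 G + 2 := by
  have e : st G a {b} = st (del G a) a (insert b (nb G a)) := by
    conv_lhs => rw [← st_del_nb G a]
    ext c d
    simp only [st_adj, del_adj, Finset.mem_insert, Finset.mem_singleton]
    tauto
  have hbS : b ∉ nb G a := fun h' => h ((mem_nb G a b).1 h')
  have haS : a ∉ insert b (nb G a) := by
    rw [Finset.mem_insert]
    rintro (h' | h')
    · exact hab h'
    · exact ((mem_nb G a a).1 h').ne rfl
  rw [e, e2_st (del G a) a _ (fun w h => h.2.1 rfl) haS, Finset.card_insert_of_notMem hbS,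
    e2_del G a, deg_eq]
  ring

omit [DecidableEq V] in
theorem e2_mono (G G' : SimpleGraph V) (h : G ≤ G') : e2 G ≤ e2 G' := by
  unfold e2
  apply Finset.sum_le_sum
  intro a _
  rw [deg_eq, deg_eq]
  apply Finset.card_le_card
  intro b hb
  rw [mem_nb] at hb ⊢
  exact h hb

theorem le_st (G : SimpleGraph V) (x : V) (T : Finset V) : G ≤ st G x T := fun _ _ h => Or.inl h

theorem e2_star (G : SimpleGraph V) (x : V) (T : Finset V) : e2 G ≤ e2 (st G x T) :=
  e2_mono _ _ (le_st G x T)

theorem st_mono (G : SimpleGraph V) (x : V) (T T' : Finset V) (h : T ⊆ T') :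
    st G x T ≤ st G x T' := by
  rintro a b (h' | ⟨h1, h2, h3⟩ | ⟨h1, h2, h3⟩)
  · exact Or.inl h'
  · exact Or.inr (Or.inl ⟨h1, h h2, h3⟩)
  · exact Or.inr (Or.inr ⟨h1, h h2, h3⟩)

theorem st_eq_self (G : SimpleGraph V) (x : V) (T : Finset V)
    (h : ∀ y ∈ T, y ≠ x → G.Adj x y) : st G x T = G := by
  ext a b
  rw [st_adj]
  constructor
  · rintro (h' | ⟨rfl, h2, h3⟩ | ⟨rfl, h2, h3⟩)
    · exact h'
    · exact h b h2 h3
    · exact (h a h2 h3).symm
  · exact Or.inl

theorem e2_star_eq (G : SimpleGraph V) (x : V) (T : Finset V) (h : e2 (st G x T) < e2 G + 2) :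
    st G x T = G := by
  apply st_eq_self
  intro y hy hyx
  by_contra hadj
  have h1 := e2_one G x y hyx.symm hadj
  have h2 := e2_mono _ _ (st_mono G x {y} T (by simpa using hy))
  omega

theorem e2_two (G : SimpleGraph V) (x y z : V) (hxy : x ≠ y) (hxz : x ≠ z) (hyz : y ≠ z)
    (h1 : ¬ G.Adj x y) (h2 : ¬ G.Adj x z) : e2 (st G x {y, z}) = e2 G + 4 := by
  have e : ({y, z} : Finset V) = insert y {z} := rfl
  rw [e, st_insert, e2_one _ x y hxy, e2_one G x z hxz h2]
  rw [st_adj]
  simp only [Finset.mem_singleton]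
  rintro (h | ⟨-, h, -⟩ | ⟨h, -, -⟩)
  · exact h1 h
  · exact hyz h
  · exact hxy h.symm

theorem e2_ge (G : SimpleGraph V) (W : Finset V) (d : ℕ) (h : ∀ a ∈ W, d ≤ deg G a) :
    d * W.card ≤ e2 G := by
  unfold e2
  calc d * W.card = ∑ a ∈ W, d := by rw [Finset.sum_const, smul_eq_mul, mul_comm]
    _ ≤ ∑ a ∈ W, deg G a := Finset.sum_le_sum h
    _ ≤ ∑ a, deg G a := Finset.sum_le_sum_of_subset (Finset.subset_univ W)

theorem deg_del (G : SimpleGraph V) (v a : V) (ha : a ≠ v) :
    deg G a = deg (del G v) a + if a ∈ nb G v then 1 else 0 := by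
  conv_lhs => rw [← st_del_nb G v]
  exact deg_st_other (del G v) v (nb G v) (fun w h => h.2.1 rfl) a ha

theorem deg_lt (G : SimpleGraph V) (W : Finset V) (hG : Sup G W) (v : V) (hv : v ∈ W) :
    deg G v + 1 ≤ W.card := by
  have := Finset.card_le_card (nb_subset G W hG v)
  rw [Finset.card_erase_of_mem hv, ← deg_eq] at this
  have := Finset.card_pos.2 ⟨v, hv⟩
  omega

theorem leaf_zero (G : SimpleGraph V) (W : Finset V) (h2 : Sup G W) (h3 : 3 ≤ W.card)
    (a : V) (haW : a ∈ W) (ha : deg G a ≤ 1) : bet W G = 0 := by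
  obtain ⟨x, hx⟩ := (h2 a).1 haW
  have hnb : nb G a = {x} := by
    symm
    apply Finset.eq_of_subset_of_card_le
    · intro y hy
      rw [Finset.mem_singleton] at hy
      subst hy
      rw [mem_nb]; exact hx
    · rw [Finset.card_singleton]
      rw [deg_eq] at ha
      omega
  have hG : G = st (del G a) a {x} := by rw [← hnb, st_del_nb]
  have hvi : ∀ w, ¬ (del G a).Adj a w := fun w h => h.2.1 rfl
  have : ∃ w ∈ W, w ≠ a ∧ w ≠ x := by
    by_contra hcon
    push Not at hcon
    have : W ⊆ {a, x} := by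
      intro w hw
      rw [Finset.mem_insert, Finset.mem_singleton]
      by_cases h : w = a
      · exact Or.inl h
      · exact Or.inr (hcon w hw h)
    have := Finset.card_le_card this
    have := Finset.card_le_two (a := a) (b := x)
    omega
  obtain ⟨w, hw, hwa, hwx⟩ := this
  obtain ⟨u, hu⟩ := (h2 w).1 hw
  have hua : u ≠ a := by
    rintro rfl
    have : w ∈ nb G u := (mem_nb G u w).2 hu.symm
    rw [hnb, Finset.mem_singleton] at this
    exact hwx this
  have : D G = 0 := by
    rw [hG, D_leaf (del G a) a x hvi hx.ne']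
    exact XuRThreeLeTwo.eval_one _ w u ⟨hu, hwa, hua⟩
  unfold bet
  rw [this, mul_zero]

/-! ### the induction -/

/-- bounds on the number of edges (`e2` is twice the number of edges) -/
def UB (V : Type) [Fintype V] (n : ℕ) : Prop := ∀ (W : Finset V) (G : SimpleGraph V),
  W.card = n → Sup G W → W.Nonempty →
    (bet W G = 1 → e2 G + 6 ≤ 4 * n) ∧ (bet W G = 2 → e2 G + 4 ≤ 4 * n) ∧
    (bet W G = 3 → e2 G + 4 ≤ 4 * n) ∧ (bet W G = 4 → e2 G + 2 ≤ 4 * n)

/-- every two neighbours of `v` are adjacent -/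
def Clq (G : SimpleGraph V) (v : V) : Prop :=
  ∀ a b, G.Adj v a → G.Adj v b → a ≠ b → G.Adj a b

/-- extremal graphs -/
def Ex (b : ℕ) (W : Finset V) (G : SimpleGraph V) : Prop :=
  Sup G W ∧ bet W G = 2 ^ b ∧ e2 G + 6 = 4 * W.card + 2 * b

/-- structure of extremal graphs -/
def ES (V : Type) [Fintype V] [DecidableEq V] (n : ℕ) : Prop :=
  3 ≤ n → ∀ (b : ℕ) (W : Finset V) (G : SimpleGraph V), b ≤ 2 → W.card = n → Ex b W G →
    ∃ v ∈ W, Clq G v ∧ Sup (del G v) (W.erase v) ∧
      ((deg G v = 2 ∧ bet (W.erase v) (del G v) = 2 ^ b) ∨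
       (deg G v = 3 ∧ 2 * bet (W.erase v) (del G v) = 2 ^ b))

theorem min_deg (G : SimpleGraph V) (W : Finset V) (h0 : W.Nonempty) :
    ∃ v ∈ W, ∀ a ∈ W, deg G v ≤ deg G a := by
  obtain ⟨v, hv, h⟩ := Finset.exists_min_image W (deg G) h0
  exact ⟨v, hv, h⟩

/-- the case of a vertex of degree 3, arithmetic facts -/
theorem UB_step3 (n : ℕ) (hUB : UB V n) (H : SimpleGraph V) (W : Finset V) (hW : W.card = n)
    (hH : Sup H W) (v : V) (hv : v ∉ W) (x y z : V) (hx : x ∈ W) (hy : y ∈ W) (hz : z ∈ W)
    (hxy : x ≠ y) (hxz : x ≠ z) (hyz : y ≠ z) (B : ℤ)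
    (hB : bet (insert v W) (st H v {x, y, z}) = B) (hB4 : B ≤ 4) (hB1 : 1 ≤ B) :
    (B = 1 → e2 H + 12 ≤ 4 * (n + 1)) ∧ (B = 2 → e2 H + 10 ≤ 4 * (n + 1)) ∧
    (B = 3 → e2 H + 10 ≤ 4 * (n + 1)) ∧ (B = 4 → e2 H + 8 ≤ 4 * (n + 1)) := by
  have hrec := bet_three H W hH v hv x y z hx hy hz hxy hxz hyz
  have hyzW : ({y, z} : Finset V) ⊆ W := by
    intro a ha; simp at ha; rcases ha with rfl | rfl <;> assumption
  have hzW : ({z} : Finset V) ⊆ W := by simpa using hz
  have hlow := bet_lower H W hH v hv {x, y, z} (by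
    intro a ha; simp at ha; rcases ha with rfl | rfl | rfl <;> assumption) ⟨x, by simp⟩
  rw [Finset.card_eq_three.2 ⟨x, y, z, hxy, hxz, hyz, rfl⟩] at hlow
  have n1 := star_nonneg H W hH x hx {y, z} hyzW
  have n2 := star_nonneg H W hH y hy {z} hzW
  have n0 := bet_nonneg W H hH ⟨x, hx⟩
  have u1 := hUB W _ hW (sup_st H W hH x {y, z} hx hyzW) ⟨x, hx⟩
  have u2 := hUB W _ hW (sup_st H W hH y {z} hy hzW) ⟨x, hx⟩
  have s1 := e2_star H x {y, z}
  have s2 := e2_star H y {z}
  have t1 : e2 (st H x {y, z}) < e2 H + 2 → bet W (st H x {y, z}) = bet W H := fun h => by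
    rw [e2_star_eq H x _ h]
  have t2 : e2 (st H y {z}) < e2 H + 2 → bet W (st H y {z}) = bet W H := fun h => by
    rw [e2_star_eq H y _ h]
  generalize bet W (st H x {y, z}) = b1 at *
  generalize bet W (st H y {z}) = b2 at *
  generalize bet W H = b0 at *
  generalize e2 (st H x {y, z}) = m1 at *
  generalize e2 (st H y {z}) = m2 at *
  generalize e2 H = m at *
  have hb : b1 + b2 = B := by rw [← hrec, hB]
  rw [hB] at hlow
  push_cast at hlow
  have hb1 : b1 = 0 ∨ b1 = 1 ∨ b1 = 2 ∨ b1 = 3 ∨ b1 = 4 := by omega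
  have hb2 : b2 = 0 ∨ b2 = 1 ∨ b2 = 2 ∨ b2 = 3 ∨ b2 = 4 := by omega
  rcases hb1 with rfl | rfl | rfl | rfl | rfl <;> rcases hb2 with rfl | rfl | rfl | rfl | rfl <;>
    simp at u1 u2 <;> omega

theorem star_one (H : SimpleGraph V) (x : V) (L : Finset V) (h : e2 (st H x L) = e2 H + 2) :
    ∃ y ∈ L, y ≠ x ∧ ¬ H.Adj x y ∧ st H x L = st H x {y} := by
  by_contra hcon
  push Not at hcon
  have hex : ∃ y ∈ L, y ≠ x ∧ ¬ H.Adj x y := by
    by_contra h1
    push Not at h1
    rw [st_eq_self H x L h1] at h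
    omega
  obtain ⟨y, hy, hyx, hadj⟩ := hex
  apply hcon y hy hyx hadj
  have hall : ∀ y' ∈ L, y' ≠ x → y' ≠ y → H.Adj x y' := by
    intro y' hy' hyx' hne
    by_contra hadj'
    have h1 := e2_two H x y y' hyx.symm hyx'.symm hne.symm hadj hadj'
    have h2 := e2_mono _ _ (st_mono H x {y, y'} L (by
      intro a ha; simp at ha; rcases ha with rfl | rfl <;> assumption))
    omega
  ext a b
  rw [st_adj, st_adj]
  simp only [Finset.mem_singleton]
  constructor
  · rintro (h' | ⟨rfl, h2, h3⟩ | ⟨rfl, h2, h3⟩)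
    · exact Or.inl h'
    · by_cases hb : b = y
      · exact Or.inr (Or.inl ⟨rfl, hb, h3⟩)
      · exact Or.inl (hall b h2 h3 hb)
    · by_cases hb : a = y
      · exact Or.inr (Or.inr ⟨rfl, hb, h3⟩)
      · exact Or.inl (hall a h2 h3 hb).symm
  · rintro (h' | ⟨rfl, rfl, h3⟩ | ⟨rfl, rfl, h3⟩)
    · exact Or.inl h'
    · exact Or.inr (Or.inl ⟨rfl, hy, h3⟩)
    · exact Or.inr (Or.inr ⟨rfl, hy, h3⟩)

theorem st_symm (H : SimpleGraph V) (a b : V) (hab : a ≠ b) : st H a {b} = st H b {a} := by
  ext c d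
  simp only [st_adj, Finset.mem_singleton]
  constructor
  · rintro (h | ⟨rfl, rfl, -⟩ | ⟨rfl, rfl, -⟩)
    · exact Or.inl h
    · exact Or.inr (Or.inr ⟨rfl, rfl, hab⟩)
    · exact Or.inr (Or.inl ⟨rfl, rfl, hab⟩)
  · rintro (h | ⟨rfl, rfl, -⟩ | ⟨rfl, rfl, -⟩)
    · exact Or.inl h
    · exact Or.inr (Or.inr ⟨rfl, rfl, hab.symm⟩)
    · exact Or.inr (Or.inl ⟨rfl, rfl, hab.symm⟩)

theorem deg_one (H : SimpleGraph V) (a b c : V) (hab : a ≠ b) (h : ¬ H.Adj a b) :
    deg (st H a {b}) c = deg H c + if c = a ∨ c = b then 1 else 0 := by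
  rw [deg_eq, deg_eq]
  by_cases hca : c = a
  · subst hca
    have : nb (st H c {b}) c = insert b (nb H c) := by
      ext w
      rw [mem_nb, st_adj, Finset.mem_insert, mem_nb]
      simp only [Finset.mem_singleton]
      constructor
      · rintro (h' | ⟨-, h', -⟩ | ⟨-, h', -⟩)
        · exact Or.inr h'
        · exact Or.inl h'
        · exact absurd h' hab
      · rintro (h' | h')
        · subst h'; exact Or.inr (Or.inl ⟨trivial, rfl, hab.symm⟩)
        · exact Or.inl h'
    rw [this, Finset.card_insert_of_notMem (by rw [mem_nb]; exact h)]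
    simp
  · by_cases hcb : c = b
    · subst hcb
      have : nb (st H a {c}) c = insert a (nb H c) := by
        ext w
        rw [mem_nb, st_adj, Finset.mem_insert, mem_nb]
        simp only [Finset.mem_singleton]
        constructor
        · rintro (h' | ⟨h', -, -⟩ | ⟨h', -, -⟩)
          · exact Or.inr h'
          · exact absurd h' hca
          · exact Or.inl h'
        · rintro (h' | h')
          · subst h'; exact Or.inr (Or.inr ⟨rfl, trivial, hca⟩)
          · exact Or.inl h'
      rw [this, Finset.card_insert_of_notMem (by rw [mem_nb]; exact fun h' => h h'.symm)]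
      simp
    · have : nb (st H a {b}) c = nb H c := by
        ext w
        rw [mem_nb, st_adj, mem_nb]
        simp only [Finset.mem_singleton]
        constructor
        · rintro (h' | ⟨h', -, -⟩ | ⟨-, h', -⟩)
          · exact h'
          · exact absurd h' hca
          · exact absurd h' hcb
        · exact Or.inl
      rw [this]
      simp [hca, hcb]

/-- deleting a vertex of `H + ab` other than `a, b` -/
theorem del_st (H : SimpleGraph V) (a b c : V) (hca : c ≠ a) (hcb : c ≠ b) :
    del (st H a {b}) c = st (del H c) a {b} := by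
  ext d e
  simp only [del_adj, st_adj, Finset.mem_singleton]
  constructor
  · rintro ⟨h | ⟨rfl, rfl, h3⟩ | ⟨rfl, rfl, h3⟩, h4, h5⟩
    · exact Or.inl ⟨h, h4, h5⟩
    · exact Or.inr (Or.inl ⟨rfl, rfl, h3⟩)
    · exact Or.inr (Or.inr ⟨rfl, rfl, h3⟩)
  · rintro (⟨h, h4, h5⟩ | ⟨rfl, rfl, h3⟩ | ⟨rfl, rfl, h3⟩)
    · exact ⟨Or.inl h, h4, h5⟩
    · exact ⟨Or.inr (Or.inl ⟨rfl, rfl, h3⟩), hca.symm, hcb.symm⟩
    · exact ⟨Or.inr (Or.inr ⟨rfl, rfl, h3⟩), hcb.symm, hca.symm⟩

theorem R4 (n : ℕ) (hUB : UB V n) (hES : ES V n) (H : SimpleGraph V) (W : Finset V)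
    (hW : W.card = n) (hH : Sup H W) (v : V) (hv : v ∉ W) (S : Finset V) (hS : S ⊆ W)
    (hS4 : S.card = 4) (hdeg : ∀ c ∈ W, 4 ≤ deg (st H v S) c)
    (hB : bet (insert v W) (st H v S) = 4) (a b : V) (ha : a ∈ S) (hb : b ∈ S) (hab : a ≠ b)
    (hnad : ¬ H.Adj a b) (hbet : bet W (st H a {b}) = 4) (he : e2 H + 8 = 4 * (n + 1)) :
    False := by
  have hvi : ∀ w, ¬ H.Adj v w := fun w h => hv ((hH v).2 ⟨w, h⟩)
  have hneW : W.Nonempty := ⟨a, hS ha⟩
  have hEx : Ex 2 W (st H a {b}) := by
    refine ⟨sup_st H W hH a {b} (hS ha) (by simpa using hS hb), by rw [hbet]; norm_num, ?_⟩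
    rw [e2_one H a b hab hnad, hW]
    omega
  have hn3 : 3 ≤ n := by
    have := Finset.card_le_card hS
    omega
  obtain ⟨c, hc, hclq, hsup, hcase⟩ := hES hn3 2 W _ le_rfl hW hEx
  have hdc : deg (st H a {b}) c ≤ 3 := by rcases hcase with h | h <;> omega
  have hd4 := hdeg c hc
  have hcv : c ≠ v := fun h => hv (h ▸ hc)
  rw [deg_st_other H v S hvi c hcv] at hd4
  rw [deg_one H a b c hab hnad] at hdc
  have hcS : c ∈ S := by
    by_contra h
    simp only [h, if_false] at hd4
    omega
  simp only [hcS, if_true] at hd4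
  have hcab : ¬ (c = a ∨ c = b) := by
    intro h
    simp only [h, if_true] at hdc
    omega
  push Not at hcab
  -- adjacency claim
  have adjc : ∀ p q, p ∈ S → q ∈ S → p ≠ q → bet W (st H p {q}) = 4 → ¬ H.Adj p q → c ≠ p → c ≠ q →
      H.Adj p c := by
    intro p q hp hq hpq hbpq hnpq hcp hcq
    by_contra hpc
    have hsub : S.erase p ⊆ W := (Finset.erase_subset p S).trans hS
    have h1 := term_le H W hH v hv S hS p hp ⟨q, Finset.mem_erase.2 ⟨hpq.symm, hq⟩⟩
    rw [hB] at h1
    have h2 := mono_star (st H p {q}) W (sup_st H W hH p {q} (hS hp) (by simpa using hS hq)) p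
      (hS hp) (S.erase p) hsub
    have h3 : st (st H p {q}) p (S.erase p) = st H p (S.erase p) := by
      ext d e
      simp only [st_adj, Finset.mem_singleton, Finset.mem_erase]
      constructor
      · rintro ((h | ⟨rfl, rfl, h3⟩ | ⟨rfl, rfl, h3⟩) | h | h)
        · exact Or.inl h
        · exact Or.inr (Or.inl ⟨rfl, ⟨h3, hq⟩, h3⟩)
        · exact Or.inr (Or.inr ⟨rfl, ⟨h3, hq⟩, h3⟩)
        · exact Or.inr (Or.inl h)
        · exact Or.inr (Or.inr h)
      · rintro (h | h | h)
        · exact Or.inl (Or.inl h)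
        · exact Or.inr (Or.inl h)
        · exact Or.inr (Or.inr h)
    rw [h3, hbpq] at h2
    have h4 := (hUB W _ hW (sup_st H W hH p (S.erase p) (hS hp) hsub) hneW).2.2.2 (by omega)
    have h5 := e2_two H p q c hpq hcp.symm hcq.symm hnpq hpc
    have h6 := e2_mono _ _ (st_mono H p {q, c} (S.erase p) (by
      intro d hd
      simp only [Finset.mem_insert, Finset.mem_singleton] at hd
      rcases hd with rfl | rfl
      · exact Finset.mem_erase.2 ⟨hpq.symm, hq⟩
      · exact Finset.mem_erase.2 ⟨hcp, hcS⟩))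
    omega
  have hac := adjc a b ha hb hab hbet hnad hcab.1 hcab.2
  have hbc := adjc b a hb ha hab.symm (by rw [← st_symm H a b hab]; exact hbet)
    (fun h => hnad h.symm) hcab.2 hcab.1
  have hsupH : Sup (del H c) (W.erase c) := by
    apply sup_del H W hH c
    intro d hd
    have h1 := hdeg d hd
    have hdv : d ≠ v := fun h => hv (h ▸ hd)
    rw [deg_st_other H v S hvi d hdv] at h1
    split_ifs at h1 <;> omega
  have hK := lemmaK H W hH c a b hc ((mem_nb H c a).2 hac.symm) ((mem_nb H c b).2 hbc.symm) hab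
    hsupH
  rw [← del_st H a b c hcab.1 hcab.2] at hK
  have hlow := bet_lower H W hH v hv S hS ⟨a, ha⟩
  rw [hS4, hB] at hlow
  norm_num at hlow hcase
  omega

omit [Fintype V] [DecidableEq V] in
theorem term4 (m mi n : ℕ) (bi b0 B : ℤ) (h1 : bi = 1 → mi + 6 ≤ 4 * n)
    (h2 : bi = 2 → mi + 4 ≤ 4 * n) (h3 : bi = 3 → mi + 4 ≤ 4 * n) (h4 : bi = 4 → mi + 2 ≤ 4 * n)
    (hs : m ≤ mi) (ht : mi < m + 2 → bi = b0) (h0 : 3 * b0 ≤ B) (hB : B ≤ 4)
    (he : 4 * (n + 1) ≤ m + 8) (hn : 0 ≤ bi) (hb : bi ≤ 4) :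
    bi = 0 ∨ (bi = 4 ∧ mi = m + 2 ∧ m + 8 = 4 * (n + 1)) := by
  have : bi = 0 ∨ bi = 1 ∨ bi = 2 ∨ bi = 3 ∨ bi = 4 := by omega
  rcases this with rfl | rfl | rfl | rfl | rfl
  · exact Or.inl rfl
  · exfalso
    have := h1 rfl
    omega
  · exfalso
    have := h2 rfl
    have := ht (by omega)
    omega
  · exfalso
    have := h3 rfl
    have := ht (by omega)
    omega
  · right
    have h4' := h4 rfl
    by_cases hlt : mi < m + 2
    · have := ht hlt
      omega
    · omega

theorem UB_step4 (n : ℕ) (hUB : UB V n) (H : SimpleGraph V) (W : Finset V) (hW : W.card = n)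
    (hH : Sup H W) (v : V) (hv : v ∉ W) (w x y z : V) (hw : w ∈ W) (hx : x ∈ W) (hy : y ∈ W)
    (hz : z ∈ W) (hwx : w ≠ x) (hwy : w ≠ y) (hwz : w ≠ z)
    (hxy : x ≠ y) (hxz : x ≠ z) (hyz : y ≠ z) (B : ℤ)
    (hB : bet (insert v W) (st H v {w, x, y, z}) = B) (hB4 : B ≤ 4) (hB1 : 1 ≤ B)
    (he : 4 * (n + 1) ≤ e2 H + 8) :
    B = 4 ∧ e2 H + 8 = 4 * (n + 1) ∧
    ((bet W (st H w {x, y, z}) = 4 ∧ e2 (st H w {x, y, z}) = e2 H + 2) ∨
     (bet W (st H x {y, z}) = 4 ∧ e2 (st H x {y, z}) = e2 H + 2) ∨
     (bet W (st H y {z}) = 4 ∧ e2 (st H y {z}) = e2 H + 2)) := by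
  have hrec := bet_four H W hH v hv w x y z hw hx hy hz hwx hwy hwz hxy hxz hyz
  have hxyzW : ({x, y, z} : Finset V) ⊆ W := by
    intro a ha; simp at ha; rcases ha with rfl | rfl | rfl <;> assumption
  have hyzW : ({y, z} : Finset V) ⊆ W := by
    intro a ha; simp at ha; rcases ha with rfl | rfl <;> assumption
  have hzW : ({z} : Finset V) ⊆ W := by simpa using hz
  have hlow := bet_lower H W hH v hv {w, x, y, z} (by
    intro a ha; simp at ha; rcases ha with rfl | rfl | rfl | rfl <;> assumption) ⟨w, by simp⟩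
  have hc4 : ({w, x, y, z} : Finset V).card = 4 := by
    rw [Finset.card_insert_of_notMem (by simp [hwx, hwy, hwz]),
      Finset.card_eq_three.2 ⟨x, y, z, hxy, hxz, hyz, rfl⟩]
  rw [hc4] at hlow
  have n1 := star_nonneg H W hH w hw {x, y, z} hxyzW
  have n2 := star_nonneg H W hH x hx {y, z} hyzW
  have n3 := star_nonneg H W hH y hy {z} hzW
  have n0 := bet_nonneg W H hH ⟨x, hx⟩
  have u1 := hUB W _ hW (sup_st H W hH w {x, y, z} hw hxyzW) ⟨x, hx⟩
  have u2 := hUB W _ hW (sup_st H W hH x {y, z} hx hyzW) ⟨x, hx⟩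
  have u3 := hUB W _ hW (sup_st H W hH y {z} hy hzW) ⟨x, hx⟩
  have s1 := e2_star H w {x, y, z}
  have s2 := e2_star H x {y, z}
  have s3 := e2_star H y {z}
  have t1 : e2 (st H w {x, y, z}) < e2 H + 2 → bet W (st H w {x, y, z}) = bet W H := fun h => by
    rw [e2_star_eq H w _ h]
  have t2 : e2 (st H x {y, z}) < e2 H + 2 → bet W (st H x {y, z}) = bet W H := fun h => by
    rw [e2_star_eq H x _ h]
  have t3 : e2 (st H y {z}) < e2 H + 2 → bet W (st H y {z}) = bet W H := fun h => by
    rw [e2_star_eq H y _ h]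
  have q1 := term4 (e2 H) _ n _ (bet W H) B u1.1 u1.2.1 u1.2.2.1 u1.2.2.2 s1 t1
    (by rw [hB] at hlow; push_cast at hlow; linarith) hB4 he n1 (by linarith)
  have q2 := term4 (e2 H) _ n _ (bet W H) B u2.1 u2.2.1 u2.2.2.1 u2.2.2.2 s2 t2
    (by rw [hB] at hlow; push_cast at hlow; linarith) hB4 he n2 (by linarith)
  have q3 := term4 (e2 H) _ n _ (bet W H) B u3.1 u3.2.1 u3.2.2.1 u3.2.2.2 s3 t3
    (by rw [hB] at hlow; push_cast at hlow; linarith) hB4 he n3 (by linarith)
  rw [hB] at hrec
  rcases q1 with q1 | ⟨q1, q1', q1''⟩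
  · rcases q2 with q2 | ⟨q2, q2', q2''⟩
    · rcases q3 with q3 | ⟨q3, q3', q3''⟩
      · exfalso; linarith
      · exact ⟨by linarith, q3'', Or.inr (Or.inr ⟨q3, q3'⟩)⟩
    · exact ⟨by linarith, q2'', Or.inr (Or.inl ⟨q2, q2'⟩)⟩
  · exact ⟨by linarith, q1'', Or.inl ⟨q1, q1'⟩⟩

theorem e2_small (G : SimpleGraph V) (W : Finset V) (hG : Sup G W) (h0 : W.Nonempty)
    (h2 : W.card ≤ 2) : e2 G + 6 ≤ 4 * W.card := by
  obtain ⟨a, ha⟩ := h0
  obtain ⟨b, hb⟩ := (hG a).1 ha
  have hbW : b ∈ W := (hG b).2 ⟨a, hb.symm⟩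
  have hc2 : W.card = 2 := by
    have : ({a, b} : Finset V).card ≤ W.card := Finset.card_le_card (by
      intro c hc; simp at hc; rcases hc with rfl | rfl <;> assumption)
    rw [Finset.card_pair hb.ne] at this
    omega
  have h1 := deg_lt G W hG a ha
  have h3 : e2 (del G a) = 0 := by
    unfold e2
    apply Finset.sum_eq_zero
    intro u _
    rw [deg_eq, Finset.card_eq_zero, Finset.eq_empty_iff_forall_notMem]
    intro w hw
    rw [mem_nb, del_adj] at hw
    have : ({a, u, w} : Finset V).card ≤ W.card := Finset.card_le_card (by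
      intro c hc
      simp only [Finset.mem_insert, Finset.mem_singleton] at hc
      rcases hc with rfl | rfl | rfl
      · exact ha
      · exact (hG _).2 ⟨w, hw.1⟩
      · exact (hG _).2 ⟨u, hw.1.symm⟩)
    rw [Finset.card_eq_three.2 ⟨a, u, w, hw.2.1.symm, hw.2.2.symm, hw.1.ne, rfl⟩] at this
    omega
  have h4 := e2_del G a
  omega

theorem UB_succ (n : ℕ) (hUB : UB V n) (hES : ES V n) : UB V (n + 1) := by
  intro W G hW hG h0
  by_cases hn : W.card ≤ 2
  · have := e2_small G W hG h0 hn
    rw [hW] at this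
    refine ⟨fun _ => this, fun _ => ?_, fun _ => ?_, fun _ => ?_⟩ <;> omega
  · push Not at hn
    by_cases hB : 1 ≤ bet W G ∧ bet W G ≤ 4
    swap
    · refine ⟨fun h => ?_, fun h => ?_, fun h => ?_, fun h => ?_⟩ <;>
        exact absurd (by omega) hB
    obtain ⟨hB1, hB4⟩ := hB
    have hdeg : ∀ a ∈ W, 2 ≤ deg G a := by
      intro a ha
      by_contra hcon
      have := leaf_zero G W hG hn a ha (by omega)
      omega
    obtain ⟨v, hv, hmin⟩ := min_deg G W h0
    have hd2 := hdeg v hv
    have hH := sup_del G W hG v hdeg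
    have hcard : (W.erase v).card = n := by rw [Finset.card_erase_of_mem hv]; omega
    have hsub := nb_subset G W hG v
    have hvn := Finset.notMem_erase v W
    have hne : (nb G v).Nonempty := by rw [← Finset.card_pos, ← deg_eq]; omega
    have hneW : (W.erase v).Nonempty := hne.mono hsub
    have he2 := e2_del G v
    have hge := e2_ge G W (deg G v) hmin
    rw [hW] at hge
    have hlt := deg_lt G W hG v hv
    rw [hW] at hlt
    have hGe : st (del G v) v (nb G v) = G := st_del_nb G v
    have hWe : insert v (W.erase v) = W := Finset.insert_erase hv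
    obtain ⟨x, hx, L, hL, ht1, ht2⟩ := exists_term (del G v) (W.erase v) hH v hvn (nb G v) hsub
      (by rw [hGe, hWe]; exact hB1) hne
    rw [hGe, hWe] at ht2
    have hu := hUB _ _ hcard (sup_st (del G v) (W.erase v) hH x L (hsub hx) (hL.trans hsub)) hneW
    have hst := e2_star (del G v) x L
    have hH4 : e2 (del G v) + 2 ≤ 4 * n := by
      have : bet (W.erase v) (st (del G v) x L) = 1 ∨ bet (W.erase v) (st (del G v) x L) = 2 ∨
        bet (W.erase v) (st (del G v) x L) = 3 ∨ bet (W.erase v) (st (del G v) x L) = 4 := by omega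
      rcases this with h | h | h | h
      · have := hu.1 h; omega
      · have := hu.2.1 h; omega
      · have := hu.2.2.1 h; omega
      · have := hu.2.2.2 h; omega
    have hd4 : deg G v ≤ 4 := by
      by_contra hcon
      have h5 : 5 ≤ deg G v := by omega
      have h6 : deg G v * (n + 1) ≤ 4 * n - 2 + 2 * deg G v := by omega
      have h7 : 5 * (n - 1) ≤ deg G v * (n - 1) := Nat.mul_le_mul_right _ h5
      have h8 : deg G v * (n + 1) = deg G v * (n - 1) + 2 * deg G v := by
        have : n + 1 = (n - 1) + 2 := by omega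
        rw [this, mul_add]
        ring
      omega
    have hcases : deg G v = 2 ∨ deg G v = 3 ∨ deg G v = 4 := by omega
    rcases hcases with hd | hd | hd
    · -- degree 2
      obtain ⟨x, y, hxy, hS⟩ := Finset.card_eq_two.1 ((deg_eq G v).symm.trans hd)
      rw [hS] at hsub hGe
      have hxW : x ∈ W.erase v := hsub (by simp)
      have hyW : y ∈ W.erase v := hsub (by simp)
      have h2 := bet_two (del G v) (W.erase v) hH v hvn x y hxW hyW hxy
      rw [hGe, hWe] at h2
      have hu := hUB _ _ hcard (sup_st (del G v) (W.erase v) hH x {y} hxW (by simpa using hyW)) hneW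
      have hst := e2_star (del G v) x {y}
      rw [← h2] at hu
      refine ⟨fun h => ?_, fun h => ?_, fun h => ?_, fun h => ?_⟩
      · have := hu.1 h; omega
      · have := hu.2.1 h; omega
      · have := hu.2.2.1 h; omega
      · have := hu.2.2.2 h; omega
    · -- degree 3
      obtain ⟨x, y, z, hxy, hxz, hyz, hS⟩ := Finset.card_eq_three.1 ((deg_eq G v).symm.trans hd)
      rw [hS] at hsub hGe
      have h3 := UB_step3 n hUB (del G v) (W.erase v) hcard hH v hvn x y z (hsub (by simp))
        (hsub (by simp)) (hsub (by simp)) hxy hxz hyz (bet W G) (by rw [hGe, hWe]) hB4 hB1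
      refine ⟨fun h => ?_, fun h => ?_, fun h => ?_, fun h => ?_⟩
      · have := h3.1 h; omega
      · have := h3.2.1 h; omega
      · have := h3.2.2.1 h; omega
      · have := h3.2.2.2 h; omega
    · -- degree 4
      exfalso
      have hc4 : (nb G v).card = 4 := (deg_eq G v).symm.trans hd
      have h8 : 4 * (n + 1) ≤ e2 (del G v) + 8 := by
        rw [hd] at hge he2
        omega
      have hdeg4 : ∀ c ∈ W.erase v, 4 ≤ deg (st (del G v) v (nb G v)) c := by
        intro c hc
        rw [hGe, ← hd]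
        exact hmin c (Finset.mem_of_mem_erase hc)
      obtain ⟨w, hw⟩ := hne
      have h3 : ((nb G v).erase w).card = 3 := by rw [Finset.card_erase_of_mem hw, hc4]
      obtain ⟨x, y, z, hxy, hxz, hyz, hS3⟩ := Finset.card_eq_three.1 h3
      have hS : nb G v = {w, x, y, z} := by rw [← Finset.insert_erase hw, hS3]
      have hwn : w ∉ (nb G v).erase w := Finset.notMem_erase w _
      rw [hS3] at hwn
      simp only [Finset.mem_insert, Finset.mem_singleton, not_or] at hwn
      have mw : w ∈ nb G v := hw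
      have mx : x ∈ nb G v := by rw [hS]; simp
      have my : y ∈ nb G v := by rw [hS]; simp
      have mz : z ∈ nb G v := by rw [hS]; simp
      have hBe : bet (insert v (W.erase v)) (st (del G v) v {w, x, y, z}) = bet W G := by
        rw [← hS, hGe, hWe]
      obtain ⟨hB, he, hor⟩ := UB_step4 n hUB (del G v) (W.erase v) hcard hH v hvn w x y z
        (hsub mw) (hsub mx) (hsub my) (hsub mz) hwn.1 hwn.2.1 hwn.2.2 hxy hxz hyz (bet W G)
        hBe hB4 hB1 h8
      have hBB : bet (insert v (W.erase v)) (st (del G v) v (nb G v)) = 4 := by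
        rw [hGe, hWe, hB]
      have fin : ∀ p, p ∈ nb G v → ∀ L ⊆ nb G v, bet (W.erase v) (st (del G v) p L) = 4 →
          e2 (st (del G v) p L) = e2 (del G v) + 2 → False := by
        intro p hp L hL hb1 hb2
        obtain ⟨q, hq, hqp, hnad, heq⟩ := star_one (del G v) p L hb2
        rw [heq] at hb1
        exact R4 n hUB hES (del G v) (W.erase v) hcard hH v hvn (nb G v) hsub hc4 hdeg4 hBB p q
          hp (hL hq) hqp.symm hnad hb1 he
      rcases hor with ⟨h1, h2⟩ | ⟨h1, h2⟩ | ⟨h1, h2⟩
      · refine fin w mw {x, y, z} ?_ h1 h2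
        intro c hc
        simp only [Finset.mem_insert, Finset.mem_singleton] at hc
        rcases hc with rfl | rfl | rfl
        exacts [mx, my, mz]
      · refine fin x mx {y, z} ?_ h1 h2
        intro c hc
        simp only [Finset.mem_insert, Finset.mem_singleton] at hc
        rcases hc with rfl | rfl
        exacts [my, mz]
      · refine fin y my {z} ?_ h1 h2
        intro c hc
        simp only [Finset.mem_singleton] at hc
        rcases hc with rfl
        exact mz

theorem lemmaZ (n : ℕ) (hUB : UB V n) (b : ℕ) (hb : b ≤ 2) (G : SimpleGraph V) (W : Finset V)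
    (hW : W.card = n + 1) (hEx : Ex b W G) (hdeg : ∀ a ∈ W, 2 ≤ deg G a) (u : V) (hu : u ∈ W)
    (hdu : deg G u = 3) :
    (Clq G u ∧ 2 * bet (W.erase u) (del G u) = 2 ^ b) ∨
    (bet (W.erase u) (del G u) = 0 ∧ ∃ x y z, nb G u = {x, y, z} ∧ x ≠ y ∧ x ≠ z ∧ y ≠ z ∧
      G.Adj x y ∧ G.Adj x z ∧ ¬ G.Adj y z ∧
      bet (W.erase u) (st (del G u) y {z}) = 2 ^ b) := by
  obtain ⟨hG, hbet, he⟩ := hEx
  obtain ⟨x, y, z, hxy, hxz, hyz, hS⟩ := Finset.card_eq_three.1 ((deg_eq G u).symm.trans hdu)
  have hH := sup_del G W hG u hdeg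
  have hcard : (W.erase u).card = n := by rw [Finset.card_erase_of_mem hu]; omega
  have hsub := nb_subset G W hG u
  have hun := Finset.notMem_erase u W
  have he2 := e2_del G u
  have hGe : st (del G u) u (nb G u) = G := st_del_nb G u
  have hWe : insert u (W.erase u) = W := Finset.insert_erase hu
  set H := del G u with hHdef
  set W0 := W.erase u with hW0
  have hneu : ∀ a ∈ nb G u, a ≠ u := fun a ha => Finset.ne_of_mem_erase (hsub ha)
  have hadj : ∀ p q, p ∈ nb G u → q ∈ nb G u → (H.Adj p q ↔ G.Adj p q) := by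
    intro p q hp hq
    rw [hHdef, del_adj]
    exact ⟨fun h => h.1, fun h => ⟨h, hneu p hp, hneu q hq⟩⟩
  have hB3 : ∀ p q r, nb G u = {p, q, r} → p ≠ q → p ≠ r → q ≠ r →
      (2 : ℤ) ^ b = bet W0 (st H p {q, r}) + bet W0 (st H q {r}) := by
    intro p q r h h1 h2 h3
    have hp : p ∈ nb G u := by rw [h]; simp
    have hq : q ∈ nb G u := by rw [h]; simp
    have hr : r ∈ nb G u := by rw [h]; simp
    have := bet_three H W0 hH u hun p q r (hsub hp) (hsub hq) (hsub hr) h1 h2 h3
    rw [← h, hGe, hWe, hbet] at this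
    exact this
  have hbd : ∀ C, Sup C W0 → bet W0 C = 2 ^ b → e2 C ≤ e2 H + 2 := by
    intro C hC hCb
    have h := hUB W0 C hcard hC ⟨x, hsub (by rw [hS]; simp)⟩
    have hb' : b = 0 ∨ b = 1 ∨ b = 2 := by omega
    rcases hb' with rfl | rfl | rfl
    · have := h.1 (by rw [hCb]; norm_num)
      omega
    · have := h.2.1 (by rw [hCb]; norm_num)
      omega
    · have := h.2.2.2 (by rw [hCb]; norm_num)
      omega
  have hbd2 : ∀ C, Sup C W0 → 1 ≤ bet W0 C → bet W0 C < 2 ^ b → e2 C ≤ e2 H := by
    intro C hC h1 h2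
    have h := hUB W0 C hcard hC ⟨x, hsub (by rw [hS]; simp)⟩
    have hb' : b = 0 ∨ b = 1 ∨ b = 2 := by omega
    rcases hb' with rfl | rfl | rfl
    · norm_num at h2
      omega
    · norm_num at h2
      have := h.1 (by omega)
      omega
    · norm_num at h2
      have h3 : bet W0 C = 1 ∨ bet W0 C = 2 ∨ bet W0 C = 3 := by omega
      rcases h3 with h3 | h3 | h3
      · have := h.1 h3
        omega
      · have := h.2.1 h3
        omega
      · have := h.2.2.1 h3
        omega
  have hT2 : ∀ p q r, nb G u = {p, q, r} → p ≠ q → p ≠ r → q ≠ r → ¬ H.Adj q r → ¬ H.Adj q p →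
      bet W0 (st H q {r}) = 2 ^ b → False := by
    intro p q r h h1 h2 h3 h4 h5 h6
    have hp : p ∈ nb G u := by rw [h]; simp
    have hq : q ∈ nb G u := by rw [h]; simp
    have hr : r ∈ nb G u := by rw [h]; simp
    have hprW : ({p, r} : Finset V) ⊆ W0 := by
      intro a ha
      simp only [Finset.mem_insert, Finset.mem_singleton] at ha
      rcases ha with rfl | rfl
      exacts [hsub hp, hsub hr]
    have e1 : nb G u = {q, p, r} := by rw [h]; exact Finset.insert_comm p q {r}
    have e2' := hB3 q p r e1 h1.symm h3 h2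
    have n1 := star_nonneg H W0 hH p (hsub hp) {r} (by simpa using hsub hr)
    have e3 : st H q {p, r} = st (st H q {r}) q {p} := st_insert H q p {r}
    have n2 := mono_star (st H q {r}) W0 (sup_st H W0 hH q {r} (hsub hq) (by simpa using hsub hr))
      q (hsub hq) {p} (by simpa using hsub hp)
    rw [← e3] at n2
    have e4 := hbd _ (sup_st H W0 hH q {p, r} (hsub hq) hprW) (by omega)
    have e5 := e2_two H q p r h1.symm h3 h2 h5 h4
    omega
  have n0 := bet_nonneg W0 H hH ⟨x, hsub (by rw [hS]; simp)⟩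
  have hlow : 2 * bet W0 H ≤ 2 ^ b := by
    have := bet_lower H W0 hH u hun (nb G u) hsub ⟨x, by rw [hS]; simp⟩
    rw [hGe, hWe, hbet, ← deg_eq, hdu] at this
    push_cast at this
    linarith
  have hpow : (1 : ℤ) ≤ 2 ^ b := by
    have hb' : b = 0 ∨ b = 1 ∨ b = 2 := by omega
    rcases hb' with rfl | rfl | rfl <;> norm_num
  -- the claim for a nonadjacent pair
  have hN : ∀ p q r, nb G u = {p, q, r} → p ≠ q → p ≠ r → q ≠ r → ¬ H.Adj q r →
      bet W0 (st H q {r}) = 2 ^ b ∧ H.Adj p q ∧ H.Adj p r ∧ bet W0 H = 0 := by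
    intro p q r h h1 h2 h3 h4
    have hp : p ∈ nb G u := by rw [h]; simp
    have hq : q ∈ nb G u := by rw [h]; simp
    have hr : r ∈ nb G u := by rw [h]; simp
    have hqrW : ({q, r} : Finset V) ⊆ W0 := by
      intro a ha
      simp only [Finset.mem_insert, Finset.mem_singleton] at ha
      rcases ha with rfl | rfl
      exacts [hsub hq, hsub hr]
    have hrW : ({r} : Finset V) ⊆ W0 := by simpa using hsub hr
    have e1 := hB3 p q r h h1 h2 h3
    have n1 := star_nonneg H W0 hH p (hsub hp) {q, r} hqrW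
    have n2 := star_nonneg H W0 hH q (hsub hq) {r} hrW
    have e3 := e2_one H q r h3 h4
    have hprq : nb G u = {p, r, q} := by rw [h, Finset.pair_comm]
    have key : bet W0 (st H q {r}) = 2 ^ b := by
      by_contra hcon
      have hlt : bet W0 (st H q {r}) = 0 := by
        by_contra hne
        have := hbd2 _ (sup_st H W0 hH q {r} (hsub hq) hrW) (by omega) (by omega)
        omega
      have hb1 : bet W0 (st H p {q, r}) = 2 ^ b := by omega
      have h5 := hbd _ (sup_st H W0 hH p {q, r} (hsub hp) hqrW) hb1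
      have h6 := e2_star H p {q, r}
      by_cases h7 : e2 (st H p {q, r}) < e2 H + 2
      · rw [e2_star_eq H p _ h7] at hb1
        omega
      · obtain ⟨y', hy', hy'p, hnad, heq⟩ := star_one H p {q, r} (by omega)
        rw [heq, st_symm H p y' hy'p.symm] at hb1
        simp only [Finset.mem_insert, Finset.mem_singleton] at hy'
        rcases hy' with rfl | rfl
        · -- y' = q, other = r
          exact hT2 r y' p (by rw [h, Finset.insert_comm p y' {r}, Finset.pair_comm p r,
            Finset.insert_comm y' r {p}]) h3.symm h2.symm h1.symm (fun h' => hnad h'.symm)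
            h4 hb1
        · exact hT2 q y' p (by rw [h, Finset.pair_comm q y', Finset.insert_comm p y' {q},
            Finset.pair_comm p q, Finset.insert_comm y' q {p}]) h3 h1.symm h2.symm
            (fun h' => hnad h'.symm) (fun h' => h4 h'.symm) hb1
    have hpq : H.Adj p q := by
      by_contra hcon
      exact hT2 p q r h h1 h2 h3 h4 (fun h' => hcon h'.symm) key
    have hpr : H.Adj p r := by
      by_contra hcon
      exact hT2 p r q hprq h2 h1 h3.symm (fun h' => h4 h'.symm) (fun h' => hcon h'.symm)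
        (by rw [← st_symm H q r h3]; exact key)
    have hself : st H p {q, r} = H := by
      apply st_eq_self
      intro a ha _
      simp only [Finset.mem_insert, Finset.mem_singleton] at ha
      rcases ha with rfl | rfl
      exacts [hpq, hpr]
    rw [hself] at e1
    exact ⟨key, hpq, hpr, by omega⟩
  have hx : x ∈ nb G u := by rw [hS]; simp
  have hy : y ∈ nb G u := by rw [hS]; simp
  have hz : z ∈ nb G u := by rw [hS]; simp
  by_cases hall : H.Adj x y ∧ H.Adj x z ∧ H.Adj y z
  · obtain ⟨a1, a2, a3⟩ := hall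
    left
    constructor
    · intro a c ha hc hac
      rw [← mem_nb, hS] at ha hc
      simp only [Finset.mem_insert, Finset.mem_singleton] at ha hc
      rcases ha with rfl | rfl | rfl <;> rcases hc with rfl | rfl | rfl
      · exact absurd rfl hac
      · exact a1.1
      · exact a2.1
      · exact a1.1.symm
      · exact absurd rfl hac
      · exact a3.1
      · exact a2.1.symm
      · exact a3.1.symm
      · exact absurd rfl hac
    · have := hB3 x y z hS hxy hxz hyz
      rw [st_eq_self H x {y, z} (by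
        intro a ha _
        simp only [Finset.mem_insert, Finset.mem_singleton] at ha
        rcases ha with rfl | rfl
        exacts [a1, a2]), st_eq_self H y {z} (by
        intro a ha _
        simp only [Finset.mem_singleton] at ha
        subst ha
        exact a3)] at this
      rw [this]
      ring
  · right
    by_cases hyzadj : H.Adj y z
    · by_cases hxzadj : H.Adj x z
      · have hxyn : ¬ H.Adj x y := fun h => hall ⟨h, hxzadj, hyzadj⟩
        have hS' : nb G u = {z, x, y} := by
          rw [hS, Finset.pair_comm y z, Finset.insert_comm x z {y}]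
        obtain ⟨k1, k2, k3, k4⟩ := hN z x y hS' hxz.symm hyz.symm hxy hxyn
        exact ⟨k4, z, x, y, hS', hxz.symm, hyz.symm, hxy, k2.1, k3.1,
          fun h => hxyn ((hadj x y hx hy).2 h), k1⟩
      · have hS' : nb G u = {y, x, z} := by rw [hS, Finset.insert_comm x y {z}]
        obtain ⟨k1, k2, k3, k4⟩ := hN y x z hS' hxy.symm hyz hxz hxzadj
        exact ⟨k4, y, x, z, hS', hxy.symm, hyz, hxz, k2.1, k3.1,
          fun h => hxzadj ((hadj x z hx hz).2 h), k1⟩
    · obtain ⟨k1, k2, k3, k4⟩ := hN x y z hS hxy hxz hyz hyzadj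
      exact ⟨k4, x, y, z, hS, hxy, hxz, hyz, k2.1, k3.1,
        fun h => hyzadj ((hadj y z hy hz).2 h), k1⟩

theorem del_comm (G : SimpleGraph V) (a b : V) : del (del G a) b = del (del G b) a := by
  ext c d
  simp only [del_adj]
  tauto

/-- the case where the simplicial vertex is an end of the new edge -/
theorem caseY (n : ℕ) (hUB : UB V n) (b : ℕ) (hb : b ≤ 2) (G : SimpleGraph V) (W : Finset V)
    (hW : W.card = n + 1) (hEx : Ex b W G) (hdeg : ∀ a ∈ W, 3 ≤ deg G a) (v : V) (hv : v ∈ W)
    (x p q : V) (hx : x ∈ nb G v) (hp : p ∈ nb G v) (hq : q ∈ nb G v) (hxp : x ≠ p) (hxq : x ≠ q)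
    (hpq : p ≠ q) (hxqadj : G.Adj x q) (hdp : deg G p = 3)
    (hpos : 1 ≤ bet ((W.erase v).erase p) (del (st (del G v) p {q}) p)) :
    Clq G p ∧ 2 * bet (W.erase p) (del G p) = 2 ^ b := by
  have hG := hEx.1
  have hsub := nb_subset G W hG v
  have hpW : p ∈ W := Finset.mem_of_mem_erase (hsub hp)
  have hpv : p ≠ v := Finset.ne_of_mem_erase (hsub hp)
  have hxv : x ≠ v := Finset.ne_of_mem_erase (hsub hx)
  have hqv : q ≠ v := Finset.ne_of_mem_erase (hsub hq)
  have hdeg2 : ∀ a ∈ W, 2 ≤ deg G a := fun a ha => by have := hdeg a ha; omega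
  rcases lemmaZ n hUB b hb G W hW hEx hdeg2 p hpW hdp with h | ⟨h0, -⟩
  · exact h
  · exfalso
    have hG2 := sup_del G W hG p hdeg2
    have hdegG2 : ∀ a ∈ W.erase p, 2 ≤ deg (del G p) a := by
      intro a ha
      have h1 := hdeg a (Finset.mem_of_mem_erase ha)
      rw [deg_del G p a (Finset.ne_of_mem_erase ha)] at h1
      split_ifs at h1 <;> omega
    have hS2 := sup_del (del G p) (W.erase p) hG2 v hdegG2
    have hvW2 : v ∈ W.erase p := Finset.mem_erase.2 ⟨hpv.symm, hv⟩
    have hK := lemmaK (del G p) (W.erase p) hG2 v x q hvW2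
      ((mem_nb _ _ _).2 ⟨(mem_nb G v x).1 hx, hpv.symm, hxp⟩)
      ((mem_nb _ _ _).2 ⟨(mem_nb G v q).1 hq, hpv.symm, hpq.symm⟩) hxq hS2
    rw [h0, st_eq_self (del (del G p) v) x {q} (by
      intro a ha _
      rw [Finset.mem_singleton] at ha
      subst ha
      exact ⟨⟨hxqadj, hxp, hpq.symm⟩, hxv, hqv⟩)] at hK
    have e : del (st (del G v) p {q}) p = del (del G p) v := by
      rw [del_comm G p v]
      ext c d
      simp only [del_adj, st_adj, Finset.mem_singleton]
      constructor
      · rintro ⟨h | ⟨rfl, rfl, h3⟩ | ⟨rfl, rfl, h3⟩, h4, h5⟩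
        · exact ⟨h, h4, h5⟩
        · exact absurd rfl h4
        · exact absurd rfl h5
      · rintro ⟨h, h4, h5⟩
        exact ⟨Or.inl h, h4, h5⟩
    rw [e, Finset.erase_right_comm] at hpos
    omega

theorem ES_succ (n : ℕ) (hUB : UB V n) (hES : ES V n) : ES V (n + 1) := by
  intro h3 b W G hb hW hEx
  have hExc := hEx
  obtain ⟨hG, hbet, he⟩ := hEx
  have hpow : (1 : ℤ) ≤ 2 ^ b := by
    have hb' : b = 0 ∨ b = 1 ∨ b = 2 := by omega
    rcases hb' with rfl | rfl | rfl <;> norm_num
  have hdeg2 : ∀ a ∈ W, 2 ≤ deg G a := by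
    intro a ha
    by_contra hcon
    have := leaf_zero G W hG (by omega) a ha (by omega)
    omega
  by_cases h2 : ∃ v ∈ W, deg G v = 2
  · obtain ⟨v, hv, hdv⟩ := h2
    obtain ⟨x, y, hxy, hS⟩ := Finset.card_eq_two.1 ((deg_eq G v).symm.trans hdv)
    have hH := sup_del G W hG v hdeg2
    have hcard : (W.erase v).card = n := by rw [Finset.card_erase_of_mem hv]; omega
    have hsub := nb_subset G W hG v
    have hvn := Finset.notMem_erase v W
    have he2 := e2_del G v
    have hGe : st (del G v) v (nb G v) = G := st_del_nb G v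
    have hWe : insert v (W.erase v) = W := Finset.insert_erase hv
    rw [hS] at hsub hGe
    have hxW : x ∈ W.erase v := hsub (by simp)
    have hyW : y ∈ W.erase v := hsub (by simp)
    have hb2 := bet_two (del G v) (W.erase v) hH v hvn x y hxW hyW hxy
    rw [hGe, hWe, hbet] at hb2
    have hu := hUB _ _ hcard (sup_st (del G v) (W.erase v) hH x {y} hxW (by simpa using hyW))
      ⟨x, hxW⟩
    rw [← hb2] at hu
    have hle : e2 (st (del G v) x {y}) < e2 (del G v) + 2 := by
      have hb' : b = 0 ∨ b = 1 ∨ b = 2 := by omega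
      rcases hb' with rfl | rfl | rfl
      · have := hu.1 (by norm_num)
        omega
      · have := hu.2.1 (by norm_num)
        omega
      · have := hu.2.2.2 (by norm_num)
        omega
    have heq := e2_star_eq _ _ _ hle
    have hadj : (del G v).Adj x y := by
      rw [← heq]
      exact Or.inr (Or.inl ⟨rfl, by simp, hxy.symm⟩)
    refine ⟨v, hv, ?_, hH, Or.inl ⟨hdv, ?_⟩⟩
    · intro a c ha hc hac
      rw [← mem_nb, hS] at ha hc
      simp only [Finset.mem_insert, Finset.mem_singleton] at ha hc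
      rcases ha with rfl | rfl <;> rcases hc with rfl | rfl
      · exact absurd rfl hac
      · exact hadj.1
      · exact hadj.1.symm
      · exact absurd rfl hac
    · rw [hb2, heq]
  · push Not at h2
    have hdeg3 : ∀ a ∈ W, 3 ≤ deg G a := by
      intro a ha
      have h4 := hdeg2 a ha
      have h5 := h2 a ha
      omega
    have hex : ∃ v ∈ W, deg G v = 3 := by
      by_contra hcon
      push Not at hcon
      have : ∀ a ∈ W, 4 ≤ deg G a := by
        intro a ha
        have h4 := hdeg3 a ha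
        have h5 := hcon a ha
        omega
      have := e2_ge G W 4 this
      omega
    obtain ⟨v, hv, hdv⟩ := hex
    have hH := sup_del G W hG v hdeg2
    rcases lemmaZ n hUB b hb G W hW hExc hdeg2 v hv hdv with ⟨hc, hbe⟩ |
      ⟨h0, x, y, z, hS, hxy, hxz, hyz, axy, axz, nyz, hbyz⟩
    · exact ⟨v, hv, hc, hH, Or.inr ⟨hdv, hbe⟩⟩
    · have hcard : (W.erase v).card = n := by rw [Finset.card_erase_of_mem hv]; omega
      have hsub := nb_subset G W hG v
      have he2 := e2_del G v
      have hx : x ∈ nb G v := by rw [hS]; simp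
      have hy : y ∈ nb G v := by rw [hS]; simp
      have hz : z ∈ nb G v := by rw [hS]; simp
      have hn3 : 3 ≤ n := by
        have := Finset.card_le_card hsub
        rw [← deg_eq, hdv, hcard] at this
        exact this
      have nyz' : ¬ (del G v).Adj y z := fun h => nyz h.1
      have hEx' : Ex b (W.erase v) (st (del G v) y {z}) := by
        refine ⟨sup_st _ _ hH y {z} (hsub hy) (by simpa using hsub hz), hbyz, ?_⟩
        rw [e2_one _ y z hyz nyz', hcard]
        omega
      obtain ⟨c, hc, hclq, hsup, hcase⟩ := hES hn3 b _ _ hb hcard hEx'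
      have hpos : 1 ≤ bet ((W.erase v).erase c) (del (st (del G v) y {z}) c) := by
        rcases hcase with ⟨-, h⟩ | ⟨-, h⟩ <;> omega
      have hcW : c ∈ W := Finset.mem_of_mem_erase hc
      have hcv : c ≠ v := Finset.ne_of_mem_erase hc
      have hdc := hdeg3 c hcW
      have hdc' := deg_del G v c hcv
      have hdK := deg_one (del G v) y z c hyz nyz'
      have hdegH : ∀ a ∈ W.erase v, 2 ≤ deg (del G v) a := by
        intro a ha
        have h1 := hdeg3 a (Finset.mem_of_mem_erase ha)
        rw [deg_del G v a (Finset.ne_of_mem_erase ha)] at h1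
        split_ifs at h1 <;> omega
      by_cases hcx : c = x
      · exfalso
        subst hcx
        have hS2 := sup_del (del G v) (W.erase v) hH c hdegH
        have hK := lemmaK (del G v) (W.erase v) hH c y z hc
          ((mem_nb _ _ _).2 ⟨axy, hcv, Finset.ne_of_mem_erase (hsub hy)⟩)
          ((mem_nb _ _ _).2 ⟨axz, hcv, Finset.ne_of_mem_erase (hsub hz)⟩) hyz hS2
        rw [← del_st (del G v) y z c hxy hxz] at hK
        omega
      · by_cases hcy : c = y
        · subst hcy
          have hd3 : deg G c = 3 := by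
            simp only [hy, if_true, true_or] at hdc' hdK
            rcases hcase with ⟨h, -⟩ | ⟨h, -⟩ <;> omega
          have := caseY n hUB b hb G W hW hExc hdeg3 v hv x c z hx hy hz hxy hxz hyz axz hd3 hpos
          exact ⟨c, hcW, this.1, sup_del G W hG c hdeg2, Or.inr ⟨hd3, this.2⟩⟩
        · by_cases hcz : c = z
          · subst hcz
            have hd3 : deg G c = 3 := by
              simp only [hz, if_true, or_true] at hdc' hdK
              rcases hcase with ⟨h, -⟩ | ⟨h, -⟩ <;> omega
            rw [st_symm (del G v) y c hyz] at hpos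
            have := caseY n hUB b hb G W hW hExc hdeg3 v hv x c y hx hz hy hxz hxy hyz.symm axy
              hd3 hpos
            exact ⟨c, hcW, this.1, sup_del G W hG c hdeg2, Or.inr ⟨hd3, this.2⟩⟩
          · have hcS : c ∉ nb G v := by
              rw [hS]
              simp [hcx, hcy, hcz]
            have hd3 : deg G c = 3 := by
              simp only [hcS, hcy, hcz, if_false, or_self] at hdc' hdK
              rcases hcase with ⟨h, -⟩ | ⟨h, -⟩ <;> omega
            rcases lemmaZ n hUB b hb G W hW hExc hdeg2 c hcW hd3 with ⟨hc1, hc2⟩ |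
              ⟨h0', x', y', z', hS', hxy', hxz', hyz', axy', axz', nyz'', -⟩
            · exact ⟨c, hcW, hc1, sup_del G W hG c hdeg2, Or.inr ⟨hd3, hc2⟩⟩
            · exfalso
              have hvc : v ∉ nb G c := fun h => hcS ((mem_nb G v c).2 ((mem_nb G c v).1 h).symm)
              have hy' : y' ∈ nb G c := by rw [hS']; simp
              have hz' : z' ∈ nb G c := by rw [hS']; simp
              have hy'v : y' ≠ v := fun h => hvc (h ▸ hy')
              have hz'v : z' ≠ v := fun h => hvc (h ▸ hz')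
              have hK := hclq y' z' (Or.inl ⟨(mem_nb _ _ _).1 hy', hcv, hy'v⟩)
                (Or.inl ⟨(mem_nb _ _ _).1 hz', hcv, hz'v⟩) hyz'
              rw [st_adj] at hK
              simp only [Finset.mem_singleton] at hK
              have hyc : y ∈ nb G c ∧ z ∈ nb G c := by
                rcases hK with h | ⟨h1, h2, -⟩ | ⟨h1, h2, -⟩
                · exact absurd h.1 nyz''
                · rw [← h1, ← h2]; exact ⟨hy', hz'⟩
                · rw [← h1, ← h2]; exact ⟨hz', hy'⟩
              have hG2 := sup_del G W hG c hdeg2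
              have hdegG2 : ∀ a ∈ W.erase c, 2 ≤ deg (del G c) a := by
                intro a ha
                have h1 := hdeg3 a (Finset.mem_of_mem_erase ha)
                rw [deg_del G c a (Finset.ne_of_mem_erase ha)] at h1
                split_ifs at h1 <;> omega
              have hS2 := sup_del (del G c) (W.erase c) hG2 v hdegG2
              have hvW2 : v ∈ W.erase c := Finset.mem_erase.2 ⟨hcv.symm, hv⟩
              have hKK := lemmaK (del G c) (W.erase c) hG2 v y z hvW2
                ((mem_nb _ _ _).2 ⟨(mem_nb G v y).1 hy, hcv.symm, fun h => hcy h.symm⟩)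
                ((mem_nb _ _ _).2 ⟨(mem_nb G v z).1 hz, hcv.symm, fun h => hcz h.symm⟩) hyz hS2
              rw [h0', del_comm G c v, ← del_st (del G v) y z c hcy hcz,
                Finset.erase_right_comm] at hKK
              omega

theorem UB_zero : UB V 0 := by
  intro W G hW _ h0
  rw [Finset.card_eq_zero] at hW
  exact absurd hW h0.ne_empty

theorem both (n : ℕ) : UB V n ∧ ES V n := by
  induction n with
  | zero => exact ⟨UB_zero, fun h => absurd h (by omega)⟩
  | succ n ih => exact ⟨UB_succ n ih.1 ih.2, ES_succ n ih.1 ih.2⟩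

/-! ### chordality -/

theorem chordal_small (G : SimpleGraph V) (W : Finset V) (hG : Sup G W) (hW : W.card ≤ 3) :
    ¬ HasChordlessCycle G := by
  rintro ⟨n, hn, ⟨f⟩⟩
  obtain ⟨m, rfl⟩ := Nat.exists_eq_add_of_le' hn
  have hf : ∀ i, f i ∈ W := by
    intro i
    rw [hG]
    refine ⟨f (i + 1), f.map_rel_iff.2 ?_⟩
    rw [cycleGraph_adj]
    right
    exact add_sub_cancel_left i 1
  have : Fintype.card (Fin (m + 4)) ≤ W.card := by
    rw [← Finset.card_univ, ← Finset.card_map f.toEmbedding]
    apply Finset.card_le_card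
    intro w hw
    rw [Finset.mem_map] at hw
    obtain ⟨i, -, rfl⟩ := hw
    exact hf i
  rw [Fintype.card_fin] at this
  omega

omit [Fintype V] in
theorem chordal_of_del (G : SimpleGraph V) (v : V) (hc : Clq G v)
    (h : ¬ HasChordlessCycle (del G v)) : ¬ HasChordlessCycle G := by
  rintro ⟨n, hn, ⟨f⟩⟩
  obtain ⟨m, rfl⟩ := Nat.exists_eq_add_of_le' hn
  by_cases hv : ∃ i, f i = v
  · obtain ⟨i, hi⟩ := hv
    have a1 : G.Adj v (f (i + 1)) := by
      rw [← hi]
      refine f.map_rel_iff.2 ?_
      rw [cycleGraph_adj]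
      right
      exact add_sub_cancel_left i 1
    have a2 : G.Adj v (f (i - 1)) := by
      rw [← hi]
      refine f.map_rel_iff.2 ?_
      rw [cycleGraph_adj]
      left
      exact sub_sub_cancel i 1
    have e2' : (1 : Fin (m + 4)) + 1 ≠ 0 := by
      intro h0
      have := congrArg Fin.val h0
      rw [Fin.val_add] at this
      simp at this
      rw [Nat.mod_eq_of_lt (by omega : 2 < m + 4)] at this
      omega
    have e3 : (1 : Fin (m + 4)) + 1 + 1 ≠ 0 := by
      intro h0
      have := congrArg Fin.val h0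
      rw [Fin.val_add, Fin.val_add] at this
      simp at this
      rw [Nat.mod_eq_of_lt (by omega : 3 < m + 4)] at this
      omega
    have hne : f (i + 1) ≠ f (i - 1) := by
      intro h0
      have h1 := f.injective h0
      apply e2'
      have : (i + 1) - (i - 1) = 0 := by rw [h1]; exact sub_self _
      rw [← this]
      abel
    have a3 := f.map_rel_iff.1 (hc _ _ a1 a2 hne)
    rw [cycleGraph_adj] at a3
    rcases a3 with a3 | a3
    · have h1 : (1 : Fin (m + 4)) + 1 = 1 := by
        have h5 : (1 : Fin (m + 4)) + 1 = (i + 1) - (i - 1) := by abel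
        rw [h5]
        exact a3
      have h2 : (1 : Fin (m + 4)) = 0 := by
        have := congrArg (fun t => t - 1) h1
        simpa using this
      exact one_ne_zero h2
    · apply e3
      have : (1 : Fin (m + 4)) + 1 + 1 = 1 - (i - 1 - (i + 1)) := by abel
      rw [this, a3]
      exact sub_self _
  · push Not at hv
    apply h
    refine ⟨m + 4, hn, ⟨⟨f.toEmbedding, ?_⟩⟩⟩
    intro a b
    constructor
    · intro hab
      exact f.map_rel_iff.1 hab.1
    · intro hab
      exact ⟨f.map_rel_iff.2 hab, hv a, hv b⟩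

theorem chordal_ex (n : ℕ) : ∀ (b : ℕ) (W : Finset V) (G : SimpleGraph V), b ≤ 2 → W.card = n →
    Ex b W G → ¬ HasChordlessCycle G := by
  induction n with
  | zero =>
    intro b W G _ hW hEx
    exact chordal_small G W hEx.1 (by omega)
  | succ n ih =>
    intro b W G hb hW hEx
    by_cases hn : n + 1 ≤ 3
    · exact chordal_small G W hEx.1 (by omega)
    · obtain ⟨v, hv, hc, hS, hcase⟩ := (both (V := V) (n + 1)).2 (by omega) b W G hb hW hEx
      have he2 := e2_del G v
      have hcard : (W.erase v).card = n := by rw [Finset.card_erase_of_mem hv]; omega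
      have he := hEx.2.2
      apply chordal_of_del G v hc
      rcases hcase with ⟨h1, h2⟩ | ⟨h1, h2⟩
      · exact ih b (W.erase v) _ hb hcard ⟨hS, h2, by omega⟩
      · have hb' : b = 0 ∨ b = 1 ∨ b = 2 := by omega
        rcases hb' with rfl | rfl | rfl
        · exfalso
          norm_num at h2
          omega
        · exact ih 0 (W.erase v) _ (by omega) hcard ⟨hS, by norm_num at h2 ⊢; omega, by omega⟩
        · exact ih 1 (W.erase v) _ (by omega) hcard ⟨hS, by norm_num at h2 ⊢; omega, by omega⟩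

/-! ### nonseparable graphs -/

/-- `G` (with vertex set `W`) has no separation of order at most one -/
def NoCut (W : Finset V) (G : SimpleGraph V) : Prop := ∀ A B : Finset V, A ∪ B = W →
  (A ∩ B).card ≤ 1 → (A \ B).Nonempty → (B \ A).Nonempty → ∃ a ∈ A \ B, ∃ b ∈ B \ A, G.Adj a b

theorem nocut_deg (W : Finset V) (G : SimpleGraph V) (hN : NoCut W G) (hG : Sup G W)
    (h3 : 3 ≤ W.card) : ∀ a ∈ W, 2 ≤ deg G a := by
  intro a ha
  by_contra hcon
  obtain ⟨b, hb⟩ := (hG a).1 ha
  have hbW : b ∈ W := (hG b).2 ⟨a, hb.symm⟩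
  have hnb : nb G a = {b} := by
    symm
    apply Finset.eq_of_subset_of_card_le
    · intro y hy
      rw [Finset.mem_singleton] at hy
      subst hy
      rw [mem_nb]; exact hb
    · rw [Finset.card_singleton]
      rw [deg_eq] at hcon
      omega
  have hw : ∃ w ∈ W, w ≠ a ∧ w ≠ b := by
    by_contra hcon2
    push Not at hcon2
    have : W ⊆ {a, b} := by
      intro w hw
      rw [Finset.mem_insert, Finset.mem_singleton]
      by_cases h : w = a
      · exact Or.inl h
      · exact Or.inr (hcon2 w hw h)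
    have := Finset.card_le_card this
    have := Finset.card_le_two (a := a) (b := b)
    omega
  obtain ⟨w, hwW, hwa, hwb⟩ := hw
  obtain ⟨a', ha', b', hb', hadj⟩ := hN {a, b} (W.erase a) (by
      ext c
      simp only [Finset.mem_union, Finset.mem_insert, Finset.mem_singleton, Finset.mem_erase]
      constructor
      · rintro ((rfl | rfl) | ⟨-, h⟩)
        exacts [ha, hbW, h]
      · intro h
        by_cases hc : c = a
        · exact Or.inl (Or.inl hc)
        · exact Or.inr ⟨hc, h⟩)
    (by
      have : ({a, b} : Finset V) ∩ W.erase a ⊆ {b} := by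
        intro c hc
        simp only [Finset.mem_inter, Finset.mem_insert, Finset.mem_singleton,
          Finset.mem_erase] at hc ⊢
        rcases hc with ⟨h | h, h', -⟩
        · exact absurd h h'
        · exact h
      exact (Finset.card_le_card this).trans (by simp))
    ⟨a, by simp⟩ ⟨w, by simp [hwa, hwb, hwW]⟩
  simp only [Finset.mem_sdiff, Finset.mem_insert, Finset.mem_singleton, Finset.mem_erase,
    not_and, not_or] at ha' hb'
  have ha'a : a' = a := by
    rcases ha'.1 with h | h
    · exact h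
    · subst h
      exact absurd hbW (ha'.2 hb.ne')
  subst ha'a
  have : b' ∈ nb G a' := (mem_nb _ _ _).2 hadj
  rw [hnb, Finset.mem_singleton] at this
  exact hb'.2.2 this

/-- a separation `{v, x}` of order two -/
def TS (G : SimpleGraph V) (W : Finset V) (v x : V) (P Q : Finset V) : Prop :=
  x ∈ nb G v ∧ P.Nonempty ∧ Q.Nonempty ∧ Disjoint P Q ∧ P ∪ Q = (W.erase v).erase x ∧
    ∀ p ∈ P, ∀ q ∈ Q, ¬ G.Adj p q

theorem ts_of_cut (W : Finset V) (G : SimpleGraph V) (hN : NoCut W G) (hG : Sup G W)
    (v : V) (hv : v ∈ W) (x : V) (hx : x ∈ nb G v)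
    (hc : ¬ NoCut (W.erase v) (st (del G v) x ((nb G v).erase x))) : ∃ P Q, TS G W v x P Q := by
  unfold NoCut at hc
  push Not at hc
  obtain ⟨A, B, hU, hI, hA, hB, hE⟩ := hc
  have hsub := nb_subset G W hG v
  have hvA : v ∉ A := fun h => Finset.notMem_erase v W (hU ▸ Finset.mem_union_left B h)
  have hvB : v ∉ B := fun h => Finset.notMem_erase v W (hU ▸ Finset.mem_union_right A h)
  have hmemA : ∀ a ∈ A, a ≠ v := fun a ha h => hvA (h ▸ ha)
  have hmemB : ∀ a ∈ B, a ≠ v := fun a ha h => hvB (h ▸ ha)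
  have key : ∀ A B : Finset V, A ∪ B = W.erase v → (A ∩ B).card ≤ 1 → (A \ B).Nonempty →
      (B \ A).Nonempty → (∀ a ∈ A \ B, ∀ b ∈ B \ A,
        ¬ (st (del G v) x ((nb G v).erase x)).Adj a b) → x ∈ B := by
    intro A B hU hI hA hB hE
    by_contra hxB
    have hvA : v ∉ A := fun h => Finset.notMem_erase v W (hU ▸ Finset.mem_union_left B h)
    have hvB : v ∉ B := fun h => Finset.notMem_erase v W (hU ▸ Finset.mem_union_right A h)
    have hxA : x ∈ A := by
      have : x ∈ A ∪ B := by rw [hU]; exact hsub hx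
      rcases Finset.mem_union.1 this with h | h
      · exact h
      · exact absurd h hxB
    have hnbA : ∀ u ∈ nb G v, u ∈ A := by
      intro u hu
      by_contra huA
      have huB : u ∈ B := by
        have : u ∈ A ∪ B := by rw [hU]; exact hsub hu
        rcases Finset.mem_union.1 this with h | h
        · exact absurd h huA
        · exact h
      have hux : u ≠ x := fun h => huA (h ▸ hxA)
      exact hE x (Finset.mem_sdiff.2 ⟨hxA, hxB⟩) u (Finset.mem_sdiff.2 ⟨huB, huA⟩)
        (Or.inr (Or.inl ⟨rfl, Finset.mem_erase.2 ⟨hux, hu⟩, hux⟩))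
    obtain ⟨a, ha, b, hb, hab⟩ := hN (insert v A) B (by
        rw [Finset.insert_union, hU, Finset.insert_erase hv])
      (by
        rw [Finset.insert_inter_of_notMem hvB]
        exact hI)
      (by
        obtain ⟨c, hc⟩ := hA
        rw [Finset.mem_sdiff] at hc
        exact ⟨c, Finset.mem_sdiff.2 ⟨Finset.mem_insert_of_mem hc.1, hc.2⟩⟩)
      (by
        obtain ⟨c, hc⟩ := hB
        rw [Finset.mem_sdiff] at hc
        refine ⟨c, Finset.mem_sdiff.2 ⟨hc.1, ?_⟩⟩
        rw [Finset.mem_insert]
        rintro (h | h)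
        · exact hvB (h ▸ hc.1)
        · exact hc.2 h)
    rw [Finset.mem_sdiff, Finset.mem_insert] at ha hb
    have hbv : b ≠ v := fun h => hvB (h ▸ hb.1)
    have hbA : b ∉ A := fun h => hb.2 (Or.inr h)
    rcases ha.1 with rfl | haA
    · exact hbA (hnbA b ((mem_nb _ _ _).2 hab))
    · exact hE a (Finset.mem_sdiff.2 ⟨haA, ha.2⟩) b (Finset.mem_sdiff.2 ⟨hb.1, hbA⟩)
        (Or.inl ⟨hab, fun h => hvA (h ▸ haA), hbv⟩)
  have hxB := key A B hU hI hA hB hE
  have hxA := key B A (by rw [Finset.union_comm]; exact hU) (by rw [Finset.inter_comm]; exact hI)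
    hB hA (fun a ha b hb h => hE b hb a ha h.symm)
  have hI' : ∀ c, c ∈ A → c ∈ B → c = x := by
    intro c h1 h2
    exact Finset.card_le_one.1 hI c (Finset.mem_inter.2 ⟨h1, h2⟩) x
      (Finset.mem_inter.2 ⟨hxA, hxB⟩)
  refine ⟨A \ B, B \ A, hx, hA, hB, ?_, ?_, ?_⟩
  · rw [Finset.disjoint_left]
    intro c hc hc'
    exact (Finset.mem_sdiff.1 hc).2 (Finset.mem_sdiff.1 hc').1
  · rw [← hU]
    ext c
    simp only [Finset.mem_union, Finset.mem_sdiff, Finset.mem_erase]
    constructor
    · rintro (⟨h1, h2⟩ | ⟨h1, h2⟩)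
      · exact ⟨fun h => h2 (h ▸ hxB), Or.inl h1⟩
      · exact ⟨fun h => h2 (h ▸ hxA), Or.inr h1⟩
    · rintro ⟨h1, h2⟩
      by_cases hcA : c ∈ A
      · by_cases hcB : c ∈ B
        · exact absurd (hI' c hcA hcB) h1
        · exact Or.inl ⟨hcA, hcB⟩
      · rcases h2 with h2 | h2
        · exact absurd h2 hcA
        · exact Or.inr ⟨h2, hcA⟩
  · intro p hp q hq hpq
    exact hE p hp q hq (Or.inl ⟨hpq, hmemA p (Finset.mem_sdiff.1 hp).1,
      hmemB q (Finset.mem_sdiff.1 hq).1⟩)

theorem ts_false (W : Finset V) (G : SimpleGraph V) (hN : NoCut W G) (hG : Sup G W)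
    (v : V) (hv : v ∈ W)
    (hall : ∀ x ∈ nb G v, ∃ P Q, TS G W v x P Q) (n : ℕ) :
    ∀ x P Q, TS G W v x P Q → P.card = n → False := by
  induction n using Nat.strong_induction_on with
  | _ n ih =>
    intro x P Q hTS hPn
    obtain ⟨hx, hP, hQ, hdisj, hU, hE⟩ := hTS
    have hsub := nb_subset G W hG v
    have hmem : ∀ c, c ∈ P ∨ c ∈ Q ↔ c ≠ x ∧ c ≠ v ∧ c ∈ W := by
      intro c
      rw [← Finset.mem_union, hU, Finset.mem_erase, Finset.mem_erase]
    have hxW : x ∈ W := Finset.mem_of_mem_erase (hsub hx)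
    have hxv : x ≠ v := Finset.ne_of_mem_erase (hsub hx)
    have hxP : x ∉ P := fun h => ((hmem x).1 (Or.inl h)).1 rfl
    have hxQ : x ∉ Q := fun h => ((hmem x).1 (Or.inr h)).1 rfl
    have hvP : v ∉ P := fun h => ((hmem v).1 (Or.inl h)).2.1 rfl
    have hPQ : ∀ c, c ∈ P → c ∈ Q → False := fun c h1 h2 => Finset.disjoint_left.1 hdisj h1 h2
    -- `v` has a neighbour in `P`
    have hy : ∃ y ∈ P, G.Adj v y := by
      by_contra hcon
      push Not at hcon
      obtain ⟨a, ha, b, hb, hab⟩ := hN (insert x P) (W \ P) (by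
          ext c
          simp only [Finset.mem_union, Finset.mem_insert, Finset.mem_sdiff]
          constructor
          · rintro ((rfl | h) | h)
            · exact hxW
            · exact ((hmem c).1 (Or.inl h)).2.2
            · exact h.1
          · intro h
            by_cases hc : c ∈ P
            · exact Or.inl (Or.inr hc)
            · exact Or.inr ⟨h, hc⟩)
        (by
          have : insert x P ∩ (W \ P) ⊆ {x} := by
            intro c hc
            simp only [Finset.mem_inter, Finset.mem_insert, Finset.mem_sdiff,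
              Finset.mem_singleton] at hc ⊢
            rcases hc with ⟨h | h, h'⟩
            · exact h
            · exact absurd h h'.2
          exact (Finset.card_le_card this).trans (by simp))
        (by
          obtain ⟨p, hp⟩ := hP
          exact ⟨p, by simp [hp]⟩)
        (by
          obtain ⟨q, hq⟩ := hQ
          have h1 := (hmem q).1 (Or.inr hq)
          refine ⟨q, ?_⟩
          simp only [Finset.mem_sdiff, Finset.mem_insert, not_or]
          exact ⟨⟨h1.2.2, fun h => hPQ q h hq⟩, h1.1, fun h => hPQ q h hq⟩)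
      simp only [Finset.mem_sdiff, Finset.mem_insert, not_and, not_not, not_or] at ha hb
      have haP : a ∈ P := by
        rcases ha.1 with rfl | h
        · exact ha.2 hxW
        · exact h
      by_cases hbv : b = v
      · subst hbv
        exact hcon a haP hab.symm
      · have : b ∈ P ∨ b ∈ Q := (hmem b).2 ⟨hb.2.1, hbv, hb.1.1⟩
        rcases this with h | h
        · exact hb.2.2 h
        · exact hE a haP b h hab
    obtain ⟨y, hyP, hvy⟩ := hy
    have hynb : y ∈ nb G v := (mem_nb _ _ _).2 hvy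
    have hyx : y ≠ x := fun h => hxP (h ▸ hyP)
    obtain ⟨P2, Q2, h2⟩ := hall y hynb
    have hsplit : ∃ D E, TS G W v y D E ∧ x ∈ E := by
      have : x ∈ P2 ∪ Q2 := by
        rw [h2.2.2.2.2.1]
        exact Finset.mem_erase.2 ⟨hyx.symm, Finset.mem_erase.2 ⟨hxv, hxW⟩⟩
      rcases Finset.mem_union.1 this with h | h
      · refine ⟨Q2, P2, ⟨h2.1, h2.2.2.1, h2.2.1, h2.2.2.2.1.symm, ?_, ?_⟩, h⟩
        · rw [Finset.union_comm]; exact h2.2.2.2.2.1
        · intro p hp q hq hpq
          exact h2.2.2.2.2.2 q hq p hp hpq.symm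
      · exact ⟨P2, Q2, h2, h⟩
    obtain ⟨D, E, hDE, hxE⟩ := hsplit
    have hDE' := hDE
    obtain ⟨-, hD, hE0, hdisj2, hU2, hE2⟩ := hDE
    have hmem2 : ∀ c, c ∈ D ∨ c ∈ E ↔ c ≠ y ∧ c ≠ v ∧ c ∈ W := by
      intro c
      rw [← Finset.mem_union, hU2, Finset.mem_erase, Finset.mem_erase]
    have hxD : x ∉ D := fun h => Finset.disjoint_left.1 hdisj2 h hxE
    have hvD : v ∉ D := fun h => ((hmem2 v).1 (Or.inl h)).2.1 rfl
    have hDP : D ⊆ P.erase y := by
      intro z hz
      have hz1 := (hmem2 z).1 (Or.inl hz)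
      have hzx : z ≠ x := fun h => hxD (h ▸ hz)
      have hzPQ : z ∈ P ∨ z ∈ Q := (hmem z).2 ⟨hzx, hz1.2.1, hz1.2.2⟩
      rcases hzPQ with h | hzQ
      · exact Finset.mem_erase.2 ⟨hz1.1, h⟩
      · exfalso
        obtain ⟨a, ha, b, hb, hab⟩ := hN (insert v (D ∩ Q)) (W \ (D ∩ Q)) (by
            ext c
            simp only [Finset.mem_union, Finset.mem_insert, Finset.mem_sdiff, Finset.mem_inter]
            constructor
            · rintro ((rfl | h) | h)
              · exact hv
              · exact ((hmem2 c).1 (Or.inl h.1)).2.2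
              · exact h.1
            · intro h
              by_cases hc : c ∈ D ∧ c ∈ Q
              · exact Or.inl (Or.inr hc)
              · exact Or.inr ⟨h, hc⟩)
          (by
            have : insert v (D ∩ Q) ∩ (W \ (D ∩ Q)) ⊆ {v} := by
              intro c hc
              simp only [Finset.mem_inter, Finset.mem_insert, Finset.mem_sdiff,
                Finset.mem_singleton] at hc ⊢
              rcases hc with ⟨h | h, h'⟩
              · exact h
              · exact absurd h h'.2
            exact (Finset.card_le_card this).trans (by simp))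
          ⟨z, by simp [hz, hzQ]⟩
          (by
            refine ⟨x, ?_⟩
            simp only [Finset.mem_sdiff, Finset.mem_insert, Finset.mem_inter, not_or, not_and]
            exact ⟨⟨hxW, fun h => absurd h hxD⟩, hxv, fun h => absurd h hxD⟩)
        simp only [Finset.mem_sdiff, Finset.mem_insert, Finset.mem_inter, not_or] at ha hb
        have haDQ : a ∈ D ∧ a ∈ Q := by
          rcases ha.1 with rfl | h
          · exact absurd ⟨hv, fun h => hvD h.1⟩ ha.2
          · exact h
        have hbv : b ≠ v := hb.2.1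
        by_cases hby : b = y
        · subst hby
          exact hE b hyP a haDQ.2 hab.symm
        · have hb1 : b ∈ D ∨ b ∈ E := (hmem2 b).2 ⟨hby, hbv, hb.1.1⟩
          rcases hb1 with hbD | hbE
          · have hbx : b ≠ x := fun h => hxD (h ▸ hbD)
            have : b ∈ P ∨ b ∈ Q := (hmem b).2 ⟨hbx, hbv, hb.1.1⟩
            rcases this with h | h
            · exact hE b h a haDQ.2 hab.symm
            · exact hb.2.2 ⟨hbD, h⟩
          · exact hE2 a haDQ.1 b hbE hab
    have hlt : D.card < n := by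
      have h1 := Finset.card_le_card hDP
      rw [Finset.card_erase_of_mem hyP] at h1
      have h3 : 0 < P.card := Finset.card_pos.2 ⟨y, hyP⟩
      omega
    exact ih D.card hlt y D E hDE' rfl

theorem contract (W : Finset V) (G : SimpleGraph V) (hN : NoCut W G) (hG : Sup G W)
    (v : V) (hv : v ∈ W) :
    ∃ x ∈ nb G v, NoCut (W.erase v) (st (del G v) x ((nb G v).erase x)) := by
  by_contra hcon
  push Not at hcon
  have hall : ∀ x ∈ nb G v, ∃ P Q, TS G W v x P Q := fun x hx =>
    ts_of_cut W G hN hG v hv x hx (hcon x hx)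
  obtain ⟨w, hw⟩ := (hG v).1 hv
  obtain ⟨P, Q, h⟩ := hall w ((mem_nb _ _ _).2 hw)
  exact ts_false W G hN hG v hv hall _ w P Q h rfl

theorem bet_K2 (W : Finset V) (G : SimpleGraph V) (hG : Sup G W) (hW : W.card = 2) :
    bet W G = 1 := by
  have h0 : W.Nonempty := Finset.card_pos.1 (by omega)
  obtain ⟨a, ha⟩ := h0
  obtain ⟨x, hx⟩ := (hG a).1 ha
  have hsub := nb_subset G W hG a
  have hnb : nb G a = {x} := by
    symm
    apply Finset.eq_of_subset_of_card_le
    · intro y hy
      rw [Finset.mem_singleton] at hy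
      subst hy
      rw [mem_nb]; exact hx
    · have := Finset.card_le_card hsub
      rw [Finset.card_erase_of_mem ha] at this
      rw [Finset.card_singleton]
      omega
  have hGe : G = st (del G a) a {x} := by rw [← hnb, st_del_nb]
  have hvi : ∀ w, ¬ (del G a).Adj a w := fun w h => h.2.1 rfl
  have hE : ∀ b c, ¬ (del G a).Adj b c := by
    intro b c h
    have h1 : ({a, b, c} : Finset V).card ≤ W.card := Finset.card_le_card (by
      intro d hd
      simp only [Finset.mem_insert, Finset.mem_singleton] at hd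
      rcases hd with rfl | rfl | rfl
      · exact ha
      · exact (hG _).2 ⟨c, h.1⟩
      · exact (hG _).2 ⟨b, h.1.symm⟩)
    rw [Finset.card_eq_three.2 ⟨a, b, c, h.2.1.symm, h.2.2.symm, h.1.ne, rfl⟩] at h1
    omega
  have hD : D G = 1 := by
    rw [hGe, D_leaf (del G a) a x hvi hx.ne']
    exact eval_one_edgeless _ hE
  unfold bet
  rw [hD, hW]
  norm_num

theorem nocut_bet (n : ℕ) : ∀ (W : Finset V) (G : SimpleGraph V), W.card = n → 2 ≤ n →
    Sup G W → NoCut W G → 1 ≤ bet W G := by
  induction n with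
  | zero => intro W G _ h; omega
  | succ n ih =>
    intro W G hW h2 hG hN
    by_cases hn : n + 1 = 2
    · rw [bet_K2 W G hG (by omega)]
    · have h3 : 3 ≤ W.card := by omega
      have hdeg := nocut_deg W G hN hG h3
      have h0 : W.Nonempty := Finset.card_pos.1 (by omega)
      obtain ⟨v, hv⟩ := h0
      obtain ⟨x, hx, hNx⟩ := contract W G hN hG v hv
      have hH := sup_del G W hG v hdeg
      have hsub := nb_subset G W hG v
      have hne : ((nb G v).erase x).Nonempty := by
        rw [← Finset.card_pos, Finset.card_erase_of_mem hx, ← deg_eq]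
        have := hdeg v hv
        omega
      have h4 := term_le (del G v) (W.erase v) hH v (Finset.notMem_erase v W) (nb G v) hsub x hx hne
      rw [st_del_nb, Finset.insert_erase hv] at h4
      have h5 := ih (W.erase v) _ (by rw [Finset.card_erase_of_mem hv]; omega) (by omega)
        (sup_st _ _ hH x _ (hsub hx) ((Finset.erase_subset _ _).trans hsub)) hNx
      linarith

end

/-! ### from the chromatic polynomial -/

/-- `χ(G; q) = ∏_{m ≤ k} (q - m)^(r m)` -/
def InFamily {V : Type} (G : SimpleGraph V) (k : ℕ) (r : ℕ → ℕ) : Prop :=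
  ∀ q : ℕ, (Nat.card (G.Coloring (Fin q)) : ℤ) =
    ∏ m ∈ Finset.range (k + 1), ((q : ℤ) - (m : ℤ)) ^ (r m)

def colEquiv {V : Type} (G : SimpleGraph V) (A : Type) : G.Coloring A ≃ Col G A where
  toFun c := ⟨c, fun u v h => c.valid h⟩
  invFun c := Coloring.mk c.1 (fun {u v} h => c.2 u v h)
  left_inv c := by ext; rfl
  right_inv c := by rfl

theorem card_col {V : Type} [Fintype V] (G : SimpleGraph V) (q : ℕ) :
    Nat.card (G.Coloring (Fin q)) = cnt G q := by
  rw [Nat.card_congr (colEquiv G (Fin q)), Nat.card_eq_fintype_card]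
  rfl

theorem poly_eq {V : Type} [Fintype V] (G : SimpleGraph V) (r : ℕ → ℕ) (h : InFamily G 3 r) :
    poly G = X ^ r 0 * (X - C 1) ^ r 1 * (X - C 2) ^ r 2 * (X - C 3) ^ r 3 := by
  apply poly_ext_nat
  intro q
  rw [poly_eval, ← card_col, h q]
  simp [Finset.prod_range_succ]

theorem natDegree_prod4 (a0 a1 a2 a3 : ℕ) :
    (X ^ a0 * (X - C (1 : ℤ)) ^ a1 * (X - C 2) ^ a2 * (X - C 3) ^ a3 : ℤ[X]).natDegree =
      a0 + a1 + a2 + a3 := by
  have m0 : (X ^ a0 : ℤ[X]).Monic := monic_X_pow a0
  have m1 : ((X - C (1 : ℤ)) ^ a1).Monic := (monic_X_sub_C 1).pow a1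
  have m2 : ((X - C (2 : ℤ)) ^ a2).Monic := (monic_X_sub_C 2).pow a2
  have m3 : ((X - C (3 : ℤ)) ^ a3).Monic := (monic_X_sub_C 3).pow a3
  rw [((m0.mul m1).mul m2).natDegree_mul m3, (m0.mul m1).natDegree_mul m2, m0.natDegree_mul m1,
    (monic_X_sub_C (1 : ℤ)).natDegree_pow, (monic_X_sub_C (2 : ℤ)).natDegree_pow,
    (monic_X_sub_C (3 : ℤ)).natDegree_pow, natDegree_X_pow, natDegree_X_sub_C, natDegree_X_sub_C,
    natDegree_X_sub_C]
  ring

theorem nextCoeff_prod4 (a0 a1 a2 a3 : ℕ) :
    (X ^ a0 * (X - C (1 : ℤ)) ^ a1 * (X - C 2) ^ a2 * (X - C 3) ^ a3 : ℤ[X]).nextCoeff =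
      -((a1 : ℤ) + 2 * a2 + 3 * a3) := by
  have m0 : (X ^ a0 : ℤ[X]).Monic := monic_X_pow a0
  have m1 : ((X - C (1 : ℤ)) ^ a1).Monic := (monic_X_sub_C 1).pow a1
  have m2 : ((X - C (2 : ℤ)) ^ a2).Monic := (monic_X_sub_C 2).pow a2
  have m3 : ((X - C (3 : ℤ)) ^ a3).Monic := (monic_X_sub_C 3).pow a3
  rw [((m0.mul m1).mul m2).nextCoeff_mul m3, (m0.mul m1).nextCoeff_mul m2, m0.nextCoeff_mul m1,
    (monic_X_sub_C (1 : ℤ)).nextCoeff_pow, (monic_X_sub_C (2 : ℤ)).nextCoeff_pow,
    (monic_X_sub_C (3 : ℤ)).nextCoeff_pow, monic_X.nextCoeff_pow, nextCoeff_X_sub_C,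
    nextCoeff_X_sub_C, nextCoeff_X_sub_C]
  have hX : (X : ℤ[X]).nextCoeff = 0 := by
    have := nextCoeff_X_sub_C (0 : ℤ)
    simpa using this
  rw [hX]
  simp
  ring

theorem no_isolated {V : Type} [Fintype V] [DecidableEq V] (G : SimpleGraph V) (r : ℕ → ℕ)
    (h0 : r 0 = 1) (h1 : r 1 = 1) (h : InFamily G 3 r) (v : V) : ∃ w, G.Adj v w := by
  by_contra hcon
  push Not at hcon
  have hp := poly_eq G r h
  have hdeg := (poly_spec G).2.2.1
  rw [hp, natDegree_prod4, h0, h1] at hdeg
  have he : ∀ a b : Option {x : V // x ≠ v},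
      (ext (G.comap Subtype.val) (∅ : Finset {x : V // x ≠ v})).Adj a b ↔
      G.Adj (Equiv.optionSubtypeNe v a) (Equiv.optionSubtypeNe v b) := by
    rintro (_ | a) (_ | b)
    · simp
    · simp [hcon]
    · simp [G.adj_comm, hcon]
    · simp
  have h2 : poly G = X * poly (G.comap (Subtype.val : {x : V // x ≠ v} → V)) := by
    apply poly_ext_nat
    intro q
    rw [eval_mul, eval_X, poly_eval, poly_eval, ← cnt_iso _ _ _ he, cnt_ext_empty]
    push_cast
    ring
  have hne : Nonempty {x : V // x ≠ v} := by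
    have hc : 2 ≤ Fintype.card V := by omega
    obtain ⟨w, hw⟩ := Fintype.exists_ne_of_one_lt_card (by omega : 1 < Fintype.card V) v
    exact ⟨⟨w, hw⟩⟩
  have h3 : (poly (G.comap (Subtype.val : {x : V // x ≠ v} → V))).eval 0 = 0 := by
    have := poly_eval (G.comap (Subtype.val : {x : V // x ≠ v} → V)) 0
    rw [Nat.cast_zero] at this
    rw [this]
    have : cnt (G.comap (Subtype.val : {x : V // x ≠ v} → V)) 0 = 0 := by
      unfold cnt
      rw [Fintype.card_eq_zero_iff]
      obtain ⟨w⟩ := hne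
      exact ⟨fun c => (c.1 w).elim0⟩
    rw [this]
    simp
  rw [hp, h0, h1, pow_one, pow_one] at h2
  have h4 : (X - C (1 : ℤ)) * (X - C 2) ^ r 2 * (X - C 3) ^ r 3 =
      poly (G.comap (Subtype.val : {x : V // x ≠ v} → V)) := by
    apply mul_left_cancel₀ (X_ne_zero (R := ℤ))
    rw [← h2]
    ring
  rw [← h4] at h3
  simp at h3

theorem bet_univ {V : Type} [Fintype V] [DecidableEq V] (G : SimpleGraph V) (r : ℕ → ℕ)
    (h0 : r 0 = 1) (h1 : r 1 = 1) (h : InFamily G 3 r) : bet univ G = 2 ^ r 3 := by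
  have hp := poly_eq G r h
  have hdeg := (poly_spec G).2.2.1
  rw [hp, natDegree_prod4, h0, h1] at hdeg
  unfold bet D
  rw [Finset.card_univ, ← hdeg, hp, h0, h1, pow_one, pow_one]
  rw [derivative_mul, derivative_mul, derivative_mul]
  simp only [eval_add, eval_mul, eval_sub, eval_pow, eval_X, eval_C, derivative_X,
    derivative_sub, derivative_C, eval_one, sub_self, mul_zero, zero_mul, sub_zero, one_mul,
    mul_one, add_zero, zero_add]
  have e1 : (-1 : ℤ) ^ (1 + 1 + r 2 + r 3) = (-1) ^ r 2 * (-1) ^ r 3 := by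
    rw [pow_add, pow_add]
    norm_num
  rw [e1]
  have e3 : (1 - 2 : ℤ) = -1 := by norm_num
  have e4 : (1 - 3 : ℤ) = -1 * 2 := by norm_num
  rw [e3, e4, mul_pow]
  have e5 : (-1 : ℤ) ^ r 2 * (-1) ^ r 2 = 1 := by
    rw [← mul_pow]; norm_num
  have e6 : (-1 : ℤ) ^ r 3 * (-1) ^ r 3 = 1 := by
    rw [← mul_pow]; norm_num
  calc (-1 : ℤ) ^ r 2 * (-1) ^ r 3 * ((-1) ^ r 2 * ((-1) ^ r 3 * 2 ^ r 3)) =
      ((-1 : ℤ) ^ r 2 * (-1) ^ r 2) * ((-1) ^ r 3 * (-1) ^ r 3) * 2 ^ r 3 := by ring
    _ = 2 ^ r 3 := by rw [e5, e6]; ring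


/-! ### adding an edge across a small separation -/

theorem walk {V : Type} (G : SimpleGraph V) (A B : Finset V) (t : V) (hcov : ∀ c, c ∈ A ∨ c ∈ B)
    (hI : ∀ c, c ∈ A → c ∈ B → c = t)
    (hE : ∀ a, a ∈ A → a ∉ B → ∀ b, b ∈ B → b ∉ A → ¬ G.Adj a b) (m : ℕ)
    (f : cycleGraph (m + 4) ↪g G) (u : ℕ → Fin (m + 4)) (hu : ∀ s, u (s + 1) = u s + 1)
    (k : ℕ) (h0 : f (u 0) ∈ A ∧ f (u 0) ∉ B) (hk : f (u k) ∈ B ∧ f (u k) ∉ A) :
    ∃ s, 1 ≤ s ∧ s < k ∧ f (u s) = t := by
  classical
  have hex : ∃ s, ¬ (f (u s) ∈ A ∧ f (u s) ∉ B) := ⟨k, fun h => hk.2 h.1⟩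
  have hs := Nat.find_spec hex
  have hmin := fun m' => Nat.find_min hex (m := m')
  have hle := Nat.find_min' hex (m := k) (fun h => hk.2 h.1)
  set s := Nat.find hex with hsdef
  have hs0 : s ≠ 0 := by
    intro h
    rw [h] at hs
    exact hs h0
  obtain ⟨s', hs'⟩ := Nat.exists_eq_succ_of_ne_zero hs0
  have hprev := not_not.1 (hmin s' (by omega))
  have hadj : G.Adj (f (u s')) (f (u s)) := by
    rw [hs', Nat.succ_eq_add_one, hu s']
    refine f.map_rel_iff.2 ?_
    rw [cycleGraph_adj]
    right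
    exact add_sub_cancel_left _ 1
  have hA : f (u s) ∈ A := by
    by_contra h
    have hB : f (u s) ∈ B := by
      rcases hcov (f (u s)) with h' | h'
      · exact absurd h' h
      · exact h'
    exact hE _ hprev.1 hprev.2 _ hB h hadj
  have hB : f (u s) ∈ B := by
    by_contra h
    exact hs ⟨hA, h⟩
  refine ⟨s, by omega, ?_, hI _ hA hB⟩
  rcases Nat.lt_or_ge s k with h | h
  · exact h
  · exfalso
    have : s = k := by omega
    rw [this] at hA
    exact hk.2 hA

theorem cycle_side {V : Type} (G : SimpleGraph V) (A B : Finset V) (t : V)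
    (hcov : ∀ c, c ∈ A ∨ c ∈ B) (hI : ∀ c, c ∈ A → c ∈ B → c = t)
    (hE : ∀ a, a ∈ A → a ∉ B → ∀ b, b ∈ B → b ∉ A → ¬ G.Adj a b) (m : ℕ)
    (f : cycleGraph (m + 4) ↪g G) (i j : Fin (m + 4)) (hi : f i ∈ A ∧ f i ∉ B)
    (hj : f j ∈ B ∧ f j ∉ A) : False := by
  have hij : i.val ≠ j.val := by
    intro h
    have : i = j := Fin.ext h
    subst this
    exact hj.2 hi.1
  let u : Fin (m + 4) → ℕ → Fin (m + 4) := fun i s => ⟨(i.val + s) % (m + 4),
    Nat.mod_lt _ (by omega)⟩
  have hu : ∀ i s, u i (s + 1) = u i s + 1 := by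
    intro i s
    apply Fin.ext
    rw [Fin.val_add]
    have h1 : ((1 : Fin (m + 4)) : ℕ) = 1 := by simp
    rw [h1]
    change (i.val + (s + 1)) % (m + 4) = ((i.val + s) % (m + 4) + 1) % (m + 4)
    rw [Nat.mod_add_mod]
    rfl
  have hu0 : ∀ i, u i 0 = i := by
    intro i
    apply Fin.ext
    exact Nat.mod_eq_of_lt i.isLt
  have huk : ∀ i j : Fin (m + 4), u i (if i.val ≤ j.val then j.val - i.val
      else j.val + (m + 4) - i.val) = j := by
    intro i j
    apply Fin.ext
    change (i.val + _) % (m + 4) = j.val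
    have hi' := i.isLt
    have hj' := j.isLt
    split_ifs with h
    · have : i.val + (j.val - i.val) = j.val := by omega
      rw [this, Nat.mod_eq_of_lt hj']
    · have : i.val + (j.val + (m + 4) - i.val) = j.val + (m + 4) := by omega
      rw [this, Nat.add_mod_right, Nat.mod_eq_of_lt hj']
  obtain ⟨s1, h1, h2, h3⟩ := walk G A B t hcov hI hE m f (u i) (hu i) _ (by rw [hu0]; exact hi)
    (by rw [huk i j]; exact hj)
  obtain ⟨s2, h4, h5, h6⟩ := walk G B A t (fun c => (hcov c).symm) (fun c h h' => hI c h' h)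
    (fun a ha ha' b hb hb' h => hE b hb hb' a ha ha' h.symm) m f (u j) (hu j) _
    (by rw [hu0]; exact hj) (by rw [huk j i]; exact hi)
  have h7 : u i s1 = u j s2 := f.injective (h3.trans h6.symm)
  have h8 : (i.val + s1) % (m + 4) = (j.val + s2) % (m + 4) := congrArg Fin.val h7
  have hi' := i.isLt
  have hj' := j.isLt
  by_cases hlt : i.val < j.val
  · rw [if_pos (by omega)] at h2
    rw [if_neg (by omega)] at h5
    rw [Nat.mod_eq_of_lt (by omega : i.val + s1 < m + 4)] at h8
    by_cases h9 : j.val + s2 < m + 4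
    · rw [Nat.mod_eq_of_lt h9] at h8
      omega
    · rw [Nat.mod_eq_sub_mod (by omega : j.val + s2 ≥ m + 4),
        Nat.mod_eq_of_lt (by omega : j.val + s2 - (m + 4) < m + 4)] at h8
      omega
  · rw [if_neg (by omega)] at h2
    rw [if_pos (by omega)] at h5
    rw [Nat.mod_eq_of_lt (by omega : j.val + s2 < m + 4)] at h8
    by_cases h9 : i.val + s1 < m + 4
    · rw [Nat.mod_eq_of_lt h9] at h8
      omega
    · rw [Nat.mod_eq_sub_mod (by omega : i.val + s1 ≥ m + 4),
        Nat.mod_eq_of_lt (by omega : i.val + s1 - (m + 4) < m + 4)] at h8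
      omega

section
variable {V : Type} [Fintype V] [DecidableEq V]

/-- recolouring one side of a separation -/
theorem swap_equiv (G : SimpleGraph V) (A B : Finset V) (t x y : V)
    (hcov : ∀ c, c ∈ A ∨ c ∈ B) (hI : ∀ c, c ∈ A → c ∈ B → c = t)
    (hE : ∀ a, a ∈ A → a ∉ B → ∀ b, b ∈ B → b ∉ A → ¬ G.Adj a b)
    (hx : x ∈ A) (hy : y ∉ A) (htx : t ∈ A → t ∈ B → G.Adj t x ∧ G.Adj t y) (q : ℕ) :
    Nonempty ({p : (V → Fin q) × Fin q // (∀ u w, G.Adj u w → p.1 u ≠ p.1 w) ∧ p.1 x = p.1 y ∧
      (t ∈ A → t ∈ B → p.2 ≠ p.1 t)} ≃ Col G (Fin q)) := by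
  -- every edge lies on one side
  have hside : ∀ u w, G.Adj u w → (u ∈ A ∧ w ∈ A) ∨ (u ∉ A ∧ w ∉ A) ∨
      (u = t ∧ t ∈ A ∧ t ∈ B ∧ w ∉ A) ∨ (w = t ∧ t ∈ A ∧ t ∈ B ∧ u ∉ A) := by
    intro u w h
    by_cases hu : u ∈ A
    · by_cases hw : w ∈ A
      · exact Or.inl ⟨hu, hw⟩
      · have hwB : w ∈ B := (hcov w).resolve_left hw
        have huB : u ∈ B := by
          by_contra huB
          exact hE u hu huB w hwB hw h
        have := hI u hu huB
        subst this
        exact Or.inr (Or.inr (Or.inl ⟨rfl, hu, huB, hw⟩))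
    · by_cases hw : w ∈ A
      · have huB : u ∈ B := (hcov u).resolve_left hu
        have hwB : w ∈ B := by
          by_contra hwB
          exact hE w hw hwB u huB hu h.symm
        have := hI w hw hwB
        subst this
        exact Or.inr (Or.inr (Or.inr ⟨rfl, hw, hwB, hu⟩))
      · exact Or.inr (Or.inl ⟨hu, hw⟩)
  -- the recoloured function is proper
  have hprop : ∀ (c : V → Fin q), (∀ u w, G.Adj u w → c u ≠ c w) → ∀ a b : Fin q,
      (t ∈ A → t ∈ B → c t ≠ a ∧ c t ≠ b) → ∀ u w, G.Adj u w →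
      (if u ∈ A then c u else Equiv.swap a b (c u)) ≠
      (if w ∈ A then c w else Equiv.swap a b (c w)) := by
    intro c hc a b hab u w huw
    rcases hside u w huw with ⟨h1, h2⟩ | ⟨h1, h2⟩ | ⟨h0, h1, h2, h3⟩ | ⟨h0, h1, h2, h3⟩
    · rw [if_pos h1, if_pos h2]
      exact hc u w huw
    · rw [if_neg h1, if_neg h2]
      intro h
      exact hc u w huw ((Equiv.swap a b).injective h)
    · subst h0
      rw [if_pos h1, if_neg h3]
      intro h
      have h4 := hab h1 h2
      have h5 : Equiv.swap a b (c u) = c u := Equiv.swap_apply_of_ne_of_ne h4.1 h4.2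
      rw [← h5] at h
      exact hc u w huw ((Equiv.swap a b).injective h)
    · subst h0
      rw [if_neg h3, if_pos h1]
      intro h
      have h4 := hab h1 h2
      have h5 : Equiv.swap a b (c w) = c w := Equiv.swap_apply_of_ne_of_ne h4.1 h4.2
      rw [← h5] at h
      exact hc u w huw ((Equiv.swap a b).injective h)
  let F : (V → Fin q) → Fin q → Fin q → V → Fin q := fun c a b w =>
    if w ∈ A then c w else Equiv.swap a b (c w)
  have hF1 : ∀ c a b w, w ∈ A → F c a b w = c w := fun c a b w h => if_pos h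
  have hF2 : ∀ c a b w, w ∉ A → F c a b w = Equiv.swap a b (c w) := fun c a b w h => if_neg h
  have hFF : ∀ c a b, F (F c a b) a b = c := by
    intro c a b
    funext w
    by_cases h : w ∈ A
    · rw [hF1 _ _ _ _ h, hF1 _ _ _ _ h]
    · rw [hF2 _ _ _ _ h, hF2 _ _ _ _ h, Equiv.swap_apply_self]
  refine ⟨⟨fun p => ⟨F p.1.1 (p.1.1 y) p.1.2, ?_⟩,
    fun c => ⟨(F c.1 (c.1 x) (c.1 y), c.1 y), ?_, ?_, ?_⟩, ?_, ?_⟩⟩
  · exact hprop p.1.1 p.2.1 _ _ (fun h1 h2 =>
      ⟨p.2.1 t y (htx h1 h2).2, (p.2.2.2 h1 h2).symm⟩)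
  · exact hprop c.1 c.2 _ _ (fun h1 h2 => ⟨c.2 t x (htx h1 h2).1, c.2 t y (htx h1 h2).2⟩)
  · change F c.1 (c.1 x) (c.1 y) x = F c.1 (c.1 x) (c.1 y) y
    rw [hF1 _ _ _ _ hx, hF2 _ _ _ _ hy, Equiv.swap_apply_right]
  · intro h1 h2
    change c.1 y ≠ F c.1 (c.1 x) (c.1 y) t
    rw [hF1 _ _ _ _ h1]
    exact (c.2 t y (htx h1 h2).2).symm
  · rintro ⟨⟨c, a⟩, h1, h2, h3⟩
    apply Subtype.ext
    have e1 : F c (c y) a x = c y := by rw [hF1 _ _ _ _ hx]; exact h2
    have e2 : F c (c y) a y = a := by rw [hF2 _ _ _ _ hy, Equiv.swap_apply_left]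
    change (F (F c (c y) a) (F c (c y) a x) (F c (c y) a y), F c (c y) a y) = (c, a)
    rw [e1, e2, hFF]
  · intro c
    apply Subtype.ext
    have e2 : F c.1 (c.1 x) (c.1 y) y = c.1 x := by
      rw [hF2 _ _ _ _ hy, Equiv.swap_apply_right]
    change F (F c.1 (c.1 x) (c.1 y)) (F c.1 (c.1 x) (c.1 y) y) (c.1 y) = c.1
    rw [e2, hFF]

/-- colourings of `G` with `x, y` of different colours -/
theorem cnt_add (G : SimpleGraph V) (x y : V) (hxy : x ≠ y) (q : ℕ) :
    cnt G q = cnt (st G x {y}) q + Fintype.card {c : Col G (Fin q) // c.1 x = c.1 y} := by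
  classical
  have e2 : {c : Col G (Fin q) // ¬ c.1 x = c.1 y} ≃ Col (st G x {y}) (Fin q) :=
    { toFun := fun c => ⟨c.1.1, by
        rintro a b (h | ⟨rfl, h2, h3⟩ | ⟨rfl, h2, h3⟩)
        · exact c.1.2 a b h
        · rw [Finset.mem_singleton] at h2
          subst h2
          exact c.2
        · rw [Finset.mem_singleton] at h2
          subst h2
          exact fun h' => c.2 h'.symm⟩
      invFun := fun c => ⟨⟨c.1, fun a b h => c.2 a b (Or.inl h)⟩,
        c.2 x y (Or.inr (Or.inl ⟨rfl, Finset.mem_singleton_self y, hxy.symm⟩))⟩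
      left_inv := by intro c; rfl
      right_inv := by intro c; rfl }
  have h := Fintype.card_congr (Equiv.sumCompl (fun c : Col G (Fin q) => c.1 x = c.1 y))
  rw [Fintype.card_sum, Fintype.card_congr e2] at h
  unfold cnt
  omega

/-- joining two parts of a disconnected graph -/
theorem cnt_join (G : SimpleGraph V) (A B : Finset V) (x y : V)
    (hcov : ∀ c, c ∈ A ∨ c ∈ B) (hI : ∀ c, c ∈ A → c ∈ B → False)
    (hE : ∀ a, a ∈ A → ∀ b, b ∈ B → ¬ G.Adj a b)
    (hx : x ∈ A) (hy : y ∈ B) (q : ℕ) :
    (q : ℤ) * cnt (st G x {y}) q = (q - 1) * cnt G q := by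
  classical
  have hyA : y ∉ A := fun h => hI y h hy
  have hxy : x ≠ y := fun h => hyA (h ▸ hx)
  obtain ⟨e⟩ := swap_equiv G A B x x y hcov (fun c h h' => (hI c h h').elim)
    (fun a ha _ b hb _ => hE a ha b hb) hx hyA (fun _ h => (hI x hx h).elim) q
  have e' : {p : (V → Fin q) × Fin q // (∀ u w, G.Adj u w → p.1 u ≠ p.1 w) ∧ p.1 x = p.1 y ∧
      (x ∈ A → x ∈ B → p.2 ≠ p.1 x)} ≃ {c : Col G (Fin q) // c.1 x = c.1 y} × Fin q :=
    { toFun := fun p => (⟨⟨p.1.1, p.2.1⟩, p.2.2.1⟩, p.1.2)
      invFun := fun p => ⟨(p.1.1.1, p.2), p.1.1.2, p.1.2, fun _ h => (hI x hx h).elim⟩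
      left_inv := by intro p; rfl
      right_inv := by intro p; rfl }
  have h1 := Fintype.card_congr (e'.symm.trans e)
  rw [Fintype.card_prod, Fintype.card_fin] at h1
  have h2 := cnt_add G x y hxy q
  have h3 : Fintype.card (Col G (Fin q)) = cnt G q := rfl
  rw [h3] at h1
  have h1' : ((Fintype.card {c : Col G (Fin q) // c.1 x = c.1 y} : ℕ) : ℤ) * q = cnt G q := by
    exact_mod_cast h1
  have h2' : (cnt G q : ℤ) = cnt (st G x {y}) q +
      (Fintype.card {c : Col G (Fin q) // c.1 x = c.1 y} : ℕ) := by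
    exact_mod_cast h2
  linear_combination (-(q : ℤ)) * h2' - h1'

/-- adding an edge across a cut vertex -/
theorem cnt_cutv (G : SimpleGraph V) (A B : Finset V) (t x y : V)
    (hcov : ∀ c, c ∈ A ∨ c ∈ B) (hI : ∀ c, c ∈ A → c ∈ B → c = t)
    (hE : ∀ a, a ∈ A → a ∉ B → ∀ b, b ∈ B → b ∉ A → ¬ G.Adj a b)
    (hx : x ∈ A) (hy : y ∉ A) (htA : t ∈ A) (htB : t ∈ B) (htx : G.Adj t x) (hty : G.Adj t y)
    (q : ℕ) :
    ((q : ℤ) - 1) * cnt (st G x {y}) q = (q - 2) * cnt G q := by
  classical
  have hxy : x ≠ y := fun h => hy (h ▸ hx)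
  obtain ⟨e⟩ := swap_equiv G A B t x y hcov hI hE hx hy (fun _ _ => ⟨htx, hty⟩) q
  have e' : {p : (V → Fin q) × Fin q // (∀ u w, G.Adj u w → p.1 u ≠ p.1 w) ∧ p.1 x = p.1 y ∧
      (t ∈ A → t ∈ B → p.2 ≠ p.1 t)} ≃ Σ c : {c : Col G (Fin q) // c.1 x = c.1 y},
        {a : Fin q // a ≠ c.1.1 t} :=
    { toFun := fun p => ⟨⟨⟨p.1.1, p.2.1⟩, p.2.2.1⟩, ⟨p.1.2, p.2.2.2 htA htB⟩⟩
      invFun := fun p => ⟨(p.1.1.1, p.2.1), p.1.1.2, p.1.2, fun _ _ => p.2.2⟩
      left_inv := by intro p; rfl
      right_inv := by intro p; rfl }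
  have h1 := Fintype.card_congr (e'.symm.trans e)
  rw [Fintype.card_sigma] at h1
  have h2 := cnt_add G x y hxy q
  have h3 : Fintype.card (Col G (Fin q)) = cnt G q := rfl
  rw [h3] at h1
  have h4 : ∀ c : {c : Col G (Fin q) // c.1 x = c.1 y},
      Fintype.card {a : Fin q // a ≠ c.1.1 t} = q - 1 := by
    intro c
    rw [Fintype.card_subtype_compl, Fintype.card_fin]
    simp
  rw [Finset.sum_congr rfl (fun c _ => h4 c), Finset.sum_const, Finset.card_univ,
    smul_eq_mul] at h1
  have h2' : (cnt G q : ℤ) = cnt (st G x {y}) q +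
      (Fintype.card {c : Col G (Fin q) // c.1 x = c.1 y} : ℕ) := by
    exact_mod_cast h2
  rcases Nat.eq_zero_or_pos q with hq | hq
  · subst hq
    have h5 : cnt G 0 = 0 := by
      unfold cnt
      rw [Fintype.card_eq_zero_iff]
      exact ⟨fun c => (c.1 x).elim0⟩
    have h6 : cnt (st G x {y}) 0 = 0 := by omega
    rw [h5, h6]
    simp
  · have h1' : ((Fintype.card {c : Col G (Fin q) // c.1 x = c.1 y} : ℕ) : ℤ) * ((q : ℤ) - 1) =
        cnt G q := by
      rw [← h1]
      push_cast [Nat.cast_sub hq]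
      ring
    linear_combination (-((q : ℤ) - 1)) * h2' - h1'

theorem transfer (G : SimpleGraph V) (A B : Finset V) (t x y : V)
    (hcov : ∀ c, c ∈ A ∨ c ∈ B) (hI : ∀ c, c ∈ A → c ∈ B → c = t)
    (hE : ∀ a, a ∈ A → a ∉ B → ∀ b, b ∈ B → b ∉ A → ¬ G.Adj a b)
    (hxA : x ∈ A) (hxB : x ∉ B) (hyB : y ∈ B) (hyA : y ∉ A)
    (h : ¬ HasChordlessCycle (st G x {y})) : ¬ HasChordlessCycle G := by
  rintro ⟨n, hn, ⟨f⟩⟩
  obtain ⟨m, rfl⟩ := Nat.exists_eq_add_of_le' hn
  have hnot : ∀ i j, f i = x → f j = y → False := by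
    intro i j hi hj
    exact cycle_side G A B t hcov hI hE m f i j (by rw [hi]; exact ⟨hxA, hxB⟩)
      (by rw [hj]; exact ⟨hyB, hyA⟩)
  apply h
  refine ⟨m + 4, hn, ⟨⟨f.toEmbedding, ?_⟩⟩⟩
  intro a b
  constructor
  · rintro (h1 | ⟨h1, h2, h3⟩ | ⟨h1, h2, h3⟩)
    · exact f.map_rel_iff.1 h1
    · exact (hnot a b h1 (Finset.mem_singleton.1 h2)).elim
    · exact (hnot b a h1 (Finset.mem_singleton.1 h2)).elim
  · intro h1
    exact Or.inl (f.map_rel_iff.2 h1)

theorem cnt_cone (G : SimpleGraph V) (q : ℕ) :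
    cnt (ext G univ) (q + 1) = (q + 1) * cnt G q := by
  classical
  have e1 : Col (ext G univ) (Fin (q + 1)) ≃
      Σ x : Fin (q + 1), Col G {y : Fin (q + 1) // y ≠ x} :=
    { toFun := fun c => ⟨c.1 none, ⟨fun v => ⟨c.1 (some v), c.2 (some v) none (Finset.mem_univ v)⟩,
        fun u v h h' => c.2 (some u) (some v) h (congrArg Subtype.val h')⟩⟩
      invFun := fun p => ⟨fun o => o.elim p.1 (fun v => (p.2.1 v).1), by
        rintro (_ | u) (_ | v) h
        · exact h.elim
        · exact (p.2.1 v).2.symm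
        · exact (p.2.1 u).2
        · exact fun h' => p.2.2 u v h (Subtype.ext h')⟩
      left_inv := by
        intro c
        apply Subtype.ext
        funext o
        cases o <;> rfl
      right_inv := by intro p; rfl }
  have e2 : ∀ x : Fin (q + 1), Fintype.card (Col G {y : Fin (q + 1) // y ≠ x}) =
      Fintype.card (Col G (Fin q)) := by
    intro x
    have e : {y : Fin (q + 1) // y ≠ x} ≃ Fin q := (finSuccAboveEquiv x).symm
    apply Fintype.card_congr
    exact
      { toFun := fun c => ⟨fun v => e (c.1 v), fun u v h h' => c.2 u v h (e.injective h')⟩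
        invFun := fun c => ⟨fun v => e.symm (c.1 v),
          fun u v h h' => c.2 u v h (e.symm.injective h')⟩
        left_inv := by intro c; apply Subtype.ext; funext v; simp
        right_inv := by intro c; apply Subtype.ext; funext v; simp }
  unfold cnt
  rw [Fintype.card_congr e1, Fintype.card_sigma, Finset.sum_congr rfl (fun x _ => e2 x)]
  simp

theorem poly_cone (G : SimpleGraph V) :
    poly (ext G univ) = X * (poly G).comp (X - C 1) := by
  apply poly_ext_nat
  intro q
  rw [poly_eval, eval_mul, eval_X, eval_comp, eval_sub, eval_X, eval_C]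
  rcases q with _ | q
  · have : cnt (ext G univ) 0 = 0 := by
      unfold cnt
      rw [Fintype.card_eq_zero_iff]
      exact ⟨fun c => (c.1 none).elim0⟩
    rw [this]
    simp
  · rw [cnt_cone]
    have : ((q + 1 : ℕ) : ℤ) - 1 = (q : ℤ) := by push_cast; ring
    rw [this, poly_eval]
    push_cast
    ring

theorem nocut_cone (G : SimpleGraph V) (hN : NoCut univ G) :
    NoCut (univ : Finset (Option V)) (ext G univ) := by
  intro A B hU hI hA hB
  by_cases hnB : none ∈ B
  · by_cases hnA : none ∈ A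
    · have hI' : ∀ c, c ∈ A → c ∈ B → c = none := by
        intro c h1 h2
        exact Finset.card_le_one.1 hI c (Finset.mem_inter.2 ⟨h1, h2⟩) none
          (Finset.mem_inter.2 ⟨hnA, hnB⟩)
      obtain ⟨a, ha, b, hb, hab⟩ := hN (univ.filter (fun v => some v ∈ A))
        (univ.filter (fun v => some v ∈ B)) (by
          ext v
          simp only [Finset.mem_union, Finset.mem_filter, Finset.mem_univ, true_and, iff_true]
          have : some v ∈ A ∪ B := by rw [hU]; exact Finset.mem_univ _
          exact Finset.mem_union.1 this)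
        (by
          have : (univ.filter (fun v => some v ∈ A)) ∩ (univ.filter (fun v => some v ∈ B)) =
              (∅ : Finset V) := by
            rw [Finset.eq_empty_iff_forall_notMem]
            intro v hv
            simp only [Finset.mem_inter, Finset.mem_filter, Finset.mem_univ, true_and] at hv
            exact Option.some_ne_none v (hI' _ hv.1 hv.2)
          rw [this]
          simp)
        (by
          obtain ⟨c, hc⟩ := hA
          rw [Finset.mem_sdiff] at hc
          cases c with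
          | none => exact absurd hnB hc.2
          | some v => exact ⟨v, by simp [hc.1, hc.2]⟩)
        (by
          obtain ⟨c, hc⟩ := hB
          rw [Finset.mem_sdiff] at hc
          cases c with
          | none => exact absurd hnA hc.2
          | some v => exact ⟨v, by simp [hc.1, hc.2]⟩)
      simp only [Finset.mem_sdiff, Finset.mem_filter, Finset.mem_univ, true_and] at ha hb
      exact ⟨some a, Finset.mem_sdiff.2 ha, some b, Finset.mem_sdiff.2 hb, hab⟩
    · obtain ⟨a, ha⟩ := hA
      have ha' := Finset.mem_sdiff.1 ha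
      cases a with
      | none => exact absurd ha'.1 hnA
      | some v => exact ⟨some v, ha, none, Finset.mem_sdiff.2 ⟨hnB, hnA⟩, Finset.mem_univ v⟩
  · have hnA : none ∈ A := by
      have : (none : Option V) ∈ A ∪ B := by rw [hU]; exact Finset.mem_univ _
      exact (Finset.mem_union.1 this).resolve_right hnB
    obtain ⟨b, hb⟩ := hB
    have hb' := Finset.mem_sdiff.1 hb
    cases b with
    | none => exact absurd hb'.1 hnB
    | some v => exact ⟨none, Finset.mem_sdiff.2 ⟨hnA, hnB⟩, some v, hb, Finset.mem_univ v⟩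

theorem sup_of_nocut (G : SimpleGraph V) (hN : NoCut univ G) (h2 : 2 ≤ Fintype.card V) :
    Sup G univ := by
  intro v
  refine ⟨fun _ => ?_, fun _ => Finset.mem_univ v⟩
  obtain ⟨w, hw⟩ := Fintype.exists_ne_of_one_lt_card (by omega : 1 < Fintype.card V) v
  obtain ⟨a, ha, b, hb, hab⟩ := hN {v} (univ.erase v) (by
      ext c
      simp only [Finset.mem_union, Finset.mem_singleton, Finset.mem_erase, Finset.mem_univ,
        and_true, iff_true]
      exact em _)
    (by
      have : ({v} : Finset V) ∩ univ.erase v = ∅ := by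
        rw [Finset.eq_empty_iff_forall_notMem]
        intro c hc
        simp only [Finset.mem_inter, Finset.mem_singleton, Finset.mem_erase, Finset.mem_univ,
          and_true] at hc
        exact hc.2 hc.1
      rw [this]
      simp)
    ⟨v, by simp⟩ ⟨w, by simp [hw]⟩
  have ha' := (Finset.mem_sdiff.1 ha).1
  rw [Finset.mem_singleton] at ha'
  subst ha'
  exact ⟨b, hab⟩

theorem D_zero (G : SimpleGraph V) (R : ℤ[X]) (h : poly G = (X - C 1) ^ 2 * R) : D G = 0 := by
  unfold D
  rw [h, derivative_mul, derivative_pow]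
  simp

omit [DecidableEq V] in
theorem e2_le (G : SimpleGraph V) : e2 G ≤ Fintype.card V * Fintype.card V := by
  unfold e2
  calc ∑ v, deg G v ≤ ∑ _v : V, Fintype.card V := Finset.sum_le_sum (fun v _ => by
        rw [deg_eq]; exact Finset.card_le_univ _)
    _ = Fintype.card V * Fintype.card V := by simp

theorem bet_core (G : SimpleGraph V) (a2 a3 : ℕ)
    (hp : poly G = X ^ 1 * (X - C 1) ^ 1 * (X - C 2) ^ a2 * (X - C 3) ^ a3) :
    bet univ G = 2 ^ a3 := by
  have hdeg := (poly_spec G).2.2.1
  rw [hp, natDegree_prod4] at hdeg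
  unfold bet D
  rw [Finset.card_univ, ← hdeg, hp, pow_one, pow_one]
  rw [derivative_mul, derivative_mul, derivative_mul]
  simp only [eval_add, eval_mul, eval_sub, eval_pow, eval_X, eval_C, derivative_X,
    derivative_sub, derivative_C, sub_self, mul_zero, zero_mul, sub_zero, one_mul,
    mul_one, add_zero, zero_add]
  have e1 : (-1 : ℤ) ^ (1 + 1 + a2 + a3) = (-1) ^ a2 * (-1) ^ a3 := by
    rw [pow_add, pow_add]
    norm_num
  rw [e1]
  have e3 : (1 - 2 : ℤ) = -1 := by norm_num
  have e4 : (1 - 3 : ℤ) = -1 * 2 := by norm_num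
  rw [e3, e4, mul_pow]
  have e5 : (-1 : ℤ) ^ a2 * (-1) ^ a2 = 1 := by
    rw [← mul_pow]; norm_num
  have e6 : (-1 : ℤ) ^ a3 * (-1) ^ a3 = 1 := by
    rw [← mul_pow]; norm_num
  calc (-1 : ℤ) ^ a2 * (-1) ^ a3 * ((-1) ^ a2 * ((-1) ^ a3 * 2 ^ a3)) =
      ((-1 : ℤ) ^ a2 * (-1) ^ a2) * ((-1) ^ a3 * (-1) ^ a3) * 2 ^ a3 := by ring
    _ = 2 ^ a3 := by rw [e5, e6]; ring

theorem core (G : SimpleGraph V) (hS : Sup G univ) (a2 a3 : ℕ) (h3 : a3 ≤ 2)
    (hp : poly G = X ^ 1 * (X - C 1) ^ 1 * (X - C 2) ^ a2 * (X - C 3) ^ a3) :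
    ¬ HasChordlessCycle G := by
  have hdeg := (poly_spec G).2.2.1
  have hco := (poly_spec G).2.2.2
  have hdeg' := hdeg
  rw [hp, natDegree_prod4] at hdeg
  have hc : 1 ≤ Fintype.card V := by omega
  have hnc : (poly G).nextCoeff = (poly G).coeff (Fintype.card V - 1) := by
    rw [nextCoeff_of_natDegree_pos (by omega), hdeg']
  have h2 := hco hc
  rw [← hnc, hp, nextCoeff_prod4] at h2
  apply chordal_ex (Fintype.card V) a3 univ G h3 (Finset.card_univ)
  refine ⟨hS, bet_core G a2 a3 hp, ?_⟩
  rw [Finset.card_univ]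
  push_cast at h2
  omega

theorem chordal_card (G : SimpleGraph V) (h : Fintype.card V ≤ 3) : ¬ HasChordlessCycle G := by
  rintro ⟨n, hn, ⟨f⟩⟩
  have := Fintype.card_le_of_injective f f.injective
  rw [Fintype.card_fin] at this
  omega

/-- nonseparable graphs -/
theorem main_nocut (G : SimpleGraph V) (hN : NoCut univ G) (h4 : 4 ≤ Fintype.card V)
    (a0 a1 a2 a3 : ℕ) (h3 : a3 ≤ 2)
    (hp : poly G = X ^ a0 * (X - C 1) ^ a1 * (X - C 2) ^ a2 * (X - C 3) ^ a3) :
    ¬ HasChordlessCycle G := by
  have hS := sup_of_nocut G hN (by omega)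
  have hb := nocut_bet (Fintype.card V) univ G Finset.card_univ (by omega) hS hN
  have hne : Nonempty V := Fintype.card_pos_iff.1 (by omega)
  obtain ⟨v0⟩ := hne
  obtain ⟨w0, hw0⟩ := (hS v0).1 (Finset.mem_univ v0)
  have h1 : a1 = 1 := by
    rcases a1 with _ | _ | a1
    · exfalso
      have := XuRThreeLeTwo.eval_one G v0 w0 hw0
      rw [hp] at this
      simp at this
    · rfl
    · exfalso
      have : D G = 0 := by
        apply D_zero G (X ^ a0 * (X - C 1) ^ a1 * (X - C 2) ^ a2 * (X - C 3) ^ a3)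
        rw [hp]
        ring
      unfold bet at hb
      rw [this, mul_zero] at hb
      omega
  have h0 : a0 = 1 := by
    rcases a0 with _ | _ | a0
    · exfalso
      have h5 := poly_eval G 0
      have h6 : cnt G 0 = 0 := by
        unfold cnt
        rw [Fintype.card_eq_zero_iff]
        exact ⟨fun c => (c.1 v0).elim0⟩
      rw [h6, hp] at h5
      subst h1
      simp at h5
    · rfl
    · exfalso
      have hNc := nocut_cone G hN
      have hcc : 2 ≤ Fintype.card (Option V) := by rw [Fintype.card_option]; omega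
      have hSc := sup_of_nocut _ hNc hcc
      have hbc := nocut_bet (Fintype.card (Option V)) univ _ Finset.card_univ hcc hSc hNc
      have : D (ext G univ) = 0 := by
        apply D_zero _ (X * ((X - C 1) ^ a0 * ((X - C 1) - C 1) ^ a1 * ((X - C 1) - C 2) ^ a2 *
          ((X - C 1) - C 3) ^ a3))
        rw [poly_cone, hp]
        simp only [mul_comp, pow_comp, sub_comp, X_comp, C_comp]
        ring
      unfold bet at hbc
      rw [this, mul_zero] at hbc
      omega
  subst h0 h1
  exact core G hS a2 a3 h3 hp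

theorem main_ind (N : ℕ) : ∀ (G : SimpleGraph V) (a0 a1 a2 a3 : ℕ),
    Fintype.card V * Fintype.card V - e2 G = N → a3 ≤ 2 →
    poly G = X ^ a0 * (X - C 1) ^ a1 * (X - C 2) ^ a2 * (X - C 3) ^ a3 →
    ¬ HasChordlessCycle G := by
  induction N using Nat.strong_induction_on with
  | _ N ih =>
    intro G a0 a1 a2 a3 hNe h3 hp
    by_cases hc4 : Fintype.card V ≤ 3
    · exact chordal_card G hc4
    by_cases hN : NoCut univ G
    · exact main_nocut G hN (by omega) a0 a1 a2 a3 h3 hp
    -- joining two disjoint parts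
    have hjoin : ∀ A B : Finset V, (∀ c, c ∈ A ∨ c ∈ B) → (∀ c, c ∈ A → c ∈ B → False) →
        (∀ a, a ∈ A → ∀ b, b ∈ B → ¬ G.Adj a b) → A.Nonempty → B.Nonempty →
        ¬ HasChordlessCycle G := by
      intro A B hcov hI hE hA hB
      obtain ⟨x, hx⟩ := hA
      obtain ⟨y, hy⟩ := hB
      have hyA : y ∉ A := fun h => hI y h hy
      have hxB : x ∉ B := fun h => hI x hx h
      have hxy : x ≠ y := fun h => hyA (h ▸ hx)
      have he := e2_one G x y hxy (hE x hx y hy)
      have hle := e2_le (st G x {y})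
      have hrel : X * poly (st G x {y}) = (X - C 1) * poly G := by
        apply poly_ext_nat
        intro q
        rw [eval_mul, eval_mul, eval_X, eval_sub, eval_X, eval_C, poly_eval, poly_eval]
        exact cnt_join G A B x y hcov hI hE hx hy q
      rcases a0 with _ | a0
      · exfalso
        have h5 := congrArg (eval 0) hrel
        rw [hp] at h5
        simp at h5
      · have hp' : poly (st G x {y}) =
            X ^ a0 * (X - C 1) ^ (a1 + 1) * (X - C 2) ^ a2 * (X - C 3) ^ a3 := by
          apply mul_left_cancel₀ (X_ne_zero (R := ℤ))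
          rw [hrel, hp]
          ring
        have := ih (Fintype.card V * Fintype.card V - e2 (st G x {y})) (by omega) _ _ _ _ _ rfl h3 hp'
        exact transfer G A B x x y hcov (fun c h h' => (hI c h h').elim)
          (fun a ha _ b hb _ => hE a ha b hb) hx hxB hy hyA this
    unfold NoCut at hN
    push Not at hN
    obtain ⟨A, B, hU, hI, hA, hB, hE⟩ := hN
    have hcov : ∀ c, c ∈ A ∨ c ∈ B := by
      intro c
      have : c ∈ A ∪ B := by rw [hU]; exact Finset.mem_univ c
      exact Finset.mem_union.1 this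
    by_cases hI0 : A ∩ B = ∅
    · apply hjoin A B hcov
      · intro c h1 h2
        have : c ∈ A ∩ B := Finset.mem_inter.2 ⟨h1, h2⟩
        rw [hI0] at this
        exact absurd this (Finset.notMem_empty c)
      · intro a ha b hb
        have haB : a ∉ B := fun h => by
          have : a ∈ A ∩ B := Finset.mem_inter.2 ⟨ha, h⟩
          rw [hI0] at this
          exact absurd this (Finset.notMem_empty a)
        have hbA : b ∉ A := fun h => by
          have : b ∈ A ∩ B := Finset.mem_inter.2 ⟨h, hb⟩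
          rw [hI0] at this
          exact absurd this (Finset.notMem_empty b)
        exact hE a (Finset.mem_sdiff.2 ⟨ha, haB⟩) b (Finset.mem_sdiff.2 ⟨hb, hbA⟩)
      · obtain ⟨c, hc⟩ := hA
        exact ⟨c, (Finset.mem_sdiff.1 hc).1⟩
      · obtain ⟨c, hc⟩ := hB
        exact ⟨c, (Finset.mem_sdiff.1 hc).1⟩
    · obtain ⟨t, ht⟩ := Finset.nonempty_iff_ne_empty.2 hI0
      obtain ⟨htA, htB⟩ := Finset.mem_inter.1 ht
      have hI' : ∀ c, c ∈ A → c ∈ B → c = t := by
        intro c h1 h2
        exact Finset.card_le_one.1 hI c (Finset.mem_inter.2 ⟨h1, h2⟩) t ht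
      have hE' : ∀ a, a ∈ A → a ∉ B → ∀ b, b ∈ B → b ∉ A → ¬ G.Adj a b :=
        fun a ha haB b hb hbA => hE a (Finset.mem_sdiff.2 ⟨ha, haB⟩) b
          (Finset.mem_sdiff.2 ⟨hb, hbA⟩)
      by_cases hx : ∃ x, x ∈ A ∧ x ∉ B ∧ G.Adj t x
      · by_cases hy : ∃ y, y ∈ B ∧ y ∉ A ∧ G.Adj t y
        · obtain ⟨x, hxA, hxB, htx⟩ := hx
          obtain ⟨y, hyB, hyA, hty⟩ := hy
          have hxy : x ≠ y := fun h => hyA (h ▸ hxA)
          have he := e2_one G x y hxy (hE' x hxA hxB y hyB hyA)
          have hle := e2_le (st G x {y})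
          have hrel : (X - C 1) * poly (st G x {y}) = (X - C 2) * poly G := by
            apply poly_ext_nat
            intro q
            rw [eval_mul, eval_mul, eval_sub, eval_sub, eval_X, eval_C, eval_C, poly_eval,
              poly_eval]
            exact cnt_cutv G A B t x y hcov hI' hE' hxA hyA htA htB htx hty q
          rcases a1 with _ | a1
          · exfalso
            have h5 := XuRThreeLeTwo.eval_one G t x htx
            rw [hp] at h5
            simp at h5
          · have hp' : poly (st G x {y}) =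
                X ^ a0 * (X - C 1) ^ a1 * (X - C 2) ^ (a2 + 1) * (X - C 3) ^ a3 := by
              apply mul_left_cancel₀ (X_sub_C_ne_zero (1 : ℤ))
              rw [hrel, hp]
              ring
            have := ih (Fintype.card V * Fintype.card V - e2 (st G x {y})) (by omega) _ _ _ _ _
              rfl h3 hp'
            exact transfer G A B t x y hcov hI' hE' hxA hxB hyB hyA this
        · push Not at hy
          apply hjoin A (B.erase t)
          · intro c
            by_cases hct : c = t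
            · subst hct; exact Or.inl htA
            · rcases hcov c with h | h
              · exact Or.inl h
              · exact Or.inr (Finset.mem_erase.2 ⟨hct, h⟩)
          · intro c h1 h2
            exact (Finset.mem_erase.1 h2).1 (hI' c h1 (Finset.mem_erase.1 h2).2)
          · intro a ha b hb hab
            obtain ⟨hbt, hbB⟩ := Finset.mem_erase.1 hb
            have hbA : b ∉ A := fun h => hbt (hI' b h hbB)
            by_cases haB : a ∈ B
            · have := hI' a ha haB
              subst this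
              exact hy b hbB hbA hab
            · exact hE' a ha haB b hbB hbA hab
          · exact ⟨t, htA⟩
          · obtain ⟨c, hc⟩ := hB
            rw [Finset.mem_sdiff] at hc
            exact ⟨c, Finset.mem_erase.2 ⟨fun h => hc.2 (h ▸ htA), hc.1⟩⟩
      · push Not at hx
        apply hjoin (A.erase t) B
        · intro c
          by_cases hct : c = t
          · subst hct; exact Or.inr htB
          · rcases hcov c with h | h
            · exact Or.inl (Finset.mem_erase.2 ⟨hct, h⟩)
            · exact Or.inr h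
        · intro c h1 h2
          exact (Finset.mem_erase.1 h1).1 (hI' c (Finset.mem_erase.1 h1).2 h2)
        · intro a ha b hb hab
          obtain ⟨hat, haA⟩ := Finset.mem_erase.1 ha
          have haB : a ∉ B := fun h => hat (hI' a haA h)
          by_cases hbA : b ∈ A
          · have := hI' b hbA hb
            subst this
            exact hx a haA haB hab.symm
          · exact hE' a haA haB b hb hbA hab
        · obtain ⟨c, hc⟩ := hA
          rw [Finset.mem_sdiff] at hc
          exact ⟨c, Finset.mem_erase.2 ⟨fun h => hc.2 (h ▸ htB), hc.1⟩⟩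
        · exact ⟨t, htB⟩

end

/-- **Main result.** For `k = 3` and `r 3 ≤ 2`, every graph in `I(r 0, r 1, r 2, r 3)` is
chordal. -/
theorem result (r : ℕ → ℕ) (h3 : r 3 ≤ 2) {V : Type} [Fintype V] (G : SimpleGraph V)
    (hG : InFamily G 3 r) : ¬ HasChordlessCycle G := by
  classical
  exact main_ind _ G (r 0) (r 1) (r 2) (r 3) rfl h3 (poly_eq G r hG)

end Pool.Agent.Results.MP_144d21_co.XuRThreeLeTwo
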